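import Pool.Agent.URR.Defs

set_option autoImplicit false

namespace Pool.Agent.URR

open Pool.Agent.TBR

universe u

variable {k M : Type u} [Field k] [Field M] [Algebra k M]

/--
Normalization of a cocycle. PROOF. `u = c 1 1`, `c' σ τ = c σ τ * (σ • u)⁻¹`. The cocycle relation with
`(1, 1, τ)`: `c 1 1 * c 1 τ = c 1 τ * c 1 τ`, so `c 1 τ = u`; with `(σ, 1, 1)`: `c σ 1 * c σ 1 = σ • c 1 1 * c σ 1`,
so `c σ 1 = σ • u`, for `σ, τ ∈ G`. So `c' 1 τ = 1 = c' σ 1`. `c' = c ∂(const u)`: `c' σ τ * (c σ τ)⁻¹ =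
(σ • u)⁻¹`, and with `b = const u⁻¹`: `(σ • u)⁻¹ * b (σ τ) = b σ * σ • b τ`. So the last claim; the coboundary is
a cocycle (`Cob.coc`), `Coc.mul`. Lc2: `σ • u` depends only on `σ u`.
-/
theorem exists_normalized (G : Subgroup (M ≃ₐ[k] M)) (c : (M ≃ₐ[k] M) → (M ≃ₐ[k] M) → Mˣ)
    (hlc : Lc2 Set.univ c) (hcoc : Coc G c) :
    ∃ c' : (M ≃ₐ[k] M) → (M ≃ₐ[k] M) → Mˣ, Lc2 Set.univ c' ∧ Coc G c' ∧
      (∀ g ∈ G, c' 1 g = 1 ∧ c' g 1 = 1) ∧ Tri G (fun σ τ => c' σ τ * (c σ τ)⁻¹) := by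
  set u : Mˣ := c 1 1 with hu
  have hcob : Cob G (fun σ _ : M ≃ₐ[k] M => (σ • u)⁻¹) (fun _ : M ≃ₐ[k] M => u⁻¹) := by
    intro σ _ τ _
    show (σ • u)⁻¹ * u⁻¹ = u⁻¹ * σ • u⁻¹
    rw [smul_inv', mul_comm]
  have hlcd : Lc2 Set.univ (fun σ _ : M ≃ₐ[k] M => (σ • u)⁻¹) := by
    refine ⟨{(u : M)}, Set.subset_univ _, fun σ σ' τ τ' h _ => ?_⟩
    have h1 : σ (u : M) = σ' (u : M) := h _ (by simp)
    have h2 : σ • u = σ' • u := Units.ext h1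
    show (σ • u)⁻¹ = (σ' • u)⁻¹
    rw [h2]
  refine ⟨fun σ τ => c σ τ * (σ • u)⁻¹, hlc.mul hlcd, hcoc.mul hcob.coc, fun g hg => ⟨?_, ?_⟩,
    ⟨_, Lc1.const Set.univ u⁻¹, ?_⟩⟩
  · show c 1 g * ((1 : M ≃ₐ[k] M) • u)⁻¹ = 1
    rw [hcoc.one_left hg, one_smul, ← hu, mul_inv_cancel]
  · show c g 1 * (g • u)⁻¹ = 1
    rw [hcoc.one_right hg, ← hu, mul_inv_cancel]
  · refine hcob.congr fun σ _ τ _ => ?_
    show (σ • u)⁻¹ = c σ τ * (σ • u)⁻¹ * (c σ τ)⁻¹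
    rw [mul_comm (c σ τ) _, mul_inv_cancel_right]

end Pool.Agent.URR
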