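import Pool.Agent.URR.Defs

set_option autoImplicit false

namespace Pool.Agent.URR

open Pool.Agent.TBR

universe u

variable {k M : Type u} [Field k] [Field M] [Algebra k M]

/--
PROOF. hc gives `b`, `Lc1 univ b`, `Cob G c b`. Put `b' s = ψ • b (ψ⁻¹ * s * ψ)`. For `s, t ∈ G'` the elements
`ψ⁻¹ s ψ`, `ψ⁻¹ t ψ` are in `G`; apply `ψ` to the relation
`c (s') (t') * b (s' t') = b s' * s' • b t'`, `ψ (s' x) = s (ψ x)`. `b'` depends only on the restriction of `s` to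
`ψ(S_b)`. (Compare `tri_conj` in TBM/Br.lean.)
-/
theorem tri_tw (G G' : Subgroup (M ≃ₐ[k] M)) (ψ : M ≃ₐ[k] M)
    (hG : ∀ s ∈ G', ψ⁻¹ * s * ψ ∈ G) (c : (M ≃ₐ[k] M) → (M ≃ₐ[k] M) → Mˣ) (hc : Tri G c) :
    Tri G' (fun s t => ψ • c (ψ⁻¹ * s * ψ) (ψ⁻¹ * t * ψ)) := by
  obtain ⟨b, hb, h1⟩ := hc
  refine ⟨fun σ => ψ • b (ψ⁻¹ * σ * ψ), (hb.conj ψ (fun x _ => Set.mem_univ _)).smul ψ, ?_⟩
  intro σ hσ τ hτ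
  show ψ • c (ψ⁻¹ * σ * ψ) (ψ⁻¹ * τ * ψ) * ψ • b (ψ⁻¹ * (σ * τ) * ψ) =
    ψ • b (ψ⁻¹ * σ * ψ) * σ • ψ • b (ψ⁻¹ * τ * ψ)
  have e1 : ψ⁻¹ * (σ * τ) * ψ = (ψ⁻¹ * σ * ψ) * (ψ⁻¹ * τ * ψ) := by group
  have e2 : σ • ψ • b (ψ⁻¹ * τ * ψ) = ψ • (ψ⁻¹ * σ * ψ) • b (ψ⁻¹ * τ * ψ) := by
    rw [← mul_smul, ← mul_smul]
    congr 1
    group
  rw [e1, e2, ← smul_mul', ← smul_mul', h1 _ (hG σ hσ) _ (hG τ hτ)]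

end Pool.Agent.URR
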