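import Pool.Agent.URR.ONE1

/-!
# The reciprocity relation for one embedding and one function
-/

set_option autoImplicit false

namespace Pool.Agent.URR

open Pool.Agent.TBR

universe u

variable {k Ω : Type u} [Field k] [Field Ω] [Algebra k Ω] [IsAlgClosed Ω]
variable {A : IntermediateField k Ω} [IsAlgClosed A] {N : Subgroup (Ω ≃ₐ[k] Ω)} {B₀ : Set Ω}

omit [IsAlgClosed Ω] [IsAlgClosed A] in
theorem ag_tri (a C : (Ω ≃ₐ[k] Ω) → (Ω ≃ₐ[k] Ω) → Ωˣ) (p r₀ r : ℕ)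
    (g : (Ω ≃ₐ[k] Ω) → Ωˣ) (hg : Lc1 (A : Set Ω) g)
    (h : Tri N (fun σ τ => a σ τ * (C σ τ ^ p ^ r₀)⁻¹)) :
    Tri N (fun σ τ => ag a (p ^ r) g σ τ * (C σ τ ^ p ^ (r₀ + r))⁻¹) := by
  have h1 : Tri N (fun σ τ => g (σ * τ) * (g σ * σ • g τ)⁻¹) := by
    refine ⟨fun σ => (g σ)⁻¹, (hg.mono (Set.subset_univ _)).inv, fun σ _ τ _ => ?_⟩
    rw [smul_inv', mul_right_comm, mul_inv_cancel, one_mul, mul_inv]
  refine ((h.pow (p ^ r)).mul h1).congr fun σ _ τ _ => ?_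
  unfold ag
  rw [pow_add, pow_mul, mul_pow, inv_pow]
  apply Additive.ofMul.injective
  simp only [ofMul_mul, ofMul_inv, ofMul_pow]
  abel

open Classical in
/--
The reciprocity relation for one embedding `ξ` and one function `h`.
-/
theorem one (hS : Sit A N B₀) (p : ℕ) [ExpChar Ω p] (K : IntermediateField k A)
    (hK : ∀ x : A, IsAlgebraic K x) (ξ : A →ₐ[k] Ω)
    (hN : ∀ σ ∈ N, (∀ x ∈ K, σ (ξ x) = ξ x) ∧ ∀ x : Ω, IsAlgebraic k x → σ x = x)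
    (h : Ω) (hE : h ∈ AA A B₀) (h0 : h ≠ 0) (hNh : ∀ σ ∈ N, σ h = h)
    (n : ℕ) (W : Fin n → ValuationSubring Ω) (π : Fin n → Ω) (e : Fin n → ℤ)
    (hW : ∀ j, Pl A (W j)) (hπ : ∀ j, Unif (AA A B₀) (W j) (π j))
    (hW2 : ∀ i j, Same (AA A B₀) (W i) (W j) → i = j)
    (hW3 : ∀ V, Pl A V → V.valuation h ≠ 1 → ∃ j, Same (AA A B₀) V (W j))
    (he : ∀ j, (W j).valuation h = (W j).valuation (π j) ^ e j)
    (hst : ∀ σ ∈ N, ∀ j, ∀ x ∈ AA A B₀, σ x ∈ W j ↔ x ∈ W j)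
    (c : (A ≃ₐ[k] A) → (A ≃ₐ[k] A) → Aˣ) (hlc : Lc2 Set.univ c)
    (hcoc : Coc (Ge k (K : Set A)) c) (hone : ∀ g ∈ Ge k (K : Set A), c 1 g = 1 ∧ c g 1 = 1)
    (hunr : ∀ V : ValuationSubring A, (∀ x : k, algebraMap k A x ∈ V) → V ≠ ⊤ →
      Tri (Ge k (K : Set A) ⊓ St k V) c)
    (ψ : Fin n → (A ≃ₐ[k] A))
    (hψ : ∀ j, (∀ x, ξ x ∈ W j) → ∀ x : A, (W j).valuation (ξ x - ψ j x) < 1) :
    ∃ (s : ℕ) (b : (Ω ≃ₐ[k] Ω) → Ωˣ), Lc1 (A : Set Ω) b ∧ (∀ σ, (b σ : Ω) ∈ A) ∧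
      ∀ σ ∈ N, ∀ τ ∈ N, ∀ g g' : A ≃ₐ[k] A, (∀ x : A, σ x = g x) → (∀ x : A, τ x = g' x) →
        Units.map (A.val : A →* Ω) (∏ j, if (∀ x, ξ x ∈ W j) ∧ (W j).valuation h ≠ 1 then
          (ψ j • c ((ψ j)⁻¹ * g * ψ j) ((ψ j)⁻¹ * g' * ψ j)) ^ (e j * (p : ℤ) ^ s) else 1) *
            b (σ * τ) = b σ * σ • b τ := by
  by_cases hhA : h ∈ A
  · refine ⟨0, fun _ => 1, Lc1.const _ _, fun _ => A.one_mem, fun σ _ τ _ g g' _ _ => ?_⟩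
    rw [Finset.prod_eq_one (fun j _ => if_neg fun h' => h'.2 (val_of_mem (hW j).1 h hhA h0)),
      map_one, mul_one, one_mul, smul_one]
  -- separable root
  obtain ⟨m₀, h₀, h₀E, h₀A, hh, hsep⟩ := exists_sep A hS.trd p B₀
    (fun V hV => exists_unif A hS.trd B₀ hS.fin hS.gen V hV) h hE hhA
  have h₀0 : h₀ ≠ 0 := fun h' => h₀A (by rw [h']; exact A.zero_mem)
  have hNh₀ : ∀ σ ∈ N, σ h₀ = h₀ := by
    intro σ hσ
    have h1 := hNh σ hσ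
    rw [← hh, map_pow] at h1
    exact iterateFrobenius_inj Ω p m₀ h1
  have hpm : p ^ m₀ ≠ 0 := pow_ne_zero _ (expChar_pos Ω p).ne'
  have hval : ∀ V : ValuationSubring Ω, V.valuation h = 1 ↔ V.valuation h₀ = 1 := by
    intro V
    rw [← hh, map_pow]
    exact pow_eq_one_iff_of_nonneg zero_le hpm
  have he₀ : ∀ j, ∃ m : ℤ, (W j).valuation h₀ = (W j).valuation (π j) ^ m := fun j =>
    (hπ j).gen h₀ h₀E h₀0
  choose e₀ he₀ using he₀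
  have hee : ∀ j, e j = e₀ j * (p : ℤ) ^ m₀ := by
    intro j
    have h1 := he j
    rw [← hh, map_pow, he₀ j] at h1
    have h2 : (W j).valuation (π j) ^ (e₀ j * (p : ℤ) ^ m₀) = (W j).valuation (π j) ^ e j := by
      rw [← h1, zpow_mul, ← Nat.cast_pow, zpow_natCast]
    exact (zpow_right_injective₀ (zero_lt_iff.2 ((Valuation.ne_zero_iff _).2 (hπ j).ne))
      (hπ j).lt.ne h2).symm
  -- the inverse image
  obtain ⟨C, ρ, hC1, hC2, hC3, hρ, hC⟩ := exists_C' A K hK ξ N hN c hlc hcoc hunr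
  have hu : ∀ V : ValuationSubring Ω, (∀ x, ξ x ∈ V) → ∀ u : Aˣ,
      Units.map (ξ : A →* Ω) u ∈ V.unitGroup := by
    intro V hξ u
    rw [ValuationSubring.mem_unitGroup_iff, val_eq_iff]
    refine ⟨hξ u, fun h => ?_⟩
    rw [val_lt_iff] at h
    rcases h with h | h
    · exact (Units.map (ξ : A →* Ω) u).ne_zero h
    · apply h
      have h1 : ((Units.map (ξ : A →* Ω) u : Ωˣ) : Ω)⁻¹ = ξ ((u⁻¹ : Aˣ) : A) := by
        rw [Units.val_inv_eq_inv_val, map_inv₀]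
        rfl
      rw [h1]
      exact hξ _
  have hunrC : ∀ V : ValuationSubring Ω, Pl A V → ∃ e, LocE A N C V e := by
    intro V hV
    by_cases hξ : ∀ x, ξ x ∈ V
    · refine ⟨C, ?_, ?_, ?_⟩
      · intro σ hσ τ hτ
        rw [hC σ hσ.1 τ hτ.1]
        exact hu V hξ _
      · intro σ hσ s hs
        have h1 : ρ s = 1 := iner_triv hS.trd ξ V hV hξ s hs.1.2 hs.2 _ (hρ s hs.1.1).2
        rw [hC σ hσ.1 s hs.1.1, hC s hs.1.1 σ hσ.1, h1, (hone _ (hρ σ hσ.1).1).1,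
          (hone _ (hρ σ hσ.1).1).2, map_one]
        exact ⟨rfl, rfl⟩
      · refine ⟨fun _ => 1, Lc1.const _ _, fun σ _ τ _ => ?_⟩
        show C σ τ * (C σ τ)⁻¹ * 1 = 1 * σ • (1 : Ωˣ)
        rw [mul_inv_cancel, smul_one]
    · refine ⟨fun _ _ => 1, fun _ _ _ _ => V.unitGroup.one_mem, fun _ _ _ _ => ⟨rfl, rfl⟩, ?_⟩
      refine (hC3 V hV hξ).congr fun σ _ τ _ => ?_
      rw [inv_one, mul_one]
  obtain ⟨r₀, a, ha, htri⟩ := exists_cocE hS p C hC1 hC2 hunrC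
  obtain ⟨r, g, χ, hg, hg1, hgE, hgu, hχ, hχA, hrel⟩ := core2 hS p a ha h₀ h₀E h₀A hNh₀ hsep n W π e₀
    hW hπ hW2 (fun V hV hlt => hW3 V hV (fun h' => hlt ((hval V).1 h'))) he₀ hst
  have hXC := ag_tri (A := A) a C p r₀ r g hg htri
  have hXlo : Lo2 N (A : Set Ω) (ag a (p ^ r) g) := ag_lo hS ha.lc (p ^ r) hg hgE
  have hX1 : ∀ σ ∈ N, ag a (p ^ r) g 1 σ = 1 ∧ ag a (p ^ r) g σ 1 = 1 := by
    intro σ _
    unfold ag
    rw [(ha.one σ).1, (ha.one σ).2, hg1, one_pow, one_mul, one_mul, mul_one, one_smul, smul_one,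
      one_mul, mul_one, mul_inv_cancel]
    exact ⟨rfl, rfl⟩
  -- the places
  have hloc : ∀ j, ∃ (Y : (Ω ≃ₐ[k] Ω) → (Ω ≃ₐ[k] Ω) → Ωˣ) (b : (Ω ≃ₐ[k] Ω) → Ωˣ),
      (∀ σ τ, (Y σ τ : Ω) ∈ A) ∧
      ((W j).valuation h₀ ≠ 1 →
        ∀ σ ∈ N, ∀ τ ∈ N, (W j).valuation ((ag a (p ^ r) g σ τ : Ω) - Y σ τ) < 1) ∧
      Lc1 (A : Set Ω) b ∧ (∀ σ, (b σ : Ω) ∈ A) ∧
      ∀ σ ∈ N, ∀ τ ∈ N, ∀ f : Ωˣ,
        ((∀ x, ξ x ∈ W j) ∧ (W j).valuation h₀ ≠ 1 → f = fJ A c (ψ j) σ τ ^ p ^ (r₀ + r)) →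
        (¬ ((∀ x, ξ x ∈ W j) ∧ (W j).valuation h₀ ≠ 1) → f = 1) →
          Y σ τ * f⁻¹ * b (σ * τ) = b σ * σ • b τ := by
    intro j
    by_cases hj : (W j).valuation h₀ = 1
    · refine ⟨fun _ _ => 1, fun _ => 1, fun _ _ => A.one_mem, fun h' => absurd hj h',
        Lc1.const _ _, fun _ => A.one_mem, fun σ _ τ _ f _ hf => ?_⟩
      show (1 : Ωˣ) * f⁻¹ * 1 = 1 * σ • (1 : Ωˣ)
      rw [hf (fun h' => h'.2 hj), inv_one, mul_one, smul_one]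
    · obtain ⟨Y, b, h1, h2, h3, h4, h5⟩ := one_loc hS p K ξ c hlc hone C ρ hC3 hρ hC (W j) (hW j)
        (fun σ hσ => hst σ hσ j) (p ^ (r₀ + r)) (ag a (p ^ r) g) hXlo hX1
        (fun σ hσ τ hτ => hgu (W j) (hW j) hj σ hσ τ hτ) hXC (ψ j) (hψ j)
      exact ⟨Y, b, h1, fun _ => h2, h3, h4, fun σ hσ τ hτ f hf hf' =>
        h5 σ hσ τ hτ f (fun h' => hf ⟨h', hj⟩) (fun h' => hf' fun h'' => h' h''.1)⟩
  choose Y b hYA hYv hbL hbA hYb using hloc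
  -- the product
  have hbprodL : Lc1 (A : Set Ω) (fun σ => ∏ j, b j σ ^ e₀ j) := by
    have key : ∀ J : Finset (Fin n), Lc1 (A : Set Ω) (fun σ => ∏ j ∈ J, b j σ ^ e₀ j) := by
      intro J
      induction J using Finset.induction_on with
      | empty =>
        simp only [Finset.prod_empty]
        exact Lc1.const _ _
      | insert j J hj ih =>
        simp only [Finset.prod_insert hj]
        exact ((hbL j).zpow (e₀ j)).mul ih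
    exact key Finset.univ
  have hbprodA : ∀ σ, ((∏ j, b j σ ^ e₀ j : Ωˣ) : Ω) ∈ A := by
    intro σ
    rw [Units.coe_prod]
    refine prod_mem fun j _ => ?_
    rw [Units.val_zpow_eq_zpow_val]
    exact zpow_mem (hbA j σ) _
  refine ⟨r₀ + r, fun σ => (χ σ * (∏ j, b j σ ^ e₀ j)⁻¹) ^ p ^ m₀, (hχ.mul hbprodL.inv).pow _,
    fun σ => ?_, fun σ hσ τ hτ g₁ g₂ hg₁ hg₂ => ?_⟩
  · rw [Units.val_pow_eq_pow_val, Units.val_mul, Units.val_inv_eq_inv_val]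
    exact pow_mem (mul_mem (hχA σ) (inv_mem (hbprodA σ))) _
  · have hr := hrel σ hσ τ hτ (fun j => Y j σ τ) (fun j => hYA j σ τ) (fun j hj => hYv j hj σ hσ τ hτ)
    obtain ⟨F, hF⟩ : ∃ F : Fin n → Ωˣ, ∀ j, F j =
        if (∀ x, ξ x ∈ W j) ∧ (W j).valuation h₀ ≠ 1 then fJ A c (ψ j) σ τ ^ p ^ (r₀ + r) else 1 :=
      ⟨_, fun _ => rfl⟩
    have hYF : ∀ j, Y j σ τ * (F j)⁻¹ * b j (σ * τ) = b j σ * σ • b j τ := fun j =>
      hYb j σ hσ τ hτ (F j) (fun h' => by rw [hF, if_pos h']) (fun h' => by rw [hF, if_neg h'])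
    have hprod : (∏ j, Y j σ τ ^ e₀ j) * (∏ j, F j ^ e₀ j)⁻¹ * (∏ j, b j (σ * τ) ^ e₀ j) =
        (∏ j, b j σ ^ e₀ j) * σ • ∏ j, b j τ ^ e₀ j := by
      have hsm : σ • (∏ j, b j τ ^ e₀ j) = ∏ j, (σ • b j τ) ^ e₀ j := by
        rw [Finset.smul_prod']
        exact Finset.prod_congr rfl fun j _ => smul_zpow' σ (b j τ) (e₀ j)
      rw [hsm, ← Finset.prod_inv_distrib, ← Finset.prod_mul_distrib, ← Finset.prod_mul_distrib,
        ← Finset.prod_mul_distrib]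
      refine Finset.prod_congr rfl fun j _ => ?_
      rw [← mul_zpow, ← hYF j, mul_zpow, mul_zpow, inv_zpow]
    have hkey : (∏ j, F j ^ e₀ j) * (χ (σ * τ) * (∏ j, b j (σ * τ) ^ e₀ j)⁻¹) =
        (χ σ * (∏ j, b j σ ^ e₀ j)⁻¹) * σ • (χ τ * (∏ j, b j τ ^ e₀ j)⁻¹) := by
      rw [smul_mul', smul_inv']
      have e1 : (∏ j, F j ^ e₀ j) = (∏ j, Y j σ τ ^ e₀ j) * (∏ j, b j (σ * τ) ^ e₀ j) *
          ((∏ j, b j σ ^ e₀ j) * σ • ∏ j, b j τ ^ e₀ j)⁻¹ := by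
        rw [← hprod]
        apply Additive.ofMul.injective
        simp only [ofMul_mul, ofMul_inv]
        abel
      have e2 : (∏ j, Y j σ τ ^ e₀ j) = χ σ * σ • χ τ * (χ (σ * τ))⁻¹ := by
        rw [← hr, mul_inv_cancel_right]
      rw [e1, e2]
      apply Additive.ofMul.injective
      simp only [ofMul_mul, ofMul_inv]
      abel
    have hmap : Units.map (A.val : A →* Ω) (∏ j, if (∀ x, ξ x ∈ W j) ∧ (W j).valuation h ≠ 1 then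
          (ψ j • c ((ψ j)⁻¹ * g₁ * ψ j) ((ψ j)⁻¹ * g₂ * ψ j)) ^ (e j * (p : ℤ) ^ (r₀ + r)) else 1) =
        (∏ j, F j ^ e₀ j) ^ p ^ m₀ := by
      rw [map_prod, ← Finset.prod_pow]
      refine Finset.prod_congr rfl fun j _ => ?_
      rw [hF]
      by_cases hj : (∀ x, ξ x ∈ W j) ∧ (W j).valuation h₀ ≠ 1
      · have hj' : (∀ x, ξ x ∈ W j) ∧ (W j).valuation h ≠ 1 :=
          ⟨hj.1, fun h' => hj.2 ((hval _).1 h')⟩
        rw [if_pos hj, if_pos hj', map_zpow]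
        unfold fJ
        rw [rA_eq A σ g₁ hg₁, rA_eq A τ g₂ hg₂, hee j, ← zpow_natCast, ← zpow_natCast, ← zpow_mul,
          ← zpow_mul]
        congr 1
        push_cast
        ring
      · have hj' : ¬ ((∀ x, ξ x ∈ W j) ∧ (W j).valuation h ≠ 1) := fun h' =>
          hj ⟨h'.1, fun h'' => h'.2 ((hval _).2 h'')⟩
        rw [if_neg hj, if_neg hj', map_one, one_zpow, one_pow]
    rw [hmap]
    show (∏ j, F j ^ e₀ j) ^ p ^ m₀ * (χ (σ * τ) * (∏ j, b j (σ * τ) ^ e₀ j)⁻¹) ^ p ^ m₀ =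
      (χ σ * (∏ j, b j σ ^ e₀ j)⁻¹) ^ p ^ m₀ * σ • (χ τ * (∏ j, b j τ ^ e₀ j)⁻¹) ^ p ^ m₀
    rw [← mul_pow, hkey, mul_pow, smul_pow']

end Pool.Agent.URR
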