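import Pool.Agent.URR.Defs

set_option autoImplicit false

namespace Pool.Agent.URR

open Pool.Agent.TBR

universe u

variable {k Ω : Type u} [Field k] [Field Ω] [Algebra k Ω] [IsAlgClosed Ω]

omit [IsAlgClosed Ω] in
private theorem plc1_one (V : ValuationSubring Ω) (x : Ω) (hx : x ≠ 0) :
    V.valuation x ≠ 1 ↔ (x ∉ V ∨ x⁻¹ ∉ V) := by
  have h0 : 0 < V.valuation x := zero_lt_iff.mpr ((map_ne_zero _).mpr hx)
  rw [← V.valuation_le_one_iff, ← V.valuation_le_one_iff, map_inv₀, inv_le_one₀ h0]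
  constructor
  · intro h
    by_contra hcon
    push Not at hcon
    exact h (le_antisymm hcon.1 hcon.2)
  · rintro (h | h) h1
    · exact h h1.le
    · exact h h1.ge

/--
Representatives of the places where some `h i` is not a unit. PROOF. For each `i` with `h i ∉ A` the places
of `E = AA A B₀` with `V.valuation (h i) ≠ 1` (`h i ∉ V` or `(h i)⁻¹ ∉ V`) are finitely many up to `Same`
(`TBR.V.fin_places` in TBM/Val.lean); for `h i ∈ A`, `h i ≠ 0`, there are none (`V.val_A`). So there is a finite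
set of such valuation rings meeting all classes of `Same E`; choose one representative for each class (e.g.
the finite set of the traces `{x ∈ E | x ∈ V}`), number them by `Fin n`. `π j` from hU, `e j i` from `Unif.gen`
(`h i ∈ E`, `h i ≠ 0`).
-/
theorem exists_places (A : IntermediateField k Ω) [IsAlgClosed A]
    (hA1 : ∀ t : Ω, t ∉ A → ∀ x : Ω, IsAlgebraic (AA A {t}) x) (B₀ : Set Ω) (hfin : B₀.Finite)
    (hU : ∀ V : ValuationSubring Ω, Pl A V → ∃ π, Unif (AA A B₀) V π)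
    (m : ℕ) (h : Fin m → Ω) (h0 : ∀ i, h i ≠ 0) (hE : ∀ i, h i ∈ AA A B₀) :
    ∃ (n : ℕ) (W : Fin n → ValuationSubring Ω) (π : Fin n → Ω) (e : Fin n → Fin m → ℤ),
      (∀ j, Pl A (W j)) ∧ (∀ j, Unif (AA A B₀) (W j) (π j)) ∧
      (∀ j, ∃ i, (W j).valuation (h i) ≠ 1) ∧
      (∀ i j, Same (AA A B₀) (W i) (W j) → i = j) ∧
      (∀ V, Pl A V → (∃ i, V.valuation (h i) ≠ 1) → ∃ j, Same (AA A B₀) V (W j)) ∧
      ∀ j i, (W j).valuation (h i) = (W j).valuation (π j) ^ e j i := by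
  classical
  obtain ⟨B, hB⟩ := hfin.exists_finset_coe
  set E : IntermediateField k Ω := AA A B₀ with hEdef
  have hsame : ∀ V W : ValuationSubring Ω, Same E V W → ∀ i, V.valuation (h i) ≠ 1 →
      W.valuation (h i) ≠ 1 := by
    intro V W hVW i hi
    rw [plc1_one _ _ (h0 i)] at hi ⊢
    rw [← hVW _ (hE i), ← hVW _ (inv_mem (hE i))]
    exact hi
  have key : ∀ i, ∃ 𝒱 : Finset (ValuationSubring Ω), (∀ V ∈ 𝒱, Pl A V) ∧
      ∀ V : ValuationSubring Ω, Pl A V → V.valuation (h i) ≠ 1 → ∃ V' ∈ 𝒱, Same E V V' := by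
    intro i
    by_cases hi : h i ∈ A
    · refine ⟨∅, by simp, fun V hV hne => absurd ?_ hne⟩
      exact Pool.Agent.TBR.V.val_A A V hV.1 ⟨h i, hi⟩
        (fun hc => h0 i (congrArg Subtype.val hc))
    · obtain ⟨𝒱, h1, h2⟩ := Pool.Agent.TBR.V.fin_places A hA1 E B (by rw [hB]) (h i) hi
      exact ⟨𝒱, h1, fun V hV hne => h2 V hV.1 hV.2 ((plc1_one _ _ (h0 i)).mp hne)⟩
  choose 𝒱 h1 h2 using key
  set 𝒲 : Finset (ValuationSubring Ω) :=
    (Finset.univ.biUnion 𝒱).filter (fun V => ∃ i, V.valuation (h i) ≠ 1) with h𝒲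
  have h𝒲1 : ∀ V ∈ 𝒲, Pl A V ∧ ∃ i, V.valuation (h i) ≠ 1 := by
    intro V hV
    obtain ⟨hV1, hV2⟩ := Finset.mem_filter.mp hV
    obtain ⟨i, -, hi⟩ := Finset.mem_biUnion.mp hV1
    exact ⟨h1 i V hi, hV2⟩
  set 𝒯 : Finset (Set Ω) := 𝒲.image (pl (E : Set Ω)) with h𝒯
  have hch : ∀ T : 𝒯, ∃ V ∈ 𝒲, pl (E : Set Ω) V = T := fun T => Finset.mem_image.mp T.2
  choose W hW1 hW2 using hch
  have hpl : ∀ V V' : ValuationSubring Ω, Same E V V' ↔ pl (E : Set Ω) V = pl (E : Set Ω) V' := by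
    intro V V'
    constructor
    · intro hs
      ext x
      constructor
      · rintro ⟨hx, hxV⟩
        exact ⟨hx, (hs x hx).mp hxV⟩
      · rintro ⟨hx, hxV⟩
        exact ⟨hx, (hs x hx).mpr hxV⟩
    · intro hs x hx
      constructor
      · intro hxV
        have : x ∈ pl (E : Set Ω) V' := hs ▸ ⟨hx, hxV⟩
        exact this.2
      · intro hxV
        have : x ∈ pl (E : Set Ω) V := hs ▸ ⟨hx, hxV⟩
        exact this.2
  let ε : Fin 𝒯.card ≃ 𝒯 := 𝒯.equivFin.symm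
  have hPl : ∀ j, Pl A (W (ε j)) := fun j => (h𝒲1 _ (hW1 _)).1
  choose π hπ using fun j => hU (W (ε j)) (hPl j)
  choose e he using fun j i => (hπ j).gen (h i) (hE i) (h0 i)
  refine ⟨𝒯.card, fun j => W (ε j), π, e, hPl, hπ, fun j => (h𝒲1 _ (hW1 _)).2, ?_, ?_, he⟩
  · intro i j hij
    have h3 := (hpl _ _).mp hij
    rw [hW2, hW2] at h3
    exact ε.injective (Subtype.ext h3)
  · rintro V hV ⟨i, hi⟩
    obtain ⟨V', hV', hs⟩ := h2 i V hV hi
    have hV'W : V' ∈ 𝒲 := Finset.mem_filter.mpr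
      ⟨Finset.mem_biUnion.mpr ⟨i, Finset.mem_univ _, hV'⟩, i, hsame V V' hs i hi⟩
    refine ⟨ε.symm ⟨pl (E : Set Ω) V', Finset.mem_image_of_mem _ hV'W⟩, ?_⟩
    rw [hpl, (hpl _ _).mp hs]
    show pl (E : Set Ω) V' = pl (E : Set Ω) (W (ε (ε.symm _)))
    rw [Equiv.apply_symm_apply, hW2]

end Pool.Agent.URR
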