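import Pool.Agent.URR.Defs

set_option autoImplicit false

namespace Pool.Agent.URR

open Pool.Agent.TBR

universe u

variable {k Ω : Type u} [Field k] [Field Ω] [Algebra k Ω]

private theorem sit1_fixE (S : Set Ω) (σ : Ω ≃ₐ[k] Ω) (hσ : σ ∈ Fx k S) (x : Ω)
    (hx : x ∈ IntermediateField.adjoin k S) : σ x = x := by
  induction hx using IntermediateField.adjoin_induction with
  | mem x hx => exact hσ x hx
  | algebraMap c => exact σ.commutes c
  | add x y _ _ hx hy => rw [map_add, hx, hy]
  | inv x _ hx => rw [map_inv₀, hx]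
  | mul x y _ _ hx hy => rw [map_mul, hx, hy]

private theorem sit1_root (S : Set Ω) (σ : Ω ≃ₐ[k] Ω) (hσ : σ ∈ Fx k S) (x : Ω)
    (p : Polynomial (IntermediateField.adjoin k S)) (hp : Polynomial.aeval x p = 0) :
    Polynomial.aeval (σ x) p = 0 := by
  have h1 : ((σ : Ω →+* Ω)).comp (algebraMap (IntermediateField.adjoin k S) Ω) =
      algebraMap (IntermediateField.adjoin k S) Ω :=
    RingHom.ext fun c => sit1_fixE S σ hσ c c.2
  have h2 := congrArg (σ : Ω →+* Ω) hp
  rw [Polynomial.aeval_def, Polynomial.hom_eval₂, h1, map_zero] at h2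
  rw [Polynomial.aeval_def]
  exact h2

variable [IsAlgClosed Ω]

/--
PROOF. `trd`, `gen`, `fin`, `fix` are clear. `stab`: for `σ ∈ Ge k (S ∪ B₀)` and `x ∈ A`: `x` is algebraic over
`k(S)`, `σ` fixes `k(S)`, so `σ x` is algebraic over `k(S) ⊆ A`, hence in `A` (`A` is algebraically closed:
an element of `Ω` algebraic over `A` is in `A`); apply this to `σ⁻¹` for the converse. `geo`: an
automorphism which fixes `A ∪ B₀` fixes `S ∪ B₀` and the elements algebraic over `k` (they are in `A`).
`orb`: every `x : Ω` is algebraic over `k(S ∪ B₀)`: `x` is algebraic over `AA A {y}`, `y ∈ B₀`, by hA1, and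
`A` is algebraic over `k(S)`; so `x` is a root of a nonzero polynomial over `k(S ∪ B₀)`, whose coefficients
are fixed by the group, and its orbit is contained in the finite set of the roots. `clo`: if `σ` agrees on every
finite set with an element of the group then `σ` fixes `S ∪ B₀` and the elements algebraic over `k`.
(Compare `sit_az` in TBM/Br.lean.)
-/
theorem sit_of (A : IntermediateField k Ω) [IsAlgClosed A]
    (hA1 : ∀ t : Ω, t ∉ A → ∀ x : Ω, IsAlgebraic (AA A {t}) x) (S : Set Ω) (hSA : S ⊆ A)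
    (hSalg : ∀ x ∈ A, IsAlgebraic (IntermediateField.adjoin k S) x) (B₀ : Set Ω)
    (hfin : B₀.Finite) (hgen : ∃ y ∈ B₀, y ∉ A) : Sit A (Ge k (S ∪ B₀)) B₀ := by
  classical
  have hclosed : ∀ x : Ω, IsAlgebraic A x → x ∈ A := by
    intro x hx
    have h1 : (minpoly A x).degree = 1 :=
      IsAlgClosed.degree_eq_one_of_irreducible _ (minpoly.irreducible hx.isIntegral)
    obtain ⟨y, hy⟩ := minpoly.mem_range_of_degree_eq_one A x h1
    rw [← hy]
    exact y.2
  have hEA : IntermediateField.adjoin k S ≤ A := IntermediateField.adjoin_le_iff.2 hSA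
  have hmem : ∀ x : Ω, x ∈ A ↔ IsAlgebraic (IntermediateField.adjoin k S) x :=
    fun x => ⟨hSalg x, fun h => hclosed x (alg_mono _ _ hEA x h)⟩
  have hk : ∀ x : Ω, IsAlgebraic k x → x ∈ A := fun x hx => hclosed x (hx.tower_top _)
  have hstab : ∀ σ ∈ Ge k (S ∪ B₀), ∀ x : Ω, x ∈ A → σ x ∈ A := by
    intro σ hσ x hx
    obtain ⟨p, hp, hpx⟩ := hSalg x hx
    exact (hmem _).2 ⟨p, hp, sit1_root S σ (fun y hy => hσ.1 y (Or.inl hy)) x p hpx⟩
  have halg : ∀ x : Ω, IsAlgebraic (IntermediateField.adjoin k (S ∪ B₀)) x := by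
    obtain ⟨y, hy, hyA⟩ := hgen
    obtain ⟨E, hE⟩ : ∃ E : IntermediateField k Ω, E = IntermediateField.adjoin k (S ∪ B₀) := ⟨_, rfl⟩
    rw [← hE]
    have hSE : IntermediateField.adjoin k S ≤ E := by
      rw [hE]
      exact IntermediateField.adjoin.mono k S (S ∪ B₀) Set.subset_union_left
    have hyE : y ∈ E := by
      rw [hE]
      exact IntermediateField.subset_adjoin k _ (Or.inr hy)
    have hle : AA A {y} ≤ (algebraicClosure E Ω).restrictScalars k := by
      refine sup_le (fun x hx => ?_) ?_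
      · rw [IntermediateField.mem_restrictScalars, mem_algebraicClosure_iff]
        exact alg_mono _ _ hSE x (hSalg x hx)
      · rw [IntermediateField.adjoin_le_iff]
        intro z hz
        rw [Set.mem_singleton_iff.1 hz]
        show y ∈ (algebraicClosure E Ω).restrictScalars k
        rw [IntermediateField.mem_restrictScalars, mem_algebraicClosure_iff]
        exact isAlgebraic_algebraMap (⟨y, hyE⟩ : E)
    intro x
    have h1 : IsAlgebraic ((algebraicClosure E Ω).restrictScalars k) x := alg_mono _ _ hle x (hA1 y hyA x)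
    have h2 : IsAlgebraic (algebraicClosure E Ω) x := h1
    exact h2.restrictScalars E
  refine ⟨hA1, hgen, hfin, fun σ hσ x => ⟨fun h => ?_, hstab σ hσ x⟩, fun σ hσ x hx => hσ.1 x (Or.inr hx), ?_, ?_, ?_⟩
  · have h1 := hstab σ⁻¹ ((Ge k (S ∪ B₀)).inv_mem hσ) (σ x) h
    have h2 : σ⁻¹ (σ x) = x := σ.symm_apply_apply x
    rwa [h2] at h1
  · intro σ hσ
    refine ⟨?_, fun x hx => hσ x (Or.inl (hk x hx))⟩
    rintro x (hx | hx)
    · exact hσ x (Or.inl (hSA hx))
    · exact hσ x (Or.inr hx)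
  · intro x _
    obtain ⟨p, hp, hpx⟩ := halg x
    refine (p.rootSet_finite Ω).subset ?_
    rintro y ⟨σ, hσ, rfl⟩
    rw [Polynomial.mem_rootSet]
    exact ⟨hp, sit1_root _ σ hσ.1 x p hpx⟩
  · intro σ hσ
    refine ⟨fun x hx => ?_, fun x hx => ?_⟩
    · obtain ⟨τ, hτ, h⟩ := hσ {x}
      rw [h x (by simp)]
      exact hτ.1 x hx
    · obtain ⟨τ, hτ, h⟩ := hσ {x}
      rw [h x (by simp)]
      exact hτ.2 x hx

end Pool.Agent.URR
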