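import Pool.Agent.URR.Defs

set_option autoImplicit false

namespace Pool.Agent.URR

open Pool.Agent.TBR

universe u

variable {k Ω : Type u} [Field k] [Field Ω] [Algebra k Ω] [IsAlgClosed Ω]

omit [IsAlgClosed Ω] in
private theorem val_ne_one (V W : ValuationSubring Ω) (x : Ω) (h1 : x ∈ V ↔ x ∈ W)
    (h2 : x⁻¹ ∈ V ↔ x⁻¹ ∈ W) (hW : W.valuation x ≠ 1) : V.valuation x ≠ 1 := by
  by_cases h0 : x = 0
  · rw [h0, map_zero]
    exact zero_ne_one
  · intro hV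
    apply hW
    apply le_antisymm
    · rw [W.valuation_le_one_iff, ← h1, ← V.valuation_le_one_iff, hV]
    · have h3 : x⁻¹ ∈ W := by
        rw [← h2, ← V.valuation_le_one_iff, map_inv₀, hV, inv_one]
      rw [← W.valuation_le_one_iff, map_inv₀] at h3
      have h4 : 0 < W.valuation x := by
        rw [zero_lt_iff]
        exact (W.valuation.ne_zero_iff).2 h0
      exact (inv_le_one₀ h4).1 h3

theorem exists_stabS (A : IntermediateField k Ω) (B₀ : Set Ω) (m : ℕ) (h : Fin m → Ω)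
    (hE : ∀ i, h i ∈ AA A B₀) (n : ℕ) (W : Fin n → ValuationSubring Ω) (hW : ∀ j, Pl A (W j))
    (hW2 : ∀ i j, Same (AA A B₀) (W i) (W j) → i = j)
    (hW4 : ∀ j, ∃ i, (W j).valuation (h i) ≠ 1)
    (hW3 : ∀ V, Pl A V → (∃ i, V.valuation (h i) ≠ 1) → ∃ j, Same (AA A B₀) V (W j)) :
    ∃ S : Finset Ω, (S : Set Ω) ⊆ A ∧ ∀ σ : Ω ≃ₐ[k] Ω, (∀ x : Ω, σ x ∈ A ↔ x ∈ A) →
      σ ∈ Fx k ((S : Set Ω) ∪ B₀) →
        (∀ i, σ (h i) = h i) ∧ ∀ j, ∀ x ∈ AA A B₀, σ x ∈ W j ↔ x ∈ W j := by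
  classical
  have hsep : ∀ i j, ∃ x ∈ AA A B₀, i ≠ j → ¬ (x ∈ W i ↔ x ∈ W j) := by
    intro i j
    by_cases hij : i = j
    · exact ⟨0, zero_mem _, fun h => absurd hij h⟩
    · have h1 : ¬ Same (AA A B₀) (W i) (W j) := fun h => hij (hW2 i j h)
      unfold Same at h1
      push Not at h1
      obtain ⟨x, hx, hx'⟩ := h1
      refine ⟨x, hx, fun _ h2 => ?_⟩
      rcases hx' with ⟨h3, h4⟩ | ⟨h3, h4⟩
      · exact h4 (h2.1 h3)
      · exact h3 (h2.2 h4)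
  choose s hs hs' using hsep
  have hc1 : ∀ i j, ∃ S : Finset Ω, (S : Set Ω) ⊆ A ∧ ∀ σ ∈ Fx k B₀, ∀ τ ∈ Fx k B₀,
      Ag (S : Set Ω) σ τ → σ (s i j) = τ (s i j) := fun i j => coef A B₀ _ (hs i j)
  have hc2 : ∀ i, ∃ S : Finset Ω, (S : Set Ω) ⊆ A ∧ ∀ σ ∈ Fx k B₀, ∀ τ ∈ Fx k B₀,
      Ag (S : Set Ω) σ τ → σ (h i) = τ (h i) := fun i => coef A B₀ _ (hE i)
  choose S₁ hS₁ hS₁' using hc1
  choose S₂ hS₂ hS₂' using hc2
  refine ⟨(Finset.univ.biUnion fun i => Finset.univ.biUnion fun j => S₁ i j) ∪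
    Finset.univ.biUnion fun i => S₂ i, ?_, fun σ hσA hσ => ?_⟩
  · intro x hx
    simp only [Finset.coe_union, Finset.coe_biUnion, Set.mem_union, Set.mem_iUnion,
      Finset.mem_coe, Finset.mem_univ, exists_prop, true_and] at hx
    rcases hx with ⟨i, j, hx⟩ | ⟨i, hx⟩
    · exact hS₁ i j hx
    · exact hS₂ i hx
  have hσB : σ ∈ Fx k B₀ := fun x hx => hσ x (Or.inr hx)
  have h1B : (1 : Ω ≃ₐ[k] Ω) ∈ Fx k B₀ := fun x _ => rfl
  have hfs : ∀ i j, σ (s i j) = s i j := fun i j =>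
    hS₁' i j σ hσB 1 h1B (fun x hx => hσ x (Or.inl (by
      simp only [Finset.coe_union, Finset.coe_biUnion, Set.mem_union, Set.mem_iUnion,
        Finset.mem_coe, Finset.mem_univ, exists_prop, true_and]
      exact Or.inl ⟨i, j, hx⟩)))
  have hfh : ∀ i, σ (h i) = h i := fun i =>
    hS₂' i σ hσB 1 h1B (fun x hx => hσ x (Or.inl (by
      simp only [Finset.coe_union, Finset.coe_biUnion, Set.mem_union, Set.mem_iUnion,
        Finset.mem_coe, Finset.mem_univ, exists_prop, true_and]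
      exact Or.inr ⟨i, hx⟩)))
  refine ⟨hfh, fun j => ?_⟩
  let V : ValuationSubring Ω := (W j).comap (σ : Ω →+* Ω)
  have hmem : ∀ x, x ∈ V ↔ σ x ∈ W j := fun x => Iff.rfl
  have hV : Pl A V := by
    refine ⟨fun x hx => (hW j).1 _ ((hσA x).2 hx), fun htop => (hW j).2 ?_⟩
    rw [eq_top_iff]
    intro x _
    have h1 : σ.symm x ∈ V := by rw [htop]; trivial
    rw [hmem, σ.apply_symm_apply] at h1
    exact h1
  obtain ⟨i, hi⟩ := hW4 j
  obtain ⟨j', hj'⟩ := hW3 V hV ⟨i, val_ne_one V (W j) (h i) (by rw [hmem, hfh])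
    (by rw [hmem, map_inv₀, hfh]) hi⟩
  have hjj : j = j' := by
    by_contra hne
    apply hs' j j' hne
    have h1 := hj' _ (hs j j')
    rw [hmem, hfs] at h1
    exact h1
  subst hjj
  intro x hx
  rw [← hmem]
  exact hj' x hx

end Pool.Agent.URR
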