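import Pool.Agent.URR.Defs

set_option autoImplicit false

namespace Pool.Agent.URR

open Pool.Agent.TBR

universe u

variable {k Ω : Type u} [Field k] [Field Ω] [Algebra k Ω]

/--
From automorphisms of `Ω` to automorphisms of `A`. PROOF. For `g ∈ Ge k S` choose `ℓ g ∈ N` with
`ℓ g = g` on `A` (hlift), and let `β g ∈ Aˣ` be the unit with value `b (ℓ g)` (hbA); `β g = 1` for the other
`g`. `b` depends only on the restriction to a finite set `S₁ ⊆ A`, so on `Ge k S` the function `β` depends only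
on the restriction of `g` to `S₁` (as a finset of `A`): `Lo1 (Ge k S) univ β`; use `Lo1.extend` to get `Lc1`
(the extension agrees with `β` on `Ge k S`). For `g, g' ∈ Ge k S`: `ℓ g * ℓ g'` agrees with `ℓ (g g')` on `A`
(and `b` depends only on the restriction to `A`), `ℓ g • b (ℓ g') = g (β g')`. hcob for `ℓ g`, `ℓ g'` gives
`F g g' * β (g g') = β g * g • β g'` in `Ω`, so in `A`.
-/
theorem toA (A : IntermediateField k Ω) (N : Subgroup (Ω ≃ₐ[k] Ω)) (S : Finset A)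
    (hlift : ∀ g : A ≃ₐ[k] A, g ∈ Ge k (S : Set A) → ∃ σ ∈ N, ∀ x : A, σ x = g x)
    (F : (A ≃ₐ[k] A) → (A ≃ₐ[k] A) → Aˣ) (b : (Ω ≃ₐ[k] Ω) → Ωˣ) (hb : Lc1 (A : Set Ω) b)
    (hbA : ∀ σ, (b σ : Ω) ∈ A)
    (hcob : ∀ σ ∈ N, ∀ τ ∈ N, ∀ g g' : A ≃ₐ[k] A, (∀ x : A, σ x = g x) → (∀ x : A, τ x = g' x) →
      ((F g g' : A) : Ω) * (b (σ * τ) : Ω) = (b σ : Ω) * σ (b τ : Ω)) :
    Tri (Ge k (S : Set A)) F := by
  classical
  choose! ℓ hℓN hℓ using hlift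
  obtain ⟨S₁, hS₁, hb₁⟩ := hb
  -- the units of `A`
  have hne : ∀ σ, (⟨(b σ : Ω), hbA σ⟩ : A) ≠ 0 := by
    intro σ h
    exact (b σ).ne_zero (congrArg Subtype.val h)
  obtain ⟨β, hβ⟩ : ∃ β : (A ≃ₐ[k] A) → Aˣ, ∀ g, ((β g : A) : Ω) = (b (ℓ g) : Ω) :=
    ⟨fun g => Units.mk0 ⟨(b (ℓ g) : Ω), hbA (ℓ g)⟩ (hne _), fun g => rfl⟩
  -- the dependence on the restriction
  have hdep : ∀ σ τ : Ω ≃ₐ[k] Ω, (∀ x : A, (x : Ω) ∈ S₁ → σ x = τ x) → b σ = b τ := by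
    intro σ τ h
    refine hb₁ σ τ ?_
    intro x hx
    exact h ⟨x, hS₁ hx⟩ hx
  have hlo : Lo1 (Ge k (S : Set A)) Set.univ β := by
    refine ⟨S₁.subtype (fun x => x ∈ A), Set.subset_univ _, ?_⟩
    intro g hg g' hg' h
    apply Units.ext
    apply Subtype.ext
    rw [hβ, hβ]
    refine congrArg (fun u : Ωˣ => (u : Ω)) (hdep _ _ ?_)
    intro x hx
    rw [hℓ g hg x, hℓ g' hg' x]
    refine congrArg Subtype.val (h x ?_)
    rw [Finset.mem_coe, Finset.mem_subtype]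
    exact hx
  obtain ⟨β', h1, h2, _⟩ := hlo.extend
  refine ⟨β', h1, ?_⟩
  intro g hg g' hg'
  have hgg : g * g' ∈ Ge k (S : Set A) := (Ge k (S : Set A)).mul_mem hg hg'
  rw [h2 _ hgg, h2 _ hg, h2 _ hg']
  apply Units.ext
  apply Subtype.ext
  have h3 := hcob (ℓ g) (hℓN g hg) (ℓ g') (hℓN g' hg') g g' (hℓ g hg) (hℓ g' hg')
  have h4 : b (ℓ g * ℓ g') = b (ℓ (g * g')) := by
    refine hdep _ _ ?_
    intro x _
    rw [hℓ (g * g') hgg x, AlgEquiv.mul_apply, hℓ g' hg' x, hℓ g hg (g' x), AlgEquiv.mul_apply]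
  have h5 : ℓ g (b (ℓ g') : Ω) = ((g (β g' : A) : A) : Ω) := by
    rw [← hβ g', hℓ g hg]
  rw [h4, h5] at h3
  show ((F g g' : A) : Ω) * ((β (g * g') : A) : Ω) = ((β g : A) : Ω) * ((g (β g' : A) : A) : Ω)
  rw [hβ, hβ, h3]

end Pool.Agent.URR
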