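import Pool.Agent.URR.Defs
import Pool.Agent.TUQ.G1

set_option autoImplicit false

namespace Pool.Agent.URR

open Pool.Agent.TBR

universe u

variable {k Ω : Type u} [Field k] [Field Ω] [Algebra k Ω]

/-- a finitely generated field `A(B₀)` has bounded degree over `A(t)` -/
private theorem uni_deg (A : IntermediateField k Ω)
    (hA1 : ∀ t : Ω, t ∉ A → ∀ x : Ω, IsAlgebraic (AA A {t}) x) (B₀ : Set Ω) (hfin : B₀.Finite)
    (t : Ω) (ht : t ∉ A) :
    ∃ d : ℕ, ∀ x ∈ AA A B₀, ∃ p : Polynomial (AA A {t}), p ≠ 0 ∧ p.natDegree ≤ d ∧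
      Polynomial.aeval x p = 0 := by
  have : Finite B₀ := hfin
  set L := IntermediateField.adjoin (AA A {t}) B₀ with hL
  have hfd : FiniteDimensional (AA A {t}) L :=
    IntermediateField.finiteDimensional_adjoin fun x _ => (hA1 t ht x).isIntegral
  refine ⟨Module.finrank (AA A {t}) L, fun x hx => ?_⟩
  have hxL : x ∈ L := by
    have h1 : AA A B₀ ≤ L.restrictScalars k := by
      refine sup_le ?_ ?_
      · intro a ha
        rw [IntermediateField.mem_restrictScalars]
        exact L.algebraMap_mem (⟨a, le_AA A {t} ha⟩ : AA A {t})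
      · rw [IntermediateField.adjoin_le_iff]
        intro b hb
        have : b ∈ L := IntermediateField.subset_adjoin _ _ hb
        exact this
    exact h1 hx
  have hint : IsIntegral (AA A {t}) (⟨x, hxL⟩ : L) := IsIntegral.of_finite _ _
  refine ⟨minpoly (AA A {t}) (⟨x, hxL⟩ : L), minpoly.ne_zero hint, minpoly.natDegree_le _, ?_⟩
  have h2 := Polynomial.aeval_algebraMap_apply Ω (⟨x, hxL⟩ : L)
    (minpoly (AA A {t}) (⟨x, hxL⟩ : L))
  rw [minpoly.aeval, map_zero] at h2
  exact h2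

/-- all values have a common power which is a power of the value of `t` -/
private theorem uni_exp (A : IntermediateField k Ω)
    (hA1 : ∀ t : Ω, t ∉ A → ∀ x : Ω, IsAlgebraic (AA A {t}) x) (B₀ : Set Ω) (hfin : B₀.Finite)
    (V : ValuationSubring Ω) (hV : ∀ x ∈ A, x ∈ V) (t : Ω) (ht : t ∉ A) (ht0 : t ≠ 0)
    (ht1 : V.valuation t < 1) :
    ∃ D : ℕ, 0 < D ∧ ∀ x ∈ AA A B₀, x ≠ 0 → ∃ m : ℤ, V.valuation x ^ D = V.valuation t ^ m := by
  obtain ⟨d, hd⟩ := uni_deg A hA1 B₀ hfin t ht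
  refine ⟨d.factorial, Nat.factorial_pos d, fun x hx hx0 => ?_⟩
  obtain ⟨p, hp0, hpd, hp⟩ := hd x hx
  rw [Polynomial.aeval_eq_sum_range] at hp
  obtain ⟨i, hi, j, hj, hij, hv, hi0, hj0⟩ := TUQ.exists_pair V.valuation _ _ hp
    ⟨p.natDegree, Finset.mem_range.mpr (Nat.lt_succ_self _), by
      rw [Algebra.smul_def]
      refine mul_ne_zero ((_root_.map_ne_zero _).mpr ?_) (pow_ne_zero _ hx0)
      rwa [Polynomial.coeff_natDegree, Ne, Polynomial.leadingCoeff_eq_zero]⟩
  have hvt : V.valuation t ≠ 0 := (_root_.map_ne_zero _).mpr ht0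
  have hvx : V.valuation x ≠ 0 := (_root_.map_ne_zero _).mpr hx0
  have key : ∀ i j : ℕ, i < j → j ≤ d → p.coeff i • x ^ i ≠ 0 → p.coeff j • x ^ j ≠ 0 →
      V.valuation (p.coeff i • x ^ i) = V.valuation (p.coeff j • x ^ j) →
      ∃ m : ℤ, V.valuation x ^ d.factorial = V.valuation t ^ m := by
    intro i j hij hjd hi0 hj0 hv
    rw [Algebra.smul_def] at hi0 hj0
    rw [Algebra.smul_def, Algebra.smul_def] at hv
    have hci := (mul_ne_zero_iff.mp hi0).1
    have hcj := (mul_ne_zero_iff.mp hj0).1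
    obtain ⟨m, hm⟩ := Pool.Agent.TBR.V.ord_AA A t ht0 _ (p.coeff i).2 hci
    obtain ⟨n, hn⟩ := Pool.Agent.TBR.V.ord_AA A t ht0 _ (p.coeff j).2 hcj
    have hm' := hm V hV ht1
    have hn' := hn V hV ht1
    rw [map_mul, map_mul, map_pow, map_pow] at hv
    have e1 : V.valuation (algebraMap (↥(AA A {t})) Ω (p.coeff i)) = V.valuation t ^ m := hm'
    have e2 : V.valuation (algebraMap (↥(AA A {t})) Ω (p.coeff j)) = V.valuation t ^ n := hn'
    rw [e1, e2] at hv
    have h1 : V.valuation x ^ (j - i) = V.valuation t ^ (m - n) := by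
      rw [zpow_sub₀ hvt, eq_div_iff (zpow_ne_zero _ hvt)]
      have h2 : V.valuation x ^ j = V.valuation x ^ (j - i) * V.valuation x ^ i := by
        rw [← pow_add]; congr 1; omega
      rw [h2] at hv
      have h3 : V.valuation x ^ i ≠ 0 := pow_ne_zero _ hvx
      have h4 : V.valuation t ^ m * V.valuation x ^ i =
          (V.valuation x ^ (j - i) * V.valuation t ^ n) * V.valuation x ^ i := by
        rw [hv, mul_comm (V.valuation t ^ n), mul_assoc, mul_assoc, mul_comm (V.valuation x ^ i)]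
      exact (mul_right_cancel₀ h3 h4).symm
    obtain ⟨e, he⟩ : (j - i) ∣ d.factorial := Nat.dvd_factorial (by omega) (by omega)
    refine ⟨(m - n) * e, ?_⟩
    rw [he, pow_mul, h1, zpow_mul, zpow_natCast]
  have hid : i ≤ d := by
    have := Finset.mem_range.mp hi
    omega
  have hjd : j ≤ d := by
    have := Finset.mem_range.mp hj
    omega
  rcases lt_or_gt_of_ne hij with h | h
  · exact key i j h hjd hi0 hj0 hv
  · exact key j i h hid hj0 hi0 hv.symm

/--
Existence of a uniformizer. PROOF. Let `E = A(B₀)`; choose `y ∈ B₀`, `y ∉ A`.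
(a) There is `t ∈ E`, `t ≠ 0`, `V.valuation t < 1`: if all elements of `E` were in `V` then, Ω being
algebraic over `E` (hA1 for `y`), `V = ⊤` (`TBR.V.eq_top`, `mem_of_isAlgebraic` in TBM/Val). So there
is `x ∈ E`, `x ∉ V`, take `t = x⁻¹`. `t ∉ A` since all nonzero elements of `A` are units of `V`
(`V.val_A`).
(b) `E` is a finite extension of `A(t) = AA A {t}` (it is generated by the finite set `B₀` over it and
algebraic by hA1): there is `d ≥ 1` such that every `x ∈ E` is a root of a nonzero polynomial of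
degree ≤ d over `AA A {t}`. By `TBR.V.ord_AA` every nonzero element `c` of `AA A {t}` has valuation
`V.valuation t ^ m`, `m : ℤ`. If `∑ c_i x^i = 0` is a nontrivial relation, two nonzero terms have the
same largest valuation (`TUQ.exists_pair` in TUQ/G1, or the ultrametric inequality), so
`V.valuation x ^ (j - i)` is an integral power of `V.valuation t`, `1 ≤ j - i ≤ d`. Hence with
`D = d !`: for all `x ∈ E`, `x ≠ 0`: `V.valuation x ^ D = V.valuation t ^ m` for some `m : ℤ`, and `m`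
is unique as `V.valuation t < 1`.
(c) The set of the `m > 0` which occur is nonempty (`x = t`, `m = D`); let `π ∈ E` have the least
`m = m₀ > 0`. Then `V.valuation π < 1`. For `x ∈ E`, `x ≠ 0` with exponent `m`, write
`m = q m₀ + s`, `0 ≤ s < m₀`; `x π^(-q)` has the exponent `s`, so `s = 0` by minimality, and then
`V.valuation (x π^(-q)) ^ D = 1`, so `V.valuation x = V.valuation π ^ q` (the value group is torsion
free). The field instance: `exists_notMem`, `fin_places_one` in TBM/Val.lean show how to work with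
`AA A B₀`.
-/
theorem exists_unif (A : IntermediateField k Ω) [IsAlgClosed A]
    (hA1 : ∀ t : Ω, t ∉ A → ∀ x : Ω, IsAlgebraic (AA A {t}) x) (B₀ : Set Ω) (hfin : B₀.Finite)
    (hgen : ∃ y ∈ B₀, y ∉ A) (V : ValuationSubring Ω) (hV : Pl A V) :
    ∃ π, Unif (AA A B₀) V π := by
  classical
  obtain ⟨y, hy, hyA⟩ := hgen
  have halg : ∀ x : Ω, IsAlgebraic (AA A B₀) x := by
    intro x
    refine alg_mono (AA A {y}) (AA A B₀) ?_ x (hA1 y hyA x)
    refine sup_le (le_AA A B₀) ?_
    rw [IntermediateField.adjoin_le_iff]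
    rintro _ rfl
    exact sub_AA A B₀ hy
  -- an element with value less than one
  obtain ⟨x₀, hx₀E, hx₀V⟩ : ∃ x ∈ AA A B₀, x ∉ V := by
    by_contra! h
    exact hV.2 (Pool.Agent.TBR.V.eq_top V _ h halg)
  have hx₀0 : x₀ ≠ 0 := by rintro rfl; exact hx₀V V.zero_mem
  set t := x₀⁻¹ with ht
  have htE : t ∈ AA A B₀ := inv_mem hx₀E
  have ht0 : t ≠ 0 := inv_ne_zero hx₀0
  have ht1 : V.valuation t < 1 := by
    rw [ht, map_inv₀]
    exact inv_lt_one_of_one_lt₀ (not_le.mp fun h' => hx₀V ((V.valuation_le_one_iff x₀).mp h'))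
  have htA : t ∉ A := fun h => by
    have := Pool.Agent.TBR.V.val_A A V hV.1 ⟨_, h⟩ (fun h' => ht0 (congrArg Subtype.val h'))
    exact absurd ht1 (by rw [this]; exact lt_irrefl _)
  obtain ⟨D, hD, hexp⟩ := uni_exp A hA1 B₀ hfin V hV.1 t htA ht0 ht1
  have hvt : V.valuation t ≠ 0 := (_root_.map_ne_zero _).mpr ht0
  have hpos : ∃ m : ℕ, 0 < m ∧ ∃ x ∈ AA A B₀, x ≠ 0 ∧
      V.valuation x ^ D = V.valuation t ^ (m : ℤ) :=
    ⟨D, hD, t, htE, ht0, by rw [zpow_natCast]⟩
  set m₀ := Nat.find hpos with hm₀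
  obtain ⟨hm₀pos, π, hπE, hπ0, hπ⟩ := Nat.find_spec hpos
  rw [← hm₀] at hm₀pos hπ
  have hvπ : V.valuation π ≠ 0 := (_root_.map_ne_zero _).mpr hπ0
  refine ⟨π, hπE, hπ0, ?_, fun x hx hx0 => ?_⟩
  · by_contra hcon
    have h1 : 1 ≤ V.valuation π ^ D := one_le_pow₀ (not_lt.mp hcon)
    rw [hπ, zpow_natCast] at h1
    exact absurd (pow_lt_one₀ zero_le ht1 hm₀pos.ne') (not_lt.mpr h1)
  · obtain ⟨m, hm⟩ := hexp x hx hx0
    set q := m / (m₀ : ℤ) with hq
    have hm₀' : (0 : ℤ) < m₀ := by exact_mod_cast hm₀pos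
    have hs0 := Int.emod_nonneg m hm₀'.ne'
    have hs1 := Int.emod_lt_of_pos m hm₀'
    have hdm := Int.mul_ediv_add_emod m (m₀ : ℤ)
    obtain ⟨s, hs⟩ := Int.eq_ofNat_of_zero_le hs0
    have hyE : x * π ^ (-q) ∈ AA A B₀ := mul_mem hx (zpow_mem hπE _)
    have hy0 : x * π ^ (-q) ≠ 0 := mul_ne_zero hx0 (zpow_ne_zero _ hπ0)
    have hyv : V.valuation (x * π ^ (-q)) ^ D = V.valuation t ^ (s : ℤ) := by
      rw [map_mul, map_zpow₀, mul_pow, hm, ← zpow_natCast (V.valuation π ^ (-q)) D, ← zpow_mul,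
        mul_comm (-q) (D : ℤ), zpow_mul, zpow_natCast, hπ, ← zpow_mul, ← zpow_add₀ hvt]
      congr 1
      rw [← hs, ← hq] at *
      linarith [hdm, mul_neg (m₀ : ℤ) q]
    have hs0' : s = 0 := by
      by_contra hne
      have hlt : s < m₀ := by
        have : (s : ℤ) < m₀ := by rw [hs] at hs1; exact hs1
        exact_mod_cast this
      exact Nat.find_min hpos hlt ⟨Nat.pos_of_ne_zero hne, _, hyE, hy0, hyv⟩
    rw [hs0', Nat.cast_zero, zpow_zero] at hyv
    have h1 : V.valuation (x * π ^ (-q)) = 1 := by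
      have h2 : V.valuation (x * π ^ (-q)) ^ D = 1 ^ D := by rw [hyv, one_pow]
      exact (pow_left_inj₀ zero_le zero_le hD.ne').mp h2
    refine ⟨q, ?_⟩
    rw [map_mul, map_zpow₀, zpow_neg] at h1
    exact (mul_inv_eq_one₀ (zpow_ne_zero _ hvπ)).mp h1

end Pool.Agent.URR
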