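import Pool.Agent.URR.Defs

set_option autoImplicit false

namespace Pool.Agent.URR

open Pool.Agent.TBR

universe u

variable {k Ω : Type u} [Field k] [Field Ω] [Algebra k Ω] [IsAlgClosed Ω]

private theorem bad_fin_unit (V : ValuationSubring Ω) (u : Ωˣ) :
    u ∈ V.unitGroup ↔ (u : Ω) ∈ V ∧ (u : Ω)⁻¹ ∈ V := by
  rw [ValuationSubring.mem_unitGroup_iff]
  constructor
  · intro h
    refine ⟨(V.valuation_le_one_iff _).1 h.le, (V.valuation_le_one_iff _).1 ?_⟩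
    rw [map_inv₀, h, inv_one]
  · rintro ⟨h1, h2⟩
    have h3 := (V.valuation_le_one_iff _).2 h1
    have h4 := (V.valuation_le_one_iff _).2 h2
    rw [map_inv₀] at h4
    refine le_antisymm h3 ?_
    have h5 : V.valuation (u : Ω) ≠ 0 := by
      rw [Valuation.ne_zero_iff]
      exact u.ne_zero
    exact (inv_le_one₀ (zero_lt_iff.2 h5)).1 h4

private theorem bad_fin_finite {N : Subgroup (Ω ≃ₐ[k] Ω)} (horb : Orb N (Set.univ : Set Ω))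
    {T : Set Ω} (a : (Ω ≃ₐ[k] Ω) → (Ω ≃ₐ[k] Ω) → Ωˣ) (ha : Lc2 T a) :
    {m | ∃ σ ∈ N, ∃ τ ∈ N, a σ τ = m}.Finite := by
  obtain ⟨S, -, h2⟩ := ha
  have hS : Orb N (S : Set Ω) := Orb.mono le_rfl (Set.subset_univ _) horb
  have h3 := finite_range N S hS (fun σ => fun τ => a σ τ)
    (fun σ _ τ _ h => funext fun ρ => h2 σ τ ρ ρ h (Ag.refl _ _))
  have h4 : (⋃ f ∈ {m | ∃ σ ∈ N, (fun τ => a σ τ) = m}, {m | ∃ τ ∈ N, f τ = m}).Finite := by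
    refine h3.biUnion ?_
    rintro f ⟨σ, hσ, rfl⟩
    exact finite_range N S hS (fun τ => a σ τ) (fun τ _ τ' _ h => h2 σ σ τ τ' (Ag.refl _ _) h)
  refine h4.subset ?_
  rintro m ⟨σ, hσ, τ, hτ, rfl⟩
  rw [Set.mem_iUnion₂]
  exact ⟨fun τ => a σ τ, ⟨σ, hσ, rfl⟩, ⟨τ, hτ, rfl⟩⟩

private theorem bad_lt_iff (V : ValuationSubring Ω) (y : Ω) :
    V.valuation y < 1 ↔ y = 0 ∨ y⁻¹ ∉ V := by
  by_cases hy : y = 0
  · subst hy
    simp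
  · have h5 : V.valuation y ≠ 0 := by
      rw [Valuation.ne_zero_iff]
      exact hy
    rw [← V.valuation_le_one_iff, map_inv₀, not_le, one_lt_inv₀ (zero_lt_iff.2 h5)]
    simp [hy]

/-- the residue of `h` is unique -/
private theorem bad_uniq (A : IntermediateField k Ω) (V : ValuationSubring Ω)
    (hV : ∀ x ∈ A, x ∈ V) (h ρ ρ' : Ω) (hρ : ρ ∈ A) (hρ' : ρ' ∈ A) (h1 : V.valuation (h - ρ) < 1)
    (h2 : V.valuation (h - ρ') < 1) : ρ = ρ' := by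
  by_contra hne
  have h3 : V.valuation (ρ' - ρ) < 1 := by
    have h4 : ρ' - ρ = (h - ρ) - (h - ρ') := by ring
    rw [h4]
    exact lt_of_le_of_lt (Valuation.map_sub _ _ _) (max_lt h1 h2)
  have h5 := TBR.V.val_A A V hV ⟨ρ' - ρ, sub_mem hρ' hρ⟩
    (fun h6 => hne (sub_eq_zero.1 (congrArg Subtype.val h6)).symm)
  exact absurd h5 (ne_of_lt h3)

/-- transport of the condition `V.valuation (h - ρ) < 1` -/
private theorem bad_tr1 {A : IntermediateField k Ω} [IsAlgClosed A] {N : Subgroup (Ω ≃ₐ[k] Ω)}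
    {B₀ : Set Ω} (hS : Sit A N B₀)
    (h : Ω) (hE : h ∈ AA A B₀) (hN : ∀ σ ∈ N, σ h = h) (V V' : ValuationSubring Ω)
    (σ : Ω ≃ₐ[k] Ω) (hσ : σ ∈ N) (h6 : ∀ x ∈ AA A B₀, x ∈ V ↔ σ x ∈ V') (ρ : Ω) (hρ : ρ ∈ A)
    (h1 : V.valuation (h - ρ) < 1) : σ ρ ∈ A ∧ V'.valuation (h - σ ρ) < 1 := by
  refine ⟨(hS.stab σ hσ ρ).2 hρ, ?_⟩
  have h2 : h - ρ ∈ AA A B₀ := sub_mem hE (le_AA A B₀ hρ)
  have h3 : h - σ ρ = σ (h - ρ) := by rw [map_sub, hN σ hσ]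
  rw [bad_lt_iff] at h1 ⊢
  rw [h3]
  rcases h1 with h1 | h1
  · left
    rw [h1, map_zero]
  · right
    intro h4
    rw [← map_inv₀] at h4
    exact h1 ((h6 _ (inv_mem h2)).2 h4)

/-- transport of the condition that a value is not a unit -/
private theorem bad_tr2 {A : IntermediateField k Ω} [IsAlgClosed A] {N : Subgroup (Ω ≃ₐ[k] Ω)}
    {B₀ : Set Ω} (a : (Ω ≃ₐ[k] Ω) → (Ω ≃ₐ[k] Ω) → Ωˣ) (ha : CocE A N B₀ a)
    (V V' : ValuationSubring Ω)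
    (σ : Ω ≃ₐ[k] Ω) (hσ : σ ∈ N) (h6 : ∀ x ∈ AA A B₀, x ∈ V ↔ σ x ∈ V')
    (h3 : ∃ τ ∈ N, ∃ ρ ∈ N, a τ ρ ∉ V.unitGroup) : ∃ τ ∈ N, ∃ ρ ∈ N, a τ ρ ∉ V'.unitGroup := by
  obtain ⟨τ, hτ, ρ, hρ, h3⟩ := h3
  by_contra hcon
  have h7 : ∀ σ ∈ N, ∀ τ ∈ N, a σ τ ∈ V'.unitGroup := by
    intro σ' hσ' τ' hτ'
    by_contra h8
    exact hcon ⟨σ', hσ', τ', hτ', h8⟩
  have h8 := ha.coc σ hσ τ hτ ρ hρ
  have h9 : σ • a τ ρ ∈ V'.unitGroup := by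
    have h10 : σ • a τ ρ = a σ τ * a (σ * τ) ρ * (a σ (τ * ρ))⁻¹ := by
      rw [h8, mul_inv_cancel_right]
    rw [h10]
    exact mul_mem (mul_mem (h7 σ hσ τ hτ) (h7 _ (N.mul_mem hσ hτ) ρ hρ))
      (inv_mem (h7 σ hσ _ (N.mul_mem hτ hρ)))
  rw [bad_fin_unit] at h9
  apply h3
  rw [bad_fin_unit]
  have h11 : ((σ • a τ ρ : Ωˣ) : Ω) = σ (a τ ρ : Ω) := rfl
  rw [h11] at h9
  refine ⟨(h6 _ (ha.mem τ ρ)).2 h9.1, (h6 _ (inv_mem (ha.mem τ ρ))).2 ?_⟩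
  rw [map_inv₀]
  exact h9.2

/--
The values of `h` at the places where `a` is not a unit. PROOF. Put
`R = {ρ ∈ A | ρ = 0 ∨ ∃ V, Pl A V ∧ V.valuation (h - ρ) < 1 ∧ ∃ σ ∈ N, ∃ τ ∈ N, a σ τ ∉ V.unitGroup}`.
(1)-(2) and (4) are clear. (3) for `σ ∈ N`, `x ∈ A`, `x ∈ R` by `V, τ, ρ`: take the valuation ring
`V' = V.comap σ⁻¹` (so `y ∈ V' ↔ σ⁻¹ y ∈ V`; it contains `A`, `V'.valuation (h - σ x) < 1` since
`σ⁻¹ (h - σ x) = h - x`; express `V.valuation y < 1` as `y⁻¹ ∉ V ∨ y = 0`), and the cocycle relation: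
if all `a σ' τ'` were units of `V'`, then `σ • a τ ρ = a σ τ * a (σ τ) ρ * (a σ (τ ρ))⁻¹` would be a unit
of `V'`, so `a τ ρ` a unit of `V`, contradiction (this is the second half of `bad_fin` in
TBM/Sit.lean, copy it). For the converse use `σ⁻¹`.
(5) finiteness: `R` is finite: the set of the values `a σ τ`, `σ, τ ∈ N` is finite (`finite_range`,
see `bad_fin_finite` in TBM/Sit.lean); for each value `m ∈ AA A B₀` (ha.mem) the set of the places of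
`E = AA A B₀` where `m` is not a unit is finite up to `Same` (`TBR.V.fin_places` in TBM/Val.lean, for
`m ∉ A`; there are none for `m ∈ A`), and `ρ` is determined by the trace of `V` on `E`
(`V.valuation (h - ρ) < 1` and `V.valuation (h - ρ') < 1` imply `ρ = ρ'` by `V.val_A`). For each
`ρ ∈ R` the places of `E` with `V.valuation (h - ρ) < 1` are finitely many, and those with `h ∉ V` too
(`fin_places` for `h - ρ` and for `h`; `h - ρ ∉ A`). Take for `𝒱` the union of the finite sets of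
`fin_places`, filtered by the condition.
(6) `V'` satisfies the condition: `h ∉ V ↔ h ∉ V'` as `σ h = h`; if `V.valuation (h - ρ) < 1` then
`V'.valuation (h - σ ρ) < 1` and `σ ρ ∈ R` by (3) (again `V.valuation y < 1 ↔ y = 0 ∨ y⁻¹ ∉ V` and
`h - ρ ∈ E`, `E` is stable).
-/
theorem exists_bad {A : IntermediateField k Ω} [IsAlgClosed A] {N : Subgroup (Ω ≃ₐ[k] Ω)}
    {B₀ : Set Ω} (hS : Sit A N B₀) (a : (Ω ≃ₐ[k] Ω) → (Ω ≃ₐ[k] Ω) → Ωˣ) (ha : CocE A N B₀ a)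
    (h : Ω) (hE : h ∈ AA A B₀) (hA : h ∉ A) (hN : ∀ σ ∈ N, σ h = h) :
    ∃ R : Set Ω, (0 : Ω) ∈ R ∧ (∀ x ∈ R, x ∈ A) ∧ (∀ σ ∈ N, ∀ x ∈ A, σ x ∈ R ↔ x ∈ R) ∧
      (∀ V : ValuationSubring Ω, Pl A V → ∀ ρ ∈ A, ρ ∉ R → V.valuation (h - ρ) < 1 →
        ∀ σ ∈ N, ∀ τ ∈ N, a σ τ ∈ V.unitGroup) ∧
      (∃ 𝒱 : Finset (ValuationSubring Ω),
        (∀ V ∈ 𝒱, Pl A V ∧ (h ∉ V ∨ ∃ ρ ∈ R, V.valuation (h - ρ) < 1)) ∧
        ∀ V, (Pl A V ∧ (h ∉ V ∨ ∃ ρ ∈ R, V.valuation (h - ρ) < 1)) →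
          ∃ V' ∈ 𝒱, ∀ x ∈ AA A B₀, x ∈ V ↔ x ∈ V') ∧
      ∀ V V' : ValuationSubring Ω, (Pl A V ∧ (h ∉ V ∨ ∃ ρ ∈ R, V.valuation (h - ρ) < 1)) →
        (∀ x ∈ A, x ∈ V') → V' ≠ ⊤ → ∀ σ ∈ N, (∀ x ∈ AA A B₀, x ∈ V ↔ σ x ∈ V') →
          (Pl A V' ∧ (h ∉ V' ∨ ∃ ρ ∈ R, V'.valuation (h - ρ) < 1)) := by
  classical
  set R : Set Ω := {ρ | ρ ∈ A ∧ (ρ = 0 ∨ ∃ V : ValuationSubring Ω, Pl A V ∧
    V.valuation (h - ρ) < 1 ∧ ∃ σ ∈ N, ∃ τ ∈ N, a σ τ ∉ V.unitGroup)} with hR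
  -- stability
  have hst : ∀ σ ∈ N, ∀ x ∈ A, x ∈ R → σ x ∈ R := by
    rintro σ hσ x hx ⟨-, h1 | ⟨V, h1, h2, h3⟩⟩
    · refine ⟨(hS.stab σ hσ x).2 hx, Or.inl ?_⟩
      rw [h1, map_zero]
    · set V' : ValuationSubring Ω := V.comap ((σ⁻¹ : Ω ≃ₐ[k] Ω) : Ω →+* Ω) with hV'
      have hmem : ∀ y, y ∈ V' ↔ (σ⁻¹ : Ω ≃ₐ[k] Ω) y ∈ V := fun y => Iff.rfl
      have hinv : ∀ y, (σ⁻¹ : Ω ≃ₐ[k] Ω) (σ y) = y := fun y => by
        rw [← AlgEquiv.mul_apply, inv_mul_cancel, AlgEquiv.one_apply]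
      have h6 : ∀ y ∈ AA A B₀, y ∈ V ↔ σ y ∈ V' := fun y _ => by rw [hmem, hinv]
      have hPl : Pl A V' := by
        refine ⟨fun y hy => ?_, fun h5 => h1.2 ?_⟩
        · rw [hmem]
          exact h1.1 _ ((hS.stab _ (N.inv_mem hσ) y).2 hy)
        · rw [eq_top_iff]
          intro y _
          have h7 : σ y ∈ V' := by
            rw [h5]
            trivial
          rw [hmem, hinv] at h7
          exact h7
      obtain ⟨h8, h9⟩ := bad_tr1 hS h hE hN V V' σ hσ h6 x hx h2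
      exact ⟨h8, Or.inr ⟨V', hPl, h9, bad_tr2 a ha V V' σ hσ h6 h3⟩⟩
  have hst' : ∀ σ ∈ N, ∀ x ∈ A, σ x ∈ R ↔ x ∈ R := by
    intro σ hσ x hx
    refine ⟨fun h1 => ?_, hst σ hσ x hx⟩
    have h2 := hst _ (N.inv_mem hσ) (σ x) ((hS.stab σ hσ x).2 hx) h1
    rwa [← AlgEquiv.mul_apply, inv_mul_cancel, AlgEquiv.one_apply] at h2
  -- finitely many places
  set B : Finset Ω := hS.fin.toFinset with hB
  have hBc : AA A B₀ = AA A (B : Set Ω) := by rw [hB, Set.Finite.coe_toFinset]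
  have hpl : ∀ t : Ω, ∃ 𝒱 : Finset (ValuationSubring Ω), t ∈ AA A B₀ → t ∉ A →
      ((∀ V ∈ 𝒱, (∀ x ∈ A, x ∈ V) ∧ V ≠ ⊤) ∧
      ∀ V : ValuationSubring Ω, (∀ x ∈ A, x ∈ V) → V ≠ ⊤ → (t ∉ V ∨ t⁻¹ ∉ V) →
        ∃ V' ∈ 𝒱, ∀ x ∈ AA A B₀, x ∈ V ↔ x ∈ V') := by
    intro t
    by_cases h : t ∈ AA A B₀ ∧ t ∉ A
    · obtain ⟨𝒱, h1⟩ := TBR.fin_places A hS.trd (AA A B₀) B hBc t h.1 h.2
      exact ⟨𝒱, fun _ _ => h1⟩
    · exact ⟨∅, fun h1 h2 => absurd ⟨h1, h2⟩ h⟩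
  choose 𝒱 h𝒱 using hpl
  -- a function with a value that is not a unit
  have hnu : ∀ V : ValuationSubring Ω, Pl A V → ∀ t : Ω, (t ∉ V ∨ t⁻¹ ∉ V) → t ∉ A := by
    intro V hV t h1 h2
    rcases h1 with h1 | h1
    · exact h1 (hV.1 _ h2)
    · exact h1 (hV.1 _ (inv_mem h2))
  -- the finite set of the values of `a`
  have hfin := bad_fin_finite hS.orb a ha.lc
  set T : Finset Ω := hfin.toFinset.image (fun u : Ωˣ => (u : Ω)) with hT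
  have hlt : ∀ (V V' : ValuationSubring Ω) (y : Ω), y ∈ AA A B₀ →
      (∀ x ∈ AA A B₀, x ∈ V ↔ x ∈ V') → V.valuation y < 1 → V'.valuation y < 1 := by
    intro V V' y hy h1 h2
    rw [bad_lt_iff] at h2 ⊢
    rcases h2 with h2 | h2
    · exact Or.inl h2
    · exact Or.inr fun h3 => h2 ((h1 _ (inv_mem hy)).2 h3)
  have hRfin : R.Finite := by
    have h1 : R ⊆ {0} ∪ ⋃ V ∈ ((T.biUnion 𝒱).filter (fun V => ∀ x ∈ A, x ∈ V) : Finset _),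
        {ρ | ρ ∈ A ∧ V.valuation (h - ρ) < 1} := by
      rintro ρ ⟨hρ, h2 | ⟨V, h2, h3, σ, hσ, τ, hτ, h4⟩⟩
      · exact Or.inl h2
      · right
        rw [Set.mem_iUnion₂]
        have h5 : (a σ τ : Ω) ∉ V ∨ (a σ τ : Ω)⁻¹ ∉ V := by
          rw [bad_fin_unit, not_and_or] at h4
          exact h4
        obtain ⟨h6, h7⟩ := h𝒱 (a σ τ : Ω) (ha.mem σ τ) (hnu V h2 _ h5)
        obtain ⟨V', h8, h9⟩ := h7 V h2.1 h2.2 h5
        refine ⟨V', ?_, hρ, hlt V V' _ (sub_mem hE (le_AA A B₀ hρ)) h9 h3⟩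
        rw [Finset.mem_filter, Finset.mem_biUnion]
        refine ⟨⟨(a σ τ : Ω), ?_, h8⟩, (h6 V' h8).1⟩
        rw [hT, Finset.mem_image]
        refine ⟨a σ τ, ?_, rfl⟩
        rw [Set.Finite.mem_toFinset]
        exact ⟨σ, hσ, τ, hτ, rfl⟩
    refine Set.Finite.subset ((Set.finite_singleton _).union ?_) h1
    refine Set.Finite.biUnion (Finset.finite_toSet _) ?_
    intro V hV
    apply Set.Subsingleton.finite
    rintro ρ ⟨h2, h3⟩ ρ' ⟨h4, h5⟩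
    exact bad_uniq A V (Finset.mem_filter.1 hV).2 h ρ ρ' h2 h4 h3 h5
  have hcond : ∀ V V' : ValuationSubring Ω,
      (Pl A V ∧ (h ∉ V ∨ ∃ ρ ∈ R, V.valuation (h - ρ) < 1)) →
      (∀ x ∈ A, x ∈ V') → V' ≠ ⊤ → ∀ σ ∈ N, (∀ x ∈ AA A B₀, x ∈ V ↔ σ x ∈ V') →
        (Pl A V' ∧ (h ∉ V' ∨ ∃ ρ ∈ R, V'.valuation (h - ρ) < 1)) := by
    rintro V V' ⟨h1, h2⟩ h3 h4 σ hσ h5
    refine ⟨⟨h3, h4⟩, ?_⟩
    rcases h2 with h2 | ⟨ρ, h6, h7⟩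
    · left
      intro h8
      apply h2
      rw [h5 h hE, hN σ hσ]
      exact h8
    · right
      obtain ⟨-, h9⟩ := bad_tr1 hS h hE hN V V' σ hσ h5 ρ h6.1 h7
      exact ⟨σ ρ, hst σ hσ ρ h6.1 h6, h9⟩
  refine ⟨R, ⟨zero_mem A, Or.inl rfl⟩, fun x hx => hx.1, hst', ?_, ?_, hcond⟩
  · intro V hV ρ hρ hρR h1 σ hσ τ hτ
    by_contra h2
    exact hρR ⟨hρ, Or.inr ⟨V, hV, h1, σ, hσ, τ, hτ, h2⟩⟩
  · refine ⟨(𝒱 h ∪ hRfin.toFinset.biUnion (fun ρ => 𝒱 (h - ρ))).filter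
      (fun V => Pl A V ∧ (h ∉ V ∨ ∃ ρ ∈ R, V.valuation (h - ρ) < 1)), ?_, ?_⟩
    · intro V hV
      exact (Finset.mem_filter.1 hV).2
    · rintro V ⟨h1, h2⟩
      have key : ∃ V' ∈ (𝒱 h ∪ hRfin.toFinset.biUnion (fun ρ => 𝒱 (h - ρ))),
          ((∀ x ∈ A, x ∈ V') ∧ V' ≠ ⊤) ∧ ∀ x ∈ AA A B₀, x ∈ V ↔ x ∈ V' := by
        rcases h2 with h2 | ⟨ρ, h3, h4⟩
        · obtain ⟨V', h5, h6⟩ := (h𝒱 h hE hA).2 V h1.1 h1.2 (Or.inl h2)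
          exact ⟨V', Finset.mem_union_left _ h5, (h𝒱 h hE hA).1 V' h5, h6⟩
        · have h7 : h - ρ ∈ AA A B₀ := sub_mem hE (le_AA A B₀ h3.1)
          have h8 : h - ρ ∉ A := fun h9 => hA (by
            have h10 := add_mem h9 h3.1
            rwa [sub_add_cancel] at h10)
          have h9 : (h - ρ) ∉ V ∨ (h - ρ)⁻¹ ∉ V := by
            rw [bad_lt_iff] at h4
            rcases h4 with h4 | h4
            · exact absurd (h4 ▸ zero_mem A) h8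
            · exact Or.inr h4
          obtain ⟨V', h5, h6⟩ := (h𝒱 _ h7 h8).2 V h1.1 h1.2 h9
          refine ⟨V', Finset.mem_union_right _ ?_, (h𝒱 _ h7 h8).1 V' h5, h6⟩
          rw [Finset.mem_biUnion]
          exact ⟨ρ, (Set.Finite.mem_toFinset _).2 h3, h5⟩
      obtain ⟨V', h3, ⟨h4, h5⟩, h6⟩ := key
      refine ⟨V', Finset.mem_filter.2 ⟨h3, ?_⟩, h6⟩
      exact hcond V V' ⟨h1, h2⟩ h4 h5 1 N.one_mem (fun x hx => by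
        rw [AlgEquiv.one_apply]; exact h6 x hx)

end Pool.Agent.URR
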