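import Pool.Agent.URR.Defs

set_option autoImplicit false

namespace Pool.Agent.URR

open Pool.Agent.TBR

universe u

variable {k Ω : Type u} [Field k] [Field Ω] [Algebra k Ω] [IsAlgClosed Ω]

/--
PROOF. For each `s` the automorphism `σ⁻¹ * t s * σ` fixes `F = AA A {h}` (σ maps `F` onto itself:
it maps `A` onto itself and fixes `h`; for `x ∈ F`, `σ x ∈ F`, so `t s (σ x) = σ x`); let `π s` be the
unique index with `Ag E (σ⁻¹ * t s * σ) (t (π s))`. `π` is injective: if `π s = π s'` then `t s` and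
`t s'` agree on `σ E = E` (hE1 for σ and σ⁻¹), so `s = s'` by the uniqueness; so `π` is bijective.
`t s (σ f) = σ (t (π s) f)` for `f ∈ E`; multiply.
-/
theorem prod_smul (A : IntermediateField k Ω) (B₀ : Set Ω) (h : Ω) (d : ℕ)
    (t : Fin d → (Ω ≃ₐ[k] Ω))
    (ht : ∀ s, t s ∈ Fx k ((AA A {h} : IntermediateField k Ω) : Set Ω))
    (ht2 : ∀ g ∈ Fx k ((AA A {h} : IntermediateField k Ω) : Set Ω),
        ∃! s, Ag ((AA A B₀ : IntermediateField k Ω) : Set Ω) g (t s))
    (σ : Ω ≃ₐ[k] Ω) (hσA : ∀ x : Ω, σ x ∈ A ↔ x ∈ A) (hσh : σ h = h)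
    (hσE : ∀ x : Ω, σ x ∈ AA A B₀ ↔ x ∈ AA A B₀) (f : Ω) (hf : f ∈ AA A B₀) :
    ∏ s, t s (σ f) = σ (∏ s, t s f) := by
  classical
  have hF : ∀ x ∈ (AA A {h} : IntermediateField k Ω), σ x ∈ (AA A {h} : IntermediateField k Ω) := by
    have h1 : (AA A {h} : IntermediateField k Ω) ≤
        (AA A {h} : IntermediateField k Ω).comap (σ : Ω →ₐ[k] Ω) := by
      refine sup_le ?_ ?_
      · intro x hx
        exact le_AA A {h} ((hσA x).2 hx)
      · rw [IntermediateField.adjoin_le_iff]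
        rintro _ rfl
        change σ _ ∈ (AA A _ : IntermediateField k Ω)
        rw [hσh]
        exact sub_AA A _ rfl
    exact fun x hx => h1 hx
  have hg : ∀ s, σ⁻¹ * t s * σ ∈ Fx k ((AA A {h} : IntermediateField k Ω) : Set Ω) := by
    intro s x hx
    rw [AlgEquiv.mul_apply, AlgEquiv.mul_apply, ht s (σ x) (hF x hx), ← AlgEquiv.mul_apply,
      inv_mul_cancel, AlgEquiv.one_apply]
  choose π hπ _ using fun s => ht2 _ (hg s)
  have hcomp : ∀ s, ∀ x ∈ AA A B₀, t s (σ x) = σ (t (π s) x) := by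
    intro s x hx
    have h1 := hπ s x hx
    rw [AlgEquiv.mul_apply, AlgEquiv.mul_apply] at h1
    rw [← h1, ← AlgEquiv.mul_apply σ σ⁻¹, mul_inv_cancel, AlgEquiv.one_apply]
  have hinj : Function.Injective π := by
    intro s s' hss
    have h1 : ∀ y ∈ AA A B₀, t s y = t s' y := by
      intro y hy
      have e : σ (σ⁻¹ y) = y := by
        rw [← AlgEquiv.mul_apply, mul_inv_cancel, AlgEquiv.one_apply]
      have hy' : σ⁻¹ y ∈ AA A B₀ := by
        rw [← hσE, e]
        exact hy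
      have h2 := hcomp s _ hy'
      have h3 := hcomp s' _ hy'
      rw [e] at h2 h3
      rw [h2, h3, hss]
    obtain ⟨s0, -, hu⟩ := ht2 (t s) (ht s)
    rw [hu s fun y _ => rfl, hu s' fun y hy => h1 y hy]
  have hbij : Function.Bijective π := Finite.injective_iff_bijective.1 hinj
  rw [map_prod, ← Equiv.prod_comp (Equiv.ofBijective π hbij) fun s => σ (t s f)]
  exact Finset.prod_congr rfl fun s _ => hcomp s f hf

end Pool.Agent.URR
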