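import Pool.Agent.URR.Defs

set_option autoImplicit false

namespace Pool.Agent.URR

open Pool.Agent.TBR

universe u

variable {k Ω : Type u} [Field k] [Field Ω] [Algebra k Ω]

open Polynomial in
private theorem line_tr (A : IntermediateField k Ω) [IsAlgClosed A] (h : Ω) (hA : h ∉ A) :
    Transcendental A h := by
  intro halg
  have hint : IsIntegral A h := halg.isIntegral
  have h1 := minpoly.mem_range_of_degree_eq_one A h
    (IsAlgClosed.degree_eq_one_of_irreducible A (minpoly.irreducible hint))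
  obtain ⟨a, ha⟩ := h1
  exact hA (ha ▸ a.2)

/-- reduction to polynomials without common roots -/
private theorem line_cop {F : Type*} [Field F] : ∀ (n : ℕ) (r s : Polynomial F), r ≠ 0 → s ≠ 0 →
    r.natDegree ≤ n → ∃ r' s' : Polynomial F, r' ≠ 0 ∧ s' ≠ 0 ∧ r * s' = r' * s ∧
      ∀ ρ : F, r'.IsRoot ρ → s'.IsRoot ρ → False := by
  intro n
  induction n with
  | zero =>
    intro r s hr hs hn
    refine ⟨r, s, hr, hs, rfl, fun ρ h1 _ => ?_⟩
    have h2 : r.natDegree = 0 := by omega
    rw [Polynomial.eq_C_of_natDegree_eq_zero h2] at h1 hr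
    rw [Polynomial.IsRoot.def, Polynomial.eval_C] at h1
    rw [h1, Polynomial.C_0] at hr
    exact hr rfl
  | succ n ih =>
    intro r s hr hs hn
    by_cases hc : ∃ ρ : F, r.IsRoot ρ ∧ s.IsRoot ρ
    · obtain ⟨ρ, h1, h2⟩ := hc
      obtain ⟨r1, hr1⟩ := Polynomial.dvd_iff_isRoot.mpr h1
      obtain ⟨s1, hs1⟩ := Polynomial.dvd_iff_isRoot.mpr h2
      have hr10 : r1 ≠ 0 := by rintro rfl; rw [mul_zero] at hr1; exact hr hr1
      have hs10 : s1 ≠ 0 := by rintro rfl; rw [mul_zero] at hs1; exact hs hs1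
      have hd : r.natDegree = r1.natDegree + 1 := by
        rw [hr1, Polynomial.natDegree_mul (Polynomial.X_sub_C_ne_zero ρ) hr10,
          Polynomial.natDegree_X_sub_C]
        omega
      obtain ⟨r', s', h3, h4, h5, h6⟩ := ih r1 s1 hr10 hs10 (by omega)
      refine ⟨r', s', h3, h4, ?_, h6⟩
      rw [hr1, hs1]
      linear_combination (Polynomial.X - Polynomial.C ρ) * h5
    · refine ⟨r, s, hr, hs, rfl, fun ρ h1 h2 => hc ⟨ρ, h1, h2⟩⟩

private theorem line_sub (A : IntermediateField k Ω) (h : Ω) (hA : h ∉ A) (ρ : A) :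
    h - (ρ : Ω) ≠ 0 := fun h0 => hA (sub_eq_zero.mp h0 ▸ ρ.2)

open scoped Classical in
/-- the product of the `h - ρ` over the roots outside of `R` -/
private noncomputable def linePhi (A : IntermediateField k Ω) (h : Ω) (hA : h ∉ A) (R : Set Ω)
    (q : Polynomial A) : Ωˣ :=
  ((q.roots.filter (fun ρ : A => (ρ : Ω) ∉ R)).map
    (fun ρ : A => Units.mk0 (h - (ρ : Ω)) (line_sub A h hA ρ))).prod

private theorem line_phi_mul (A : IntermediateField k Ω) (h : Ω) (hA : h ∉ A) (R : Set Ω)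
    (q q' : Polynomial A) (hq : q ≠ 0) (hq' : q' ≠ 0) :
    linePhi A h hA R (q * q') = linePhi A h hA R q * linePhi A h hA R q' := by
  classical
  unfold linePhi
  rw [Polynomial.roots_mul (mul_ne_zero hq hq'), Multiset.filter_add, Multiset.map_add,
    Multiset.prod_add]

private theorem line_phi_mem (A : IntermediateField k Ω) (h : Ω) (hA : h ∉ A) (R : Set Ω)
    (q : Polynomial A) : (linePhi A h hA R q : Ω) ∈ AA A {h} := by
  classical
  have key : ∀ m : Multiset A, (((m.map
      (fun ρ : A => Units.mk0 (h - (ρ : Ω)) (line_sub A h hA ρ))).prod : Ωˣ) : Ω) ∈ AA A {h} := by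
    intro m
    induction m using Multiset.induction with
    | empty => simp [one_mem]
    | cons a m ih =>
      rw [Multiset.map_cons, Multiset.prod_cons, Units.val_mul]
      refine mul_mem ?_ ih
      rw [Units.val_mk0]
      exact sub_mem (sub_AA A {h} rfl) (le_AA A {h} a.2)
  exact key _

private theorem line_phi_unit (A : IntermediateField k Ω) (h : Ω) (hA : h ∉ A) (R : Set Ω)
    (q : Polynomial A) (V : ValuationSubring Ω) (hV : ∀ x ∈ A, x ∈ V) (ρ : Ω) (hρ : ρ ∈ A)
    (hρR : ρ ∈ R) (hv : V.valuation (h - ρ) < 1) :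
    V.valuation (linePhi A h hA R q : Ω) = 1 := by
  classical
  have key : ∀ m : Multiset A, (∀ a ∈ m, (a : Ω) ∉ R) → V.valuation (((m.map
      (fun ρ : A => Units.mk0 (h - (ρ : Ω)) (line_sub A h hA ρ))).prod : Ωˣ) : Ω) = 1 := by
    intro m
    induction m using Multiset.induction with
    | empty => intro _; simp
    | cons a m ih =>
      intro hm
      rw [Multiset.map_cons, Multiset.prod_cons, Units.val_mul, map_mul,
        ih fun b hb => hm b (Multiset.mem_cons_of_mem hb), mul_one, Units.val_mk0]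
      have haR : (a : Ω) ∉ R := hm a (Multiset.mem_cons_self a m)
      have hne : (⟨ρ, hρ⟩ : A) - a ≠ 0 := by
        intro h0
        have h1 : (⟨ρ, hρ⟩ : A) = a := sub_eq_zero.mp h0
        exact haR (h1 ▸ hρR)
      have h1 : V.valuation (((⟨ρ, hρ⟩ : A) - a : A) : Ω) = 1 := Pool.Agent.TBR.V.val_A A V hV _ hne
      have h2 : h - (a : Ω) = (h - ρ) + (((⟨ρ, hρ⟩ : A) - a : A) : Ω) := by
        push_cast
        ring
      rw [h2, Valuation.map_add_eq_of_lt_right _ (by rw [h1]; exact hv), h1]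
  exact key _ fun a ha => (Multiset.mem_filter.mp ha).2

/-- value of a polynomial at a place `h = ρ` -/
private theorem line_val (A : IntermediateField k Ω) (h : Ω) (q : Polynomial A)
    (V : ValuationSubring Ω) (hV : ∀ x ∈ A, x ∈ V) (ρ : A) (hv : V.valuation (h - (ρ : Ω)) < 1) :
    (¬ q.IsRoot ρ → V.valuation (Polynomial.aeval h q) = 1) ∧
      (q.IsRoot ρ → V.valuation (Polynomial.aeval h q) < 1) := by
  have hhV : h ∈ V := by
    have h1 : h - (ρ : Ω) ∈ V := (V.valuation_le_one_iff _).mp hv.le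
    have h2 := add_mem h1 (hV _ ρ.2)
    rwa [sub_add_cancel] at h2
  have hmem : ∀ p : Polynomial A, Polynomial.aeval h p ∈ V := by
    intro p
    rw [Polynomial.aeval_eq_sum_range]
    refine sum_mem fun i _ => ?_
    rw [Algebra.smul_def]
    exact mul_mem (hV _ (p.coeff i).2) (pow_mem hhV i)
  obtain ⟨p, hp⟩ := Polynomial.X_sub_C_dvd_sub_C_eval (a := ρ) (p := q)
  have h1 : Polynomial.aeval h q = (h - (ρ : Ω)) * Polynomial.aeval h p +
      ((q.eval ρ : A) : Ω) := by
    have h2 := congrArg (Polynomial.aeval h) hp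
    rw [map_sub, map_mul, map_sub, Polynomial.aeval_X, Polynomial.aeval_C,
      Polynomial.aeval_C] at h2
    have h3 : ∀ a : A, algebraMap A Ω a = (a : Ω) := fun a => rfl
    rw [h3, h3] at h2
    linear_combination h2
  have h2 : V.valuation ((h - (ρ : Ω)) * Polynomial.aeval h p) < 1 := by
    rw [map_mul]
    exact mul_lt_one_of_lt_of_le hv ((V.valuation_le_one_iff _).mpr (hmem p))
  refine ⟨fun hr => ?_, fun hr => ?_⟩
  · have h3 : V.valuation ((q.eval ρ : A) : Ω) = 1 := Pool.Agent.TBR.V.val_A A V hV _ hr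
    rw [h1, Valuation.map_add_eq_of_lt_right _ (by rw [h3]; exact h2), h3]
  · rw [Polynomial.IsRoot.def] at hr
    rw [h1, hr, ZeroMemClass.coe_zero, add_zero]
    exact h2

/-- there is a place `h = ρ` -/
private theorem line_pl (A : IntermediateField k Ω) [IsAlgClosed A] (h : Ω) (hA : h ∉ A) (ρ : A) :
    ∃ V : ValuationSubring Ω, (∀ x ∈ A, x ∈ V) ∧ V.valuation (h - (ρ : Ω)) < 1 := by
  by_contra hcon
  push Not at hcon
  set T : Ω := (h - (ρ : Ω))⁻¹ with hT
  have hne := line_sub A h hA ρ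
  have hTA : T ∉ A := by
    intro h1
    have h2 : h - (ρ : Ω) ∈ A := by
      have := inv_mem h1
      rwa [hT, inv_inv] at this
    have h3 := add_mem h2 ρ.2
    rw [sub_add_cancel] at h3
    exact hA h3
  have h1 : T ∈ (integralClosure (Subring.closure (Set.range (algebraMap A Ω))) Ω).toSubring := by
    rw [← iInf_valuationSubring_superset, Subring.mem_iInf]
    rintro ⟨V, hV⟩
    have h2 := hcon V fun x hx => hV ⟨⟨x, hx⟩, rfl⟩
    refine (V.valuation_le_one_iff T).mp ?_
    rw [hT, map_inv₀]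
    exact inv_le_one_of_one_le₀ h2
  obtain ⟨p, hp, hpx⟩ : IsIntegral (Subring.closure (Set.range (algebraMap A Ω))) T := h1
  have hcl : Subring.closure (Set.range (algebraMap A Ω)) = (algebraMap A Ω).range := by
    rw [← RingHom.coe_range, Subring.closure_eq]
  have hsurj : ∀ z : Subring.closure (Set.range (algebraMap A Ω)),
      ∃ q : A, algebraMap A Ω q = (z : Ω) := by
    rintro ⟨z, hz⟩
    rw [hcl] at hz
    exact hz
  choose q hq using hsurj
  have : p.map (algebraMap (Subring.closure (Set.range (algebraMap A Ω))) Ω) ∈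
      Polynomial.lifts (algebraMap A Ω) := by
    rw [Polynomial.lifts_iff_coeff_lifts]
    intro n
    rw [Polynomial.coeff_map]
    exact ⟨q (p.coeff n), hq _⟩
  obtain ⟨r, hr, hr1, hr2⟩ := Polynomial.lifts_and_natDegree_eq_and_monic this (hp.map _)
  apply line_tr A T hTA
  refine ⟨r, hr2.ne_zero, ?_⟩
  rw [Polynomial.aeval_def, Polynomial.eval₂_eq_eval_map, hr, Polynomial.eval_map]
  exact hpx

/-- `w` as a quotient of polynomials without common roots -/
private theorem line_rep (A : IntermediateField k Ω) (h : Ω)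
    (htr : Transcendental A h) (w : Ωˣ) (hw : (w : Ω) ∈ AA A {h}) :
    ∃ r s : Polynomial A, r ≠ 0 ∧ s ≠ 0 ∧
      (w : Ω) * Polynomial.aeval h s = Polynomial.aeval h r ∧
      ∀ ρ : A, r.IsRoot ρ → s.IsRoot ρ → False := by
  obtain ⟨r, s, hrs⟩ := (V.mem_AA A h _).mp hw
  have hr : r ≠ 0 := by rintro rfl; rw [map_zero, zero_div] at hrs; exact w.ne_zero hrs
  have hs : s ≠ 0 := by rintro rfl; rw [map_zero, div_zero] at hrs; exact w.ne_zero hrs
  obtain ⟨r', s', h1, h2, h3, h4⟩ := line_cop _ r s hr hs le_rfl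
  refine ⟨r', s', h1, h2, ?_, h4⟩
  have hs0 : Polynomial.aeval h s ≠ 0 := fun h0 => hs (transcendental_iff.mp htr s h0)
  have h5 := congrArg (Polynomial.aeval h) h3
  rw [map_mul, map_mul] at h5
  rw [hrs, div_mul_eq_mul_div, h5, mul_div_assoc, div_self hs0, mul_one]

private theorem line_wd (A : IntermediateField k Ω) (h : Ω) (hA : h ∉ A) (R : Set Ω)
    (htr : Transcendental A h) (w : Ωˣ) (r s r' s' : Polynomial A) (hr : r ≠ 0) (hs : s ≠ 0)
    (hr' : r' ≠ 0) (hs' : s' ≠ 0) (h1 : (w : Ω) * Polynomial.aeval h s = Polynomial.aeval h r)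
    (h2 : (w : Ω) * Polynomial.aeval h s' = Polynomial.aeval h r') :
    linePhi A h hA R r / linePhi A h hA R s = linePhi A h hA R r' / linePhi A h hA R s' := by
  have h3 : r * s' = r' * s := by
    have h4 : Polynomial.aeval h (r * s' - r' * s) = 0 := by
      rw [map_sub, map_mul, map_mul, ← h1, ← h2]
      ring
    exact sub_eq_zero.mp (transcendental_iff.mp htr _ h4)
  rw [div_eq_div_iff_mul_eq_mul, ← line_phi_mul A h hA R r s' hr hs',
    ← line_phi_mul A h hA R r' s hr' hs, h3]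

/--
The part of a rational function of `h` with its zeros and poles outside of `R`. PROOF. `h` is
transcendental over the algebraically closed field `A`. For a polynomial `q ≠ 0` over `A` put
`φ q = ∏_{ρ ∈ roots of q (with multiplicity), ρ ∉ R} (h - ρ) ∈ Ω`, so `φ (q q') = φ q φ q'`
(`Polynomial.roots_mul`). Every element `w ≠ 0` of `AA A {h}` is `q(h) / q'(h)` with `q, q' ≠ 0`
coprime polynomials over `A` (`AA A {h} = (IntermediateField.adjoin A {h}).restrictScalars k`,
`IntermediateField.mem_adjoin_simple_iff`, divide by the gcd; cf. `mem_AA` in TBM/Val.lean), and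
`φ q / φ q'` depends only on `w` (if `q₁ q₂' = q₂ q₁'` as polynomials, as `h` is transcendental). Put
`Ψ w = φ q / φ q'` for `w ∈ AA A {h}`, and `Ψ w = 1` for all other units `w` of `Ω`. (i), (ii) clear.
(iii) `σ (q(h)) = q^σ(h)`, the roots of `q^σ` are the images of the roots of `q`
(`Polynomial.roots_map` for an isomorphism, or `Polynomial.map` and `rootMultiplicity`), `R` is stable.
For (iv)-(vi): `q, q'` coprime, `V ⊇ A` with `V.valuation (h - ρ) < 1`, `ρ ∈ A`: `q(h) - q(ρ) ∈ m_V`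
(`X - ρ` divides `q - q(ρ)`), nonzero elements of `A` are units (`TBR.V.val_A`), so `q(h)` is a unit of
`V` iff `q(ρ) ≠ 0`. If `w` is a unit of `V` then `q(ρ) ≠ 0` and `q'(ρ) ≠ 0`: by coprimality at most one
of them is 0, and if one of them is 0 then `w` or `w⁻¹` is in `m_V`. For every `ρ ∈ A` there is such a
`V`, `V ⊇ A`, `h - ρ ∈ m_V` (a valuation ring with `h - ρ` in its maximal ideal, `center` in
TBM/Crv.lean or `exists_W` in TBM/Weil.lean for `T = (h - ρ)⁻¹`). (iv) so `q, q'` have no roots outside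
`R`. (v) `q, q'` have no roots in `R`: `q(h) = lc(q) φ q`, as `q` splits; so `w = (lc q / lc q') Ψ w`.
(vi) `φ q` is a product of elements `h - ρ'`, `ρ' ∉ R`, and `h - ρ' = (h - ρ) + (ρ - ρ')` is a unit
of `V`.
-/
theorem exists_line (A : IntermediateField k Ω) [IsAlgClosed A] (h : Ω) (hA : h ∉ A) (R : Set Ω) :
    ∃ Ψ : Ωˣ → Ωˣ,
      (∀ w : Ωˣ, (w : Ω) ∈ AA A {h} → (Ψ w : Ω) ∈ AA A {h}) ∧
      (∀ w w' : Ωˣ, (w : Ω) ∈ AA A {h} → (w' : Ω) ∈ AA A {h} → Ψ (w * w') = Ψ w * Ψ w') ∧
      (∀ σ : Ω ≃ₐ[k] Ω, (∀ x : Ω, σ x ∈ A ↔ x ∈ A) → σ h = h →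
        (∀ x ∈ A, σ x ∈ R ↔ x ∈ R) →
          ∀ w : Ωˣ, (w : Ω) ∈ AA A {h} → Ψ (σ • w) = σ • Ψ w) ∧
      (∀ w : Ωˣ, (w : Ω) ∈ AA A {h} →
        (∀ V : ValuationSubring Ω, (∀ x ∈ A, x ∈ V) → ∀ ρ ∈ A, ρ ∉ R → V.valuation (h - ρ) < 1 →
          w ∈ V.unitGroup) → Ψ w = 1) ∧
      (∀ w : Ωˣ, (w : Ω) ∈ AA A {h} →
        (∀ V : ValuationSubring Ω, (∀ x ∈ A, x ∈ V) → ∀ ρ ∈ A, ρ ∈ R → V.valuation (h - ρ) < 1 →
          w ∈ V.unitGroup) → ((w * (Ψ w)⁻¹ : Ωˣ) : Ω) ∈ A) ∧
      ∀ w : Ωˣ, (w : Ω) ∈ AA A {h} → ∀ V : ValuationSubring Ω, (∀ x ∈ A, x ∈ V) →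
        ∀ ρ ∈ A, ρ ∈ R → V.valuation (h - ρ) < 1 → Ψ w ∈ V.unitGroup := by
  classical
  have htr := line_tr A h hA
  have hae : ∀ q : Polynomial A, q ≠ 0 → Polynomial.aeval h q ≠ 0 := fun q hq h0 =>
    hq (transcendental_iff.mp htr q h0)
  have ex : ∀ w : Ωˣ, ∃ u : Ωˣ, ∀ r s : Polynomial A, r ≠ 0 → s ≠ 0 →
      (w : Ω) * Polynomial.aeval h s = Polynomial.aeval h r →
        u = linePhi A h hA R r / linePhi A h hA R s := by
    intro w
    by_cases hx : ∃ r s : Polynomial A, r ≠ 0 ∧ s ≠ 0 ∧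
      (w : Ω) * Polynomial.aeval h s = Polynomial.aeval h r
    · obtain ⟨r, s, hr, hs, h1⟩ := hx
      exact ⟨linePhi A h hA R r / linePhi A h hA R s, fun r' s' hr' hs' h2 =>
        line_wd A h hA R htr w r s r' s' hr hs hr' hs' h1 h2⟩
    · exact ⟨1, fun r s hr hs h1 => absurd ⟨r, s, hr, hs, h1⟩ hx⟩
  choose Ψ hΨ using ex
  have hval : ∀ (V : ValuationSubring Ω) (w : Ωˣ) (r s : Polynomial A),
      (w : Ω) * Polynomial.aeval h s = Polynomial.aeval h r →
      V.valuation (w : Ω) * V.valuation (Polynomial.aeval h s) =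
        V.valuation (Polynomial.aeval h r) := by
    intro V w r s h1
    rw [← map_mul, h1]
  -- a unit at `h = ρ` has numerator and denominator without zeros at `ρ`
  have hroot : ∀ (w : Ωˣ) (r s : Polynomial A), (∀ ρ : A, r.IsRoot ρ → s.IsRoot ρ → False) →
      (w : Ω) * Polynomial.aeval h s = Polynomial.aeval h r → ∀ ρ : A,
      (∀ V : ValuationSubring Ω, (∀ x ∈ A, x ∈ V) → V.valuation (h - (ρ : Ω)) < 1 →
        w ∈ V.unitGroup) → ¬ r.IsRoot ρ ∧ ¬ s.IsRoot ρ := by
    intro w r s hcop h1 ρ hu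
    obtain ⟨V, hV, hv⟩ := line_pl A h hA ρ
    have h2 := hval V w r s h1
    have h3 : V.valuation (w : Ω) = 1 := hu V hV hv
    rw [h3, one_mul] at h2
    obtain ⟨hr1, hr2⟩ := line_val A h r V hV ρ hv
    obtain ⟨hs1, hs2⟩ := line_val A h s V hV ρ hv
    refine ⟨fun h4 => ?_, fun h4 => ?_⟩
    · have h5 := hr2 h4
      have h6 := hs1 fun h6 => hcop ρ h4 h6
      rw [h2] at h6
      exact absurd h6 h5.ne
    · have h5 := hs2 h4
      have h6 := hr1 fun h6 => hcop ρ h6 h4
      rw [h2] at h5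
      exact absurd h6 h5.ne
  refine ⟨Ψ, ?_, ?_, ?_, ?_, ?_, ?_⟩
  · intro w hw
    obtain ⟨r, s, hr, hs, h1, _⟩ := line_rep A h htr w hw
    rw [hΨ w r s hr hs h1, Units.val_div_eq_div_val]
    exact div_mem (line_phi_mem A h hA R r) (line_phi_mem A h hA R s)
  · intro w w' hw hw'
    obtain ⟨r, s, hr, hs, h1, _⟩ := line_rep A h htr w hw
    obtain ⟨r', s', hr', hs', h1', _⟩ := line_rep A h htr w' hw'
    rw [hΨ w r s hr hs h1, hΨ w' r' s' hr' hs' h1',
      hΨ (w * w') (r * r') (s * s') (mul_ne_zero hr hr') (mul_ne_zero hs hs') (by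
        rw [map_mul, map_mul, ← h1, ← h1', Units.val_mul]
        ring), line_phi_mul A h hA R r r' hr hr', line_phi_mul A h hA R s s' hs hs',
      mul_div_mul_comm]
  · intro σ hσA hσh hσR w hw
    obtain ⟨r, s, hr, hs, h1, _⟩ := line_rep A h htr w hw
    let σA : A →+* A :=
      { toFun := fun x => ⟨σ x, (hσA x).mpr x.2⟩
        map_one' := by ext; simp
        map_mul' := fun x y => by ext; simp
        map_zero' := by ext; simp
        map_add' := fun x y => by ext; simp }
    have hσae : ∀ q : Polynomial A, σ (Polynomial.aeval h q) =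
        Polynomial.aeval h (q.map σA) := by
      intro q
      rw [Polynomial.aeval_def, Polynomial.aeval_def, Polynomial.eval₂_map,
        show σ (Polynomial.eval₂ (algebraMap A Ω) h q) =
          (σ : Ω →+* Ω) (Polynomial.eval₂ (algebraMap A Ω) h q) from rfl,
        Polynomial.hom_eval₂]
      congr 1
    have hσphi : ∀ q : Polynomial A, linePhi A h hA R (q.map σA) = σ • linePhi A h hA R q := by
      intro q
      unfold linePhi
      rw [(IsAlgClosed.splits q).roots_map σA, Multiset.filter_map, Multiset.map_map]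
      have h2 : q.roots.filter ((fun ρ : A => (ρ : Ω) ∉ R) ∘ σA) =
          q.roots.filter (fun ρ : A => (ρ : Ω) ∉ R) := by
        refine Multiset.filter_congr fun ρ _ => ?_
        exact not_congr (hσR ρ ρ.2)
      rw [h2]
      generalize (q.roots.filter (fun ρ : A => (ρ : Ω) ∉ R)) = m
      induction m using Multiset.induction with
      | empty => simp
      | cons a m ih =>
        rw [Multiset.map_cons, Multiset.prod_cons, ih, Multiset.map_cons, Multiset.prod_cons,
          smul_mul']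
        congr 1
        ext
        show h - σ (a : Ω) = σ (h - (a : Ω))
        rw [map_sub, hσh]
    have hinj : Function.Injective σA := σA.injective
    rw [hΨ w r s hr hs h1, hΨ (σ • w) (r.map σA) (s.map σA)
      ((Polynomial.map_ne_zero_iff hinj).mpr hr) ((Polynomial.map_ne_zero_iff hinj).mpr hs) (by
        rw [← hσae, ← hσae, ← h1, map_mul]
        rfl), hσphi, hσphi, smul_div']
  · intro w hw hu
    obtain ⟨r, s, hr, hs, h1, hcop⟩ := line_rep A h htr w hw
    have hrs := hroot w r s hcop h1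
    have h2 : ∀ q : Polynomial A, (∀ ρ : A, (ρ : Ω) ∉ R → ¬ q.IsRoot ρ) →
        linePhi A h hA R q = 1 := by
      intro q hq
      unfold linePhi
      rw [Multiset.filter_eq_nil.mpr fun ρ hρ => ?_, Multiset.map_zero, Multiset.prod_zero]
      intro h3
      exact hq ρ h3 (Polynomial.isRoot_of_mem_roots hρ)
    rw [hΨ w r s hr hs h1,
      h2 r fun ρ hρ => (hrs ρ fun V hV hv => hu V hV ρ ρ.2 hρ hv).1,
      h2 s fun ρ hρ => (hrs ρ fun V hV hv => hu V hV ρ ρ.2 hρ hv).2, div_one]
  · intro w hw hu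
    obtain ⟨r, s, hr, hs, h1, hcop⟩ := line_rep A h htr w hw
    have hrs := hroot w r s hcop h1
    have h2 : ∀ q : Polynomial A, (∀ ρ : A, (ρ : Ω) ∈ R → ¬ q.IsRoot ρ) →
        Polynomial.aeval h q = ((q.leadingCoeff : A) : Ω) * (linePhi A h hA R q : Ω) := by
      intro q hq
      have h3 : q.roots.filter (fun ρ : A => (ρ : Ω) ∉ R) = q.roots := by
        refine Multiset.filter_eq_self.mpr fun ρ hρ h4 => ?_
        exact hq ρ h4 (Polynomial.isRoot_of_mem_roots hρ)
      unfold linePhi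
      rw [h3]
      conv_lhs => rw [(IsAlgClosed.splits q).eq_prod_roots]
      rw [map_mul, Polynomial.aeval_C]
      congr 1
      generalize q.roots = m
      induction m using Multiset.induction with
      | empty => simp
      | cons a m ih =>
        rw [Multiset.map_cons, Multiset.prod_cons, map_mul, ih, Multiset.map_cons,
          Multiset.prod_cons, Units.val_mul, Units.val_mk0, map_sub, Polynomial.aeval_X,
          Polynomial.aeval_C]
        rfl
    have hr2 := h2 r fun ρ hρ => (hrs ρ fun V hV hv => hu V hV ρ ρ.2 hρ hv).1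
    have hs2 := h2 s fun ρ hρ => (hrs ρ fun V hV hv => hu V hV ρ ρ.2 hρ hv).2
    have hls : ((s.leadingCoeff : A) : Ω) ≠ 0 := by
      intro h0
      exact hs (Polynomial.leadingCoeff_eq_zero.mp (Subtype.ext h0))
    have h3 : ((w * (Ψ w)⁻¹ : Ωˣ) : Ω) = ((r.leadingCoeff : A) : Ω) / ((s.leadingCoeff : A) : Ω) := by
      rw [hΨ w r s hr hs h1, Units.val_mul, Units.val_inv_eq_inv_val, Units.val_div_eq_div_val]
      rw [hr2, hs2] at h1
      have h4 : (linePhi A h hA R r : Ω) ≠ 0 := Units.ne_zero _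
      have h5 : (linePhi A h hA R s : Ω) ≠ 0 := Units.ne_zero _
      field_simp
      linear_combination h1
    rw [h3]
    exact div_mem r.leadingCoeff.2 s.leadingCoeff.2
  · intro w hw V hV ρ hρ hρR hv
    obtain ⟨r, s, hr, hs, h1, _⟩ := line_rep A h htr w hw
    rw [hΨ w r s hr hs h1]
    show V.valuation ((linePhi A h hA R r / linePhi A h hA R s : Ωˣ) : Ω) = 1
    rw [Units.val_div_eq_div_val, map_div₀, line_phi_unit A h hA R r V hV ρ hρ hρR hv,
      line_phi_unit A h hA R s V hV ρ hρ hρR hv, div_one]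

end Pool.Agent.URR
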