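import Pool.Agent.URR.Glob
import Pool.Agent.TUQ.G1

set_option autoImplicit false

namespace Pool.Agent.URR

open Pool.Agent.TBR

universe u

variable {k Ω : Type u} [Field k] [Field Ω] [Algebra k Ω] [IsAlgClosed Ω]
variable {A : IntermediateField k Ω} [IsAlgClosed A] {N : Subgroup (Ω ≃ₐ[k] Ω)} {B₀ : Set Ω}

theorem val_le_smul (V : ValuationSubring Ω) (σ : Ω ≃ₐ[k] Ω) (hσ : σ ∈ St k V) (x y : Ω) :
    V.valuation (σ x) ≤ V.valuation (σ y) ↔ V.valuation x ≤ V.valuation y := by
  by_cases hy : y = 0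
  · subst hy
    rw [map_zero σ, map_zero V.valuation, le_zero_iff, le_zero_iff, map_eq_zero V.valuation,
      map_eq_zero V.valuation]
    exact map_eq_zero_iff σ σ.injective
  · have hy' : σ y ≠ 0 := (EmbeddingLike.map_ne_zero_iff).2 hy
    have key : ∀ a b : Ω, b ≠ 0 → (V.valuation a ≤ V.valuation b ↔ a / b ∈ V) := by
      intro a b hb
      rw [← V.valuation_le_one_iff, map_div₀,
        div_le_one₀ (zero_lt_iff.2 ((Valuation.ne_zero_iff _).2 hb))]
    rw [key _ _ hy', key _ _ hy, ← map_div₀]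
    exact hσ _

theorem val_lt_smul (V : ValuationSubring Ω) (σ : Ω ≃ₐ[k] Ω) (hσ : σ ∈ St k V) (x y : Ω) :
    V.valuation (σ x) < V.valuation (σ y) ↔ V.valuation x < V.valuation y := by
  rw [lt_iff_not_ge, lt_iff_not_ge, val_le_smul V σ hσ]

/--
An automorphism with finite orbits which preserves `V` preserves the valuation.
-/
theorem val_smul (D : Subgroup (Ω ≃ₐ[k] Ω)) (horb : Orb D Set.univ) (V : ValuationSubring Ω)
    (hD : D ≤ St k V) (σ : Ω ≃ₐ[k] Ω) (hσ : σ ∈ D) (x : Ω) : V.valuation (σ x) = V.valuation x := by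
  have key : ∀ τ ∈ D, ¬ V.valuation x < V.valuation (τ x) := by
    intro τ hτ hlt
    have h1 : ∀ n : ℕ, V.valuation ((τ ^ n) x) < V.valuation ((τ ^ (n + 1)) x) := by
      intro n
      have h2 : (τ ^ (n + 1)) x = (τ ^ n) (τ x) := by
        rw [pow_succ]
        rfl
      rw [h2]
      exact (val_lt_smul V (τ ^ n) (hD (D.pow_mem hτ n)) _ _).2 hlt
    have h3 : StrictMono (fun n : ℕ => V.valuation ((τ ^ n) x)) := strictMono_nat_of_lt_succ h1
    have h4 : Function.Injective (fun n : ℕ => (τ ^ n) x) := fun a b hab =>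
      h3.injective (congrArg V.valuation hab)
    exact Set.infinite_range_of_injective h4 ((horb x trivial).subset (by
      rintro y ⟨n, rfl⟩
      exact ⟨τ ^ n, D.pow_mem hτ n, rfl⟩))
  rcases lt_trichotomy (V.valuation (σ x)) (V.valuation x) with h | h | h
  · exfalso
    have h1 := (val_lt_smul V σ⁻¹ (hD (D.inv_mem hσ)) (σ x) x).2 h
    have h2 : σ⁻¹ (σ x) = x := σ.symm_apply_apply x
    rw [h2] at h1
    exact key σ⁻¹ (D.inv_mem hσ) h1
  · exact h
  · exact absurd h (key σ hσ)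

end Pool.Agent.URR
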