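import Pool.Agent.URR.Glob
import Pool.Agent.TUQ.G1
import Pool.Agent.URR.RES0

set_option autoImplicit false

namespace Pool.Agent.URR

open Pool.Agent.TBR Pool.Agent.TUQ

universe u

variable {k Ω : Type u} [Field k] [Field Ω] [Algebra k Ω] [IsAlgClosed Ω]
variable {A : IntermediateField k Ω} [IsAlgClosed A] {N : Subgroup (Ω ≃ₐ[k] Ω)} {B₀ : Set Ω}

/--
A cochain whose coboundary has values in the units has values in the units. PROOF. By hu and
`val_smul` the map `σ ↦ V.valuation (b σ)` is multiplicative on `D`: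
`V.valuation (b (σ τ)) = V.valuation (b σ) V.valuation (b τ)`. It has finitely many values on `D`
(`finite_range` for the finite set of hb), so `V.valuation (b σ) ^ n`, `n = 1, 2, …`, has a repetition and,
the value group being torsion free (`pow_left_inj₀` etc.; a linearly ordered commutative group has no torsion),
`V.valuation (b σ) = 1`.
-/
theorem unit_of_cob (D : Subgroup (Ω ≃ₐ[k] Ω)) (horb : Orb D Set.univ) (V : ValuationSubring Ω)
    (hD : D ≤ St k V) (X : (Ω ≃ₐ[k] Ω) → (Ω ≃ₐ[k] Ω) → Ωˣ) (b : (Ω ≃ₐ[k] Ω) → Ωˣ)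
    (hb : Lo1 D Set.univ b) (hX : ∀ σ ∈ D, ∀ τ ∈ D, X σ τ ∈ V.unitGroup) (hc : Cob D X b) :
    ∀ σ ∈ D, b σ ∈ V.unitGroup := by
  have hmul : ∀ σ ∈ D, ∀ τ ∈ D, V.valuation ((b (σ * τ) : Ωˣ) : Ω) =
      V.valuation ((b σ : Ωˣ) : Ω) * V.valuation ((b τ : Ωˣ) : Ω) := by
    intro σ hσ τ hτ
    have h1 := hc σ hσ τ hτ
    have h2 : V.valuation ((X σ τ : Ωˣ) : Ω) = 1 :=
      (V.mem_unitGroup_iff (X σ τ)).mp (hX σ hσ τ hτ)
    have h3 : ((X σ τ : Ωˣ) : Ω) * ((b (σ * τ) : Ωˣ) : Ω) =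
        ((b σ : Ωˣ) : Ω) * σ ((b τ : Ωˣ) : Ω) := by
      have h4 := congrArg (fun u : Ωˣ => (u : Ω)) h1
      exact h4
    have h5 := congrArg V.valuation h3
    rw [map_mul, map_mul, h2, one_mul, val_smul D horb V hD σ hσ] at h5
    exact h5
  have hne : ∀ σ, V.valuation ((b σ : Ωˣ) : Ω) ≠ 0 := by
    intro σ
    rw [Valuation.ne_zero_iff]
    exact (b σ).ne_zero
  intro σ hσ
  rw [ValuationSubring.mem_unitGroup_iff]
  have h1 : V.valuation ((b 1 : Ωˣ) : Ω) = 1 := by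
    have h := hmul 1 D.one_mem 1 D.one_mem
    rw [mul_one] at h
    have h' : V.valuation ((b 1 : Ωˣ) : Ω) * V.valuation ((b 1 : Ωˣ) : Ω) =
        V.valuation ((b 1 : Ωˣ) : Ω) * 1 := by rw [mul_one, ← h]
    exact mul_left_cancel₀ (hne 1) h'
  have hpow : ∀ n : ℕ, V.valuation ((b (σ ^ n) : Ωˣ) : Ω) = V.valuation ((b σ : Ωˣ) : Ω) ^ n := by
    intro n
    induction n with
    | zero => rw [pow_zero, pow_zero, h1]
    | succ n ih => rw [pow_succ, hmul _ (D.pow_mem hσ n) _ hσ, ih, pow_succ]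
  obtain ⟨S, _, hS⟩ := hb
  have hfin : {m | ∃ τ ∈ D, b τ = m}.Finite :=
    finite_range D S (horb.mono le_rfl (Set.subset_univ _)) b hS
  have hfin' : (Set.range fun n : ℕ => V.valuation ((b σ : Ωˣ) : Ω) ^ n).Finite := by
    refine (hfin.image fun u : Ωˣ => V.valuation (u : Ω)).subset ?_
    rintro _ ⟨n, rfl⟩
    exact ⟨b (σ ^ n), ⟨σ ^ n, D.pow_mem hσ n, rfl⟩, hpow n⟩
  by_contra hcon
  have hinj : Function.Injective fun n : ℕ => V.valuation ((b σ : Ωˣ) : Ω) ^ n := by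
    have hpos : 0 < V.valuation ((b σ : Ωˣ) : Ω) := zero_lt_iff.mpr (hne σ)
    rcases lt_or_gt_of_ne hcon with h | h
    · exact (pow_right_strictAnti₀ hpos h).injective
    · exact (pow_right_strictMono₀ h).injective
  exact Set.infinite_range_of_injective hinj hfin'

end Pool.Agent.URR
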