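import Pool.Agent.URR.PV
import Pool.Agent.URR.EMB2
import Pool.Agent.URR.LINE
import Pool.Agent.URR.BAD
import Pool.Agent.URR.RES1

/-!
# The product of the conjugates of a modified unramified cocycle
-/

set_option autoImplicit false

namespace Pool.Agent.URR

open Pool.Agent.TBR

universe u

section

variable {k Ω : Type u} [Field k] [Field Ω] [Algebra k Ω]

/-- the cocycle `a ^ q` modified by `g` -/
def ag (a : (Ω ≃ₐ[k] Ω) → (Ω ≃ₐ[k] Ω) → Ωˣ) (q : ℕ) (g : (Ω ≃ₐ[k] Ω) → Ωˣ)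
    (σ τ : Ω ≃ₐ[k] Ω) : Ωˣ := a σ τ ^ q * g (σ * τ) * (g σ * σ • g τ)⁻¹

/-- the product of the conjugates -/
def nmT {d : ℕ} (t : Fin d → (Ω ≃ₐ[k] Ω)) : Ωˣ →* Ωˣ :=
  MonoidHom.mk' (fun f => ∏ s, t s • f) (fun f g => by
    simp only [smul_mul', Finset.prod_mul_distrib])

theorem nmT_val {d : ℕ} (t : Fin d → (Ω ≃ₐ[k] Ω)) (f : Ωˣ) :
    ((nmT t f : Ωˣ) : Ω) = ∏ s, t s (f : Ω) := by
  show ((∏ s, t s • f : Ωˣ) : Ω) = _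
  rw [Units.coe_prod]
  rfl

end

section

variable {k Ω : Type u} [Field k] [Field Ω] [Algebra k Ω] [IsAlgClosed Ω]
variable {A : IntermediateField k Ω} [IsAlgClosed A] {N : Subgroup (Ω ≃ₐ[k] Ω)} {B₀ : Set Ω}

omit [IsAlgClosed Ω] [IsAlgClosed A] in
theorem E_stab (hS : Sit A N B₀) {σ : Ω ≃ₐ[k] Ω} (hσ : σ ∈ N) (x : Ω) :
    σ x ∈ AA A B₀ ↔ x ∈ AA A B₀ := by
  have key : ∀ σ ∈ N, ∀ x ∈ AA A B₀, σ x ∈ AA A B₀ := by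
    intro σ hσ
    have h1 : AA A B₀ ≤ (AA A B₀).comap (σ : Ω →ₐ[k] Ω) := by
      refine sup_le (fun y hy => ?_) ?_
      · exact le_AA A B₀ ((hS.stab σ hσ y).2 hy)
      · rw [IntermediateField.adjoin_le_iff]
        intro y hy
        show σ y ∈ AA A B₀
        rw [hS.fix hσ y hy]
        exact sub_AA A B₀ hy
    exact fun x hx => h1 hx
  refine ⟨fun h => ?_, key σ hσ x⟩
  have h1 := key σ⁻¹ (N.inv_mem hσ) _ h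
  have h2 : σ⁻¹ (σ x) = x := σ.symm_apply_apply x
  rwa [h2] at h1

omit [IsAlgClosed Ω] [IsAlgClosed A] in
theorem ag_mem (hS : Sit A N B₀) {a : (Ω ≃ₐ[k] Ω) → (Ω ≃ₐ[k] Ω) → Ωˣ}
    (ha : ∀ σ τ, (a σ τ : Ω) ∈ AA A B₀) (q : ℕ) {g : (Ω ≃ₐ[k] Ω) → Ωˣ}
    (hg : ∀ σ, (g σ : Ω) ∈ AA A B₀) {σ : Ω ≃ₐ[k] Ω} (hσ : σ ∈ N) (τ : Ω ≃ₐ[k] Ω) :
    ((ag a q g σ τ : Ωˣ) : Ω) ∈ AA A B₀ := by
  have h1 : ((σ • g τ : Ωˣ) : Ω) ∈ AA A B₀ := (E_stab hS hσ _).2 (hg τ)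
  unfold ag
  rw [Units.val_mul, Units.val_mul, Units.val_pow_eq_pow_val, Units.val_inv_eq_inv_val,
    Units.val_mul]
  exact mul_mem (mul_mem (pow_mem (ha _ _) q) (hg _)) (inv_mem (mul_mem (hg _) h1))

/-- the residues at a zero and at a pole of `h` of the norm of the modified cocycle -/
theorem core1 (hS : Sit A N B₀) (p : ℕ) [ExpChar Ω p]
    (a : (Ω ≃ₐ[k] Ω) → (Ω ≃ₐ[k] Ω) → Ωˣ) (ha : CocE A N B₀ a) (h : Ω) (hE : h ∈ AA A B₀)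
    (hA : h ∉ A) (hN : ∀ σ ∈ N, σ h = h) (d : ℕ) (t : Fin d → (Ω ≃ₐ[k] Ω))
    (ht : ∀ s, t s ∈ Fx k ((AA A {h} : IntermediateField k Ω) : Set Ω))
    (ht2 : ∀ g ∈ Fx k ((AA A {h} : IntermediateField k Ω) : Set Ω),
        ∃! s, Ag ((AA A B₀ : IntermediateField k Ω) : Set Ω) g (t s))
    (ht3 : ∀ f ∈ AA A B₀, ∏ s, t s f ∈ AA A {h})
    (V0 V1 : ValuationSubring Ω) (hV0 : Pl A V0) (hV1 : Pl A V1) (h0 : V0.valuation h < 1)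
    (h1 : h ∉ V1)
    (hst0 : ∀ σ ∈ N, ∀ x ∈ AA A B₀, σ x ∈ V0 ↔ x ∈ V0)
    (hst1 : ∀ σ ∈ N, ∀ x ∈ AA A B₀, σ x ∈ V1 ↔ x ∈ V1) :
    ∃ (r : ℕ) (g χ : (Ω ≃ₐ[k] Ω) → Ωˣ), Lc1 (A : Set Ω) g ∧ g 1 = 1 ∧
      (∀ σ, (g σ : Ω) ∈ AA A B₀) ∧
      (∀ V : ValuationSubring Ω, Pl A V → V.valuation h ≠ 1 → ∀ σ ∈ N, ∀ τ ∈ N,
        ag a (p ^ r) g σ τ ∈ V.unitGroup) ∧
      Lc1 (A : Set Ω) χ ∧ (∀ σ, (χ σ : Ω) ∈ A) ∧
      ∀ σ ∈ N, ∀ τ ∈ N, ∀ x0 x1 : Ωˣ, (x0 : Ω) ∈ A → (x1 : Ω) ∈ A →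
        V0.valuation ((∏ s, t s (ag a (p ^ r) g σ τ : Ω)) - x0) < 1 →
        V1.valuation ((∏ s, t s (ag a (p ^ r) g σ τ : Ω)) - x1) < 1 →
          x0 * x1⁻¹ * χ (σ * τ) = χ σ * σ • χ τ := by
  classical
  obtain ⟨R, hR0, hRA, hRN, hRa, hRfin, hRT⟩ := exists_bad hS a ha h hE hA hN
  have hh0 : h ≠ 0 := fun h' => hA (by rw [h']; exact A.zero_mem)
  obtain ⟨T, hTdef⟩ : ∃ T : ValuationSubring Ω → Prop, ∀ V, T V ↔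
      (Pl A V ∧ (h ∉ V ∨ ∃ ρ ∈ R, V.valuation (h - ρ) < 1)) := ⟨_, fun _ => Iff.rfl⟩
  obtain ⟨r, g₀, hg₀, hg₀E, hg₀u⟩ := glob hS p a ha T (fun V hV => ((hTdef V).1 hV).1) (by
    obtain ⟨𝒱, k1, k2⟩ := hRfin
    exact ⟨𝒱, fun V hV => (hTdef V).2 (k1 V hV), fun V hV => k2 V ((hTdef V).1 hV)⟩)
    (fun V V' hV hV' hV'' σ hσ hVV => (hTdef V').2 (hRT V V' ((hTdef V).1 hV) hV' hV'' σ hσ hVV))
  -- normalization
  obtain ⟨g, hg⟩ : ∃ g : (Ω ≃ₐ[k] Ω) → Ωˣ, ∀ σ, g σ = g₀ σ * (g₀ 1)⁻¹ := ⟨_, fun _ => rfl⟩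
  have hgE : ∀ σ, (g σ : Ω) ∈ AA A B₀ := by
    intro σ
    rw [hg, Units.val_mul, Units.val_inv_eq_inv_val]
    exact mul_mem (hg₀E _) (inv_mem (hg₀E _))
  have hglc : Lc1 (A : Set Ω) g := by
    have e : g = fun σ => g₀ σ * (g₀ 1)⁻¹ := funext hg
    rw [e]
    exact hg₀.mul (Lc1.const _ _)
  have hg1 : g 1 = 1 := by rw [hg, mul_inv_cancel]
  have hgu : ∀ V, T V → ∀ σ ∈ N, ∀ τ ∈ N, ag a (p ^ r) g σ τ ∈ V.unitGroup := by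
    intro V hV σ hσ τ hτ
    have k1 := hg₀u V hV σ hσ τ hτ
    have k2 := hg₀u V hV σ hσ 1 N.one_mem
    rw [(ha.one σ).2, one_pow, one_mul, mul_one, mul_inv_rev, mul_comm (σ • g₀ 1)⁻¹,
      mul_inv_cancel_left] at k2
    have k3 := V.unitGroup.mul_mem k1 (V.unitGroup.inv_mem k2)
    have e : ag a (p ^ r) g σ τ =
        a σ τ ^ p ^ r * g₀ (σ * τ) * (g₀ σ * σ • g₀ τ)⁻¹ * ((σ • g₀ 1)⁻¹)⁻¹ := by
      unfold ag
      rw [hg, hg, hg, smul_mul', smul_inv']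
      apply Additive.ofMul.injective
      simp only [ofMul_mul, ofMul_inv, ofMul_pow]
      abel
    rw [e]
    exact k3
  -- the homomorphism `Ψ`
  obtain ⟨Ψ, hΨ1, hΨ2, hΨ3, hΨ4, hΨ5, hΨ6⟩ := exists_line A h hA R
  have hFsub : ∀ f : Ωˣ, (f : Ω) ∈ AA A B₀ → ((nmT t f : Ωˣ) : Ω) ∈ AA A {h} := by
    intro f hf
    rw [nmT_val]
    exact ht3 _ hf
  have hFE : AA A {h} ≤ AA A B₀ := by
    refine sup_le le_sup_left ?_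
    rw [IntermediateField.adjoin_le_iff]
    rintro _ rfl
    exact hE
  have hTs : ∀ σ ∈ N, ∀ f : Ωˣ, (f : Ω) ∈ AA A B₀ → nmT t (σ • f) = σ • nmT t f := by
    intro σ hσ f hf
    apply Units.ext
    rw [nmT_val]
    show ∏ s, t s (σ (f : Ω)) = σ ((nmT t f : Ωˣ) : Ω)
    rw [nmT_val]
    exact prod_smul A B₀ h d t ht ht2 σ (hS.stab σ hσ) (hN σ hσ) (E_stab hS hσ) f hf
  -- units
  have htA : ∀ s, ∀ x ∈ A, t s x = x := fun s x hx => ht s x (le_AA A {h} hx)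
  have hth : ∀ s, t s h = h := fun s => ht s h (sub_AA A {h} rfl)
  have hTV : ∀ V : ValuationSubring Ω, ∀ f : Ωˣ,
      (∀ s, f ∈ (V.comap (t s : Ω →+* Ω)).unitGroup) → nmT t f ∈ V.unitGroup := by
    intro V f hf
    show ∏ s, t s • f ∈ V.unitGroup
    exact V.unitGroup.prod_mem fun s _ => (comap_unit V (t s) f).1 (hf s)
  have hρcomap : ∀ (V : ValuationSubring Ω) (s : Fin d) (ρ : Ω), ρ ∈ A →
      V.valuation (h - ρ) < 1 → (V.comap (t s : Ω →+* Ω)).valuation (h - ρ) < 1 := by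
    intro V s ρ hρ hlt
    rw [comap_lt, map_sub, hth, htA s ρ hρ]
    exact hlt
  have hTcomap : ∀ (V : ValuationSubring Ω) (s : Fin d), T V → T (V.comap (t s : Ω →+* Ω)) := by
    intro V s hV
    rw [hTdef] at hV ⊢
    refine ⟨hV.1.comap (t s) (fun x hx => by rw [htA s x hx]; exact hx), ?_⟩
    rcases hV.2 with hV | ⟨ρ, hρ, hV⟩
    · left
      rw [comap_mem, hth]
      exact hV
    · exact Or.inr ⟨ρ, hρ, hρcomap V s ρ (hRA ρ hρ) hV⟩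
  -- `w`
  have hagE : ∀ σ ∈ N, ∀ τ ∈ N, ((ag a (p ^ r) g σ τ : Ωˣ) : Ω) ∈ AA A B₀ :=
    fun σ hσ τ _ => ag_mem hS ha.mem _ hgE hσ τ
  have hwF : ∀ σ ∈ N, ∀ τ ∈ N, ((nmT t (ag a (p ^ r) g σ τ) : Ωˣ) : Ω) ∈ AA A {h} :=
    fun σ hσ τ hτ => hFsub _ (hagE σ hσ τ hτ)
  have hwT : ∀ V, T V → ∀ σ ∈ N, ∀ τ ∈ N, nmT t (ag a (p ^ r) g σ τ) ∈ V.unitGroup :=
    fun V hV σ hσ τ hτ => hTV V _ fun s => hgu _ (hTcomap V s hV) σ hσ τ hτ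
  have haF : ∀ σ ∈ N, ∀ τ ∈ N, Ψ (nmT t (a σ τ)) = 1 := by
    intro σ hσ τ hτ
    refine hΨ4 _ (hFsub _ (ha.mem σ τ)) ?_
    intro V hV ρ hρ hρR hlt
    refine hTV V _ fun s => ?_
    have hne : h - ρ ≠ 0 := sub_ne_zero.2 fun h' => hA (by rw [h']; exact hρ)
    exact hRa _ ((pl_of_lt hV _ hne hlt).comap (t s) (fun x hx => by rw [htA s x hx]; exact hx)) ρ
      hρ hρR (hρcomap V s ρ hρ hlt) σ hσ τ hτ
  -- `Φ`
  obtain ⟨Φ, hΦ⟩ : ∃ Φ : (Ω ≃ₐ[k] Ω) → Ωˣ, ∀ σ, Φ σ = Ψ (nmT t (g σ)) := ⟨_, fun _ => rfl⟩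
  have hΦF : ∀ σ, (Φ σ : Ω) ∈ AA A {h} := by
    intro σ
    rw [hΦ]
    exact hΨ1 _ (hFsub _ (hgE σ))
  have hΦlc : Lc1 (A : Set Ω) Φ := by
    have e : Φ = fun σ => Ψ (nmT t (g σ)) := funext hΦ
    rw [e]
    exact hglc.map (fun u => Ψ (nmT t u))
  have hΨone : Ψ 1 = 1 := by
    have k1 := hΨ2 1 1 (by rw [Units.val_one]; exact one_mem _) (by rw [Units.val_one]; exact one_mem _)
    rw [one_mul] at k1
    exact (mul_eq_left.1 k1.symm)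
  have hΨinv : ∀ w : Ωˣ, (w : Ω) ∈ AA A {h} → Ψ w⁻¹ = (Ψ w)⁻¹ := by
    intro w hw
    have k1 := hΨ2 w w⁻¹ hw (by rw [Units.val_inv_eq_inv_val]; exact inv_mem hw)
    rw [mul_inv_cancel, hΨone] at k1
    exact (inv_eq_of_mul_eq_one_right k1.symm).symm
  have hΨpow : ∀ w : Ωˣ, (w : Ω) ∈ AA A {h} → ∀ n : ℕ, Ψ (w ^ n) = Ψ w ^ n := by
    intro w hw n
    induction n with
    | zero => rw [pow_zero, pow_zero, hΨone]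
    | succ n ih =>
      rw [pow_succ, pow_succ, hΨ2 _ _ (by rw [Units.val_pow_eq_pow_val]; exact pow_mem hw n) hw, ih]
  have hΦT : ∀ σ ∈ N, ∀ τ ∈ N, Ψ (nmT t (ag a (p ^ r) g σ τ)) =
      Φ (σ * τ) * (Φ σ * σ • Φ τ)⁻¹ := by
    intro σ hσ τ hτ
    have m1 : ((nmT t (a σ τ) ^ p ^ r : Ωˣ) : Ω) ∈ AA A {h} := by
      rw [Units.val_pow_eq_pow_val]
      exact pow_mem (hFsub _ (ha.mem σ τ)) _
    have m2 : ((nmT t (g (σ * τ)) : Ωˣ) : Ω) ∈ AA A {h} := hFsub _ (hgE _)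
    have m3 : ((nmT t (g σ) : Ωˣ) : Ω) ∈ AA A {h} := hFsub _ (hgE _)
    have m4 : ((σ • g τ : Ωˣ) : Ω) ∈ AA A B₀ := (E_stab hS hσ _).2 (hgE τ)
    have m5 : ((nmT t (σ • g τ) : Ωˣ) : Ω) ∈ AA A {h} := hFsub _ m4
    have e1 : nmT t (ag a (p ^ r) g σ τ) = nmT t (a σ τ) ^ p ^ r * nmT t (g (σ * τ)) *
        (nmT t (g σ) * nmT t (σ • g τ))⁻¹ := by
      unfold ag
      rw [map_mul, map_mul, map_pow, map_inv, map_mul]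
    rw [e1, hΨ2 _ _ (by rw [Units.val_mul]; exact mul_mem m1 m2) (by
      rw [Units.val_inv_eq_inv_val, Units.val_mul]
      exact inv_mem (mul_mem m3 m5)), hΨ2 _ _ m1 m2, hΨpow _ (hFsub _ (ha.mem σ τ)), haF σ hσ τ hτ,
      one_pow, one_mul, hΨinv _ (by rw [Units.val_mul]; exact mul_mem m3 m5), hΨ2 _ _ m3 m5,
      hTs σ hσ _ (hgE τ), hΨ3 σ (hS.stab σ hσ) (hN σ hσ) (hRN σ hσ) _ (hFsub _ (hgE τ)), hΦ, hΦ, hΦ]
  have hm : ∀ σ ∈ N, ∀ τ ∈ N, ((nmT t (ag a (p ^ r) g σ τ) *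
      (Ψ (nmT t (ag a (p ^ r) g σ τ)))⁻¹ : Ωˣ) : Ω) ∈ A := by
    intro σ hσ τ hτ
    refine hΨ5 _ (hwF σ hσ τ hτ) fun V hV ρ hρ hρR hlt => hwT V ((hTdef V).2 ⟨?_, Or.inr ⟨ρ, hρR, hlt⟩⟩)
      σ hσ τ hτ
    have hne : h - ρ ≠ 0 := sub_ne_zero.2 fun h' => hA (by rw [h']; exact hρ)
    exact pl_of_lt hV _ hne hlt
  have hT0 : T V0 := (hTdef V0).2 ⟨hV0, Or.inr ⟨0, hR0, by rw [sub_zero]; exact h0⟩⟩
  have hT1 : T V1 := (hTdef V1).2 ⟨hV1, Or.inl h1⟩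
  -- `Φ` is a unit at `V0`
  have hΦ0 : ∀ σ, Φ σ ∈ V0.unitGroup := by
    intro σ
    rw [hΦ]
    exact hΨ6 _ (hFsub _ (hgE σ)) V0 hV0.1 0 A.zero_mem hR0 (by rw [sub_zero]; exact h0)
  -- `Φ` is a unit at `V1`
  have hΦ1 : ∀ σ ∈ N, Φ σ ∈ V1.unitGroup := by
    intro σ hσ
    obtain ⟨δ, hδ, hδσ⟩ := loc_adj hS V1 hσ (hst1 σ hσ)
    have horb : Orb (N ⊓ St k V1) Set.univ := hS.orb.mono inf_le_left (Set.subset_univ _)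
    have k1 := unit_of_cob (N ⊓ St k V1) horb V1 inf_le_right
      (fun σ τ => (Ψ (nmT t (ag a (p ^ r) g σ τ)))⁻¹) (fun σ => (Φ σ)) ((hΦlc.mono (Set.subset_univ _)).lo _)
      (by
        intro σ hσ τ hτ
        have k2 := hwT V1 hT1 σ hσ.1 τ hτ.1
        have k3 := hm σ hσ.1 τ hτ.1
        have k4 : (nmT t (ag a (p ^ r) g σ τ) * (Ψ (nmT t (ag a (p ^ r) g σ τ)))⁻¹ : Ωˣ) ∈
            V1.unitGroup := by
          rw [ValuationSubring.mem_unitGroup_iff]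
          exact val_of_mem hV1.1 _ k3 (Units.ne_zero _)
        have k5 := V1.unitGroup.mul_mem (V1.unitGroup.inv_mem k2) k4
        rwa [inv_mul_cancel_left] at k5)
      (by
        intro σ hσ τ hτ
        show (Ψ (nmT t (ag a (p ^ r) g σ τ)))⁻¹ * Φ (σ * τ) = Φ σ * σ • Φ τ
        rw [hΦT σ hσ.1 τ hτ.1, mul_inv_rev, inv_inv, mul_assoc, inv_mul_cancel, mul_one])
      (δ * σ) hδσ
    have k6 : Φ (δ * σ) = Φ σ := by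
      obtain ⟨S, hS1, hS2⟩ := hΦlc
      refine hS2 _ _ fun x hx => ?_
      rw [AlgEquiv.mul_apply]
      exact hδ _ (le_AA A B₀ ((hS.stab σ hσ x).2 (hS1 hx)))
    rw [k6] at k1
    exact k1
  -- residues
  have hres : ∀ V : ValuationSubring Ω, Pl A V → ∃ ρ : Ωˣ → Ωˣ, (∀ u, (ρ u : Ω) ∈ A) ∧
      ∀ u ∈ V.unitGroup, V.valuation ((u : Ω) - ρ u) < 1 := by
    intro V hV
    have k1 : ∀ u : Ωˣ, ∃ v : Ωˣ, (v : Ω) ∈ A ∧ (u ∈ V.unitGroup → V.valuation ((u : Ω) - v) < 1) := by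
      intro u
      by_cases hu : u ∈ V.unitGroup
      · have k2 := (ValuationSubring.mem_unitGroup_iff V u).1 hu
        obtain ⟨x, hx, hx1⟩ := exists_res hS.trd V hV (u : Ω) ((V.valuation_le_one_iff _).1 k2.le)
        have hx0 : x ≠ 0 := by
          rintro rfl
          rw [sub_zero, k2] at hx1
          exact lt_irrefl _ hx1
        exact ⟨Units.mk0 x hx0, hx, fun _ => hx1⟩
      · exact ⟨1, by rw [Units.val_one]; exact A.one_mem, fun h' => absurd h' hu⟩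
    choose ρ hρ1 hρ2 using k1
    exact ⟨ρ, hρ1, hρ2⟩
  obtain ⟨ρ0, hρ0A, hρ0⟩ := hres V0 hV0
  obtain ⟨ρ1, hρ1A, hρ1⟩ := hres V1 hV1
  -- equivariance of the residues
  have hequiv : ∀ V : ValuationSubring Ω, Pl A V → (∀ σ ∈ N, ∀ x ∈ AA A B₀, σ x ∈ V ↔ x ∈ V) →
      ∀ σ ∈ N, ∀ x ∈ AA A B₀, ∀ y ∈ A, V.valuation (x - y) < 1 →
        V.valuation (σ x - σ y) < 1 := by
    intro V hV hst σ hσ x hx y hy hxy
    have hxyE : x - y ∈ AA A B₀ := sub_mem hx (le_AA A B₀ hy)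
    rw [← map_sub, val_lt_iff]
    rw [val_lt_iff] at hxy
    rcases hxy with hxy | hxy
    · left
      rw [hxy, map_zero]
    · right
      intro k1
      apply hxy
      rw [← map_inv₀, hst σ hσ _ (inv_mem hxyE)] at k1
      exact k1
  refine ⟨r, g, fun σ => ρ1 (Φ σ) * (ρ0 (Φ σ))⁻¹, hglc, hg1, hgE, ?_, ?_, ?_, ?_⟩
  · intro V hV hVh σ hσ τ hτ
    refine hgu V ((hTdef V).2 ⟨hV, ?_⟩) σ hσ τ hτ
    by_cases hhV : h ∈ V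
    · right
      refine ⟨0, hR0, ?_⟩
      rw [sub_zero]
      exact lt_of_le_of_ne ((V.valuation_le_one_iff _).2 hhV) hVh
    · exact Or.inl hhV
  · exact (hΦlc.map ρ1).mul ((hΦlc.map ρ0).inv)
  · intro σ
    rw [Units.val_mul, Units.val_inv_eq_inv_val]
    exact A.mul_mem (hρ1A _) (A.inv_mem (hρ0A _))
  · intro σ hσ τ hτ x0 x1 hx0A hx1A hx0 hx1
    -- the common argument
    have key : ∀ (V : ValuationSubring Ω) (ρ : Ωˣ → Ωˣ) (x : Ωˣ), Pl A V → T V →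
        (∀ σ ∈ N, ∀ x ∈ AA A B₀, σ x ∈ V ↔ x ∈ V) → (∀ u, (ρ u : Ω) ∈ A) →
        (∀ u ∈ V.unitGroup, V.valuation ((u : Ω) - ρ u) < 1) → (∀ σ ∈ N, Φ σ ∈ V.unitGroup) →
        (x : Ω) ∈ A → V.valuation ((∏ s, t s (ag a (p ^ r) g σ τ : Ω)) - x) < 1 →
        x * (ρ (Φ (σ * τ)))⁻¹ * (ρ (Φ σ) * σ • ρ (Φ τ)) =
          nmT t (ag a (p ^ r) g σ τ) * (Ψ (nmT t (ag a (p ^ r) g σ τ)))⁻¹ := by
      intro V ρ x hV hT hst hρA hρ hΦu hxA hx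
      have hσρ : ((σ • ρ (Φ τ) : Ωˣ) : Ω) ∈ A := (hS.stab σ hσ _).2 (hρA _)
      apply Units.ext
      refine res_uniq (A := A) (V := V) hV.1
        ((nmT t (ag a (p ^ r) g σ τ) * (Φ (σ * τ))⁻¹ * (Φ σ * σ • Φ τ) : Ωˣ) : Ω) _ _ ?_ (hm σ hσ τ hτ) ?_ ?_
      · rw [Units.val_mul, Units.val_mul, Units.val_inv_eq_inv_val, Units.val_mul]
        exact A.mul_mem (A.mul_mem hxA (A.inv_mem (hρA _))) (A.mul_mem (hρA _) hσρ)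
      · rw [Units.val_mul, Units.val_mul, Units.val_inv_eq_inv_val, Units.val_mul, Units.val_mul,
          Units.val_mul, Units.val_inv_eq_inv_val, Units.val_mul]
        have c1 : V.valuation (((nmT t (ag a (p ^ r) g σ τ) : Ωˣ) : Ω) - x) < 1 := by
          rw [nmT_val]
          exact hx
        have c2 := res_inv hV.1 _ _ (hρA _) (Units.ne_zero _) (hρ _ (hΦu _ (N.mul_mem hσ hτ)))
        have c3 := hρ _ (hΦu σ hσ)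
        have c4 : V.valuation (((σ • Φ τ : Ωˣ) : Ω) - ((σ • ρ (Φ τ) : Ωˣ) : Ω)) < 1 :=
          hequiv V hV hst σ hσ _ (hFE (hΦF τ)) _ (hρA _) (hρ _ (hΦu τ hτ))
        exact res_mul hV.1 _ _ _ _ (A.mul_mem hxA (A.inv_mem (hρA _))) (A.mul_mem (hρA _) hσρ)
          (res_mul hV.1 _ _ _ _ hxA (A.inv_mem (hρA _)) c1 c2)
          (res_mul hV.1 _ _ _ _ (hρA _) hσρ c3 c4)
      · have e : (nmT t (ag a (p ^ r) g σ τ) * (Φ (σ * τ))⁻¹ * (Φ σ * σ • Φ τ) : Ωˣ) =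
            nmT t (ag a (p ^ r) g σ τ) * (Ψ (nmT t (ag a (p ^ r) g σ τ)))⁻¹ := by
          rw [hΦT σ hσ τ hτ]
          apply Additive.ofMul.injective
          simp only [ofMul_mul, ofMul_inv]
          abel
        rw [e, sub_self, map_zero]
        exact zero_lt_one
    have k0 := key V0 ρ0 x0 hV0 hT0 hst0 hρ0A hρ0 (fun σ _ => hΦ0 σ) hx0A hx0
    have k1 := key V1 ρ1 x1 hV1 hT1 hst1 hρ1A hρ1 hΦ1 hx1A hx1
    have k2 := k0.trans k1.symm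
    show x0 * x1⁻¹ * (ρ1 (Φ (σ * τ)) * (ρ0 (Φ (σ * τ)))⁻¹) =
      ρ1 (Φ σ) * (ρ0 (Φ σ))⁻¹ * σ • (ρ1 (Φ τ) * (ρ0 (Φ τ))⁻¹)
    rw [smul_mul', smul_inv']
    generalize ρ0 (Φ (σ * τ)) = y1 at k2 ⊢
    generalize ρ1 (Φ (σ * τ)) = y2 at k2 ⊢
    generalize ρ0 (Φ σ) = y3 at k2 ⊢
    generalize ρ1 (Φ σ) = y4 at k2 ⊢
    generalize σ • ρ0 (Φ τ) = y5 at k2 ⊢
    generalize σ • ρ1 (Φ τ) = y6 at k2 ⊢
    have k3 : x0 = x1 * y2⁻¹ * (y4 * y6) * (y1⁻¹ * (y3 * y5))⁻¹ := by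
      rw [← k2, mul_assoc x0, mul_inv_cancel_right]
    rw [k3]
    apply Additive.ofMul.injective
    simp only [ofMul_mul, ofMul_inv]
    abel

end

end Pool.Agent.URR
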