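import Pool.Agent.URR.Defs

set_option autoImplicit false

namespace Pool.Agent.URR

open Pool.Agent.TBR

universe u

variable {k Ω : Type u} [Field k] [Field Ω] [Algebra k Ω] [IsAlgClosed Ω]

/-- the field `E = A(B₀)`, as an extension of `F = A(h)` -/
private theorem emb1_mem (A : IntermediateField k Ω) (B₀ : Set Ω) (h : Ω) (hE : h ∈ AA A B₀)
    (x : Ω) : x ∈ IntermediateField.adjoin (AA A {h} : IntermediateField k Ω) B₀ ↔ x ∈ AA A B₀ := by
  have h1 : (IntermediateField.adjoin (AA A {h} : IntermediateField k Ω) B₀).restrictScalars k =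
      AA A B₀ := by
    rw [IntermediateField.restrictScalars_adjoin_eq_sup]
    apply le_antisymm
    · refine sup_le (sup_le (le_AA A B₀) ?_) ?_
      · rw [IntermediateField.adjoin_le_iff]
        rintro _ rfl
        exact hE
      · rw [IntermediateField.adjoin_le_iff]
        exact sub_AA A B₀
    · exact sup_le_sup_right (le_AA A {h}) _
  rw [← h1]
  exact Iff.rfl

/--
The embeddings of `E = A(B₀)` over `F = A(h)`. PROOF. `E / F` is finite (finitely generated by hfin
and algebraic by hA1), separable by hsep. Let `E' = IntermediateField.extendScalars (hFE : F ≤ E)`, an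
intermediate field of `Ω / F`. `E' →ₐ[F] Ω` is finite (`Fintype`), number it by `Fin d`. Every such
embedding extends to an automorphism of `Ω` over `F` (`Ω / F` is algebraic and `Ω` is algebraically
closed, so it is normal: `AlgHom.liftNormal`, `IntermediateField.exists_algHom_of_..`, or
`IsAlgClosed.lift` and `Algebra.IsAlgebraic.algEquivEquivAlgHom`), which we regard as an automorphism
over `k` (`AlgEquiv.restrictScalars k`). First claim: `t s` fixes `F`. Second claim: `g ∈ Fx k F`
gives an automorphism of `Ω` over `F`, and its restriction to `E'` is exactly one of the embeddings.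
Third claim: for `f ∈ E` the product `x = ∏ t s f` is fixed by all automorphisms of `Ω` over `F`
(`g * t s` agrees on `E` with `t (π s)` for an injective, so bijective, map `π`: by the second claim,
injectivity since `g` is injective), and it is the norm of `f`: Mathlib
`Algebra.norm_eq_prod_embeddings F Ω (f : E')` gives `algebraMap F Ω (Algebra.norm F f) = ∏ σ, σ f`,
the product over all `σ : E' →ₐ[F] Ω` (E'/F finite separable), which is `∏ s, t s f`.
-/
theorem exists_emb (A : IntermediateField k Ω) [IsAlgClosed A]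
    (hA1 : ∀ t : Ω, t ∉ A → ∀ x : Ω, IsAlgebraic (AA A {t}) x) (B₀ : Set Ω) (hfin : B₀.Finite)
    (h : Ω) (hE : h ∈ AA A B₀) (hA : h ∉ A) (hsep : ∀ x ∈ AA A B₀, IsSeparable (AA A {h}) x) :
    ∃ (d : ℕ) (t : Fin d → (Ω ≃ₐ[k] Ω)),
      (∀ s, t s ∈ Fx k ((AA A {h} : IntermediateField k Ω) : Set Ω)) ∧
      (∀ g ∈ Fx k ((AA A {h} : IntermediateField k Ω) : Set Ω),
        ∃! s, Ag ((AA A B₀ : IntermediateField k Ω) : Set Ω) g (t s)) ∧
      ∀ f ∈ AA A B₀, ∏ s, t s f ∈ AA A {h} := by
  classical
  let F : IntermediateField k Ω := AA A {h}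
  let E' : IntermediateField F Ω := IntermediateField.adjoin F B₀
  have hmem : ∀ x : Ω, x ∈ E' ↔ x ∈ AA A B₀ := fun x => emb1_mem A B₀ h hE x
  have halg : ∀ x : Ω, IsAlgebraic F x := hA1 h hA
  have hF : Algebra.IsAlgebraic F Ω := ⟨halg⟩
  have hnorm : Normal F Ω := normal_iff.mpr fun x =>
    ⟨(halg x).isIntegral, IsAlgClosed.splits _⟩
  have hfinS : Finite B₀ := hfin
  have hfd : FiniteDimensional F E' :=
    IntermediateField.finiteDimensional_adjoin fun x _ => (halg x).isIntegral
  have hsepE : Algebra.IsSeparable F E' := by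
    refine ⟨fun x => ?_⟩
    have h1 : IsSeparable F (x : Ω) := hsep x ((hmem x).1 x.2)
    have h2 : minpoly F (x : Ω) = minpoly F x :=
      minpoly.algebraMap_eq (algebraMap E' Ω).injective x
    have h3 : (minpoly F (x : Ω)).Separable := h1
    rw [h2] at h3
    exact h3
  -- the extension of an embedding to an automorphism
  let ext : (E' →ₐ[F] Ω) → (Ω ≃ₐ[F] Ω) := fun σ =>
    AlgEquiv.ofBijective (σ.liftNormal Ω) (Algebra.IsAlgebraic.algHom_bijective _)
  have hext : ∀ (σ : E' →ₐ[F] Ω) (x : E'), ext σ (x : Ω) = σ x := fun σ x =>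
    σ.liftNormal_commutes Ω x
  let ψ : (E' →ₐ[F] Ω) ≃ Fin (Fintype.card (E' →ₐ[F] Ω)) := Fintype.equivFin _
  let t : Fin (Fintype.card (E' →ₐ[F] Ω)) → (Ω ≃ₐ[k] Ω) := fun s =>
    (ext (ψ.symm s)).restrictScalars k
  have ht : ∀ s (x : Ω), t s x = ext (ψ.symm s) x := fun s x => rfl
  refine ⟨Fintype.card (E' →ₐ[F] Ω), t, ?_, ?_, ?_⟩
  · intro s
    rw [mem_Fx]
    intro x hx
    rw [ht]
    exact (ext (ψ.symm s)).commutes (⟨x, hx⟩ : F)
  · intro g hg
    rw [mem_Fx] at hg
    let gF : Ω →ₐ[F] Ω := { (g : Ω →ₐ[k] Ω).toRingHom with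
      commutes' := fun r => hg _ r.2 }
    let σ : E' →ₐ[F] Ω := gF.comp E'.val
    have hσ : ∀ x : E', σ x = g (x : Ω) := fun x => rfl
    refine ⟨ψ σ, ?_, ?_⟩
    · intro x hx
      rw [ht, Equiv.symm_apply_apply]
      have h1 := hext σ ⟨x, (hmem x).2 hx⟩
      rw [hσ] at h1
      exact h1.symm
    · intro s' hs'
      have h1 : ψ.symm s' = σ := by
        ext x
        have h2 := hs' (x : Ω) ((hmem x).1 x.2)
        rw [ht, hext] at h2
        rw [hσ]
        exact h2.symm
      rw [← h1, Equiv.apply_symm_apply]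
  · intro f hf
    let f' : E' := ⟨f, (hmem f).2 hf⟩
    have h1 : ∏ s, t s f = ∏ σ : E' →ₐ[F] Ω, σ f' := by
      rw [← Equiv.prod_comp ψ]
      refine Finset.prod_congr rfl fun σ _ => ?_
      rw [ht, Equiv.symm_apply_apply]
      exact hext σ f'
    rw [h1, ← Algebra.norm_eq_prod_embeddings F Ω f']
    exact (Algebra.norm F f').2

end Pool.Agent.URR
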