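import Pool.Agent.URR.NRA

set_option autoImplicit false

namespace Pool.Agent.URR

open Pool.Agent.TBR

universe u

variable {k Ω : Type u} [Field k] [Field Ω] [Algebra k Ω] [IsAlgClosed Ω]

/--
PROOF. There is a valuation ring `V` of `Ω` with `S ⊆ V` and the elements of `ker (ev j)` in its maximal ideal
(`Ideal.image_subset_nonunits_valuationSubring`, cf. `TBR.center` in TBM/Crv.lean). It contains `A` (D.memA),
`V ≠ ⊤` as `h ≠ 0` is a nonunit (`h = 0` is impossible by hh), and `x - ev j x ∈ ker (ev j)` for `x ∈ S`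
(`ev j x ∈ A ⊆ S`, D.evA).
-/
theorem DedS.place {A E : IntermediateField k Ω} [IsAlgClosed A] {h : Ω} (hh : h ≠ 0) {d : ℕ}
    {t : Fin d → (Ω ≃ₐ[k] Ω)} {S : Subring Ω} {n : ℕ} {ev : Fin n → (S →+* Ω)} {m : Fin n → ℕ}
    (D : DedS A E h d t S n ev m) (j : Fin n) : ∃ V : ValuationSubring Ω, Pl A V ∧
      V.valuation h < 1 ∧ ∀ x : S, V.valuation ((x : Ω) - ev j x) < 1 := by
  obtain ⟨V, hV1, hV2⟩ := Ideal.image_subset_nonunits_valuationSubring (RingHom.ker (ev j)) (by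
    rw [Ne, Ideal.eq_top_iff_one, RingHom.mem_ker, map_one]
    exact one_ne_zero)
  have hker : ∀ x : S, ev j x = 0 → V.valuation (x : Ω) < 1 := fun x hx =>
    V.mem_nonunits_iff.mp (hV2 ⟨x, hx, rfl⟩)
  have hvh : V.valuation h < 1 := hker ⟨h, D.memh⟩ (D.evh j)
  refine ⟨V, ⟨fun x hx => hV1 (D.memA x hx), fun hT => ?_⟩, hvh, fun x => ?_⟩
  · subst hT
    have h1 : (⊤ : ValuationSubring Ω).valuation h⁻¹ ≤ 1 :=
      (ValuationSubring.valuation_le_one_iff _ _).mpr trivial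
    rw [map_inv₀, inv_le_one₀ (zero_lt_iff.mpr ((map_ne_zero _).mpr hh))] at h1
    exact absurd hvh (not_lt.mpr h1)
  · have h1 := hker (x - ⟨ev j x, D.memA _ (D.val j x)⟩) (by
      rw [map_sub, D.evA j _ (D.val j x), sub_self])
    exact h1

end Pool.Agent.URR
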