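import Pool.Agent.URR.NRA

set_option autoImplicit false

namespace Pool.Agent.URR

open Pool.Agent.TBR

universe u

variable {k Ω : Type u} [Field k] [Field Ω] [Algebra k Ω]

theorem nrb3_one {A E : IntermediateField k Ω} {h : Ω} {d : ℕ}
    {t : Fin d → (Ω ≃ₐ[k] Ω)} {S : Subring Ω} {n : ℕ} {ev : Fin n → (S →+* Ω)} {m : Fin n → ℕ}
    (D : DedS A E h d t S n ev m) (j : Fin n) (V : ValuationSubring Ω) (hV : ∀ x ∈ A, x ∈ V)
    (hVs : ∀ x : S, V.valuation ((x : Ω) - ev j x) < 1) (s : S) (hs : ev j s ≠ 0) :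
    V.valuation (s : Ω) = 1 := by
  have h1 : V.valuation (ev j s) = 1 :=
    TBR.V.val_A A V hV ⟨ev j s, D.val j s⟩ (fun h0 => hs (congrArg Subtype.val h0))
  have h2 := hVs s
  have h3 : V.valuation (ev j s + ((s : Ω) - ev j s)) = V.valuation (ev j s) := by
    apply Valuation.map_add_eq_of_lt_left
    rw [h1]
    exact h2
  rw [add_sub_cancel, h1] at h3
  exact h3

theorem nrb3_pow {A E : IntermediateField k Ω} {h : Ω} {d : ℕ}
    {t : Fin d → (Ω ≃ₐ[k] Ω)} {S : Subring Ω} {n : ℕ} {ev : Fin n → (S →+* Ω)} {m : Fin n → ℕ}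
    (D : DedS A E h d t S n ev m) (j : Fin n) (V : ValuationSubring Ω) (hV : ∀ x ∈ A, x ∈ V)
    (hVs : ∀ x : S, V.valuation ((x : Ω) - ev j x) < 1) (u π x y : S) (i : ℕ)
    (hx : ev j x ≠ 0) (hy : ev j y ≠ 0) (hu : u * x = π ^ i * y) :
    V.valuation (u : Ω) = V.valuation (π : Ω) ^ i := by
  have h1 : (u : Ω) * x = (π : Ω) ^ i * y := congrArg Subtype.val hu
  have h2 := congrArg V.valuation h1
  rw [map_mul, map_mul, nrb3_one D j V hV hVs x hx, nrb3_one D j V hV hVs y hy, mul_one, mul_one,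
    map_pow] at h2
  exact h2

theorem nrb3_mem_iff (V : ValuationSubring Ω) (π x u v : Ω) (hπ0 : π ≠ 0)
    (hπ : V.valuation π < 1) (hv : v ≠ 0) (hxv : x * v = u) (i i' : ℕ)
    (hu : V.valuation u = V.valuation π ^ i) (hv' : V.valuation v = V.valuation π ^ i') :
    x ∈ V ↔ i' ≤ i := by
  have h0 : 0 < V.valuation π := zero_lt_iff.mpr ((map_ne_zero _).mpr hπ0)
  have hx : x = u / v := by
    rw [← hxv, mul_div_cancel_right₀ _ hv]
  have h1 : V.valuation x = V.valuation π ^ i / V.valuation π ^ i' := by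
    rw [hx, map_div₀, hu, hv']
  rw [← V.valuation_le_one_iff, h1, div_le_one₀ (pow_pos h0 _)]
  exact (pow_right_strictAnti₀ h0 hπ).le_iff_ge

variable [IsAlgClosed Ω]

/--
The valuation in terms of the uniformizer of `ded`. PROOF. For `x ∈ S`: `ev j x ≠ 0` iff `x` is a unit of `V`
(`ev j x ∈ A`, nonzero elements of `A` are units), and `V.valuation x < 1` iff `ev j x = 0`. D.unif gives `π`;
`V.valuation h = V.valuation π ^ m j`, and for `u ∈ S`, `u ≠ 0`, `V.valuation u = V.valuation π ^ i`. Every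
`x ∈ E`, `x ≠ 0`, is a quotient of two elements of `S` (D.frac), so `Unif E V π`.
(2) Two places `V`, `V'` with the same point `j` have the same trace on `E`: let `x = u / v`, `u, v ∈ S`,
`V.valuation u = V.valuation π ^ i`, `V.valuation v = V.valuation π ^ i'`, and the same for `V'` (the exponents of
`unif` are the same for `V` and `V'`); `x ∈ V ↔ i' ≤ i ↔ x ∈ V'`.
-/
theorem DedS.unif' {A E : IntermediateField k Ω} [IsAlgClosed A] {h : Ω} (hh : h ≠ 0) {d : ℕ}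
    {t : Fin d → (Ω ≃ₐ[k] Ω)} {S : Subring Ω} {n : ℕ} {ev : Fin n → (S →+* Ω)} {m : Fin n → ℕ}
    (D : DedS A E h d t S n ev m) (j : Fin n) :
    (∀ V : ValuationSubring Ω, Pl A V → V.valuation h < 1 →
      (∀ x : S, V.valuation ((x : Ω) - ev j x) < 1) →
        ∃ π, Unif E V π ∧ V.valuation h = V.valuation π ^ m j) ∧
    ∀ V V' : ValuationSubring Ω, Pl A V → V.valuation h < 1 → Pl A V' → V'.valuation h < 1 →
      (∀ x : S, V.valuation ((x : Ω) - ev j x) < 1) →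
      (∀ x : S, V'.valuation ((x : Ω) - ev j x) < 1) → Same E V V' := by
  obtain ⟨π, hπ0, ⟨a, b, ha, hb, hab⟩, hun⟩ := D.unif j
  have hlt : ∀ V : ValuationSubring Ω, (∀ x : S, V.valuation ((x : Ω) - ev j x) < 1) →
      V.valuation (π : Ω) < 1 := by
    intro V hVs
    have h2 := hVs π
    rw [hπ0, sub_zero] at h2
    exact h2
  have hne : ∀ s : S, ev j s ≠ 0 → s ≠ 0 := by
    rintro s hs rfl
    exact hs (map_zero _)
  have hπne : (π : Ω) ≠ 0 := by
    intro h0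
    have h1 : π = 0 := Subtype.ext h0
    rw [h1, zero_pow (D.pos j).ne', zero_mul] at hab
    rcases mul_eq_zero.1 hab with h2 | h2
    · exact hh (congrArg Subtype.val h2)
    · exact hne a ha h2
  refine ⟨fun V hV _ hVs => ⟨π, ⟨D.le _ π.2, hπne, hlt V hVs, ?_⟩, ?_⟩, ?_⟩
  · intro x hxE hx0
    obtain ⟨u, hu, v, hv, hv0, huv⟩ := D.frac x hxE
    have hu0 : u ≠ 0 := by
      rw [← huv]
      exact mul_ne_zero hx0 hv0
    obtain ⟨i, x1, y1, hx1, hy1, h1⟩ := hun ⟨u, hu⟩ (fun h => hu0 (congrArg Subtype.val h))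
    obtain ⟨i', x2, y2, hx2, hy2, h2⟩ := hun ⟨v, hv⟩ (fun h => hv0 (congrArg Subtype.val h))
    have e1 : V.valuation u = V.valuation (π : Ω) ^ i :=
      nrb3_pow D j V hV.1 hVs ⟨u, hu⟩ π x1 y1 i hx1 hy1 h1
    have e2 : V.valuation v = V.valuation (π : Ω) ^ i' :=
      nrb3_pow D j V hV.1 hVs ⟨v, hv⟩ π x2 y2 i' hx2 hy2 h2
    refine ⟨(i : ℤ) - i', ?_⟩
    have hx : x = u / v := by
      rw [← huv, mul_div_cancel_right₀ _ hv0]
    rw [hx, map_div₀, e1, e2, zpow_sub₀ ((map_ne_zero _).mpr hπne), zpow_natCast, zpow_natCast]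
  · exact nrb3_pow D j V hV.1 hVs ⟨h, D.memh⟩ π a b (m j) ha hb hab
  · intro V V' hV _ hV' _ hVs hVs' x hxE
    by_cases hx0 : x = 0
    · rw [hx0]
      exact ⟨fun _ => zero_mem _, fun _ => zero_mem _⟩
    obtain ⟨u, hu, v, hv, hv0, huv⟩ := D.frac x hxE
    have hu0 : u ≠ 0 := by
      rw [← huv]
      exact mul_ne_zero hx0 hv0
    obtain ⟨i, x1, y1, hx1, hy1, h1⟩ := hun ⟨u, hu⟩ (fun h => hu0 (congrArg Subtype.val h))
    obtain ⟨i', x2, y2, hx2, hy2, h2⟩ := hun ⟨v, hv⟩ (fun h => hv0 (congrArg Subtype.val h))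
    rw [nrb3_mem_iff V π x u v hπne (hlt V hVs) hv0 huv i i'
        (nrb3_pow D j V hV.1 hVs ⟨u, hu⟩ π x1 y1 i hx1 hy1 h1)
        (nrb3_pow D j V hV.1 hVs ⟨v, hv⟩ π x2 y2 i' hx2 hy2 h2),
      nrb3_mem_iff V' π x u v hπne (hlt V' hVs') hv0 huv i i'
        (nrb3_pow D j V' hV'.1 hVs' ⟨u, hu⟩ π x1 y1 i hx1 hy1 h1)
        (nrb3_pow D j V' hV'.1 hVs' ⟨v, hv⟩ π x2 y2 i' hx2 hy2 h2)]

end Pool.Agent.URR
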