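import Pool.Agent.URR.NRA
import Pool.Agent.URR.NRB2
import Pool.Agent.URR.NRB3

set_option autoImplicit false

namespace Pool.Agent.URR

open Pool.Agent.TBR

universe u

variable {k Ω : Type u} [Field k] [Field Ω] [Algebra k Ω] [IsAlgClosed Ω]

/--
PROOF. Let `x ∈ E` be a unit at all places over `h = 0` (hx). `I = {y ∈ S | y x ∈ S}` is an ideal of `S`. For
each `j` it is not contained in `ker (ev j)`: let `V` be a place with the point `j` (`DedS.place`), `x v = u`
(D.frac), `u w = π ^ i y`, `v w' = π ^ i' y'` (D.unif; `x ≠ 0`), `i = i'` since `x` is a unit of `V`, so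
`x y' w = y w'` (cancel `π ^ i`), and `y' w ∈ I`, `ev j (y' w) ≠ 0`. By prime avoidance
(`Ideal.subset_union_prime` for the prime ideals `ker (ev j)`; if `n = 0` take `v = 1`... for `n = 0` use any
nonzero `v` of D.frac) there is `v ∈ I`, `v ∉ ker (ev j)` for all `j`; `v ≠ 0` if `n > 0`.
-/
theorem DedS.avoid {A E : IntermediateField k Ω} [IsAlgClosed A] {h : Ω} (hh : h ≠ 0) {d : ℕ}
    {t : Fin d → (Ω ≃ₐ[k] Ω)} {S : Subring Ω} {n : ℕ} {ev : Fin n → (S →+* Ω)} {m : Fin n → ℕ}
    (D : DedS A E h d t S n ev m) (x : Ω) (hxE : x ∈ E) (hx0 : x ≠ 0)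
    (hx : ∀ V : ValuationSubring Ω, Pl A V → V.valuation h < 1 → V.valuation x = 1) :
    ∃ u v : S, v ≠ 0 ∧ x * v = u ∧ ∀ j, ev j v ≠ 0 := by
  classical
  have hval : ∀ j, ∃ y : S, x * (y : Ω) ∈ S ∧ ev j y ≠ 0 := by
    intro j
    obtain ⟨u, hu, v, hv, hv0, huv⟩ := D.frac x hxE
    have hu0 : u ≠ 0 := by
      rw [← huv]
      exact mul_ne_zero hx0 hv0
    obtain ⟨π, hπ0, ⟨a, b, ha, hb, hab⟩, hun⟩ := D.unif j
    obtain ⟨V, hV, hVh, hVs⟩ := DedS.place hh D j
    have hA1 : ∀ z : Ω, z ∈ A → z ≠ 0 → V.valuation z = 1 := by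
      intro z hz hz0
      have h1 : V.valuation z ≤ 1 := (ValuationSubring.valuation_le_one_iff _ _).2 (hV.1 z hz)
      have h2 : V.valuation z⁻¹ ≤ 1 :=
        (ValuationSubring.valuation_le_one_iff _ _).2 (hV.1 _ (inv_mem hz))
      have h3 : V.valuation z * V.valuation z⁻¹ = 1 := by
        rw [← map_mul, mul_inv_cancel₀ hz0, map_one]
      refine le_antisymm h1 ?_
      calc (1 : V.ValueGroup) = V.valuation z * V.valuation z⁻¹ := h3.symm
        _ ≤ V.valuation z * 1 := mul_le_mul_right h2 _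
        _ = _ := mul_one _
    have hone : ∀ s : S, ev j s ≠ 0 → V.valuation (s : Ω) = 1 := by
      intro s hs
      have h1 := hA1 (ev j s) (D.val j s) hs
      have h2 := hVs s
      have h3 : V.valuation (ev j s + ((s : Ω) - ev j s)) = V.valuation (ev j s) := by
        apply Valuation.map_add_eq_of_lt_left
        rw [h1]
        exact h2
      rw [add_sub_cancel, h1] at h3
      exact h3
    have hlt : V.valuation (π : Ω) < 1 := by
      have h2 := hVs π
      rw [hπ0, sub_zero] at h2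
      exact h2
    have hne : ∀ s : S, ev j s ≠ 0 → s ≠ 0 := by
      rintro s hs rfl
      exact hs (map_zero _)
    have hπne : (π : Ω) ≠ 0 := by
      intro h0
      have h1 : π = 0 := Subtype.ext h0
      rw [h1, zero_pow (D.pos j).ne', zero_mul] at hab
      rcases mul_eq_zero.1 hab with h2 | h2
      · exact hh (congrArg Subtype.val h2)
      · exact hne a ha h2
    obtain ⟨i, x1, y1, hx1, hy1, h1⟩ := hun ⟨u, hu⟩ (fun h => hu0 (congrArg Subtype.val h))
    obtain ⟨i', x2, y2, hx2, hy2, h2⟩ := hun ⟨v, hv⟩ (fun h => hv0 (congrArg Subtype.val h))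
    have h1' : u * (x1 : Ω) = (π : Ω) ^ i * y1 := congrArg Subtype.val h1
    have h2' : v * (x2 : Ω) = (π : Ω) ^ i' * y2 := congrArg Subtype.val h2
    have hxV := hx V hV hVh
    have e1 : V.valuation u = V.valuation (π : Ω) ^ i := by
      have := congrArg V.valuation h1'
      rw [map_mul, map_mul, hone x1 hx1, hone y1 hy1, mul_one, mul_one, map_pow] at this
      exact this
    have e2 : V.valuation v = V.valuation (π : Ω) ^ i' := by
      have := congrArg V.valuation h2'
      rw [map_mul, map_mul, hone x2 hx2, hone y2 hy2, mul_one, mul_one, map_pow] at this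
      exact this
    have e3 : V.valuation v = V.valuation u := by
      rw [← huv, map_mul, hxV, one_mul]
    have hpos : 0 < V.valuation (π : Ω) := by
      rw [zero_lt_iff]
      exact (Valuation.ne_zero_iff _).2 hπne
    have hii : i' = i := by
      have e4 : V.valuation (π : Ω) ^ i' = V.valuation (π : Ω) ^ i := by
        rw [← e1, ← e2, e3]
      exact (pow_right_strictAnti₀ hpos hlt).injective e4
    subst hii
    refine ⟨y2 * x1, ?_, ?_⟩
    · have h3 : x * ((y2 * x1 : S) : Ω) = ((y1 * x2 : S) : Ω) := by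
        have hp : (π : Ω) ^ i' ≠ 0 := pow_ne_zero _ hπne
        apply mul_left_cancel₀ hp
        have e5 : ((y2 * x1 : S) : Ω) = (y2 : Ω) * x1 := rfl
        have e6 : ((y1 * x2 : S) : Ω) = (y1 : Ω) * x2 := rfl
        rw [e5, e6]
        calc (π : Ω) ^ i' * (x * ((y2 : Ω) * x1)) = x * ((π : Ω) ^ i' * y2) * x1 := by ring
          _ = x * (v * x2) * x1 := by rw [h2']
          _ = (x * v) * x1 * x2 := by ring
          _ = u * x1 * x2 := by rw [huv]
          _ = (π : Ω) ^ i' * y1 * x2 := by rw [h1']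
          _ = (π : Ω) ^ i' * ((y1 : Ω) * x2) := by ring
      rw [h3]
      exact (y1 * x2 : S).2
    · rw [map_mul]
      exact mul_ne_zero hy2 hx1
  rcases Nat.eq_zero_or_pos n with hn | hn
  · subst hn
    obtain ⟨u, hu, v, hv, hv0, huv⟩ := D.frac x hxE
    exact ⟨⟨u, hu⟩, ⟨v, hv⟩, fun h => hv0 (congrArg Subtype.val h), huv, fun j => j.elim0⟩
  let I : Ideal S :=
    { carrier := {y : S | x * (y : Ω) ∈ S}
      add_mem' := by
        intro a b ha hb
        change x * ((a + b : S) : Ω) ∈ S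
        have e : ((a + b : S) : Ω) = (a : Ω) + b := rfl
        rw [e, mul_add]
        exact S.add_mem ha hb
      zero_mem' := by
        change x * ((0 : S) : Ω) ∈ S
        have e : ((0 : S) : Ω) = 0 := rfl
        rw [e, mul_zero]
        exact S.zero_mem
      smul_mem' := by
        intro c a ha
        change x * ((c * a : S) : Ω) ∈ S
        have e : ((c * a : S) : Ω) = (c : Ω) * a := rfl
        have e2 : x * ((c : Ω) * a) = c * (x * a) := by ring
        rw [e, e2]
        exact S.mul_mem c.2 ha }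
  have hI : ∀ y : S, y ∈ I ↔ x * (y : Ω) ∈ S := fun y => Iff.rfl
  have hnot : ¬ ((I : Set S) ⊆ ⋃ j ∈ ((Finset.univ : Finset (Fin n)) : Set (Fin n)),
      (RingHom.ker (ev j) : Set S)) := by
    intro hsub
    rw [Ideal.subset_union_prime (⟨0, hn⟩ : Fin n) (⟨0, hn⟩ : Fin n)
      (fun i _ _ _ => RingHom.ker_isPrime (ev i))] at hsub
    obtain ⟨j, _, hj⟩ := hsub
    obtain ⟨y, hy, hy0⟩ := hval j
    exact hy0 (hj ((hI y).2 hy))
  rw [Set.not_subset] at hnot
  obtain ⟨v, hvI, hv⟩ := hnot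
  have hv' : ∀ j, ev j v ≠ 0 := by
    intro j h0
    apply hv
    rw [Set.mem_iUnion₂]
    exact ⟨j, by simp, h0⟩
  refine ⟨⟨x * (v : Ω), (hI v).1 hvI⟩, v, ?_, rfl, hv'⟩
  rintro rfl
  exact hv' ⟨0, hn⟩ (map_zero _)

end Pool.Agent.URR
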