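import Pool.Agent.URR.NRB1
import Pool.Agent.URR.NRB2
import Pool.Agent.URR.NRB3
import Pool.Agent.URR.NRB4

set_option autoImplicit false

namespace Pool.Agent.URR

open Pool.Agent.TBR

universe u

variable {k Ω : Type u} [Field k] [Field Ω] [Algebra k Ω]

theorem nrc_sub (V : ValuationSubring Ω) (x y : Ω) (hx : V.valuation x < 1)
    (hy : V.valuation y < 1) : V.valuation (x - y) < 1 :=
  lt_of_le_of_lt (Valuation.map_sub _ _ _) (max_lt hx hy)

theorem nrc_add (V : ValuationSubring Ω) (x y : Ω) (hx : V.valuation x < 1)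
    (hy : V.valuation y < 1) : V.valuation (x + y) < 1 :=
  lt_of_le_of_lt (Valuation.map_add _ _ _) (max_lt hx hy)

theorem nrc_mul (V : ValuationSubring Ω) (x y : Ω) (hx : V.valuation x < 1)
    (hy : V.valuation y ≤ 1) : V.valuation (x * y) < 1 := by
  rw [map_mul]
  calc V.valuation x * V.valuation y ≤ V.valuation x * 1 := by gcongr
    _ < 1 := by rw [mul_one]; exact hx

theorem nrc_mul' (V : ValuationSubring Ω) (x y : Ω) (hx : V.valuation x ≤ 1)
    (hy : V.valuation y < 1) : V.valuation (x * y) < 1 := by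
  rw [mul_comm]
  exact nrc_mul V y x hy hx

theorem nrc_one (A : IntermediateField k Ω) (V : ValuationSubring Ω) (hV : ∀ x ∈ A, x ∈ V)
    (a : Ω) (ha : a ∈ A) (ha0 : a ≠ 0) : V.valuation a = 1 :=
  TBR.V.val_A A V hV ⟨a, ha⟩ (fun h => ha0 (congrArg Subtype.val h))

theorem nrc_uniq (A : IntermediateField k Ω) (V : ValuationSubring Ω) (hV : ∀ x ∈ A, x ∈ V)
    (x a b : Ω) (ha : a ∈ A) (hb : b ∈ A) (h1 : V.valuation (x - a) < 1)
    (h2 : V.valuation (x - b) < 1) : a = b := by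
  by_contra hne
  have h3 : V.valuation (a - b) < 1 := by
    have h4 := nrc_sub V _ _ h2 h1
    rwa [sub_sub_sub_cancel_left] at h4
  rw [nrc_one A V hV (a - b) (sub_mem ha hb) (sub_ne_zero.mpr hne)] at h3
  exact lt_irrefl _ h3

theorem nrc_same_lt (E : IntermediateField k Ω) (V W : ValuationSubring Ω) (h : Same E V W)
    (y : Ω) (hy : y ∈ E) (hV : V.valuation y < 1) : W.valuation y < 1 := by
  by_cases hy0 : y = 0
  · rw [hy0, map_zero]
    exact zero_lt_one
  by_contra hne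
  have h1 : W.valuation y⁻¹ ≤ 1 := by
    rw [map_inv₀]
    exact inv_le_one_of_one_le₀ (not_lt.mp hne)
  have h2 : y⁻¹ ∈ V := (h _ (inv_mem hy)).mpr ((W.valuation_le_one_iff _).mp h1)
  have h3 : V.valuation y⁻¹ ≤ 1 := (V.valuation_le_one_iff _).mpr h2
  have h4 : V.valuation (y * y⁻¹) < 1 := nrc_mul V _ _ hV h3
  rw [mul_inv_cancel₀ hy0, map_one] at h4
  exact lt_irrefl _ h4

theorem nrc_same_symm (E : IntermediateField k Ω) (V W : ValuationSubring Ω) (h : Same E V W) :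
    Same E W V := fun x hx => (h x hx).symm

theorem nrc_same_one (E : IntermediateField k Ω) (V W : ValuationSubring Ω) (h : Same E V W)
    (y : Ω) (hy : y ∈ E) (hV : V.valuation y = 1) : W.valuation y = 1 := by
  have hy0 : y ≠ 0 := by
    rintro rfl
    rw [map_zero] at hV
    exact zero_ne_one hV
  have h1 : W.valuation y ≤ 1 :=
    (W.valuation_le_one_iff _).mpr ((h y hy).mp ((V.valuation_le_one_iff _).mp hV.le))
  rcases lt_or_eq_of_le h1 with h2 | h2
  · have h3 := nrc_same_lt E W V (nrc_same_symm E V W h) y hy h2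
    rw [hV] at h3
    exact absurd h3 (lt_irrefl _)
  · exact h2

/-- a unit modulo the maximal ideal -/
theorem nrc_one_of (V : ValuationSubring Ω) (x a : Ω) (ha : V.valuation a = 1)
    (h : V.valuation (x - a) < 1) : V.valuation x = 1 := by
  have h3 : V.valuation (a + (x - a)) = V.valuation a := by
    apply Valuation.map_add_eq_of_lt_left
    rw [ha]
    exact h
  rw [add_sub_cancel, ha] at h3
  exact h3

theorem nrc_unif_le (E : IntermediateField k Ω) (V : ValuationSubring Ω) (π π' : Ω)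
    (h : Unif E V π) (h' : Unif E V π') : V.valuation π' ≤ V.valuation π := by
  obtain ⟨a, ha⟩ := h.gen π' h'.mem h'.ne
  have h0 : 0 < V.valuation π := zero_lt_iff.mpr ((map_ne_zero _).mpr h.ne)
  have ha1 : 1 ≤ a := by
    by_contra hlt
    have h1 : (1 : V.ValueGroup) ≤ V.valuation π ^ a := by
      have h2 : (V.valuation π) ^ (0 : ℤ) ≤ V.valuation π ^ a :=
        zpow_le_zpow_right_of_le_one₀ h0 h.lt.le (by omega)
      rwa [zpow_zero] at h2
    rw [← ha] at h1
    exact absurd h'.lt (not_lt.mpr h1)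
  rw [ha]
  calc V.valuation π ^ a ≤ V.valuation π ^ (1 : ℤ) :=
        zpow_le_zpow_right_of_le_one₀ h0 h.lt.le ha1
    _ = V.valuation π := zpow_one _

theorem nrc_unif_eq (E : IntermediateField k Ω) (V : ValuationSubring Ω) (π π' : Ω)
    (h : Unif E V π) (h' : Unif E V π') (a b : ℕ)
    (hab : V.valuation π ^ a = V.valuation π' ^ b) : a = b := by
  have h1 : V.valuation π' = V.valuation π :=
    le_antisymm (nrc_unif_le E V π π' h h') (nrc_unif_le E V π' π h' h)
  rw [h1] at hab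
  have h0 : 0 < V.valuation π := zero_lt_iff.mpr ((map_ne_zero _).mpr h.ne)
  exact (pow_right_strictAnti₀ h0 h.lt).injective hab

theorem nrc_poly (A : IntermediateField k Ω) (V : ValuationSubring Ω) (hV : ∀ x ∈ A, x ∈ V)
    (h : Ω) (hh : V.valuation h < 1) (P : Polynomial Ω) (hP : ∀ i, P.coeff i ∈ A) :
    V.valuation (P.eval h - P.eval 0) < 1 := by
  have h1 : P.eval h - P.eval 0 = P.divX.eval h * h := by
    have h2 := Polynomial.divX_mul_X_add P
    have h3 : P.eval h = P.divX.eval h * h + P.coeff 0 := by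
      conv_lhs => rw [← h2]
      simp
    rw [h3, ← Polynomial.coeff_zero_eq_eval_zero]
    ring
  rw [h1]
  refine nrc_mul' V _ _ ?_ hh
  rw [V.valuation_le_one_iff, Polynomial.eval_eq_sum_range]
  refine sum_mem fun i _ => mul_mem ?_ (pow_mem ((V.valuation_le_one_iff _).mp hh.le) _)
  rw [Polynomial.coeff_divX]
  exact hV _ (hP _)

variable [IsAlgClosed Ω]

/--
The value of the norm at a zero of `h`. PROOF (uses NRA, NRB). `exists_dedS` gives `D : DedS …`, `n'`, `ev`, `m`.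
For each `i : Fin n` let `ι i` be the point of `W i` (`DedS.pt`). `ι` is injective (`DedS.unif'` (2) and hW2) and
surjective (`DedS.place`, hW3: the place `V` of the point `j` has the same trace as some `W i`; `V` and
`W i` have the same point, since for `x ∈ S` the residues agree: `x - ev j x ∈ E`, and `V.valuation y < 1` for
`y ∈ E` depends only on the trace: `y = 0 ∨ y⁻¹ ∉ V`). `m (ι i) = e i`: by `DedS.unif'` there is `π'` with
`Unif E (W i) π'`, `(W i).valuation h = (W i).valuation π' ^ m (ι i)`; and `(W i).valuation π' =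
(W i).valuation (π i)` (two uniformizers are integral powers of each other, both `< 1`); compare with he.
For `u ∈ S` with `(W i).valuation (u - c' i) < 1`, `c' i ∈ A`: `ev (ι i) u = c' i`. So by D.norm:
(*) `∏ s, t s u = P(h)`, `P(0) = ∏ i, c' i ^ e i`; and `P(h) - P(0) ∈ m_V` for `V` with `V.valuation h < 1`, as
`P` has coefficients in `A ⊆ V` (`h` divides `P(h) - P(0)` in `V`).
For the general `f`: `hx` of `DedS.avoid` holds by hW3, hfc, hc0 (`f - c i ∈ m`, `c i` a unit of `W i`; the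
valuation `= 1` depends only on the trace on `E`). So `f v = u` with `ev j v ≠ 0` for all `j`. Let
`b i = ev (ι i) v ∈ A`, nonzero; `ev (ι i) u = c i * b i` (`u - c i b i = (f - c i) v + c i (v - b i)`). By (*)
`∏ t s u ≡ ∏ (c i b i) ^ e i`, `∏ t s v ≡ ∏ b i ^ e i` modulo `m_V`; `∏ t s f = ∏ t s u / ∏ t s v`, and
`∏ b i ^ e i` is a unit of `V` (in `A`, nonzero); so `∏ t s f ≡ ∏ c i ^ e i`.
-/
theorem norm_res (A : IntermediateField k Ω) [IsAlgClosed A]
    (hA1 : ∀ t : Ω, t ∉ A → ∀ x : Ω, IsAlgebraic (AA A {t}) x) (B₀ : Set Ω) (hfin : B₀.Finite)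
    (h : Ω) (hE : h ∈ AA A B₀) (hA : h ∉ A) (hsep : ∀ x ∈ AA A B₀, IsSeparable (AA A {h}) x)
    (d : ℕ) (t : Fin d → (Ω ≃ₐ[k] Ω))
    (ht : ∀ s, t s ∈ Fx k ((AA A {h} : IntermediateField k Ω) : Set Ω))
    (ht2 : ∀ g ∈ Fx k ((AA A {h} : IntermediateField k Ω) : Set Ω),
        ∃! s, Ag ((AA A B₀ : IntermediateField k Ω) : Set Ω) g (t s))
    (n : ℕ) (W : Fin n → ValuationSubring Ω) (hW : ∀ j, Pl A (W j))
    (hW1 : ∀ j, (W j).valuation h < 1) (hW2 : ∀ i j, Same (AA A B₀) (W i) (W j) → i = j)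
    (hW3 : ∀ V, Pl A V → V.valuation h < 1 → ∃ j, Same (AA A B₀) V (W j))
    (π : Fin n → Ω) (hπ : ∀ j, Unif (AA A B₀) (W j) (π j)) (e : Fin n → ℕ)
    (he : ∀ j, (W j).valuation h = (W j).valuation (π j) ^ e j)
    (f : Ω) (hf : f ∈ AA A B₀) (hf0 : f ≠ 0) (c : Fin n → Ω) (hc : ∀ j, c j ∈ A)
    (hc0 : ∀ j, c j ≠ 0) (hfc : ∀ j, (W j).valuation (f - c j) < 1)
    (V : ValuationSubring Ω) (hV : Pl A V) (hV1 : V.valuation h < 1) :
    V.valuation (∏ s, t s f - ∏ j, c j ^ e j) < 1 := by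
  have hh : h ≠ 0 := by
    rintro rfl
    exact hA (zero_mem A)
  obtain ⟨S, n', ev, m, D⟩ := exists_dedS A hA1 B₀ hfin h hE hA hsep d t ht ht2
  have hpt : ∀ i, ∃ j, ∀ x : S, (W i).valuation ((x : Ω) - ev j x) < 1 := fun i =>
    DedS.pt hA1 D (W i) (hW i) (hW1 i)
  choose ι hι using hpt
  have hinj : Function.Injective ι := by
    intro i j hij
    refine hW2 i j ((DedS.unif' hh D (ι i)).2 (W i) (W j) (hW i) (hW1 i) (hW j) (hW1 j) (hι i) ?_)
    rw [hij]
    exact hι j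
  have hsurj : Function.Surjective ι := by
    intro j
    obtain ⟨V', hV', hV'1, hV'2⟩ := DedS.place hh D j
    obtain ⟨i, hi⟩ := hW3 V' hV' hV'1
    refine ⟨i, D.inj (RingHom.ext fun x => ?_)⟩
    refine nrc_uniq A (W i) (hW i).1 x _ _ (D.val _ _) (D.val _ _) (hι i x) ?_
    exact nrc_same_lt (AA A B₀) V' (W i) hi _
      (sub_mem (D.le x x.2) (le_AA A B₀ (D.val j x))) (hV'2 x)
  have hm : ∀ i, m (ι i) = e i := by
    intro i
    obtain ⟨π', hπ', h1⟩ := (DedS.unif' hh D (ι i)).1 (W i) (hW i) (hW1 i) (hι i)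
    refine nrc_unif_eq (AA A B₀) (W i) π' (π i) hπ' (hπ i) _ _ ?_
    rw [← h1, he i]
  -- the value of the norm for the elements of `S`
  have hstar : ∀ (u : S) (c' : Fin n → Ω), (∀ i, ev (ι i) u = c' i) →
      V.valuation (∏ s, t s u - ∏ i, c' i ^ e i) < 1 := by
    intro u c' hc'
    obtain ⟨P, hP, hP1, hP2⟩ := D.norm u
    have h1 : ∏ i, c' i ^ e i = P.eval 0 := by
      rw [hP2, ← Function.Bijective.prod_comp ⟨hinj, hsurj⟩ (fun j => ev j u ^ m j)]
      refine Finset.prod_congr rfl fun i _ => ?_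
      rw [hm i, hc' i]
    rw [hP1, h1]
    exact nrc_poly A V hV.1 h hV1 P hP
  have hx : ∀ V' : ValuationSubring Ω, Pl A V' → V'.valuation h < 1 → V'.valuation f = 1 := by
    intro V' hV' hV'1
    obtain ⟨i, hi⟩ := hW3 V' hV' hV'1
    refine nrc_same_one (AA A B₀) (W i) V' (nrc_same_symm _ _ _ hi) f hf ?_
    exact nrc_one_of (W i) f (c i) (nrc_one A (W i) (hW i).1 _ (hc i) (hc0 i)) (hfc i)
  obtain ⟨u, v, hv0, huv, hev⟩ := DedS.avoid hh D f hf hf0 hx
  have hu : ∀ i, ev (ι i) u = c i * ev (ι i) v := by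
    intro i
    refine nrc_uniq A (W i) (hW i).1 u _ _ (D.val _ _) (mul_mem (hc i) (D.val _ _)) (hι i u) ?_
    have h1 : (u : Ω) - c i * ev (ι i) v = (f - c i) * v + c i * ((v : Ω) - ev (ι i) v) := by
      rw [← huv]
      ring
    rw [h1]
    refine nrc_add _ _ _ (nrc_mul _ _ _ (hfc i) ?_) (nrc_mul' _ _ _ ?_ (hι i v))
    · rw [ValuationSubring.valuation_le_one_iff]
      exact D.int (W i) (hW i).1 (((W i).valuation_le_one_iff _).mp (hW1 i).le) v v.2
    · rw [ValuationSubring.valuation_le_one_iff]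
      exact (hW i).1 _ (hc i)
  have h1 := hstar u (fun i => c i * ev (ι i) v) hu
  have h2 := hstar v (fun i => ev (ι i) v) (fun i => rfl)
  have hBA : ∏ i, ev (ι i) v ^ e i ∈ A := prod_mem fun i _ => pow_mem (D.val _ _) _
  have hB0 : ∏ i, ev (ι i) v ^ e i ≠ 0 :=
    Finset.prod_ne_zero_iff.mpr fun i _ => pow_ne_zero _ (hev _)
  have hCA : ∏ i, c i ^ e i ∈ A := prod_mem fun i _ => pow_mem (hc i) _
  have hG1 : V.valuation (∏ s, t s (v : Ω)) = 1 :=
    nrc_one_of V _ _ (nrc_one A V hV.1 _ hBA hB0) h2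
  have hC1 : V.valuation (∏ i, c i ^ e i) ≤ 1 :=
    (V.valuation_le_one_iff _).mpr (hV.1 _ hCA)
  have hmul : ∏ s, t s (u : Ω) = (∏ s, t s f) * ∏ s, t s (v : Ω) := by
    rw [← Finset.prod_mul_distrib]
    refine Finset.prod_congr rfl fun s _ => ?_
    rw [← huv, map_mul]
  have hprod : ∏ i, (c i * ev (ι i) v) ^ e i = (∏ i, c i ^ e i) * ∏ i, ev (ι i) v ^ e i := by
    rw [← Finset.prod_mul_distrib]
    exact Finset.prod_congr rfl fun i _ => mul_pow _ _ _
  have h3 : V.valuation ((∏ s, t s f - ∏ j, c j ^ e j) * ∏ s, t s (v : Ω)) < 1 := by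
    have h4 : (∏ s, t s f - ∏ j, c j ^ e j) * ∏ s, t s (v : Ω) =
        (∏ s, t s (u : Ω) - ∏ i, (c i * ev (ι i) v) ^ e i) -
          (∏ i, c i ^ e i) * (∏ s, t s (v : Ω) - ∏ i, ev (ι i) v ^ e i) := by
      rw [hmul, hprod]
      ring
    rw [h4]
    exact nrc_sub V _ _ h1 (nrc_mul' V _ _ hC1 h2)
  rwa [map_mul, hG1, mul_one] at h3

end Pool.Agent.URR
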