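import Pool.Agent.URR.CORE1
import Pool.Agent.URR.NRC
import Pool.Agent.URR.EMB1

/-!
# The reciprocity relation for the residues of a modified unramified cocycle
-/

set_option autoImplicit false

namespace Pool.Agent.URR

open Pool.Agent.TBR Polynomial

universe u

/-- valuation rings not containing a transcendental element -/
private theorem exists_W {κ L : Type*} [Field κ] [Field L] [Algebra κ L] (T : L)
    (hT : Transcendental κ T) :
    ∃ W : ValuationSubring L, (∀ a : κ, algebraMap κ L a ∈ W) ∧ T ∉ W := by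
  by_contra hcon
  push Not at hcon
  have h1 : T ∈ (integralClosure (Subring.closure (Set.range (algebraMap κ L))) L).toSubring := by
    rw [← iInf_valuationSubring_superset, Subring.mem_iInf]
    rintro ⟨V, hV⟩
    exact hcon V fun a => hV ⟨a, rfl⟩
  obtain ⟨p, hp, hpx⟩ : IsIntegral (Subring.closure (Set.range (algebraMap κ L))) T := h1
  have hcl : Subring.closure (Set.range (algebraMap κ L)) = (algebraMap κ L).range := by
    rw [← RingHom.coe_range, Subring.closure_eq]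
  have hsurj : ∀ z : Subring.closure (Set.range (algebraMap κ L)),
      ∃ q : κ, algebraMap κ L q = (z : L) := by
    rintro ⟨z, hz⟩
    rw [hcl] at hz
    exact hz
  choose q hq using hsurj
  have : p.map (algebraMap (Subring.closure (Set.range (algebraMap κ L))) L) ∈
      Polynomial.lifts (algebraMap κ L) := by
    rw [Polynomial.lifts_iff_coeff_lifts]
    intro n
    rw [Polynomial.coeff_map]
    exact ⟨q (p.coeff n), hq _⟩
  obtain ⟨r, hr, hr1, hr2⟩ := Polynomial.lifts_and_natDegree_eq_and_monic this (hp.map _)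
  apply hT
  refine ⟨r, hr2.ne_zero, ?_⟩
  rw [Polynomial.aeval_def, Polynomial.eval₂_eq_eval_map, hr, Polynomial.eval_map]
  exact hpx


section

variable {k Ω : Type u} [Field k] [Field Ω] [Algebra k Ω]

theorem transc (A : IntermediateField k Ω) [IsAlgClosed A] (h : Ω) (hA : h ∉ A) :
    Transcendental A h := by
  intro halg
  have h1 : IsIntegral A h := halg.isIntegral
  have h2 : (minpoly A h).degree = 1 := IsAlgClosed.degree_eq_one_of_irreducible A (minpoly.irreducible h1)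
  have h3 : h ∈ (algebraMap A Ω).range := minpoly.mem_range_of_degree_eq_one A h h2
  obtain ⟨x, rfl⟩ := h3
  exact hA x.2

theorem exists_pole (A : IntermediateField k Ω) [IsAlgClosed A] (h : Ω) (hA : h ∉ A) :
    ∃ V : ValuationSubring Ω, Pl A V ∧ h ∉ V := by
  obtain ⟨V, hV, hV1⟩ := exists_W (κ := A) h (transc A h hA)
  refine ⟨V, ⟨fun x hx => hV ⟨x, hx⟩, ?_⟩, hV1⟩
  rintro rfl
  exact hV1 trivial

theorem AA_inv (A : IntermediateField k Ω) (h : Ω) : AA A {h⁻¹} = AA A {h} := by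
  apply le_antisymm
  · refine sup_le le_sup_left ?_
    rw [IntermediateField.adjoin_le_iff]
    rintro _ rfl
    exact inv_mem (sub_AA A {h} rfl)
  · refine sup_le le_sup_left ?_
    rw [IntermediateField.adjoin_le_iff]
    intro y hy
    rw [Set.mem_singleton_iff] at hy
    have h1 : (h⁻¹)⁻¹ ∈ AA A {h⁻¹} := inv_mem (sub_AA A {h⁻¹} rfl)
    rw [inv_inv] at h1
    rw [hy]
    exact h1

end

section

variable {k Ω : Type u} [Field k] [Field Ω] [Algebra k Ω] [IsAlgClosed Ω]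
variable {A : IntermediateField k Ω} [IsAlgClosed A] {N : Subgroup (Ω ≃ₐ[k] Ω)} {B₀ : Set Ω}

/-- `norm_res` for a family of places which contains the zeros of `h` -/
theorem norm_res' (hS : Sit A N B₀) (h : Ω) (hE : h ∈ AA A B₀) (hA : h ∉ A)
    (hsep : ∀ x ∈ AA A B₀, IsSeparable (AA A {h}) x)
    (d : ℕ) (t : Fin d → (Ω ≃ₐ[k] Ω))
    (ht : ∀ s, t s ∈ Fx k ((AA A {h} : IntermediateField k Ω) : Set Ω))
    (ht2 : ∀ g ∈ Fx k ((AA A {h} : IntermediateField k Ω) : Set Ω),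
        ∃! s, Ag ((AA A B₀ : IntermediateField k Ω) : Set Ω) g (t s))
    (n : ℕ) (W : Fin n → ValuationSubring Ω) (hW : ∀ j, Pl A (W j))
    (hW2 : ∀ i j, Same (AA A B₀) (W i) (W j) → i = j)
    (hW3 : ∀ V, Pl A V → V.valuation h < 1 → ∃ j, Same (AA A B₀) V (W j))
    (π : Fin n → Ω) (hπ : ∀ j, Unif (AA A B₀) (W j) (π j)) (e : Fin n → ℤ)
    (he : ∀ j, (W j).valuation h = (W j).valuation (π j) ^ e j)
    (f : Ω) (hf : f ∈ AA A B₀) (hf0 : f ≠ 0) (c : Fin n → Ωˣ) (hc : ∀ j, (c j : Ω) ∈ A)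
    (hfc : ∀ j, (W j).valuation h < 1 → (W j).valuation (f - c j) < 1)
    (V : ValuationSubring Ω) (hV : Pl A V) (hV1 : V.valuation h < 1) :
    V.valuation (∏ s, t s f - ((∏ j ∈ Finset.univ.filter (fun j => (W j).valuation h < 1),
      c j ^ e j : Ωˣ) : Ω)) < 1 := by
  classical
  obtain ⟨J, hJ⟩ : ∃ J, J = Finset.univ.filter (fun j => (W j).valuation h < 1) := ⟨_, rfl⟩
  have hJm : ∀ j, j ∈ J ↔ (W j).valuation h < 1 := by
    intro j
    rw [hJ, Finset.mem_filter]
    exact ⟨fun h => h.2, fun h => ⟨Finset.mem_univ _, h⟩⟩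
  have hepos : ∀ j ∈ J, 0 < e j := by
    intro j hj
    by_contra hneg
    have h1 := (hJm j).1 hj
    rw [he j] at h1
    have h2 := (hπ j).lt
    have h3 : (W j).valuation (π j) ≠ 0 := (Valuation.ne_zero_iff _).2 (hπ j).ne
    have h4 : (1 : (W j).ValueGroup) ≤ (W j).valuation (π j) ^ e j := by
      have h5 : e j = -((-(e j)).toNat : ℤ) := by omega
      rw [h5, zpow_neg, zpow_natCast]
      rw [one_le_inv₀ (pow_pos (zero_lt_iff.2 h3) _)]
      exact pow_le_one₀ zero_le h2.le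
    exact absurd h1 (not_lt.2 h4)
  have key := norm_res A hS.trd B₀ hS.fin h hE hA hsep d t ht ht2 J.card
    (fun i => W (J.equivFin.symm i)) (fun i => hW _)
    (fun i => (hJm _).1 (J.equivFin.symm i).2)
    (fun i j hij => by
      have h1 := hW2 _ _ hij
      have h2 : J.equivFin.symm i = J.equivFin.symm j := Subtype.ext h1
      exact J.equivFin.symm.injective h2)
    (fun V' hV' hV1' => by
      obtain ⟨j, hj⟩ := hW3 V' hV' hV1'
      have hjJ : j ∈ J := (hJm j).2 ((same_lt hj h hE).1 hV1')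
      refine ⟨J.equivFin ⟨j, hjJ⟩, ?_⟩
      simp only [Equiv.symm_apply_apply]
      exact hj)
    (fun i => π (J.equivFin.symm i)) (fun i => hπ _) (fun i => (e (J.equivFin.symm i)).toNat)
    (fun i => by
      have h1 := he (J.equivFin.symm i)
      have h2 := hepos _ (J.equivFin.symm i).2
      have h3 : e (J.equivFin.symm i) = ((e (J.equivFin.symm i)).toNat : ℤ) := by omega
      rw [h3, zpow_natCast] at h1
      exact h1)
    f hf hf0 (fun i => (c (J.equivFin.symm i) : Ω)) (fun i => hc _) (fun i => Units.ne_zero _)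
    (fun i => hfc _ ((hJm _).1 (J.equivFin.symm i).2)) V hV hV1
  have h4 : ((∏ j ∈ J, c j ^ e j : Ωˣ) : Ω) =
      ∏ i : Fin J.card, (c (J.equivFin.symm i) : Ω) ^ (e (J.equivFin.symm i)).toNat := by
    rw [Units.coe_prod, ← Finset.prod_coe_sort J (fun j => ((c j ^ e j : Ωˣ) : Ω)),
      ← Equiv.prod_comp J.equivFin.symm]
    refine Finset.prod_congr rfl fun i _ => ?_
    have h2 := hepos _ (J.equivFin.symm i).2
    have h3 : e (J.equivFin.symm i) = ((e (J.equivFin.symm i)).toNat : ℤ) := by omega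
    rw [Units.val_zpow_eq_zpow_val]
    conv_lhs => rw [h3]
    rw [zpow_natCast]
  rw [← hJ, h4]
  exact key

/-- the reciprocity relation for the residues of the modified cocycle -/
theorem core2 (hS : Sit A N B₀) (p : ℕ) [ExpChar Ω p]
    (a : (Ω ≃ₐ[k] Ω) → (Ω ≃ₐ[k] Ω) → Ωˣ) (ha : CocE A N B₀ a) (h : Ω) (hE : h ∈ AA A B₀)
    (hA : h ∉ A) (hN : ∀ σ ∈ N, σ h = h) (hsep : ∀ x ∈ AA A B₀, IsSeparable (AA A {h}) x)
    (n : ℕ) (W : Fin n → ValuationSubring Ω) (π : Fin n → Ω) (e : Fin n → ℤ)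
    (hW : ∀ j, Pl A (W j)) (hπ : ∀ j, Unif (AA A B₀) (W j) (π j))
    (hW2 : ∀ i j, Same (AA A B₀) (W i) (W j) → i = j)
    (hW3 : ∀ V, Pl A V → V.valuation h ≠ 1 → ∃ j, Same (AA A B₀) V (W j))
    (he : ∀ j, (W j).valuation h = (W j).valuation (π j) ^ e j)
    (hst : ∀ σ ∈ N, ∀ j, ∀ x ∈ AA A B₀, σ x ∈ W j ↔ x ∈ W j) :
    ∃ (r : ℕ) (g χ : (Ω ≃ₐ[k] Ω) → Ωˣ), Lc1 (A : Set Ω) g ∧ g 1 = 1 ∧
      (∀ σ, (g σ : Ω) ∈ AA A B₀) ∧
      (∀ V : ValuationSubring Ω, Pl A V → V.valuation h ≠ 1 → ∀ σ ∈ N, ∀ τ ∈ N,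
        ag a (p ^ r) g σ τ ∈ V.unitGroup) ∧
      Lc1 (A : Set Ω) χ ∧ (∀ σ, (χ σ : Ω) ∈ A) ∧
      ∀ σ ∈ N, ∀ τ ∈ N, ∀ X : Fin n → Ωˣ, (∀ j, (X j : Ω) ∈ A) →
        (∀ j, (W j).valuation h ≠ 1 →
          (W j).valuation ((ag a (p ^ r) g σ τ : Ω) - X j) < 1) →
          (∏ j, X j ^ e j) * χ (σ * τ) = χ σ * σ • χ τ := by
  classical
  have hh0 : h ≠ 0 := fun h' => hA (by rw [h']; exact A.zero_mem)
  have hinvA : h⁻¹ ∉ A := fun h' => hA (by rw [← inv_inv h]; exact A.inv_mem h')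
  have hinvE : h⁻¹ ∈ AA A B₀ := inv_mem hE
  obtain ⟨d, t, ht, ht2, ht3⟩ := exists_emb A hS.trd B₀ hS.fin h hE hA hsep
  -- a zero and a pole
  obtain ⟨V1', hV1', h1'⟩ := exists_pole A h hA
  have hlt1' : V1'.valuation h ≠ 1 := fun h' => h1' ((val_eq_iff _ _).1 h').1
  obtain ⟨j1, hj1⟩ := hW3 V1' hV1' hlt1'
  have h1 : h ∉ W j1 := fun h' => h1' ((hj1 h hE).2 h')
  obtain ⟨V0', hV0', h0'⟩ := exists_pole A h⁻¹ hinvA
  have hlt0' : V0'.valuation h < 1 := (val_lt_iff _ _).2 (Or.inr h0')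
  obtain ⟨j0, hj0⟩ := hW3 V0' hV0' hlt0'.ne
  have h0 : (W j0).valuation h < 1 := (same_lt hj0 h hE).1 hlt0'
  obtain ⟨r, g, χ, hg, hg1, hgE, hgu, hχ, hχA, hrel⟩ := core1 hS p a ha h hE hA hN d t ht ht2 ht3
    (W j0) (W j1) (hW j0) (hW j1) h0 h1 (fun σ hσ => hst σ hσ j0) (fun σ hσ => hst σ hσ j1)
  refine ⟨r, g, χ, hg, hg1, hgE, hgu, hχ, hχA, ?_⟩
  intro σ hσ τ hτ X hX hXr
  have hagE : ((ag a (p ^ r) g σ τ : Ωˣ) : Ω) ∈ AA A B₀ := ag_mem hS ha.mem _ hgE hσ τ
  have k0 := norm_res' hS h hE hA hsep d t ht ht2 n W hW hW2 (fun V hV hlt => hW3 V hV hlt.ne) π hπ e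
    he _ hagE (Units.ne_zero _) X hX (fun j hj => hXr j hj.ne) (W j0) (hW j0) h0
  have k1 := norm_res' hS h⁻¹ hinvE hinvA (by rw [AA_inv]; exact hsep) d t (by rw [AA_inv]; exact ht)
    (by rw [AA_inv]; exact ht2) n W hW hW2 (fun V hV hlt => hW3 V hV (fun h' => by
      rw [map_inv₀, h', inv_one] at hlt
      exact lt_irrefl _ hlt)) π hπ (fun j => - e j)
    (fun j => by rw [map_inv₀, he j, zpow_neg]) _ hagE (Units.ne_zero _) X hX
    (fun j hj => hXr j (fun h' => by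
      rw [map_inv₀, h', inv_one] at hj
      exact lt_irrefl _ hj)) (W j1) (hW j1) ((val_lt_iff _ _).2 (Or.inr (by rw [inv_inv]; exact h1)))
  have hprodA : ∀ (J : Finset (Fin n)) (e' : Fin n → ℤ), ((∏ j ∈ J, X j ^ e' j : Ωˣ) : Ω) ∈ A := by
    intro J e'
    rw [Units.coe_prod]
    refine prod_mem fun j _ => ?_
    rw [Units.val_zpow_eq_zpow_val]
    exact zpow_mem (hX j) _
  have k2 := hrel σ hσ τ hτ _ _ (hprodA _ _) (hprodA _ _) k0 k1
  rw [← k2]
  congr 1
  -- the product over all places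
  have hval0 : ∀ j, (W j).valuation (π j) ≠ 0 := fun j => (Valuation.ne_zero_iff _).2 (hπ j).ne
  have hsplit : ∀ j, (X j ^ e j : Ωˣ) =
      (if (W j).valuation h < 1 then X j ^ e j else 1) *
        (if (W j).valuation h⁻¹ < 1 then X j ^ (- e j) else 1)⁻¹ := by
    intro j
    rcases lt_trichotomy ((W j).valuation h) 1 with hj | hj | hj
    · have h3 : ¬ (W j).valuation h⁻¹ < 1 := by
        rw [map_inv₀, not_lt]
        exact (one_le_inv₀ (zero_lt_iff.2 ((Valuation.ne_zero_iff _).2 hh0))).2 hj.le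
      rw [if_pos hj, if_neg h3, inv_one, mul_one]
    · have h3 : ¬ (W j).valuation h⁻¹ < 1 := by
        rw [map_inv₀, hj, inv_one]
        exact lt_irrefl _
      have h4 : e j = 0 := by
        by_contra hne
        rw [he j] at hj
        have hlt := (hπ j).lt
        rcases lt_or_gt_of_ne hne with hlt' | hlt'
        · have h5 : e j = -((-(e j)).toNat : ℤ) := by omega
          rw [h5, zpow_neg, zpow_natCast, inv_eq_one] at hj
          exact absurd hj (pow_lt_one₀ zero_le hlt (by omega)).ne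
        · have h5 : e j = ((e j).toNat : ℤ) := by omega
          rw [h5, zpow_natCast] at hj
          exact absurd hj (pow_lt_one₀ zero_le hlt (by omega)).ne
      rw [hj, if_neg (lt_irrefl _), if_neg h3, inv_one, mul_one, h4, zpow_zero]
    · have h3 : (W j).valuation h⁻¹ < 1 := by
        rw [map_inv₀]
        exact inv_lt_one_of_one_lt₀ hj
      rw [if_neg (not_lt.2 hj.le), if_pos h3, one_mul, zpow_neg, inv_inv]
  rw [Finset.prod_congr rfl (fun j _ => hsplit j), Finset.prod_mul_distrib, Finset.prod_inv_distrib,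
    Finset.prod_filter, Finset.prod_filter]

end

end Pool.Agent.URR
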