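import Pool.Agent.URR.Defs

set_option autoImplicit false

namespace Pool.Agent.URR

open Pool.Agent.TBR

universe u

variable {k Ω : Type u} [Field k] [Field Ω] [Algebra k Ω]

private theorem cxi1_root (A : IntermediateField k Ω) [IsAlgClosed A] (K : IntermediateField k A)
    (hK : ∀ x : A, IsAlgebraic K x) (ξ : A →ₐ[k] Ω) (σ : Ω ≃ₐ[k] Ω)
    (hσ : ∀ x ∈ K, σ (ξ x) = ξ x) (x : A) : ∃ y : A, σ (ξ x) = ξ y := by
  obtain ⟨p, hp, hpx⟩ := hK x
  have hinj : Function.Injective (algebraMap K A) := (algebraMap K A).injective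
  have hq : p.map (algebraMap K A) ≠ 0 := (Polynomial.map_ne_zero_iff hinj).mpr hp
  have hsp : (p.map (algebraMap K A)).Splits := IsAlgClosed.splits _
  -- the image under `ξ`
  have h1 : (p.map (algebraMap K A)).map ξ.toRingHom ≠ 0 :=
    (Polynomial.map_ne_zero_iff ξ.toRingHom.injective).mpr hq
  have h2 : Polynomial.eval₂ (ξ.toRingHom.comp (algebraMap K A)) (ξ x) p = 0 := by
    have h3 : Polynomial.eval₂ (algebraMap K A) x p = 0 := hpx
    have h4 := congrArg ξ.toRingHom h3
    rw [Polynomial.hom_eval₂, map_zero] at h4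
    exact h4
  have h5 : Polynomial.eval₂ (ξ.toRingHom.comp (algebraMap K A)) (σ (ξ x)) p = 0 := by
    have h6 := congrArg (σ : Ω →+* Ω) h2
    rw [Polynomial.hom_eval₂, map_zero] at h6
    have h7 : (σ : Ω →+* Ω).comp (ξ.toRingHom.comp (algebraMap K A)) =
        ξ.toRingHom.comp (algebraMap K A) := by
      refine RingHom.ext fun z => ?_
      exact hσ z z.2
    rw [h7] at h6
    exact h6
  have h8 : σ (ξ x) ∈ ((p.map (algebraMap K A)).map ξ.toRingHom).roots := by
    rw [Polynomial.mem_roots h1, Polynomial.IsRoot, Polynomial.map_map, Polynomial.eval_map]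
    exact h5
  rw [hsp.roots_map ξ.toRingHom] at h8
  obtain ⟨y, _, hy⟩ := Multiset.mem_map.mp h8
  exact ⟨y, hy.symm⟩

/--
PROOF. `σ` fixes `ξ(K)` and the elements algebraic over `k`. `ξ(A)` is algebraically closed and algebraic over
`ξ(K)`; so `σ` maps `ξ(A)` onto itself (`x ∈ Ω` is in `ξ(A)` iff it is algebraic over `ξ(K)`; `σ` fixes the
coefficients). Let `g` be the automorphism of `A` with `σ (ξ x) = ξ (g x)`. It fixes `K` and the elements
algebraic over `k`.
-/
theorem exists_rs (A : IntermediateField k Ω) [IsAlgClosed A] (K : IntermediateField k A)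
    (hK : ∀ x : A, IsAlgebraic K x) (ξ : A →ₐ[k] Ω) (σ : Ω ≃ₐ[k] Ω)
    (hσ : ∀ x ∈ K, σ (ξ x) = ξ x) (hσ' : ∀ x : Ω, IsAlgebraic k x → σ x = x) :
    ∃ g ∈ Ge k (K : Set A), ∀ x : A, σ (ξ x) = ξ (g x) := by
  have hσi : ∀ x ∈ K, σ⁻¹ (ξ x) = ξ x := by
    intro x hx
    have h := hσ x hx
    calc σ⁻¹ (ξ x) = σ⁻¹ (σ (ξ x)) := by rw [h]
      _ = ξ x := σ.symm_apply_apply _
  choose g1 hg1 using cxi1_root A K hK ξ σ hσ
  choose g2 hg2 using cxi1_root A K hK ξ σ⁻¹ hσi
  have hinj : Function.Injective ξ := ξ.toRingHom.injective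
  have hl : ∀ x, g2 (g1 x) = x := by
    intro x
    apply hinj
    rw [← hg2, ← hg1]
    exact σ.symm_apply_apply _
  have hr : ∀ x, g1 (g2 x) = x := by
    intro x
    apply hinj
    rw [← hg1, ← hg2]
    exact σ.apply_symm_apply _
  refine ⟨{ toFun := g1, invFun := g2, left_inv := hl, right_inv := hr,
            map_mul' := ?_, map_add' := ?_, commutes' := ?_ }, ?_, ?_⟩
  · intro x y
    apply hinj
    rw [← hg1, map_mul, map_mul, map_mul, hg1, hg1]
  · intro x y
    apply hinj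
    rw [← hg1, map_add, map_add, map_add, hg1, hg1]
  · intro r
    apply hinj
    rw [← hg1, AlgHom.commutes, AlgEquiv.commutes]
  · refine ⟨?_, ?_⟩
    · intro x hx
      apply hinj
      show ξ (g1 x) = ξ x
      rw [← hg1, hσ x hx]
    · intro x hx
      apply hinj
      show ξ (g1 x) = ξ x
      rw [← hg1]
      exact hσ' _ (hx.algHom ξ)
  · intro x
    exact hg1 x

end Pool.Agent.URR
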