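import Pool.Agent.URR.PV
import Pool.Agent.URR.CXI1

/-!
# The inverse image of a cocycle
-/

set_option autoImplicit false

namespace Pool.Agent.URR

open Pool.Agent.TBR

universe u

variable {k Ω : Type u} [Field k] [Field Ω] [Algebra k Ω]

/-- the inverse image of a cocycle under an embedding `ξ` -/
theorem exists_C' (A : IntermediateField k Ω) [IsAlgClosed A] (K : IntermediateField k A)
    (hK : ∀ x : A, IsAlgebraic K x) (ξ : A →ₐ[k] Ω) (N : Subgroup (Ω ≃ₐ[k] Ω))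
    (hN : ∀ σ ∈ N, (∀ x ∈ K, σ (ξ x) = ξ x) ∧ ∀ x : Ω, IsAlgebraic k x → σ x = x)
    (c : (A ≃ₐ[k] A) → (A ≃ₐ[k] A) → Aˣ) (hlc : Lc2 Set.univ c) (hcoc : Coc (Ge k (K : Set A)) c)
    (hunr : ∀ V : ValuationSubring A, (∀ x : k, algebraMap k A x ∈ V) → V ≠ ⊤ →
      Tri (Ge k (K : Set A) ⊓ St k V) c) :
    ∃ (C : (Ω ≃ₐ[k] Ω) → (Ω ≃ₐ[k] Ω) → Ωˣ) (ρ : (Ω ≃ₐ[k] Ω) → (A ≃ₐ[k] A)),
      Lc2 Set.univ C ∧ Coc N C ∧
      (∀ V : ValuationSubring Ω, Pl A V → (¬ ∀ x, ξ x ∈ V) → Tri (N ⊓ St k V) C) ∧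
      (∀ σ ∈ N, ρ σ ∈ Ge k (K : Set A) ∧ ∀ x, σ (ξ x) = ξ (ρ σ x)) ∧
      ∀ σ ∈ N, ∀ τ ∈ N, C σ τ = Units.map (ξ : A →* Ω) (c (ρ σ) (ρ τ)) := by
  classical
  have k1 : ∀ σ : Ω ≃ₐ[k] Ω, ∃ g : A ≃ₐ[k] A, σ ∈ N →
      (g ∈ Ge k (K : Set A) ∧ ∀ x, σ (ξ x) = ξ (g x)) := by
    intro σ
    by_cases hσ : σ ∈ N
    · obtain ⟨g, h1, h2⟩ := exists_rs A K hK ξ σ (hN σ hσ).1 (hN σ hσ).2
      exact ⟨g, fun _ => ⟨h1, h2⟩⟩
    · exact ⟨1, fun h => absurd h hσ⟩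
  choose ρ hρ using k1
  have hξ : Function.Injective ξ := (ξ : A →+* Ω).injective
  have hmul : ∀ σ ∈ N, ∀ τ ∈ N, ρ (σ * τ) = ρ σ * ρ τ := by
    intro σ hσ τ hτ
    refine AlgEquiv.ext fun x => hξ ?_
    rw [← (hρ _ (N.mul_mem hσ hτ)).2 x, AlgEquiv.mul_apply, AlgEquiv.mul_apply, (hρ τ hτ).2 x,
      (hρ σ hσ).2 (ρ τ x)]
  have hag : ∀ S : Finset A, ∀ σ ∈ N, ∀ σ' ∈ N, Ag ((S.image ξ : Finset Ω) : Set Ω) σ σ' →
      Ag (S : Set A) (ρ σ) (ρ σ') := by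
    intro S σ hσ σ' hσ' h x hx
    apply hξ
    rw [← (hρ σ hσ).2 x, ← (hρ σ' hσ').2 x]
    exact h _ (by rw [Finset.coe_image]; exact ⟨x, hx, rfl⟩)
  obtain ⟨S, -, hS⟩ := hlc
  have hlo : Lo2 N Set.univ (fun σ τ => Units.map (ξ : A →* Ω) (c (ρ σ) (ρ τ))) :=
    ⟨S.image ξ, Set.subset_univ _, fun σ hσ σ' hσ' τ hτ τ' hτ' h h' =>
      congrArg _ (hS _ _ _ _ (hag S σ hσ σ' hσ' h) (hag S τ hτ τ' hτ' h'))⟩
  obtain ⟨C, hC1, hC2, -, -⟩ := hlo.extend 1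
  have hsm : ∀ σ ∈ N, ∀ u : Aˣ, σ • Units.map (ξ : A →* Ω) u = Units.map (ξ : A →* Ω) (ρ σ • u) := by
    intro σ hσ u
    apply Units.ext
    exact (hρ σ hσ).2 (u : A)
  refine ⟨C, ρ, hC1, ?_, ?_, hρ, hC2⟩
  · intro σ hσ τ hτ ω hω
    rw [hC2 σ hσ τ hτ, hC2 (σ * τ) (N.mul_mem hσ hτ) ω hω, hC2 τ hτ ω hω,
      hC2 σ hσ (τ * ω) (N.mul_mem hτ hω), hmul σ hσ τ hτ, hmul τ hτ ω hω, hsm σ hσ, ← map_mul,
      ← map_mul]
    exact congrArg _ (hcoc _ (hρ σ hσ).1 _ (hρ τ hτ).1 _ (hρ ω hω).1)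
  · intro V hV hVξ
    obtain ⟨b, ⟨Sb, -, hSb⟩, hcob⟩ := hunr (V.comap (ξ : A →+* Ω)) (fun x => by
      rw [ValuationSubring.mem_comap]
      have h1 : (ξ : A →+* Ω) (algebraMap k A x) = algebraMap k Ω x := ξ.commutes x
      rw [h1]
      exact hV.1 _ (A.algebraMap_mem x)) (fun h => hVξ fun x => by
        have h1 : x ∈ V.comap (ξ : A →+* Ω) := by rw [h]; trivial
        rwa [ValuationSubring.mem_comap] at h1)
    have hst : ∀ σ ∈ N ⊓ St k V, ρ σ ∈ Ge k (K : Set A) ⊓ St k (V.comap (ξ : A →+* Ω)) := by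
      intro σ hσ
      refine ⟨(hρ σ hσ.1).1, fun x => ?_⟩
      rw [ValuationSubring.mem_comap, ValuationSubring.mem_comap]
      have h1 : (ξ : A →+* Ω) (ρ σ x) = σ (ξ x) := ((hρ σ hσ.1).2 x).symm
      rw [h1]
      exact hσ.2 (ξ x)
    have hlo : Lo1 (N ⊓ St k V) Set.univ (fun σ => Units.map (ξ : A →* Ω) (b (ρ σ))) :=
      ⟨Sb.image ξ, Set.subset_univ _, fun σ hσ σ' hσ' h =>
        congrArg _ (hSb _ _ (hag Sb σ hσ.1 σ' hσ'.1 h))⟩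
    obtain ⟨b', hb1, hb2, -⟩ := hlo.extend
    refine ⟨b', hb1, fun σ hσ τ hτ => ?_⟩
    rw [hC2 σ hσ.1 τ hτ.1, hb2 _ (Subgroup.mul_mem _ hσ hτ), hb2 _ hσ, hb2 _ hτ, hsm σ hσ.1,
      ← map_mul, ← map_mul, hmul σ hσ.1 τ hτ.1]
    exact congrArg _ (hcob _ (hst σ hσ) _ (hst τ hτ))

/-- an element of the inertia group acts trivially on `ξ(A)` -/
theorem iner_triv {A : IntermediateField k Ω} [IsAlgClosed A]
    (hA1 : ∀ t : Ω, t ∉ A → ∀ x : Ω, IsAlgebraic (AA A {t}) x) (ξ : A →ₐ[k] Ω)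
    (V : ValuationSubring Ω) (hV : Pl A V) (hξ : ∀ x, ξ x ∈ V) (s : Ω ≃ₐ[k] Ω)
    (hs : s ∈ St k V) (hsA : s ∈ Fx k (A : Set Ω)) (g : A ≃ₐ[k] A)
    (hg : ∀ x, s (ξ x) = ξ (g x)) : g = 1 := by
  refine AlgEquiv.ext fun x => ?_
  obtain ⟨y, hyA, hy⟩ := exists_res hA1 V hV (ξ x) (hξ x)
  have hs' : ∀ z : Ω, V.valuation z < 1 → V.valuation (s z) < 1 := by
    intro z hz
    rw [val_lt_iff] at hz ⊢
    rcases hz with hz | hz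
    · left
      rw [hz, map_zero]
    · right
      rw [← map_inv₀]
      exact fun h => hz ((hs _).1 h)
  have h1 : V.valuation (ξ (g x) - y) < 1 := by
    have h2 := hs' _ hy
    rw [map_sub, hg, hsA y hyA] at h2
    exact h2
  have h3 : V.valuation (ξ (g x - x)) < 1 := by
    have e : ξ (g x - x) = (ξ (g x) - y) - (ξ x - y) := by
      rw [map_sub]
      ring
    rw [e]
    exact Valuation.map_sub_lt _ h1 hy
  have h4 : g x - x = 0 := by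
    by_contra h0
    rw [val_lt_iff] at h3
    rcases h3 with h3 | h3
    · exact h0 ((map_eq_zero_iff ξ (ξ : A →+* Ω).injective).1 h3)
    · exact h3 (by rw [← map_inv₀]; exact hξ _)
  exact sub_eq_zero.1 h4

/-- the residues of the inverse image -/
theorem psi_conj {A : IntermediateField k Ω} (ξ : A →ₐ[k] Ω)
    (V : ValuationSubring Ω) (hV : ∀ x ∈ A, x ∈ V) (ψ : A ≃ₐ[k] A)
    (hψ : ∀ x : A, V.valuation (ξ x - ψ x) < 1) (σ : Ω ≃ₐ[k] Ω) (hσ : σ ∈ St k V)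
    (g : A ≃ₐ[k] A) (hg : ∀ x : A, σ x = g x) (ρ : A ≃ₐ[k] A) (hρ : ∀ x, σ (ξ x) = ξ (ρ x)) :
    ψ⁻¹ * g * ψ = ρ := by
  have hs' : ∀ z : Ω, V.valuation z < 1 → V.valuation (σ z) < 1 := by
    intro z hz
    rw [val_lt_iff] at hz ⊢
    rcases hz with hz | hz
    · left
      rw [hz, map_zero]
    · right
      rw [← map_inv₀]
      exact fun h => hz ((hσ _).1 h)
  refine AlgEquiv.ext fun x => ?_
  have h1 : V.valuation (ξ (ρ x) - g (ψ x)) < 1 := by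
    have h2 := hs' _ (hψ x)
    rw [map_sub, hρ, hg] at h2
    exact h2
  have h2 : ((g (ψ x) : A) : Ω) = ((ψ (ρ x) : A) : Ω) :=
    res_uniq hV (ξ (ρ x)) _ _ (g (ψ x)).2 (ψ (ρ x)).2 h1 (hψ (ρ x))
  have h3 : g (ψ x) = ψ (ρ x) := Subtype.ext h2
  rw [AlgEquiv.mul_apply, AlgEquiv.mul_apply, h3]
  exact ψ.symm_apply_apply _

end Pool.Agent.URR
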