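import Mathlib

set_option autoImplicit false

namespace Pool.Agent.URR

open Polynomial

universe u

section

open Module

variable {Ω S : Type*} [Field Ω] [CommRing S] [IsDedekindDomain S] [Algebra Ω S]

/-- The ded_step: `I / I m` is one-dimensional. -/
private theorem ded_step (I : Ideal S) (hI : I ≠ ⊥) (ev : S →ₐ[Ω] Ω) [Module.Finite Ω (S ⧸ I)]
    (J : Ideal S) (hJ : J = I * RingHom.ker ev) :
    Module.Finite Ω (S ⧸ J) ∧ finrank Ω (S ⧸ J) = finrank Ω (S ⧸ I) + 1 ∧
      ∀ u : S, LinearMap.det (LinearMap.mulLeft Ω (Ideal.Quotient.mk J u)) =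
        ev u * LinearMap.det (LinearMap.mulLeft Ω (Ideal.Quotient.mk I u)) := by
  set m : Ideal S := RingHom.ker ev with hm
  have hmax : m.IsMaximal := by
    apply RingHom.ker_isMaximal_of_surjective
    intro z
    exact ⟨algebraMap Ω S z, by simp⟩
  have hJI : J ≤ I := hJ ▸ Ideal.mul_le_left
  let g : (S ⧸ J) →ₐ[Ω] (S ⧸ I) := Ideal.Quotient.factorₐ Ω hJI
  have hg : ∀ x : S, g (Ideal.Quotient.mk J x) = Ideal.Quotient.mk I x := fun x => rfl
  have hgs : Function.Surjective g.toLinearMap := by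
    intro z
    obtain ⟨x, rfl⟩ := Ideal.Quotient.mk_surjective z
    exact ⟨Ideal.Quotient.mk J x, rfl⟩
  set W : Submodule Ω (S ⧸ J) := LinearMap.ker g.toLinearMap with hW
  have hWmem : ∀ x : S, Ideal.Quotient.mk J x ∈ W ↔ x ∈ I := by
    intro x
    rw [hW, LinearMap.mem_ker]
    change Ideal.Quotient.mk I x = 0 ↔ _
    exact Ideal.Quotient.eq_zero_iff_mem
  -- scalars act through `ev`
  have hsc : ∀ s x : S, x ∈ I → Ideal.Quotient.mk J (s * x) = ev s • Ideal.Quotient.mk J x := by
    intro s x hx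
    have h0 : algebraMap Ω (S ⧸ J) (ev s) = Ideal.Quotient.mk J (algebraMap Ω S (ev s)) := rfl
    rw [Algebra.smul_def, h0, ← map_mul, Ideal.Quotient.eq, ← sub_mul, hJ,
      mul_comm (s - algebraMap Ω S (ev s)) x]
    exact Ideal.mul_mem_mul hx (by rw [hm, RingHom.mem_ker]; simp)
  -- an element of `I` outside `I m`
  have hne : J ≠ I := by
    intro h
    have h1 : I * m = I * ⊤ := by rw [← hJ, h, Ideal.mul_top]
    exact hmax.ne_top (mul_left_cancel₀ hI h1)
  obtain ⟨x0, hx0I, hx0J⟩ : ∃ x ∈ I, x ∉ J := by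
    by_contra hcon
    push Not at hcon
    exact hne (le_antisymm hJI hcon)
  have hspan : Ideal.span {x0} ⊔ J = I := by
    have h1 : Ideal.span {x0} ⊔ J ≤ I :=
      sup_le ((Ideal.span_singleton_le_iff_mem I).2 hx0I) hJI
    obtain ⟨K, hK⟩ := Ideal.dvd_iff_le.2 h1
    have h2 : m ≤ K := by
      have h3 : I * m ≤ I * K := by
        rw [← hK, ← hJ]
        exact le_sup_right
      exact Ideal.dvd_iff_le.1 ((mul_dvd_mul_iff_left hI).1 (Ideal.dvd_iff_le.2 h3))
    rcases eq_or_ne K ⊤ with h3 | h3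
    · rw [hK, h3, Ideal.mul_top]
    · exfalso
      apply hx0J
      have h4 : Ideal.span {x0} ⊔ J = J := by rw [hK, ← hmax.eq_of_le h3 h2, hJ]
      rw [← h4]
      exact Ideal.mem_sup_left (Ideal.mem_span_singleton_self x0)
  have hone : finrank Ω W = 1 := by
    refine finrank_eq_one (⟨Ideal.Quotient.mk J x0, (hWmem x0).2 hx0I⟩ : W) ?_ ?_
    · intro h
      have h1 := congrArg Subtype.val h
      exact hx0J (Ideal.Quotient.eq_zero_iff_mem.1 h1)
    · rintro ⟨w, hw⟩
      obtain ⟨x, rfl⟩ := Ideal.Quotient.mk_surjective w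
      have hx := (hWmem x).1 hw
      rw [← hspan, Ideal.mem_span_singleton_sup] at hx
      obtain ⟨s, b, hb, hsb⟩ := hx
      refine ⟨ev s, Subtype.ext ?_⟩
      change ev s • Ideal.Quotient.mk J x0 = Ideal.Quotient.mk J x
      rw [← hsc s x0 hx0I, ← hsb, map_add, Ideal.Quotient.eq_zero_iff_mem.2 hb, add_zero]
  have : Module.Finite Ω W := Module.finite_of_finrank_eq_succ (n := 0) hone
  let E : ((S ⧸ J) ⧸ W) ≃ₗ[Ω] (S ⧸ I) := LinearMap.quotKerEquivOfSurjective g.toLinearMap hgs
  have : Module.Finite Ω ((S ⧸ J) ⧸ W) := Module.Finite.equiv E.symm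
  have hfin : Module.Finite Ω (S ⧸ J) := Module.Finite.of_submodule_quotient W
  refine ⟨hfin, ?_, fun u => ?_⟩
  · have h1 := Submodule.finrank_quotient_add_finrank W
    rw [hone, E.finrank_eq] at h1
    exact h1.symm
  · set e : (S ⧸ J) →ₗ[Ω] (S ⧸ J) := LinearMap.mulLeft Ω (Ideal.Quotient.mk J u) with he
    have hle : W ≤ W.comap e := by
      intro w hw
      obtain ⟨x, rfl⟩ := Ideal.Quotient.mk_surjective w
      rw [Submodule.mem_comap, he, LinearMap.mulLeft_apply, ← map_mul, hWmem]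
      exact I.mul_mem_left u ((hWmem x).1 hw)
    rw [LinearMap.det_eq_det_mul_det W e hle]
    congr 1
    · have h1 : LinearMap.restrict e (p := W) (q := W) hle = ev u • LinearMap.id := by
        ext ⟨w, hw⟩
        obtain ⟨x, rfl⟩ := Ideal.Quotient.mk_surjective w
        change Ideal.Quotient.mk J u * Ideal.Quotient.mk J x = ev u • Ideal.Quotient.mk J x
        rw [← map_mul, hsc u x ((hWmem x).1 hw)]
      rw [h1, LinearMap.det_smul, hone, LinearMap.det_id, pow_one, mul_one]
    · have hE : ∀ v : S ⧸ J, E (Submodule.Quotient.mk v) = g v := fun v => rfl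
      rw [← LinearMap.det_conj (W.mapQ W e hle) E]
      congr 1
      refine LinearMap.ext fun z => ?_
      obtain ⟨w, rfl⟩ := E.surjective z
      obtain ⟨v, rfl⟩ := Submodule.Quotient.mk_surjective W w
      rw [LinearMap.comp_apply, LinearMap.comp_apply, LinearEquiv.coe_coe, LinearEquiv.coe_coe,
        LinearEquiv.symm_apply_apply, Submodule.mapQ_apply, hE, hE, he, LinearMap.mulLeft_apply,
        LinearMap.mulLeft_apply, map_mul, hg]

/-- Determinants on the quotient by a product of maximal ideals of degree one. -/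
private theorem ded_filt {ι : Type*} (m : ι → Ideal S) (ev : ι → S →ₐ[Ω] Ω) (hne : ∀ i, m i ≠ ⊥)
    (Z : Multiset ι) (hm : ∀ i ∈ Z, m i = RingHom.ker (ev i)) :
    Module.Finite Ω (S ⧸ (Z.map m).prod) ∧ finrank Ω (S ⧸ (Z.map m).prod) = Z.card ∧
      ∀ u : S, LinearMap.det (LinearMap.mulLeft Ω (Ideal.Quotient.mk (Z.map m).prod u)) =
        (Z.map fun i => ev i u).prod := by
  classical
  induction Z using Multiset.induction with
  | empty =>
    have h : ((0 : Multiset ι).map m).prod = ⊤ := by simp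
    have hs : Subsingleton (S ⧸ ((0 : Multiset ι).map m).prod) := by
      rw [h]
      exact Ideal.Quotient.subsingleton_iff.2 rfl
    refine ⟨inferInstance, ?_, fun u => ?_⟩
    · rw [finrank_zero_of_subsingleton, Multiset.card_zero]
    · rw [LinearMap.det_eq_one_of_subsingleton, Multiset.map_zero, Multiset.prod_zero]
  | cons a Z ih =>
    obtain ⟨h1, h2, h3⟩ := ih fun i hi => hm i (Multiset.mem_cons_of_mem hi)
    have := h1
    have hne' : (Z.map m).prod ≠ ⊥ := by
      rw [Ne, ← Submodule.zero_eq_bot, Multiset.prod_eq_zero_iff, Multiset.mem_map]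
      rintro ⟨i, _, hi⟩
      exact hne i (by rw [hi]; rfl)
    have hJ : ((a ::ₘ Z).map m).prod = (Z.map m).prod * RingHom.ker (ev a) := by
      rw [Multiset.map_cons, Multiset.prod_cons, hm a (Multiset.mem_cons_self a Z), mul_comm]
    obtain ⟨k1, k2, k3⟩ := ded_step (Z.map m).prod hne' (ev a) _ hJ
    refine ⟨k1, ?_, fun u => ?_⟩
    · rw [k2, h2, Multiset.card_cons]
    · rw [k3 u, h3 u, Multiset.map_cons, Multiset.prod_cons]

end

section

open Module

variable {κ S : Type*} [Field κ] [CommRing S] [IsDedekindDomain S] [Algebra κ S] [Algebra κ[X] S]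
  [IsScalarTower κ κ[X] S] [Module.Finite κ[X] S] [Module.IsTorsionFree κ[X] S]

omit [IsDedekindDomain S] [Module.Finite κ[X] S] [Module.IsTorsionFree κ[X] S] in
private theorem ded_smul_mk (p : κ[X]) (s : S) :
    Ideal.Quotient.mk (Ideal.span {algebraMap κ[X] S X}) (p • s) =
      p.eval 0 • Ideal.Quotient.mk (Ideal.span {algebraMap κ[X] S X}) s := by
  set J : Ideal S := Ideal.span {algebraMap κ[X] S X} with hJ
  have h0 : ∀ c : κ, algebraMap κ (S ⧸ J) c = Ideal.Quotient.mk J (algebraMap κ S c) :=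
    fun c => rfl
  rw [Algebra.smul_def, Algebra.smul_def, h0, ← map_mul, Ideal.Quotient.eq, ← sub_mul]
  refine J.mul_mem_right _ ?_
  rw [hJ, Ideal.mem_span_singleton, IsScalarTower.algebraMap_apply κ κ[X] S,
    Polynomial.algebraMap_eq, ← map_sub]
  have h1 : (X : κ[X]) ∣ p - C (p.eval 0) := by
    have h2 := Polynomial.X_sub_C_dvd_sub_C_eval (a := (0 : κ)) (p := p)
    rwa [C_0, sub_zero] at h2
  exact map_dvd (algebraMap κ[X] S) h1

/-- The value of the norm at `0`. -/
private theorem ded_norm_eval_zero (u : S) : (Algebra.norm κ[X] u).eval 0 =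
    LinearMap.det (LinearMap.mulLeft κ
      (Ideal.Quotient.mk (Ideal.span {algebraMap κ[X] S X}) u)) := by
  classical
  have : Module.Free κ[X] S := Module.free_of_finite_type_torsion_free'
  set J : Ideal S := Ideal.span {algebraMap κ[X] S X} with hJ
  let ι := Module.Free.ChooseBasisIndex κ[X] S
  let b : Basis ι κ[X] S := Module.Free.chooseBasis κ[X] S
  have hli : LinearIndependent κ fun i => Ideal.Quotient.mk J (b i) := by
    rw [Fintype.linearIndependent_iff]
    intro c hc i
    have h1 : Ideal.Quotient.mk J (∑ i, C (c i) • b i) = 0 := by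
      rw [map_sum, ← hc]
      refine Finset.sum_congr rfl fun j _ => ?_
      rw [ded_smul_mk, eval_C]
    rw [Ideal.Quotient.eq_zero_iff_mem, hJ, Ideal.mem_span_singleton] at h1
    obtain ⟨s, hs⟩ := h1
    have h2 := congrArg (fun z => b.repr z i) hs
    rw [← Algebra.smul_def, map_smul, Finsupp.smul_apply, smul_eq_mul, Basis.repr_sum_self] at h2
    have h3 := congrArg (Polynomial.eval 0) h2
    rw [eval_mul, eval_C, eval_X, zero_mul] at h3
    exact h3
  have hsp : ⊤ ≤ Submodule.span κ (Set.range fun i => Ideal.Quotient.mk J (b i)) := by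
    rintro z -
    obtain ⟨s, rfl⟩ := Ideal.Quotient.mk_surjective z
    rw [← b.sum_repr s, map_sum]
    refine Submodule.sum_mem _ fun i _ => ?_
    rw [ded_smul_mk]
    exact Submodule.smul_mem _ _ (Submodule.subset_span ⟨i, rfl⟩)
  let b' : Basis ι κ (S ⧸ J) := Basis.mk hli hsp
  have hb' : ∀ i, b' i = Ideal.Quotient.mk J (b i) := fun i => Basis.mk_apply hli hsp i
  rw [Algebra.norm_eq_matrix_det b, ← LinearMap.det_toMatrix b', ← Polynomial.coe_evalRingHom,
    RingHom.map_det]
  congr 1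
  ext i j
  rw [LinearMap.toMatrix_apply, RingHom.mapMatrix_apply, Matrix.map_apply, coe_evalRingHom,
    LinearMap.mulLeft_apply, hb', ← map_mul]
  have h1 : u * b j = ∑ k, Algebra.leftMulMatrix b u k j • b k := by
    rw [← b.sum_repr (u * b j)]
    refine Finset.sum_congr rfl fun k _ => ?_
    rw [Algebra.leftMulMatrix_eq_repr_mul]
  rw [h1, map_sum]
  have h2 : ∑ k, Ideal.Quotient.mk J (Algebra.leftMulMatrix b u k j • b k) =
      ∑ k, (Algebra.leftMulMatrix b u k j).eval 0 • b' k :=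
    Finset.sum_congr rfl fun k _ => by rw [ded_smul_mk, hb']
  rw [h2, Basis.repr_sum_self]

omit [IsDedekindDomain S] [Module.Finite κ[X] S] [Module.IsTorsionFree κ[X] S] in
private theorem ded_ev_alg (e : S →ₐ[κ] κ) (p : κ[X]) :
    e (algebraMap κ[X] S p) = p.eval (e (algebraMap κ[X] S X)) := by
  have h1 : (e.comp (IsScalarTower.toAlgHom κ κ[X] S)) =
      Polynomial.aeval (e (algebraMap κ[X] S X)) := by
    apply Polynomial.algHom_ext
    simp
  have h2 := congrArg (fun f => f p) h1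
  simp only [AlgHom.comp_apply, IsScalarTower.coe_toAlgHom'] at h2
  rw [h2, Polynomial.aeval_def, Polynomial.eval₂_eq_eval_map, Algebra.algebraMap_self,
    Polynomial.map_id]

private theorem ded_ker_ne_bot (e : S →ₐ[κ] κ) : RingHom.ker e ≠ ⊥ := by
  intro h
  have h1 : algebraMap κ[X] S (X - C (e (algebraMap κ[X] S X))) ∈ RingHom.ker e := by
    rw [RingHom.mem_ker, ded_ev_alg]
    simp
  rw [h, Ideal.mem_bot, FaithfulSMul.algebraMap_eq_zero_iff] at h1
  exact X_sub_C_ne_zero _ h1

/-- The value at `0` of the norm as a product over the zeros of `X`. -/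
private theorem ded_norm_zeros (Z : Multiset (S →ₐ[κ] κ))
    (hZ : Ideal.span {algebraMap κ[X] S X} = (Z.map fun e => RingHom.ker e).prod) (u : S) :
    (Algebra.norm κ[X] u).eval 0 = (Z.map fun e => e u).prod := by
  have h := (ded_filt (Ω := κ) (fun e : S →ₐ[κ] κ => RingHom.ker e) (fun e => e)
    (fun e => ded_ker_ne_bot e) Z fun e _ => rfl).2.2 u
  rw [← h, ded_norm_eval_zero, hZ]

end

section

variable {S : Type*} [CommRing S] [IsDedekindDomain S]

/-- uniformizers -/
private theorem ded_unif (P : Ideal S) (hPm : P.IsMaximal) (hP : P ≠ ⊥) : ∃ π ∈ P,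
    ∀ (u : S) (i : ℕ) (I : Ideal S), Ideal.span {u} = P ^ i * I → ¬ I ≤ P →
      ∃ x y : S, x ∉ P ∧ y ∉ P ∧ u * x = π ^ i * y := by
  have hPp : P.IsPrime := hPm.isPrime
  have hlt : P ^ 2 < P ^ 1 := Ideal.pow_right_strictAnti P hP hPp.ne_top (by norm_num)
  rw [pow_one] at hlt
  obtain ⟨π, hπ, hπ2⟩ := SetLike.exists_of_lt hlt
  refine ⟨π, hπ, fun u i I hI hIP => ?_⟩
  obtain ⟨J', hJ'⟩ := Ideal.dvd_iff_le.2 ((Ideal.span_singleton_le_iff_mem P).2 hπ)
  have hJP : ¬ J' ≤ P := by
    intro h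
    apply hπ2
    have h1 : Ideal.span {π} ≤ P ^ 2 := by
      rw [hJ', sq]
      exact Ideal.mul_mono_right h
    exact h1 (Ideal.mem_span_singleton_self π)
  obtain ⟨x₁, hx₁, hx₁P⟩ := SetLike.not_le_iff_exists.1 hJP
  have hmem : u * x₁ ^ i ∈ Ideal.span {π ^ i} := by
    rw [← Ideal.span_singleton_pow, hJ', mul_pow]
    refine Ideal.mul_mem_mul ?_ (Ideal.pow_mem_pow hx₁ i)
    have h1 : Ideal.span {u} ≤ P ^ i := by
      rw [hI]
      exact Ideal.mul_le_left
    exact h1 (Ideal.mem_span_singleton_self u)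
  obtain ⟨y, hy⟩ := Ideal.mem_span_singleton.1 hmem
  refine ⟨x₁ ^ i, y, fun h => hx₁P (hPp.mem_of_pow_mem i h), fun hyP => ?_, hy⟩
  have h1 : Ideal.span {u} * Ideal.span {x₁} ^ i = Ideal.span {π} ^ i * Ideal.span {y} := by
    rw [Ideal.span_singleton_pow, Ideal.span_singleton_pow, Ideal.span_singleton_mul_span_singleton,
      Ideal.span_singleton_mul_span_singleton, hy]
  rw [hI, hJ', mul_pow, mul_assoc, mul_assoc] at h1
  have h2 := mul_left_cancel₀ (pow_ne_zero i hP) h1
  have h3 : I * Ideal.span {x₁} ^ i ≤ P := by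
    rw [h2]
    exact le_trans Ideal.mul_le_right ((Ideal.span_singleton_le_iff_mem P).2 hyP)
  rcases (hPp.mul_le).1 h3 with h4 | h4
  · exact hIP h4
  · exact hx₁P ((Ideal.span_singleton_le_iff_mem P).1 (hPp.le_of_pow_le h4))

end

section

variable {κ S : Type u} [Field κ] [IsAlgClosed κ] [CommRing S] [IsDedekindDomain S]
    [Algebra κ S] [Algebra κ[X] S] [IsScalarTower κ κ[X] S] [Module.Finite κ[X] S]

omit [IsDedekindDomain S] in
/-- the points over `0` -/
private theorem ded_pt (P : Ideal S) (hPm : P.IsMaximal) (hx : algebraMap κ[X] S X ∈ P) :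
    ∃ e : S →ₐ[κ] κ, RingHom.ker e = P := by
  let _ : Field (S ⧸ P) := Ideal.Quotient.field P
  have hcomp : (Ideal.Quotient.mk P).comp (algebraMap κ[X] S) =
      (algebraMap κ (S ⧸ P)).comp (Polynomial.evalRingHom 0) := by
    apply Polynomial.ringHom_ext
    · intro a
      rw [RingHom.comp_apply, RingHom.comp_apply, Polynomial.coe_evalRingHom, Polynomial.eval_C]
      have h1 : algebraMap κ[X] S (C a) = algebraMap κ S a := by
        rw [IsScalarTower.algebraMap_apply κ κ[X] S, Polynomial.algebraMap_eq]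
      rw [h1]
      rfl
    · rw [RingHom.comp_apply, RingHom.comp_apply, Polynomial.coe_evalRingHom, Polynomial.eval_X,
        map_zero]
      exact Ideal.Quotient.eq_zero_iff_mem.2 hx
  have hint0 : (algebraMap κ[X] S).IsIntegral := algebraMap_isIntegral_iff.2 inferInstance
  have hint1 : ((Ideal.Quotient.mk P).comp (algebraMap κ[X] S)).IsIntegral :=
    hint0.trans _ _ (RingHom.isIntegral_of_surjective _ Ideal.Quotient.mk_surjective)
  rw [hcomp] at hint1
  have hint2 : (algebraMap κ (S ⧸ P)).IsIntegral := RingHom.IsIntegral.tower_top _ _ hint1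
  have hint3 : Algebra.IsIntegral κ (S ⧸ P) := ⟨hint2⟩
  have hbij : Function.Bijective (algebraMap κ (S ⧸ P)) :=
    IsAlgClosed.algebraMap_bijective_of_isIntegral
  let E : κ ≃ₐ[κ] (S ⧸ P) := AlgEquiv.ofBijective (Algebra.ofId κ (S ⧸ P)) hbij
  refine ⟨(E.symm : (S ⧸ P) →ₐ[κ] κ).comp (Ideal.Quotient.mkₐ κ P), ?_⟩
  ext u
  rw [RingHom.mem_ker, AlgHom.comp_apply]
  change E.symm (Ideal.Quotient.mk P u) = 0 ↔ _
  rw [map_eq_zero_iff _ E.symm.injective]
  exact Ideal.Quotient.eq_zero_iff_mem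

omit [IsAlgClosed κ] [IsDedekindDomain S] [Algebra κ[X] S] [IsScalarTower κ κ[X] S]
  [Module.Finite κ[X] S] in
private theorem ded_inj {e e' : S →ₐ[κ] κ} (h : RingHom.ker e ≤ RingHom.ker e') : e = e' := by
  ext u
  have h1 : u - algebraMap κ S (e u) ∈ RingHom.ker e := by
    rw [RingHom.mem_ker, map_sub, AlgHom.commutes]
    exact sub_self _
  have h2 := h h1
  rw [RingHom.mem_ker, map_sub, AlgHom.commutes] at h2
  exact (sub_eq_zero.1 h2).symm

omit [IsAlgClosed κ] [IsDedekindDomain S] [Algebra κ[X] S] [IsScalarTower κ κ[X] S]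
  [Module.Finite κ[X] S] in
private theorem ded_max (e : S →ₐ[κ] κ) : (RingHom.ker e).IsMaximal := by
  apply RingHom.ker_isMaximal_of_surjective
  intro z
  exact ⟨algebraMap κ S z, by simp⟩

end

/--
The norm at `0` for a Dedekind domain `S` finite over `κ[X]`, `κ` algebraically closed.
PROOF. `J = span {X}` (the image `x` of `X` in `S`) is a nonzero ideal; by unique factorization it is a
product of maximal ideals (`Ideal.prod_normalizedFactors_eq_self` or
`UniqueFactorizationMonoid`). A maximal ideal `P ∋ x` has residue field `S / P`, a finite extension of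
`κ[X] / (X) = κ` (S finite over κ[X]), so `S / P = κ` (`IsAlgClosed.algebraMap_bijective_of_isIntegral`)
and `P = ker e` for an algebra map `e : S →ₐ[κ] κ` with `e x = 0`; conversely `ker e` is maximal and
`e` is determined by `ker e` (`e u` is the unique `c` with `u - algebraMap c ∈ ker e`). Number the
finitely many factors by `Fin n`, let `m j` be their exponents. The formula for the norm is
`TBR.W.norm_zeros` (Pool/Agent/TBM/Weil.lean; lines 20-398 of that file are self-contained over Mathlib: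
copy `step`, `filt`, `smul_mk`, `norm_eval_zero`, ..., `norm_zeros` into this file, private) with
`Z` the multiset in which `e j` occurs `m j` times.
Uniformizer: `P = ker (e j)`; take `π ∈ P`, `π ∉ P ^ 2` (`P ≠ P ^ 2`: `Ideal.pow_right_strictAnti` or
`Ideal.exists_mem_pow_notMem_pow_succ`). `span {π} = P J'` with `J' ⊄ P`; choose `x₁ ∈ J'`, `x₁ ∉ P`.
For `u ≠ 0` let `span {u} = P ^ i I` with `I ⊄ P` (i = the multiplicity; for `u = x` it is `m j`).
`u x₁ ^ i ∈ P ^ i J' ^ i = span {π ^ i}`, so `u x₁ ^ i = π ^ i y`; compare ideals: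
`P ^ i I (x₁) ^ i = P ^ i J' ^ i (y)`, cancel `P ^ i`: `I (x₁) ^ i = J' ^ i (y)`, and the left side is not
contained in `P` (prime), so `y ∉ P`. Take `x = x₁ ^ i`.
-/
theorem ded (κ S : Type u) [Field κ] [IsAlgClosed κ] [CommRing S] [IsDedekindDomain S]
    [Algebra κ S] [Algebra κ[X] S] [IsScalarTower κ κ[X] S] [Module.Finite κ[X] S]
    [Module.IsTorsionFree κ[X] S] :
    ∃ (n : ℕ) (e : Fin n → (S →ₐ[κ] κ)) (m : Fin n → ℕ), Function.Injective e ∧
      (∀ j, 0 < m j) ∧
      (∀ e' : S →ₐ[κ] κ, e' (algebraMap κ[X] S X) = 0 ↔ ∃ j, e' = e j) ∧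
      (∀ u : S, (Algebra.norm κ[X] u).eval 0 = ∏ j, e j u ^ m j) ∧
      ∀ j, ∃ π : S, e j π = 0 ∧
        (∃ x y : S, e j x ≠ 0 ∧ e j y ≠ 0 ∧ algebraMap κ[X] S X * x = π ^ (m j) * y) ∧
        ∀ u : S, u ≠ 0 → ∃ (i : ℕ) (x y : S), e j x ≠ 0 ∧ e j y ≠ 0 ∧ u * x = π ^ i * y := by
  classical
  set x : S := algebraMap κ[X] S X with hx
  have hx0 : x ≠ 0 := by
    rw [hx, Ne, FaithfulSMul.algebraMap_eq_zero_iff]
    exact X_ne_zero
  have hJ : Ideal.span {x} ≠ (⊥ : Ideal S) := by
    rw [Ne, Ideal.span_singleton_eq_bot]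
    exact hx0
  -- the factors of `x` are the kernels of points
  have hpts : ∀ M : Multiset (Ideal S), (∀ P ∈ M, P.IsMaximal ∧ x ∈ P) →
      ∃ Z : Multiset (S →ₐ[κ] κ), M.prod = (Z.map fun e => RingHom.ker e).prod ∧
        ∀ e ∈ Z, e x = 0 := by
    intro M
    induction M using Multiset.induction with
    | empty => exact fun _ => ⟨0, by simp, by simp⟩
    | cons P M ih =>
      intro h
      obtain ⟨Z, hZ, hZ0⟩ := ih fun Q hQ => h Q (Multiset.mem_cons_of_mem hQ)
      obtain ⟨h1, h2⟩ := h P (Multiset.mem_cons_self P M)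
      obtain ⟨e, he⟩ := ded_pt (κ := κ) P h1 h2
      refine ⟨e ::ₘ Z, ?_, ?_⟩
      · rw [Multiset.prod_cons, Multiset.map_cons, Multiset.prod_cons, hZ, he]
      · intro e' he'
        rcases Multiset.mem_cons.1 he' with rfl | he'
        · rw [← RingHom.mem_ker, he]
          exact h2
        · exact hZ0 e' he'
  obtain ⟨Z, hZ, hZ0⟩ := hpts (UniqueFactorizationMonoid.normalizedFactors (Ideal.span {x}))
    fun P hP => by
      have h1 := UniqueFactorizationMonoid.prime_of_normalized_factor P hP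
      have h2 : P ∣ Ideal.span {x} := UniqueFactorizationMonoid.dvd_of_mem_normalizedFactors hP
      exact ⟨(Ideal.isPrime_of_prime h1).isMaximal h1.ne_zero,
        (Ideal.span_singleton_le_iff_mem P).1 (Ideal.dvd_iff_le.1 h2)⟩
  rw [Ideal.prod_normalizedFactors_eq_self hJ] at hZ
  have hmemZ : ∀ e' : S →ₐ[κ] κ, e' x = 0 ↔ e' ∈ Z := by
    intro e'
    refine ⟨fun h => ?_, hZ0 e'⟩
    have h1 : (Z.map fun e => RingHom.ker e).prod ≤ RingHom.ker e' := by
      rw [← hZ]
      exact (Ideal.span_singleton_le_iff_mem _).2 h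
    obtain ⟨e, he, hle⟩ := ((ded_max e').isPrime.multiset_prod_map_le _).1 h1
    rw [← ded_inj hle]
    exact he
  let F : Finset (S →ₐ[κ] κ) := Z.toFinset
  let e : Fin F.card → (S →ₐ[κ] κ) := fun j => (F.equivFin.symm j).1
  have he : Function.Injective e := fun i j h => F.equivFin.symm.injective (Subtype.ext h)
  have heF : ∀ e', e' ∈ Z ↔ ∃ j, e' = e j := by
    intro e'
    constructor
    · intro h
      refine ⟨F.equivFin ⟨e', Multiset.mem_toFinset.2 h⟩, ?_⟩
      change e' = (F.equivFin.symm (F.equivFin ⟨e', Multiset.mem_toFinset.2 h⟩)).1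
      rw [Equiv.symm_apply_apply]
    · rintro ⟨j, rfl⟩
      exact Multiset.mem_toFinset.1 (F.equivFin.symm j).2
  refine ⟨F.card, e, fun j => Z.count (e j), he, fun j => ?_, fun e' => ?_, fun u => ?_, fun j => ?_⟩
  · exact Multiset.count_pos.2 ((heF _).2 ⟨j, rfl⟩)
  · rw [hmemZ, heF]
  · rw [ded_norm_zeros Z hZ u, Finset.prod_multiset_map_count]
    rw [← Finset.prod_coe_sort, ← F.equivFin.symm.prod_comp]
  · obtain ⟨π, hπ, hun⟩ := ded_unif (RingHom.ker (e j)) (ded_max (e j)) (ded_ker_ne_bot (e j))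
    refine ⟨π, hπ, ?_, fun u hu => ?_⟩
    · have hfac : Ideal.span {x} = RingHom.ker (e j) ^ (Z.count (e j)) *
          ((Z.filter fun e' => ¬ e' = e j).map fun e => RingHom.ker e).prod := by
        have h1 : Z.filter (fun e' => e' = e j) = Multiset.replicate (Z.count (e j)) (e j) := by
          convert Multiset.filter_eq' Z (e j)
        conv_lhs => rw [hZ, ← Multiset.filter_add_not (fun e' => e' = e j) Z]
        rw [Multiset.map_add, Multiset.prod_add, h1, Multiset.map_replicate,
          Multiset.prod_replicate]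
      refine hun x _ _ hfac fun hle => ?_
      obtain ⟨e', he', hle'⟩ := ((ded_max (e j)).isPrime.multiset_prod_map_le _).1 hle
      exact (Multiset.mem_filter.1 he').2 (ded_inj hle')
    · have hsu : Ideal.span {u} ≠ (0 : Ideal S) := by
        rw [Ideal.zero_eq_bot, Ne, Ideal.span_singleton_eq_bot]
        exact hu
      have hirr : Irreducible (RingHom.ker (e j)) :=
        (Ideal.prime_of_isPrime (ded_ker_ne_bot (e j)) (ded_max (e j)).isPrime).irreducible
      obtain ⟨i, I, hI, hIe⟩ := WfDvdMonoid.max_power_factor hsu hirr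
      obtain ⟨x', y, h1, h2, h3⟩ := hun u i I hIe fun hle => hI (Ideal.dvd_iff_le.2 hle)
      exact ⟨i, x', y, h1, h2, h3⟩

end Pool.Agent.URR
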