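import Pool.Agent.TBM.Base
import Pool.Agent.TBM.Coh
import Pool.Agent.TBM.Val

/-!
# Reciprocity for unramified classes on a curve over an algebraically closed field: definitions
-/

set_option autoImplicit false

namespace Pool.Agent.URR

open Pool.Agent.TBR

universe u

variable {k Ω : Type u} [Field k] [Field Ω] [Algebra k Ω]

/-- `Ω` is an algebraic closure of the function field `A(B₀)` of a curve over `A`, and `N` is a
closed group of automorphisms which fix `B₀` and preserve `A`, with finite orbits; it contains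
`Gal(Ω / A(B₀))` -/
structure Sit (A : IntermediateField k Ω) (N : Subgroup (Ω ≃ₐ[k] Ω)) (B₀ : Set Ω) : Prop where
  trd : ∀ t : Ω, t ∉ A → ∀ x : Ω, IsAlgebraic (AA A {t}) x
  gen : ∃ x ∈ B₀, x ∉ A
  fin : B₀.Finite
  stab : ∀ σ ∈ N, ∀ x : Ω, σ x ∈ A ↔ x ∈ A
  fix : N ≤ Fx k B₀
  geo : Fx k ((A : Set Ω) ∪ B₀) ≤ N
  orb : Orb N Set.univ
  clo : Clo N

/-- on the decomposition group of `V` the 2-cochain `c` is the product of a coboundary and of the
cochain `e` with values in the units of `V`, which is trivial on the inertia group -/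
structure LocE (A : IntermediateField k Ω) (N : Subgroup (Ω ≃ₐ[k] Ω))
    (c : (Ω ≃ₐ[k] Ω) → (Ω ≃ₐ[k] Ω) → Ωˣ) (V : ValuationSubring Ω)
    (e : (Ω ≃ₐ[k] Ω) → (Ω ≃ₐ[k] Ω) → Ωˣ) : Prop where
  unit : ∀ σ ∈ N ⊓ St k V, ∀ τ ∈ N ⊓ St k V, e σ τ ∈ V.unitGroup
  one : ∀ σ ∈ N ⊓ St k V, ∀ s ∈ N ⊓ St k V ⊓ Fx k (A : Set Ω), e σ s = 1 ∧ e s σ = 1
  tri : Tri (N ⊓ St k V) (fun σ τ => c σ τ * (e σ τ)⁻¹)

/-- a continuous 2-cocycle of `N` with values in the units of the function field `A(B₀)`, which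
depends only on the restrictions to `A`; it is unramified at the places of the curve -/
structure CocE (A : IntermediateField k Ω) (N : Subgroup (Ω ≃ₐ[k] Ω)) (B₀ : Set Ω)
    (a : (Ω ≃ₐ[k] Ω) → (Ω ≃ₐ[k] Ω) → Ωˣ) : Prop where
  lc : Lc2 (A : Set Ω) a
  mem : ∀ σ τ, (a σ τ : Ω) ∈ AA A B₀
  coc : Coc N a
  one : ∀ σ, a 1 σ = 1 ∧ a σ 1 = 1
  unr : ∀ V : ValuationSubring Ω, (∀ x ∈ A, x ∈ V) → V ≠ ⊤ → ∃ e, LocE A N a V e

/-- `V` is a place of `Ω` over `A` -/
def Pl (A : IntermediateField k Ω) (V : ValuationSubring Ω) : Prop := (∀ x ∈ A, x ∈ V) ∧ V ≠ ⊤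

/-- `V` and `W` have the same trace on `E` -/
def Same (E : IntermediateField k Ω) (V W : ValuationSubring Ω) : Prop := ∀ x ∈ E, x ∈ V ↔ x ∈ W

/-- `π` is a uniformizer of `V ∩ E` -/
structure Unif (E : IntermediateField k Ω) (V : ValuationSubring Ω) (π : Ω) : Prop where
  mem : π ∈ E
  ne : π ≠ 0
  lt : V.valuation π < 1
  gen : ∀ x ∈ E, x ≠ 0 → ∃ m : ℤ, V.valuation x = V.valuation π ^ m

/-- the trace of `V` on `E` -/
def pl (E : Set Ω) (V : ValuationSubring Ω) : Set Ω := {x | x ∈ E ∧ x ∈ V}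

theorem le_AA (A : IntermediateField k Ω) (S : Set Ω) : A ≤ AA A S := le_sup_left

theorem sub_AA (A : IntermediateField k Ω) (S : Set Ω) : S ⊆ AA A S := fun _ hx =>
  (le_sup_right : IntermediateField.adjoin k S ≤ AA A S) (IntermediateField.subset_adjoin k S hx)

theorem alg_mono (E E' : IntermediateField k Ω) (h : E ≤ E') (x : Ω) (hx : IsAlgebraic E x) :
    IsAlgebraic E' x := by
  obtain ⟨p, hp, hpx⟩ := hx
  refine ⟨p.map (IntermediateField.inclusion h).toRingHom, ?_, ?_⟩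
  · rwa [Ne, Polynomial.map_eq_zero]
  · have h1 : (algebraMap E' Ω).comp (IntermediateField.inclusion h).toRingHom =
        algebraMap E Ω := RingHom.ext fun _ => rfl
    rw [Polynomial.aeval_def, Polynomial.eval₂_map, h1, ← Polynomial.aeval_def]
    exact hpx

theorem Sit.alg {A : IntermediateField k Ω} {N : Subgroup (Ω ≃ₐ[k] Ω)} {B₀ : Set Ω}
    (hS : Sit A N B₀) (x : Ω) : IsAlgebraic (AA A B₀) x := by
  obtain ⟨t, ht, htA⟩ := hS.gen
  have h1 := hS.trd t htA x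
  have hle : AA A {t} ≤ AA A B₀ := by
    refine sup_le le_sup_left ?_
    rw [IntermediateField.adjoin_le_iff]
    rintro _ rfl
    exact sub_AA A B₀ ht
  exact alg_mono _ _ hle x h1

/-- an element of `A(B₀)` is given by finitely many elements of `A` -/
theorem coef (A : IntermediateField k Ω) (B₀ : Set Ω) (x : Ω) (hx : x ∈ AA A B₀) :
    ∃ S : Finset Ω, (S : Set Ω) ⊆ A ∧ ∀ σ ∈ Fx k B₀, ∀ τ ∈ Fx k B₀,
      Ag (S : Set Ω) σ τ → σ x = τ x := by
  classical
  have hAA : AA A B₀ = IntermediateField.adjoin k ((A : Set Ω) ∪ B₀) := by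
    rw [IntermediateField.adjoin_union, IntermediateField.adjoin_self]
    rfl
  rw [hAA] at hx
  induction hx using IntermediateField.adjoin_induction with
  | mem y hy =>
    rcases hy with hy | hy
    · refine ⟨{y}, by simpa using hy, fun σ _ τ _ h => h y (by simp)⟩
    · refine ⟨∅, by simp, fun σ hσ τ hτ _ => ?_⟩
      rw [hσ y hy, hτ y hy]
  | algebraMap y => exact ⟨∅, by simp, fun σ _ τ _ _ => by rw [AlgEquiv.commutes, AlgEquiv.commutes]⟩
  | add y z _ _ h1 h2 =>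
    obtain ⟨S1, h1, h1'⟩ := h1
    obtain ⟨S2, h2, h2'⟩ := h2
    refine ⟨S1 ∪ S2, ?_, fun σ hσ τ hτ h => ?_⟩
    · rw [Finset.coe_union]
      exact Set.union_subset h1 h2
    · rw [Finset.coe_union] at h
      rw [map_add, map_add, h1' σ hσ τ hτ (h.mono Set.subset_union_left),
        h2' σ hσ τ hτ (h.mono Set.subset_union_right)]
  | mul y z _ _ h1 h2 =>
    obtain ⟨S1, h1, h1'⟩ := h1
    obtain ⟨S2, h2, h2'⟩ := h2
    refine ⟨S1 ∪ S2, ?_, fun σ hσ τ hτ h => ?_⟩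
    · rw [Finset.coe_union]
      exact Set.union_subset h1 h2
    · rw [Finset.coe_union] at h
      rw [map_mul, map_mul, h1' σ hσ τ hτ (h.mono Set.subset_union_left),
        h2' σ hσ τ hτ (h.mono Set.subset_union_right)]
  | inv y _ h1 =>
    obtain ⟨S1, h1, h1'⟩ := h1
    refine ⟨S1, h1, fun σ hσ τ hτ h => ?_⟩
    rw [map_inv₀, map_inv₀, h1' σ hσ τ hτ h]

end Pool.Agent.URR
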