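import Pool.Agent.URR.Defs

/-!
# Local and global modification of an unramified cocycle on a curve
-/

set_option autoImplicit false

section


namespace Pool.Agent.URR

open Pool.Agent.TBR

universe u

section

variable {k Ω : Type u} [Field k] [Field Ω] [Algebra k Ω] [IsAlgClosed Ω]
variable {A : IntermediateField k Ω} [IsAlgClosed A] {N : Subgroup (Ω ≃ₐ[k] Ω)} {B₀ : Set Ω}

theorem loc1_unit {V : ValuationSubring Ω} {u : Ωˣ} :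
    u ∈ V.unitGroup ↔ (u : Ω) ∈ V ∧ ((u⁻¹ : Ωˣ) : Ω) ∈ V := by
  rw [ValuationSubring.mem_unitGroup_iff]
  constructor
  · intro h
    refine ⟨(ValuationSubring.valuation_le_one_iff _ _).1 h.le, ?_⟩
    refine (ValuationSubring.valuation_le_one_iff _ _).1 ?_
    rw [Units.val_inv_eq_inv_val, map_inv₀, h, inv_one]
  · rintro ⟨h1, h2⟩
    have h1' := (ValuationSubring.valuation_le_one_iff _ _).2 h1
    have h2' := (ValuationSubring.valuation_le_one_iff _ _).2 h2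
    have h3 : V.valuation (u : Ω) * V.valuation ((u⁻¹ : Ωˣ) : Ω) = 1 := by
      rw [← map_mul, ← Units.val_mul, mul_inv_cancel, Units.val_one, map_one]
    refine le_antisymm h1' ?_
    calc (1 : V.ValueGroup) = V.valuation (u : Ω) * V.valuation ((u⁻¹ : Ωˣ) : Ω) := h3.symm
      _ ≤ V.valuation (u : Ω) * 1 := mul_le_mul_right h2' _
      _ = _ := mul_one _

theorem loc1_smul {V : ValuationSubring Ω} {σ : Ω ≃ₐ[k] Ω} (hσ : σ ∈ St k V) {u : Ωˣ}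
    (hu : u ∈ V.unitGroup) : σ • u ∈ V.unitGroup := by
  rw [loc1_unit] at hu ⊢
  refine ⟨?_, ?_⟩
  · exact (hσ (u : Ω)).2 hu.1
  · rw [← smul_inv']
    exact (hσ ((u⁻¹ : Ωˣ) : Ω)).2 hu.2

theorem loc1_clo {V : ValuationSubring Ω} (hN : Clo N) : Clo (N ⊓ St k V) := by
  intro σ h
  refine ⟨hN σ (fun S => ?_), ?_⟩
  · obtain ⟨τ, hτ, h1⟩ := h S
    exact ⟨τ, hτ.1, h1⟩
  · intro x
    obtain ⟨τ, hτ, h1⟩ := h {x}
    rw [h1 x (by simp)]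
    exact hτ.2 x

theorem loc1 (hS : Sit A N B₀) (p : ℕ) [ExpChar Ω p] (a : (Ω ≃ₐ[k] Ω) → (Ω ≃ₐ[k] Ω) → Ωˣ)
    (ha : CocE A N B₀ a) (V : ValuationSubring Ω) (hV : ∀ x ∈ A, x ∈ V) (hV' : V ≠ ⊤) :
    ∃ (r : ℕ) (n : (Ω ≃ₐ[k] Ω) → Ωˣ), Lo1 (N ⊓ St k V) (A : Set Ω) n ∧
      (∀ σ ∈ N ⊓ St k V, (n σ : Ω) ∈ AA A B₀) ∧
      ∀ σ ∈ N ⊓ St k V, ∀ τ ∈ N ⊓ St k V,
        a σ τ ^ p ^ r * n (σ * τ) * (n σ * σ • n τ)⁻¹ ∈ V.unitGroup := by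
  classical
  obtain ⟨e₀, he⟩ := ha.unr V hV hV'
  obtain ⟨b, hb, hcob⟩ := he.tri
  obtain ⟨SA, hSA, hSA'⟩ := ha.lc
  obtain ⟨a₀, ha₀⟩ : ∃ a₀ : (Ω ≃ₐ[k] Ω) → (Ω ≃ₐ[k] Ω) → Ωˣ, ∀ σ τ, a₀ σ τ = a σ τ * (e₀ σ τ)⁻¹ :=
    ⟨_, fun _ _ => rfl⟩
  have hcob : Cob (N ⊓ St k V) a₀ b := fun σ hσ τ hτ => by
    rw [ha₀]
    exact hcob σ hσ τ hτ
  -- agreement with `1` on `A`
  have hAg : ∀ s ∈ Fx k (A : Set Ω), Ag (SA : Set Ω) s 1 := fun s hs x hx => hs x (hSA hx)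
  have hr1 : ∀ σ ∈ N ⊓ St k V, ∀ s ∈ N ⊓ St k V ⊓ Fx k (A : Set Ω), a₀ σ s = 1 :=
    fun σ hσ s hs => by
      rw [ha₀, (he.one σ hσ s hs).1, hSA' σ σ s 1 (Ag.refl _ _) (hAg s hs.2), (ha.one σ).2, inv_one,
        mul_one]
  have hl1 : ∀ σ ∈ N ⊓ St k V, ∀ s ∈ N ⊓ St k V ⊓ Fx k (A : Set Ω), a₀ s σ = 1 :=
    fun σ hσ s hs => by
      rw [ha₀, (he.one σ hσ s hs).2, hSA' s 1 σ σ (hAg s hs.2) (Ag.refl _ _), (ha.one σ).1, inv_one,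
        mul_one]
  -- a finite stable set for `b`
  obtain ⟨Sb, -, hSb⟩ := hb
  obtain ⟨S1, hS1, -, hS1'⟩ := exists_stable (N ⊓ St k V ⊓ Fx k (A : Set Ω)) Set.univ
    (fun _ _ _ _ => Set.mem_univ _) (hS.orb.mono (inf_le_left.trans inf_le_left) (le_refl _)) Sb
    (Set.subset_univ _)
  obtain ⟨y, -, hy⟩ := h90u (N ⊓ St k V ⊓ Fx k (A : Set Ω)) S1 hS1' b
    (fun σ _ τ _ h => hSb σ τ (h.mono (by exact_mod_cast hS1)))
    (fun σ hσ τ hτ => by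
      have h := hcob σ hσ.1 τ hτ.1
      rwa [hr1 σ hσ.1 τ hτ, one_mul] at h)
  obtain ⟨b1, hb1⟩ : ∃ b1 : (Ω ≃ₐ[k] Ω) → Ωˣ, ∀ σ, b1 σ = b σ * σ • y * y⁻¹ := ⟨_, fun _ => rfl⟩
  have hlc1 : Lc1 Set.univ b1 := by
    have e : b1 = fun σ => b σ * σ • y * y⁻¹ := funext hb1
    rw [e]
    have h1 : Lc1 Set.univ b := ⟨Sb, Set.subset_univ _, hSb⟩
    have h2 : Lc1 Set.univ (fun σ : Ω ≃ₐ[k] Ω => σ • y) := by
      refine ⟨{(y : Ω)}, Set.subset_univ _, fun σ σ' h => ?_⟩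
      refine Units.ext ?_
      exact h (y : Ω) (by simp)
    exact (h1.mul h2).mul (Lc1.const _ y⁻¹)
  have hcob1 : Cob (N ⊓ St k V) a₀ b1 := by
    intro σ hσ τ hτ
    rw [hb1, hb1, hb1]
    have h := hcob σ hσ τ hτ
    rw [smul_mul', smul_mul', smul_inv', mul_smul]
    calc a₀ σ τ * (b (σ * τ) * σ • τ • y * y⁻¹) = (a₀ σ τ * b (σ * τ)) * (σ • τ • y) * y⁻¹ := by
          simp only [mul_assoc]
      _ = (b σ * σ • b τ) * (σ • τ • y) * y⁻¹ := by rw [h]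
      _ = b σ * σ • y * y⁻¹ * (σ • b τ * σ • τ • y * (σ • y)⁻¹) := by
          apply Additive.ofMul.injective
          simp only [ofMul_mul, ofMul_inv]
          abel
  have hH : ∀ s ∈ N ⊓ St k V ⊓ Fx k (A : Set Ω), b1 s = 1 := by
    intro s hs
    rw [hb1, hy s hs, mul_inv_cancel]
  have hright : ∀ σ ∈ N ⊓ St k V, ∀ s ∈ N ⊓ St k V ⊓ Fx k (A : Set Ω), b1 (σ * s) = b1 σ := by
    intro σ hσ s hs
    have h := hcob1 σ hσ s hs.1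
    rwa [hr1 σ hσ s hs, one_mul, hH s hs, smul_one, mul_one] at h
  have hleft : ∀ σ ∈ N ⊓ St k V, ∀ s ∈ N ⊓ St k V ⊓ Fx k (A : Set Ω), b1 (s * σ) = s • b1 σ := by
    intro σ hσ s hs
    have h := hcob1 s hs.1 σ hσ
    rwa [hl1 σ hσ s hs, one_mul, hH s hs, one_mul] at h
  have hinv : ∀ σ ∈ N ⊓ St k V, ∀ s ∈ N ⊓ St k V ⊓ Fx k (A : Set Ω), s • b1 σ = b1 σ := by
    intro σ hσ s hs
    rw [← hleft σ hσ s hs]
    have e : s * σ = σ * (σ⁻¹ * s * σ) := by group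
    rw [e]
    refine hright σ hσ _ ⟨?_, ?_⟩
    · exact Subgroup.mul_mem _ (Subgroup.mul_mem _ (Subgroup.inv_mem _ hσ) hs.1) hσ
    · intro x hx
      have h1 : σ x ∈ A := (hS.stab σ hσ.1 x).2 hx
      have h2 : s (σ x) = σ x := hs.2 _ h1
      show σ⁻¹ (s (σ x)) = x
      rw [h2]
      exact σ.symm_apply_apply x
  -- the field `E`
  have hAE : A ≤ AA A B₀ := le_sup_left
  have hPE : ∀ x ∈ B₀, x ∈ AA A B₀ := fun x hx => sub_AA A B₀ hx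
  have hFx : Fx k ((AA A B₀ : IntermediateField k Ω) : Set Ω) ⊓ St k V ≤
      N ⊓ St k V ⊓ Fx k (A : Set Ω) := by
    intro s hs
    refine ⟨⟨hS.geo ?_, hs.2⟩, fun x hx => hs.1 x (hAE hx)⟩
    intro x hx
    rcases hx with hx | hx
    · exact hs.1 x (hAE hx)
    · exact hs.1 _ (hPE x hx)
  have hv : ∀ σ ∈ N ⊓ St k V, ∃ r : ℕ, ∃ f : Ωˣ, (f : Ω) ∈ AA A B₀ ∧
      b1 σ ^ p ^ r * f⁻¹ ∈ V.unitGroup := by
    intro σ hσ
    refine vgr A hS.trd p (AA A B₀) hAE hS.alg V hV hV' (b1 σ) ?_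
    intro s hs
    have h := hinv σ hσ s (hFx hs)
    exact congrArg (fun u : Ωˣ => (u : Ω)) h
  -- finitely many values
  have hlo : Lo1 (N ⊓ St k V) Set.univ b1 := hlc1.lo _
  have hfin : {m | ∃ σ ∈ N ⊓ St k V, b1 σ = m}.Finite := by
    obtain ⟨S2, -, h2⟩ := hlo
    exact finite_range (N ⊓ St k V) S2 (hS.orb.mono inf_le_left (Set.subset_univ _)) b1 h2
  have hv' : ∀ m : Ωˣ, ∃ r : ℕ, ∃ f : Ωˣ, (∃ σ ∈ N ⊓ St k V, b1 σ = m) →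
      (f : Ω) ∈ AA A B₀ ∧ m ^ p ^ r * f⁻¹ ∈ V.unitGroup := by
    intro m
    by_cases h : ∃ σ ∈ N ⊓ St k V, b1 σ = m
    · obtain ⟨σ, hσ, rfl⟩ := h
      obtain ⟨r, f, h1, h2⟩ := hv σ hσ
      exact ⟨r, f, fun _ => ⟨h1, h2⟩⟩
    · exact ⟨0, 1, fun h' => absurd h' h⟩
  choose rr ff hrf using hv'
  obtain ⟨r, hr⟩ : ∃ r, ∀ m, (∃ σ ∈ N ⊓ St k V, b1 σ = m) → rr m ≤ r :=
    ⟨hfin.toFinset.sup rr, fun m hm => Finset.le_sup (f := rr) (hfin.mem_toFinset.2 hm)⟩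
  refine ⟨r, fun σ => ff (b1 σ) ^ p ^ (r - rr (b1 σ)), ?_, ?_, ?_⟩
  · have hlo' : Lo1 (N ⊓ St k V) (A : Set Ω) b1 := by
      refine cpt (N ⊓ St k V) (hS.orb.mono inf_le_left (le_refl _)) (loc1_clo hS.clo) _ b1 hlo ?_
      intro σ hσ τ hτ h
      have hs : σ⁻¹ * τ ∈ N ⊓ St k V ⊓ Fx k (A : Set Ω) := by
        refine ⟨Subgroup.mul_mem _ (Subgroup.inv_mem _ hσ) hτ, fun x hx => ?_⟩
        show σ⁻¹ (τ x) = x
        rw [← h x hx]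
        exact σ.symm_apply_apply x
      have := hright σ hσ _ hs
      rwa [mul_inv_cancel_left, eq_comm] at this
    obtain ⟨S3, h3, h3'⟩ := hlo'
    refine ⟨S3, h3, fun σ hσ τ hτ h => ?_⟩
    show ff (b1 σ) ^ p ^ (r - rr (b1 σ)) = ff (b1 τ) ^ p ^ (r - rr (b1 τ))
    rw [h3' σ hσ τ hτ h]
  · intro σ hσ
    rw [Units.val_pow_eq_pow_val]
    exact pow_mem (hrf (b1 σ) ⟨σ, hσ, rfl⟩).1 _
  · have hu : ∀ σ ∈ N ⊓ St k V,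
        b1 σ ^ p ^ r * (ff (b1 σ) ^ p ^ (r - rr (b1 σ)))⁻¹ ∈ V.unitGroup := by
      intro σ hσ
      have h1 := (hrf (b1 σ) ⟨σ, hσ, rfl⟩).2
      have h2 := hr (b1 σ) ⟨σ, hσ, rfl⟩
      have h3 := pow_mem h1 (p ^ (r - rr (b1 σ)))
      rwa [mul_pow, ← pow_mul, ← pow_add, Nat.add_sub_cancel' h2, inv_pow] at h3
    intro σ hσ τ hτ
    simp only
    obtain ⟨n, hn⟩ : ∃ n : (Ω ≃ₐ[k] Ω) → Ωˣ, ∀ σ, n σ = ff (b1 σ) ^ p ^ (r - rr (b1 σ)) :=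
      ⟨_, fun _ => rfl⟩
    simp only [← hn] at hu ⊢
    have h1 := hu σ hσ
    have h2 := loc1_smul hσ.2 (hu τ hτ)
    have h3 := hu (σ * τ) (Subgroup.mul_mem _ hσ hτ)
    have h4 := V.unitGroup.mul_mem (V.unitGroup.mul_mem h1 h2) (V.unitGroup.inv_mem h3)
    have h5 : a₀ σ τ ^ p ^ r * b1 (σ * τ) ^ p ^ r = b1 σ ^ p ^ r * σ • (b1 τ ^ p ^ r) := by
      rw [← mul_pow, hcob1 σ hσ τ hτ, mul_pow, smul_pow']
    have h7 : a σ τ = a₀ σ τ * e₀ σ τ := by rw [ha₀, inv_mul_cancel_right]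
    have h6 : a σ τ ^ p ^ r = b1 σ ^ p ^ r * σ • (b1 τ ^ p ^ r) * (b1 (σ * τ) ^ p ^ r)⁻¹ *
        e₀ σ τ ^ p ^ r := by
      rw [← h5, mul_inv_cancel_right, h7, mul_pow]
    have h8 := V.unitGroup.mul_mem h4 (V.unitGroup.pow_mem (he.unit σ hσ τ hτ) (p ^ r))
    rw [h6]
    convert h8 using 1
    rw [smul_mul', smul_inv']
    apply Additive.ofMul.injective
    simp only [ofMul_mul, ofMul_inv]
    abel

end

end Pool.Agent.URR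

end

section


namespace Pool.Agent.URR

open Pool.Agent.TBR

universe u

section

variable {k Ω : Type u} [Field k] [Field Ω] [Algebra k Ω] [IsAlgClosed Ω]
variable {A : IntermediateField k Ω} [IsAlgClosed A] {N : Subgroup (Ω ≃ₐ[k] Ω)} {B₀ : Set Ω}

theorem loc_AA_stab (hS : Sit A N B₀) {σ : Ω ≃ₐ[k] Ω} (hσ : σ ∈ N) {x : Ω}
    (hx : x ∈ AA A B₀) : σ x ∈ AA A B₀ := by
  have h : AA A B₀ ≤ (AA A B₀).comap (σ : Ω →ₐ[k] Ω) := by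
    refine sup_le ?_ ?_
    · intro y hy
      have h1 : σ y ∈ A := (hS.stab σ hσ y).2 hy
      have h2 : A ≤ AA A B₀ := le_sup_left
      exact h2 h1
    · rw [IntermediateField.adjoin_le_iff]
      intro y hy
      have h1 : σ y = y := hS.fix hσ y hy
      have h2 : IntermediateField.adjoin k B₀ ≤ AA A B₀ := le_sup_right
      have h3 : σ y ∈ AA A B₀ := by
        rw [h1]
        exact h2 (IntermediateField.subset_adjoin k _ hy)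
      exact h3
  exact h hx

theorem loc_adj (hS : Sit A N B₀) (V : ValuationSubring Ω) {σ : Ω ≃ₐ[k] Ω} (hσ : σ ∈ N)
    (h : ∀ x ∈ AA A B₀, σ x ∈ V ↔ x ∈ V) :
    ∃ δ ∈ Fx k ((AA A B₀ : IntermediateField k Ω) : Set Ω), δ * σ ∈ N ⊓ St k V := by
  have hmem : ∀ x : Ω, x ∈ V.comap ((σ⁻¹ : Ω ≃ₐ[k] Ω) : Ω →+* Ω) ↔ σ⁻¹ x ∈ V := fun x => Iff.rfl
  obtain ⟨δ, hδ, h1⟩ := transit (AA A B₀) hS.alg
    (V.comap ((σ⁻¹ : Ω ≃ₐ[k] Ω) : Ω →+* Ω)) V (by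
      intro x hx
      rw [hmem]
      have h2 := h (σ⁻¹ x) (loc_AA_stab hS (N.inv_mem hσ) hx)
      have h3 : σ (σ⁻¹ x) = x := σ.apply_symm_apply x
      rw [h3] at h2
      exact h2.symm)
  refine ⟨δ, hδ, N.mul_mem ?_ hσ, ?_⟩
  · apply hS.geo
    refine Fx_mono ?_ hδ
    rintro x (hx | hx)
    · have h2 : A ≤ AA A B₀ := le_sup_left
      exact h2 hx
    · have h2 : IntermediateField.adjoin k B₀ ≤ AA A B₀ := le_sup_right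
      exact h2 (IntermediateField.subset_adjoin k _ hx)
  · show ∀ x : Ω, (δ * σ) x ∈ V ↔ x ∈ V
    intro x
    rw [AlgEquiv.mul_apply, ← h1 (σ x), hmem]
    have h3 : σ⁻¹ (σ x) = x := σ.symm_apply_apply x
    rw [h3]

theorem loc (hS : Sit A N B₀) (p : ℕ) [ExpChar Ω p] (a : (Ω ≃ₐ[k] Ω) → (Ω ≃ₐ[k] Ω) → Ωˣ)
    (ha : CocE A N B₀ a) (V : ValuationSubring Ω) (hV : ∀ x ∈ A, x ∈ V) (hV' : V ≠ ⊤) :
    ∃ (r : ℕ) (n : (Ω ≃ₐ[k] Ω) → Ωˣ), Lc1 (A : Set Ω) n ∧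
      (∀ σ, (n σ : Ω) ∈ AA A B₀) ∧
      ∀ σ ∈ N, ∀ τ ∈ N, (∀ x ∈ AA A B₀, σ x ∈ V ↔ x ∈ V) →
        (∀ x ∈ AA A B₀, τ x ∈ V ↔ x ∈ V) →
        a σ τ ^ p ^ r * n (σ * τ) * (n σ * σ • n τ)⁻¹ ∈ V.unitGroup := by
  obtain ⟨r, n₀, hn₀, hE₀, hrel⟩ := loc1 hS p a ha V hV hV'
  obtain ⟨n, hn, hn1, hn2⟩ := hn₀.extend
  have hE : ∀ σ, (n σ : Ω) ∈ AA A B₀ := by
    intro σ
    obtain ⟨τ, hτ, h⟩ := hn2 σ
    rw [h]
    exact hE₀ τ hτ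
  refine ⟨r, n, hn, hE, ?_⟩
  intro σ hσ τ hτ hVσ hVτ
  obtain ⟨δ, hδ, hσ1⟩ := loc_adj hS V hσ hVσ
  obtain ⟨δ', hδ', hτ1⟩ := loc_adj hS V hτ hVτ
  have hAE : A ≤ AA A B₀ := le_sup_left
  have hag1 : Ag (A : Set Ω) σ (δ * σ) := by
    intro x hx
    rw [AlgEquiv.mul_apply]
    exact (hδ _ (hAE ((hS.stab σ hσ x).2 hx))).symm
  have hag2 : Ag (A : Set Ω) τ (δ' * τ) := by
    intro x hx
    rw [AlgEquiv.mul_apply]
    exact (hδ' _ (hAE ((hS.stab τ hτ x).2 hx))).symm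
  have hag3 : Ag (A : Set Ω) (σ * τ) ((δ * σ) * (δ' * τ)) :=
    hag1.mul hag2 (fun x hx => (hS.stab τ hτ x).2 hx)
  have ea : a σ τ = a (δ * σ) (δ' * τ) := by
    obtain ⟨S, h1, h2⟩ := ha.lc
    exact h2 _ _ _ _ (hag1.mono h1) (hag2.mono h1)
  obtain ⟨S, hS1, hS2⟩ := hn
  have e1 : n σ = n (δ * σ) := hS2 _ _ (hag1.mono hS1)
  have e2 : n τ = n (δ' * τ) := hS2 _ _ (hag2.mono hS1)
  have e3 : n (σ * τ) = n ((δ * σ) * (δ' * τ)) := hS2 _ _ (hag3.mono hS1)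
  have e4 : σ • n τ = (δ * σ) • n (δ' * τ) := by
    rw [← e2, mul_smul]
    apply Units.ext
    have h1 : ((δ • (σ • n τ) : Ωˣ) : Ω) = δ (σ (n τ : Ω)) := rfl
    have h2 : ((σ • n τ : Ωˣ) : Ω) = σ (n τ : Ω) := rfl
    rw [h1, h2]
    exact (hδ _ (loc_AA_stab hS hσ (hE τ))).symm
  have h := hrel _ hσ1 _ hτ1
  rw [← hn1 _ hσ1, ← hn1 _ hτ1, ← hn1 _ ((N ⊓ St k V).mul_mem hσ1 hτ1)] at h
  rw [ea, e1, e3, e4]
  exact h

end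

end Pool.Agent.URR

end

section


namespace Pool.Agent.URR

open Pool.Agent.TBR

universe u

section

variable {k Ω : Type u} [Field k] [Field Ω] [Algebra k Ω] [IsAlgClosed Ω]
variable {A : IntermediateField k Ω} [IsAlgClosed A] {N : Subgroup (Ω ≃ₐ[k] Ω)} {B₀ : Set Ω}

theorem glob_orbit_stabE (hS : Sit A N B₀) {σ : Ω ≃ₐ[k] Ω} (hσ : σ ∈ N) {x : Ω}
    (hx : x ∈ AA A B₀) : σ x ∈ AA A B₀ := by
  have h1 : AA A B₀ ≤ (AA A B₀).comap (σ : Ω →ₐ[k] Ω) := by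
    refine sup_le (fun y hy => ?_) ?_
    · show σ y ∈ AA A B₀
      exact (le_sup_left : A ≤ A ⊔ IntermediateField.adjoin k B₀) ((hS.stab σ hσ y).2 hy)
    · rw [IntermediateField.adjoin_le_iff]
      intro y hy
      show σ y ∈ AA A B₀
      rw [mem_Fx.1 (hS.fix hσ) y hy]
      exact (le_sup_right : IntermediateField.adjoin k B₀ ≤ A ⊔ _)
        (IntermediateField.subset_adjoin k _ hy)
  exact h1 hx

/-- the units which preserve `R` -/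
def glob_orbit_U (R : Set Ω) : Subgroup Ωˣ where
  carrier := {u | ∀ x : Ω, x ∈ R ↔ (u : Ω) * x ∈ R}
  mul_mem' {u v} hu hv x := by
    rw [Units.val_mul, mul_assoc, ← hu, ← hv]
  one_mem' x := by rw [Units.val_one, one_mul]
  inv_mem' {u} hu x := by
    rw [hu ((u⁻¹ : Ωˣ) * x), ← mul_assoc, Units.mul_inv, one_mul]

theorem glob_orbit_U_of {E : IntermediateField k Ω} {V : ValuationSubring Ω} {u : Ωˣ}
    (hu : (u : Ω) ∈ E) (huV : u ∈ V.unitGroup) : u ∈ glob_orbit_U (pl (E : Set Ω) V) := by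
  have hu' : ((u⁻¹ : Ωˣ) : Ω) ∈ E := by
    rw [Units.val_inv_eq_inv_val]
    exact E.inv_mem hu
  have h1 : (u : Ω) ∈ V := by
    have := (V.mem_unitGroup_iff u).1 huV
    exact (V.valuation_le_one_iff _).1 this.le
  have h2 : ((u⁻¹ : Ωˣ) : Ω) ∈ V := by
    have := (V.mem_unitGroup_iff u⁻¹).1 (V.unitGroup.inv_mem huV)
    exact (V.valuation_le_one_iff _).1 this.le
  intro x
  constructor
  · rintro ⟨hx, hxV⟩
    exact ⟨E.mul_mem hu hx, V.mul_mem _ _ h1 hxV⟩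
  · rintro ⟨hx, hxV⟩
    have e : x = ((u⁻¹ : Ωˣ) : Ω) * ((u : Ω) * x) := by rw [← mul_assoc, Units.inv_mul, one_mul]
    rw [e]
    exact ⟨E.mul_mem hu' hx, V.mul_mem _ _ h2 hxV⟩

theorem glob_orbit_of_U {E : IntermediateField k Ω} {V : ValuationSubring Ω} {u : Ωˣ}
    (hu : u ∈ glob_orbit_U (pl (E : Set Ω) V)) : u ∈ V.unitGroup := by
  have h1 : (1 : Ω) ∈ pl (E : Set Ω) V := ⟨E.one_mem, V.one_mem⟩
  have h2 : (u : Ω) ∈ V := by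
    have := (hu 1).1 h1
    rw [mul_one] at this
    exact this.2
  have h3 : ((u⁻¹ : Ωˣ) : Ω) ∈ V := by
    have := (hu ((u⁻¹ : Ωˣ) : Ω)).2 (by rw [Units.mul_inv]; exact h1)
    exact this.2
  rw [V.mem_unitGroup_iff]
  apply le_antisymm
  · exact (V.valuation_le_one_iff _).2 h2
  · have h4 := (V.valuation_le_one_iff _).2 h3
    rw [Units.val_inv_eq_inv_val, map_inv₀] at h4
    have hne : V.valuation (u : Ω) ≠ 0 := (V.valuation.ne_zero_iff).2 u.ne_zero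
    exact (inv_le_one₀ (zero_lt_iff.2 hne)).1 h4

/-- finitely many different subsets of `E` are separated by a finite subset of `E` -/
theorem glob_orbit_sep {α : Type*} (E : Set α) (X : Set (Set α)) (hX : X.Finite)
    (hXE : ∀ R ∈ X, R ⊆ E) : ∃ sep : Finset α, (sep : Set α) ⊆ E ∧
      ∀ R ∈ X, ∀ R' ∈ X, (∀ x ∈ sep, x ∈ R ↔ x ∈ R') → R = R' := by
  classical
  have h1 : ∀ R R' : Set α, ∃ T : Finset α, (R ∈ X → R' ∈ X → (T : Set α) ⊆ E) ∧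
      ((∀ x ∈ T, x ∈ R ↔ x ∈ R') → R = R') := by
    intro R R'
    by_cases h : R = R'
    · exact ⟨∅, by simp, fun _ => h⟩
    · have h2 : ∃ x, ¬ (x ∈ R ↔ x ∈ R') := by
        by_contra hc
        push Not at hc
        exact h (Set.ext hc)
      obtain ⟨x, hx⟩ := h2
      refine ⟨{x}, ?_, fun h3 => absurd (h3 x (Finset.mem_singleton_self x)) hx⟩
      intro hR hR' y hy
      rw [Finset.coe_singleton, Set.mem_singleton_iff] at hy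
      subst hy
      by_cases hy1 : y ∈ R
      · exact hXE R hR hy1
      · have : y ∈ R' := by tauto
        exact hXE R' hR' this
  choose T hT1 hT2 using h1
  refine ⟨hX.toFinset.biUnion fun R => hX.toFinset.biUnion fun R' => T R R', ?_, ?_⟩
  · intro x hx
    simp only [Finset.coe_biUnion, Set.mem_iUnion, Finset.mem_coe, Set.Finite.mem_toFinset] at hx
    obtain ⟨R, hR, R', hR', hx⟩ := hx
    exact hT1 R R' hR hR' hx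
  · intro R hR R' hR' h
    refine hT2 R R' fun x hx => h x ?_
    simp only [Finset.mem_biUnion, Set.Finite.mem_toFinset]
    exact ⟨R, hR, R', hR', hx⟩

theorem glob_orbit (hS : Sit A N B₀) (p : ℕ) [ExpChar Ω p]
    (a : (Ω ≃ₐ[k] Ω) → (Ω ≃ₐ[k] Ω) → Ωˣ) (ha : CocE A N B₀ a) (V₀ : ValuationSubring Ω)
    (hV : ∀ x ∈ A, x ∈ V₀) (hV' : V₀ ≠ ⊤)
    (hfin : {R : Set Ω | ∃ σ ∈ N, R = σ '' pl (AA A B₀) V₀}.Finite) :
    ∃ (r : ℕ) (y : (Ω ≃ₐ[k] Ω) → Set Ω → Ωˣ) (S : Finset Ω), (S : Set Ω) ⊆ A ∧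
      (∀ σ ∈ N, ∀ τ ∈ N, Ag (S : Set Ω) σ τ →
        ∀ ρ ∈ N, y σ (ρ '' pl (AA A B₀) V₀) = y τ (ρ '' pl (AA A B₀) V₀)) ∧
      (∀ σ ∈ N, ∀ ρ ∈ N,
        (y σ (ρ '' pl (AA A B₀) V₀) : Ω) ∈ AA A B₀) ∧
      ∀ V : ValuationSubring Ω, (∃ ρ ∈ N, pl (AA A B₀) V =
          ρ '' pl (AA A B₀) V₀) → ∀ σ ∈ N, ∀ τ ∈ N,
        a σ τ ^ p ^ r * y (σ * τ) (pl (AA A B₀) V) *
          (y σ (pl (AA A B₀) V) *
            σ • y τ ((σ⁻¹ : Ω ≃ₐ[k] Ω) '' pl (AA A B₀) V))⁻¹ ∈ V.unitGroup := by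
  classical
  obtain ⟨r, n, ⟨Sn, hSnA, hSn⟩, hnE, hn⟩ := loc hS p a ha V₀ hV hV'
  obtain ⟨Sa, hSaA, hSa⟩ := ha.lc
  set E := AA A B₀ with hE
  set R₀ : Set Ω := pl (E : Set Ω) V₀ with hR₀
  have stabE : ∀ σ ∈ N, ∀ x ∈ E, σ x ∈ E := fun σ hσ x hx => glob_orbit_stabE hS hσ hx
  -- the action of `N` on the sets
  let _ : MulAction N (Set Ω) := Set.mulActionSet
  have smul_def : ∀ (σ : N) (R : Set Ω), σ • R = (σ : Ω ≃ₐ[k] Ω) '' R := fun σ R => rfl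
  have smul_u : ∀ (σ : N) (u : Ωˣ), σ • u = (σ : Ω ≃ₐ[k] Ω) • u := fun σ u => rfl
  have smul_val : ∀ (σ : Ω ≃ₐ[k] Ω) (u : Ωˣ), ((σ • u : Ωˣ) : Ω) = σ (u : Ω) := fun σ u => rfl
  have mem_smul : ∀ (σ : N) (R : Set Ω) (x : Ω), x ∈ σ • R ↔ (σ : Ω ≃ₐ[k] Ω)⁻¹ x ∈ R := by
    intro σ R x
    rw [smul_def]
    constructor
    · rintro ⟨y, hy, rfl⟩
      have : (σ : Ω ≃ₐ[k] Ω)⁻¹ ((σ : Ω ≃ₐ[k] Ω) y) = y := (σ : Ω ≃ₐ[k] Ω).symm_apply_apply y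
      rwa [this]
    · intro hx
      exact ⟨_, hx, (σ : Ω ≃ₐ[k] Ω).apply_symm_apply x⟩
  have orb_iff : ∀ R, R ∈ MulAction.orbit N R₀ ↔ ∃ σ ∈ N, R = σ '' R₀ := by
    intro R
    constructor
    · rintro ⟨σ, rfl⟩
      exact ⟨σ, σ.2, rfl⟩
    · rintro ⟨σ, hσ, rfl⟩
      exact ⟨⟨σ, hσ⟩, rfl⟩
  have orb_E : ∀ R ∈ MulAction.orbit N R₀, R ⊆ (E : Set Ω) := by
    intro R hR
    obtain ⟨σ, hσ, rfl⟩ := (orb_iff R).1 hR
    rintro _ ⟨x, hx, rfl⟩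
    exact stabE σ hσ x hx.1
  have orb_fin : (MulAction.orbit N R₀).Finite := by
    refine hfin.subset ?_
    intro R hR
    exact (orb_iff R).1 hR
  -- representatives
  obtain ⟨rep, hrep⟩ : ∃ rep : Set Ω → N, ∀ R ∈ MulAction.orbit N R₀, rep R • R₀ = R := by
    refine ⟨fun R => if h : ∃ ρ : N, ρ • R₀ = R then h.choose else 1, ?_⟩
    rintro R ⟨ρ, hρ⟩
    have h : ∃ ρ : N, ρ • R₀ = R := ⟨ρ, hρ⟩
    simp only [dif_pos h]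
    exact h.choose_spec
  -- the abstract data
  set x : N → N → Set Ω → Ωˣ := fun σ τ _ => a σ τ ^ p ^ r with hx
  set b : N → Ωˣ := fun σ => n σ with hb
  have hcoc := ha.coc.pow (p ^ r)
  have hshap := fun (σ τ : N) (R : Set Ω) (hR : R ∈ MulAction.orbit N R₀) =>
    shap (D := N) (M := Ωˣ) (X := Set Ω) glob_orbit_U (by
      intro σ R m hm y
      rw [mem_smul, mem_smul, smul_u, smul_val, map_mul]
      have e : (σ : Ω ≃ₐ[k] Ω)⁻¹ ((σ : Ω ≃ₐ[k] Ω) (m : Ω)) = m :=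
        (σ : Ω ≃ₐ[k] Ω).symm_apply_apply _
      rw [e]
      exact hm _) x (by
      intro σ τ ρ R
      exact hcoc σ σ.2 τ τ.2 ρ ρ.2) R₀ b (by
      intro s t hs ht
      have key : ∀ s : N, s • R₀ = R₀ → ∀ y ∈ E, (s : Ω ≃ₐ[k] Ω) y ∈ V₀ ↔ y ∈ V₀ := by
        intro s hs y hy
        have h1 : (s : Ω ≃ₐ[k] Ω) y ∈ s • R₀ ↔ y ∈ R₀ := by
          rw [mem_smul]
          have : (s : Ω ≃ₐ[k] Ω)⁻¹ ((s : Ω ≃ₐ[k] Ω) y) = y := (s : Ω ≃ₐ[k] Ω).symm_apply_apply y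
          rw [this]
        rw [hs] at h1
        constructor
        · intro h2
          exact (h1.1 ⟨stabE s s.2 y hy, h2⟩).2
        · intro h2
          exact (h1.2 ⟨hy, h2⟩).2
      apply glob_orbit_U_of
      · have e1 : ((a s t ^ p ^ r : Ωˣ) : Ω) ∈ E := by
          rw [Units.val_pow_eq_pow_val]
          exact pow_mem (ha.mem _ _) _
        have e2 : ((n s * (s : Ω ≃ₐ[k] Ω) • n t : Ωˣ) : Ω) ∈ E := by
          rw [Units.val_mul, smul_val]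
          exact E.mul_mem (hnE _) (stabE s s.2 _ (hnE _))
        show ((a s t ^ p ^ r * n (s * t) * (n s * (s : Ω ≃ₐ[k] Ω) • n t)⁻¹ : Ωˣ) : Ω) ∈ E
        rw [Units.val_mul, Units.val_mul, Units.val_inv_eq_inv_val]
        exact E.mul_mem (E.mul_mem e1 (hnE _)) (E.inv_mem e2)
      · exact hn s s.2 t t.2 (key s hs) (key t ht)) rep hrep σ τ R hR
  -- the separating set and the level
  obtain ⟨sep, hsepE, hsep⟩ := glob_orbit_sep (E : Set Ω) (MulAction.orbit N R₀) orb_fin orb_E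
  obtain ⟨S₁, hS₁A, hS₁⟩ : ∃ S₁ : Finset Ω, (S₁ : Set Ω) ⊆ A ∧ ∀ σ ∈ N, ∀ τ ∈ N,
      Ag (S₁ : Set Ω) σ τ → ∀ y ∈ sep, σ y = τ y := by
    have h1 : ∀ y : Ω, ∃ T : Finset Ω, (y ∈ sep → (T : Set Ω) ⊆ A) ∧ (y ∈ sep →
        ∀ σ ∈ N, ∀ τ ∈ N, Ag (T : Set Ω) σ τ → σ y = τ y) := by
      intro y
      by_cases hy : y ∈ sep
      · obtain ⟨T, hT1, hT2⟩ := coef A B₀ y (hsepE hy)
        exact ⟨T, fun _ => hT1, fun _ σ hσ τ hτ h => hT2 σ (hS.fix hσ) τ (hS.fix hτ) h⟩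
      · exact ⟨∅, fun h => absurd h hy, fun h => absurd h hy⟩
    choose T hT1 hT2 using h1
    refine ⟨sep.biUnion T, ?_, ?_⟩
    · intro z hz
      simp only [Finset.coe_biUnion, Set.mem_iUnion, Finset.mem_coe] at hz
      obtain ⟨y, hy, hz⟩ := hz
      exact hT1 y hy hz
    · intro σ hσ τ hτ h y hy
      refine hT2 y hy σ hσ τ hτ fun z hz => h z ?_
      simp only [Finset.coe_biUnion, Set.mem_iUnion, Finset.mem_coe]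
      exact ⟨y, hy, hz⟩
  obtain ⟨S, hSS, hSA, hSst⟩ := exists_stable N (A : Set Ω)
    (fun σ hσ y hy => (hS.stab σ hσ y).2 hy) (hS.orb.mono le_rfl (Set.subset_univ _))
    (S₁ ∪ Sa ∪ Sn) (by
      rw [Finset.coe_union, Finset.coe_union]
      exact Set.union_subset (Set.union_subset hS₁A hSaA) hSnA)
  have hS1 : (S₁ : Set Ω) ⊆ S := fun z hz => hSS (by simp [Finset.mem_coe.1 hz])
  have hSa' : (Sa : Set Ω) ⊆ S := fun z hz => hSS (by simp [Finset.mem_coe.1 hz])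
  have hSn' : (Sn : Set Ω) ⊆ S := fun z hz => hSS (by simp [Finset.mem_coe.1 hz])
  obtain ⟨y, hy⟩ : ∃ y : (Ω ≃ₐ[k] Ω) → Set Ω → Ωˣ, ∀ (σ : N) (R : Set Ω),
      y σ R = shY x b rep σ R := by
    refine ⟨fun σ R => if hσ : σ ∈ N then shY x b rep ⟨σ, hσ⟩ R else 1, ?_⟩
    intro σ R
    simp only [dif_pos σ.2]
  refine ⟨r, y, S, hSA, ?_, ?_, ?_⟩
  · intro σ hσ τ hτ hag ρ hρ
    have hR : ρ '' R₀ ∈ MulAction.orbit N R₀ := (orb_iff _).2 ⟨ρ, hρ, rfl⟩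
    set R := ρ '' R₀ with hRdef
    have e1 := hy ⟨σ, hσ⟩ R
    have e2 := hy ⟨τ, hτ⟩ R
    rw [show y σ R = _ from e1, show y τ R = _ from e2]
    have hmem : ∀ g : N, g • R ∈ MulAction.orbit N R₀ := by
      intro g
      obtain ⟨g', hg'⟩ := hR
      refine ⟨g * g', ?_⟩
      show (g * g') • R₀ = g • R
      rw [mul_smul]
      exact congrArg (g • ·) hg'
    have hRR : (⟨σ, hσ⟩ : N)⁻¹ • R = (⟨τ, hτ⟩ : N)⁻¹ • R := by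
      apply hsep _ (hmem _) _ (hmem _)
      intro z hz
      rw [mem_smul, mem_smul]
      have h3 : ((⟨σ, hσ⟩ : N)⁻¹ : N) = ⟨σ⁻¹, N.inv_mem hσ⟩ := rfl
      have h4 : ((⟨τ, hτ⟩ : N)⁻¹ : N) = ⟨τ⁻¹, N.inv_mem hτ⟩ := rfl
      rw [h3, h4]
      show (σ⁻¹)⁻¹ z ∈ R ↔ (τ⁻¹)⁻¹ z ∈ R
      rw [inv_inv, inv_inv, hS₁ σ hσ τ hτ (hag.mono hS1) z hz]
    unfold shY
    rw [← hRR]
    set ρ' := rep ((⟨σ, hσ⟩ : N)⁻¹ • R) with hρ'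
    have ag1 : Ag (S : Set Ω) ((rep R : Ω ≃ₐ[k] Ω)⁻¹ * σ * (ρ' : Ω ≃ₐ[k] Ω))
        ((rep R : Ω ≃ₐ[k] Ω)⁻¹ * τ * (ρ' : Ω ≃ₐ[k] Ω)) := by
      intro z hz
      show (rep R : Ω ≃ₐ[k] Ω)⁻¹ (σ ((ρ' : Ω ≃ₐ[k] Ω) z)) = (rep R : Ω ≃ₐ[k] Ω)⁻¹ (τ ((ρ' : Ω ≃ₐ[k] Ω) z))
      rw [hag _ (hSst _ ρ'.2 z hz)]
    have f1 : a σ ρ' = a τ ρ' := hSa _ _ _ _ (hag.mono hSa') (Ag.refl _ _)
    have f2 : a (rep R) ((rep R : Ω ≃ₐ[k] Ω)⁻¹ * σ * (ρ' : Ω ≃ₐ[k] Ω)) =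
        a (rep R) ((rep R : Ω ≃ₐ[k] Ω)⁻¹ * τ * (ρ' : Ω ≃ₐ[k] Ω)) :=
      hSa _ _ _ _ (Ag.refl _ _) (ag1.mono hSa')
    have f3 : n ((rep R : Ω ≃ₐ[k] Ω)⁻¹ * σ * (ρ' : Ω ≃ₐ[k] Ω)) =
        n ((rep R : Ω ≃ₐ[k] Ω)⁻¹ * τ * (ρ' : Ω ≃ₐ[k] Ω)) :=
      hSn _ _ (ag1.mono hSn')
    show a σ ρ' ^ p ^ r *
        (a (rep R) ((rep R : Ω ≃ₐ[k] Ω)⁻¹ * σ * (ρ' : Ω ≃ₐ[k] Ω)) ^ p ^ r)⁻¹ *
        rep R • n ((rep R : Ω ≃ₐ[k] Ω)⁻¹ * σ * (ρ' : Ω ≃ₐ[k] Ω)) =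
      a τ ρ' ^ p ^ r *
        (a (rep R) ((rep R : Ω ≃ₐ[k] Ω)⁻¹ * τ * (ρ' : Ω ≃ₐ[k] Ω)) ^ p ^ r)⁻¹ *
        rep R • n ((rep R : Ω ≃ₐ[k] Ω)⁻¹ * τ * (ρ' : Ω ≃ₐ[k] Ω))
    rw [f1, f2, f3]
  · intro σ hσ ρ hρ
    rw [show y σ (ρ '' R₀) = _ from hy ⟨σ, hσ⟩ (ρ '' R₀)]
    unfold shY
    have e1 : ∀ s t : Ω ≃ₐ[k] Ω, ((a s t ^ p ^ r : Ωˣ) : Ω) ∈ E := by
      intro s t
      rw [Units.val_pow_eq_pow_val]
      exact pow_mem (ha.mem _ _) _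
    rw [Units.val_mul, Units.val_mul, Units.val_inv_eq_inv_val, smul_u, smul_val]
    exact E.mul_mem (E.mul_mem (e1 _ _) (E.inv_mem (e1 _ _))) (stabE _ (rep _).2 _ (hnE _))
  · rintro V ⟨ρ, hρ, hVR⟩ σ hσ τ hτ
    have hR : pl (E : Set Ω) V ∈ MulAction.orbit N R₀ := (orb_iff _).2 ⟨ρ, hρ, hVR⟩
    have h1 := hshap ⟨σ, hσ⟩ ⟨τ, hτ⟩ (pl (E : Set Ω) V) hR
    rw [← hy, ← hy, ← hy] at h1
    exact glob_orbit_of_U (E := E) h1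

end

end Pool.Agent.URR

end

section


namespace Pool.Agent.URR

open Pool.Agent.TBR

universe u

section

variable {k Ω : Type u} [Field k] [Field Ω] [Algebra k Ω] [IsAlgClosed Ω]
variable {A : IntermediateField k Ω} [IsAlgClosed A] {N : Subgroup (Ω ≃ₐ[k] Ω)} {B₀ : Set Ω}

private theorem glob_unit {V V' : ValuationSubring Ω} {E : Set Ω} (hE : pl E V = pl E V') (u : Ωˣ)
    (h1 : (u : Ω) ∈ E) (h2 : ((u⁻¹ : Ωˣ) : Ω) ∈ E) (h : u ∈ V.unitGroup) : u ∈ V'.unitGroup := by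
  rw [ValuationSubring.mem_unitGroup_iff] at h ⊢
  have h3 : (u : Ω) ∈ V := (V.valuation_le_one_iff _).1 (le_of_eq h)
  have h4 : ((u⁻¹ : Ωˣ) : Ω) ∈ V := by
    refine (V.valuation_le_one_iff _).1 (le_of_eq ?_)
    rw [Units.val_inv_eq_inv_val, map_inv₀, h, inv_one]
  have h5 : (u : Ω) ∈ V' := by
    have : (u : Ω) ∈ pl E V' := by rw [← hE]; exact ⟨h1, h3⟩
    exact this.2
  have h6 : ((u⁻¹ : Ωˣ) : Ω) ∈ V' := by
    have : ((u⁻¹ : Ωˣ) : Ω) ∈ pl E V' := by rw [← hE]; exact ⟨h2, h4⟩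
    exact this.2
  refine le_antisymm ((V'.valuation_le_one_iff _).2 h5) ?_
  have h7 := (V'.valuation_le_one_iff _).2 h6
  rw [Units.val_inv_eq_inv_val, map_inv₀] at h7
  have h8 : V'.valuation (u : Ω) ≠ 0 := by
    rw [Ne, map_eq_zero]; exact u.ne_zero
  exact (inv_le_one₀ (zero_lt_iff.2 h8)).1 h7

private theorem glob_comap_unit (V : ValuationSubring Ω) (σ : Ω ≃ₐ[k] Ω) (u : Ωˣ)
    (h : u ∈ (V.comap (σ : Ω →+* Ω)).unitGroup) : σ • u ∈ V.unitGroup := by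
  rw [ValuationSubring.mem_unitGroup_iff] at h ⊢
  have h3 : (u : Ω) ∈ V.comap (σ : Ω →+* Ω) := (ValuationSubring.valuation_le_one_iff _ _).1 (le_of_eq h)
  have h4 : ((u⁻¹ : Ωˣ) : Ω) ∈ V.comap (σ : Ω →+* Ω) := by
    refine (ValuationSubring.valuation_le_one_iff _ _).1 (le_of_eq ?_)
    rw [Units.val_inv_eq_inv_val, map_inv₀, h, inv_one]
  rw [ValuationSubring.mem_comap] at h3 h4
  have h5 : ((σ • u : Ωˣ) : Ω) = σ (u : Ω) := rfl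
  rw [h5]
  refine le_antisymm ((V.valuation_le_one_iff _).2 h3) ?_
  have h7 := (V.valuation_le_one_iff _).2 h4
  have h9 : (σ : Ω →+* Ω) ((u⁻¹ : Ωˣ) : Ω) = (σ (u : Ω))⁻¹ := by
    rw [Units.val_inv_eq_inv_val]; exact map_inv₀ σ _
  rw [h9, map_inv₀] at h7
  have h8 : V.valuation (σ (u : Ω)) ≠ 0 := by
    rw [Ne, map_eq_zero, map_eq_zero]; exact u.ne_zero
  exact (inv_le_one₀ (zero_lt_iff.2 h8)).1 h7

private theorem glob_stabE (hS : Sit A N B₀) (σ : Ω ≃ₐ[k] Ω) (hσ : σ ∈ N) (x : Ω)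
    (hx : x ∈ AA A B₀) : σ x ∈ AA A B₀ := by
  have h1 : AA A B₀ ≤ (AA A B₀).comap (σ : Ω →ₐ[k] Ω) := by
    refine sup_le ?_ ?_
    · intro y hy
      show σ y ∈ AA A B₀
      exact (le_sup_left : A ≤ AA A B₀) ((hS.stab σ hσ y).2 hy)
    · rw [IntermediateField.adjoin_le_iff]
      intro y hy
      show σ y ∈ AA A B₀
      have h2 : σ y = y := hS.fix hσ y hy
      rw [h2]
      exact sub_AA A B₀ hy
  exact h1 hx

private theorem glob_pl (hS : Sit A N B₀) (σ : Ω ≃ₐ[k] Ω) (hσ : σ ∈ N) (V : ValuationSubring Ω) :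
    (σ⁻¹ : Ω ≃ₐ[k] Ω) '' pl (AA A B₀) V = pl (AA A B₀) (V.comap (σ : Ω →+* Ω)) := by
  ext x
  constructor
  · rintro ⟨y, ⟨hy1, hy2⟩, rfl⟩
    refine ⟨glob_stabE hS σ⁻¹ (N.inv_mem hσ) y hy1, ?_⟩
    rw [ValuationSubring.mem_comap]
    have : (σ : Ω →+* Ω) (σ⁻¹ y) = y := σ.apply_symm_apply y
    rw [this]; exact hy2
  · rintro ⟨hx1, hx2⟩
    rw [ValuationSubring.mem_comap] at hx2
    exact ⟨σ x, ⟨glob_stabE hS σ hσ x hx1, hx2⟩, σ.symm_apply_apply x⟩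

theorem glob (hS : Sit A N B₀) (p : ℕ) [ExpChar Ω p] (a : (Ω ≃ₐ[k] Ω) → (Ω ≃ₐ[k] Ω) → Ωˣ)
    (ha : CocE A N B₀ a) (T : ValuationSubring Ω → Prop)
    (hT : ∀ V, T V → (∀ x ∈ A, x ∈ V) ∧ V ≠ ⊤)
    (hTfin : ∃ 𝒱 : Finset (ValuationSubring Ω), (∀ V ∈ 𝒱, T V) ∧
      ∀ V, T V → ∃ V' ∈ 𝒱, ∀ x ∈ AA A B₀, x ∈ V ↔ x ∈ V')
    (hTN : ∀ V V' : ValuationSubring Ω, T V → (∀ x ∈ A, x ∈ V') → V' ≠ ⊤ → ∀ σ ∈ N,
      (∀ x ∈ AA A B₀, x ∈ V ↔ σ x ∈ V') → T V') :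
    ∃ (r : ℕ) (g : (Ω ≃ₐ[k] Ω) → Ωˣ), Lc1 (A : Set Ω) g ∧
      (∀ σ, (g σ : Ω) ∈ AA A B₀) ∧
      ∀ V, T V → ∀ σ ∈ N, ∀ τ ∈ N,
        a σ τ ^ p ^ r * g (σ * τ) * (g σ * σ • g τ)⁻¹ ∈ V.unitGroup := by
  classical
  set E : IntermediateField k Ω := AA A B₀ with hEdef
  let X₀ : Set (Set Ω) := {R | ∃ V, T V ∧ pl E V = R}
  -- finite
  have hX₀ : X₀.Finite := by
    obtain ⟨𝒱, h1, h2⟩ := hTfin
    refine (𝒱.finite_toSet.image (pl (E : Set Ω))).subset ?_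
    rintro R ⟨V, hV, rfl⟩
    obtain ⟨V', hV', h3⟩ := h2 V hV
    refine ⟨V', hV', ?_⟩
    ext x
    constructor
    · rintro ⟨hx1, hx2⟩
      exact ⟨hx1, (h3 x hx1).2 hx2⟩
    · rintro ⟨hx1, hx2⟩
      exact ⟨hx1, (h3 x hx1).1 hx2⟩
  -- stable
  have hTσ : ∀ V, T V → ∀ σ ∈ N, T (V.comap (σ : Ω →+* Ω)) := by
    intro V hV σ hσ
    refine hTN V _ hV ?_ ?_ σ⁻¹ (N.inv_mem hσ) ?_
    · intro x hx
      rw [ValuationSubring.mem_comap]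
      exact (hT V hV).1 _ ((hS.stab σ hσ x).2 hx)
    · intro htop
      apply (hT V hV).2
      rw [eq_top_iff]
      intro x _
      have h1 : σ⁻¹ x ∈ V.comap (σ : Ω →+* Ω) := by rw [htop]; trivial
      rw [ValuationSubring.mem_comap] at h1
      have : (σ : Ω →+* Ω) (σ⁻¹ x) = x := σ.apply_symm_apply x
      rwa [this] at h1
    · intro x _
      rw [ValuationSubring.mem_comap]
      have : (σ : Ω →+* Ω) (σ⁻¹ x) = x := σ.apply_symm_apply x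
      rw [this]
  have himg : ∀ (σ τ : Ω ≃ₐ[k] Ω) (R : Set Ω), σ '' (τ '' R) = (σ * τ) '' R := by
    intro σ τ R
    rw [Set.image_image]
    rfl
  have himg1 : ∀ R : Set Ω, (1 : Ω ≃ₐ[k] Ω) '' R = R := by
    intro R
    have : ((1 : Ω ≃ₐ[k] Ω) : Ω → Ω) = id := rfl
    rw [this, Set.image_id]
  have hst' : ∀ R ∈ X₀, ∀ σ ∈ N, (σ⁻¹ : Ω ≃ₐ[k] Ω) '' R ∈ X₀ := by
    rintro R ⟨V, hV, rfl⟩ σ hσ
    exact ⟨_, hTσ V hV σ hσ, (glob_pl hS σ hσ V).symm⟩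
  have hst : ∀ R ∈ X₀, ∀ σ ∈ N, σ '' R ∈ X₀ := by
    intro R hR σ hσ
    have := hst' R hR σ⁻¹ (N.inv_mem hσ)
    rwa [inv_inv] at this
  -- the valuation rings
  have hW : ∀ R ∈ X₀, ∃ V, T V ∧ pl E V = R := fun R hR => hR
  choose! W hW1 hW2 using hW
  -- representatives of the orbits
  let rep : Set Ω → Set Ω := fun R => Classical.epsilon (fun R' => ∃ σ ∈ N, R' = σ '' R)
  have hrep1 : ∀ R, ∃ σ ∈ N, rep R = σ '' R := fun R =>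
    Classical.epsilon_spec (p := fun R' => ∃ σ ∈ N, R' = σ '' R) ⟨R, 1, N.one_mem, (himg1 R).symm⟩
  have hrep2 : ∀ R, ∀ σ ∈ N, rep (σ '' R) = rep R := by
    intro R σ hσ
    have h1 : (fun R' => ∃ τ ∈ N, R' = τ '' (σ '' R)) = (fun R' => ∃ τ ∈ N, R' = τ '' R) := by
      funext R'
      apply propext
      constructor
      · rintro ⟨τ, hτ, rfl⟩
        exact ⟨τ * σ, N.mul_mem hτ hσ, himg _ _ _⟩
      · rintro ⟨τ, hτ, rfl⟩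
        refine ⟨τ * σ⁻¹, N.mul_mem hτ (N.inv_mem hσ), ?_⟩
        rw [himg, inv_mul_cancel_right]
    show Classical.epsilon _ = Classical.epsilon _
    rw [h1]
  have hrep3 : ∀ R ∈ X₀, rep R ∈ X₀ := by
    intro R hR
    obtain ⟨σ, hσ, h⟩ := hrep1 R
    rw [h]
    exact hst R hR σ hσ
  have hrep4 : ∀ R, ∃ ρ ∈ N, R = ρ '' rep R := by
    intro R
    obtain ⟨σ, hσ, h⟩ := hrep1 R
    refine ⟨σ⁻¹, N.inv_mem hσ, ?_⟩
    rw [h, himg, inv_mul_cancel, himg1]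
  -- the local cochains
  have key : ∀ Q ∈ X₀, ∃ (r : ℕ) (y : (Ω ≃ₐ[k] Ω) → Set Ω → Ωˣ) (S : Finset Ω),
      (S : Set Ω) ⊆ A ∧
      (∀ σ ∈ N, ∀ τ ∈ N, Ag (S : Set Ω) σ τ → ∀ ρ ∈ N, y σ (ρ '' Q) = y τ (ρ '' Q)) ∧
      (∀ σ ∈ N, ∀ ρ ∈ N, (y σ (ρ '' Q) : Ω) ∈ E) ∧
      ∀ V : ValuationSubring Ω, (∃ ρ ∈ N, pl E V = ρ '' Q) → ∀ σ ∈ N, ∀ τ ∈ N,
        a σ τ ^ p ^ r * y (σ * τ) (pl E V) * (y σ (pl E V) * σ • y τ ((σ⁻¹ : Ω ≃ₐ[k] Ω) '' pl E V))⁻¹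
          ∈ V.unitGroup := by
    intro Q hQ
    have h1 := glob_orbit hS p a ha (W Q) (hT _ (hW1 Q hQ)).1 (hT _ (hW1 Q hQ)).2 (by
      refine hX₀.subset ?_
      rintro R ⟨σ, hσ, rfl⟩
      rw [← hEdef, hW2 Q hQ]
      exact hst Q hQ σ hσ)
    rw [← hEdef, hW2 Q hQ] at h1
    exact h1
  choose! r y S hSA hy1 hy2 hy3 using key
  let rr : ℕ := hX₀.toFinset.sup r
  let SS : Finset Ω := hX₀.toFinset.biUnion S
  have hrr : ∀ Q ∈ X₀, r Q ≤ rr := fun Q hQ =>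
    Finset.le_sup (f := r) (hX₀.mem_toFinset.2 hQ)
  have hSS : ∀ Q ∈ X₀, (S Q : Set Ω) ⊆ (SS : Set Ω) := by
    intro Q hQ x hx
    rw [Finset.mem_coe, Finset.mem_biUnion]
    exact ⟨Q, hX₀.mem_toFinset.2 hQ, hx⟩
  let z : (Ω ≃ₐ[k] Ω) → Set Ω → Ωˣ := fun σ R => y (rep R) σ R ^ p ^ (rr - r (rep R))
  have hz1 : ∀ R ∈ X₀, ∀ σ ∈ N, ∀ τ ∈ N, Ag (SS : Set Ω) σ τ → z σ R = z τ R := by
    intro R hR σ hσ τ hτ h
    obtain ⟨ρ, hρ, h1⟩ := hrep4 R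
    have h2 := hy1 (rep R) (hrep3 R hR) σ hσ τ hτ (h.mono (hSS _ (hrep3 R hR))) ρ hρ
    rw [← h1] at h2
    show y (rep R) σ R ^ _ = y (rep R) τ R ^ _
    rw [h2]
  have hz2 : ∀ R ∈ X₀, ∀ σ ∈ N, (z σ R : Ω) ∈ E := by
    intro R hR σ hσ
    obtain ⟨ρ, hρ, h1⟩ := hrep4 R
    have h2 := hy2 (rep R) (hrep3 R hR) σ hσ ρ hρ
    rw [← h1] at h2
    show ((y (rep R) σ R ^ p ^ (rr - r (rep R)) : Ωˣ) : Ω) ∈ E
    rw [Units.val_pow_eq_pow_val]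
    exact pow_mem h2 _
  have hz3 : ∀ V, T V → ∀ σ ∈ N, ∀ τ ∈ N,
      a σ τ ^ p ^ rr * z (σ * τ) (pl E V) * (z σ (pl E V) * σ • z τ ((σ⁻¹ : Ω ≃ₐ[k] Ω) '' pl E V))⁻¹
        ∈ V.unitGroup := by
    intro V hV σ hσ τ hτ
    have hR : pl E V ∈ X₀ := ⟨V, hV, rfl⟩
    have h1 := hy3 (rep (pl E V)) (hrep3 _ hR) V (hrep4 _) σ hσ τ hτ
    have h2 := V.unitGroup.pow_mem h1 (p ^ (rr - r (rep (pl E V))))
    have h3 : rep ((σ⁻¹ : Ω ≃ₐ[k] Ω) '' pl E V) = rep (pl E V) := hrep2 _ _ (N.inv_mem hσ)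
    have h4 : p ^ rr = p ^ r (rep (pl E V)) * p ^ (rr - r (rep (pl E V))) := by
      rw [← pow_add, Nat.add_sub_cancel' (hrr _ (hrep3 _ hR))]
    show a σ τ ^ p ^ rr * (y (rep (pl E V)) (σ * τ) (pl E V) ^ p ^ (rr - r (rep (pl E V)))) *
      (y (rep (pl E V)) σ (pl E V) ^ p ^ (rr - r (rep (pl E V))) *
        σ • (y (rep ((σ⁻¹ : Ω ≃ₐ[k] Ω) '' pl E V)) τ ((σ⁻¹ : Ω ≃ₐ[k] Ω) '' pl E V) ^
          p ^ (rr - r (rep ((σ⁻¹ : Ω ≃ₐ[k] Ω) '' pl E V)))))⁻¹ ∈ V.unitGroup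
    rw [h3, h4, pow_mul, smul_pow', ← mul_pow, ← mul_pow, ← inv_pow, ← mul_pow]
    exact h2
  -- approximation
  have happ : ∀ f : Set Ω → Ωˣ, (∀ R ∈ X₀, (f R : Ω) ∈ E) →
      ∃ g : Ωˣ, (g : Ω) ∈ E ∧ ∀ R ∈ X₀, g * (f R)⁻¹ ∈ (W R).unitGroup := by
    intro f hf
    obtain ⟨g, hg1, hg2⟩ := approx A hS.trd E (le_sup_left : A ≤ AA A B₀) hS.alg
      (hX₀.toFinset.image W) (by
        intro V hV
        rw [Finset.mem_image] at hV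
        obtain ⟨R, hR, rfl⟩ := hV
        exact hT _ (hW1 R (hX₀.mem_toFinset.1 hR))) (by
        intro V hV V' hV' hne
        rw [Finset.mem_image] at hV hV'
        obtain ⟨R, hR, rfl⟩ := hV
        obtain ⟨R', hR', rfl⟩ := hV'
        by_contra hcon
        push Not at hcon
        apply hne
        have h1 : pl E (W R) = pl E (W R') := by
          ext x
          constructor
          · rintro ⟨hx1, hx2⟩
            exact ⟨hx1, (hcon x hx1).1 hx2⟩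
          · rintro ⟨hx1, hx2⟩
            exact ⟨hx1, (hcon x hx1).2 hx2⟩
        rw [hW2 R (hX₀.mem_toFinset.1 hR), hW2 R' (hX₀.mem_toFinset.1 hR')] at h1
        rw [h1]) (fun V => f (pl E V)) (by
        intro V hV
        rw [Finset.mem_image] at hV
        obtain ⟨R, hR, rfl⟩ := hV
        show (f (pl E (W R)) : Ω) ∈ E
        rw [hW2 R (hX₀.mem_toFinset.1 hR)]
        exact hf R (hX₀.mem_toFinset.1 hR))
    refine ⟨g, hg1, fun R hR => ?_⟩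
    have h1 := hg2 (W R) (Finset.mem_image_of_mem _ (hX₀.mem_toFinset.2 hR))
    have h2 : f (pl E (W R)) = f R := by rw [hW2 R hR]
    show g * (f R)⁻¹ ∈ (W R).unitGroup
    rw [← h2]
    exact h1
  choose! G hG1 hG2 using happ
  let fz : (Ω ≃ₐ[k] Ω) → Set Ω → Ωˣ := fun σ R => if R ∈ X₀ then z σ R else 1
  have hfz : ∀ σ, ∀ R ∈ X₀, fz σ R = z σ R := fun σ R hR => if_pos hR
  have hfzE : ∀ σ ∈ N, ∀ R ∈ X₀, (fz σ R : Ω) ∈ E := by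
    intro σ hσ R hR
    rw [hfz σ R hR]
    exact hz2 R hR σ hσ
  have hlo : Lo1 N (A : Set Ω) (fun σ => G (fz σ)) := by
    refine ⟨SS, ?_, ?_⟩
    · intro x hx
      rw [Finset.mem_coe, Finset.mem_biUnion] at hx
      obtain ⟨Q, hQ, hx⟩ := hx
      exact hSA Q (hX₀.mem_toFinset.1 hQ) hx
    · intro σ hσ τ hτ h
      have h1 : fz σ = fz τ := by
        funext R
        by_cases hR : R ∈ X₀
        · rw [hfz σ R hR, hfz τ R hR]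
          exact hz1 R hR σ hσ τ hτ h
        · show (if R ∈ X₀ then z σ R else 1) = (if R ∈ X₀ then z τ R else 1)
          rw [if_neg hR, if_neg hR]
      show G (fz σ) = G (fz τ)
      rw [h1]
  obtain ⟨g, hg1, hg2, hg3⟩ := hlo.extend
  have hgE : ∀ σ, (g σ : Ω) ∈ E := by
    intro σ
    obtain ⟨τ, hτ, h⟩ := hg3 σ
    rw [h]
    exact hG1 _ (hfzE τ hτ)
  have hgu : ∀ V, T V → ∀ σ ∈ N, g σ * (z σ (pl E V))⁻¹ ∈ V.unitGroup := by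
    intro V hV σ hσ
    have hR : pl E V ∈ X₀ := ⟨V, hV, rfl⟩
    have h1 := hG2 _ (hfzE σ hσ) (pl E V) hR
    rw [hfz σ _ hR, ← hg2 σ hσ] at h1
    have h2 : (z σ (pl E V) : Ω) ∈ E := hz2 _ hR σ hσ
    refine glob_unit (hW2 _ hR) _ ?_ ?_ h1
    · rw [Units.val_mul, Units.val_inv_eq_inv_val]
      exact E.mul_mem (hgE σ) (E.inv_mem h2)
    · rw [mul_inv_rev, inv_inv, Units.val_mul, Units.val_inv_eq_inv_val]
      exact E.mul_mem h2 (E.inv_mem (hgE σ))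
  refine ⟨rr, g, hg1, hgE, ?_⟩
  intro V hV σ hσ τ hτ
  have h1 := hz3 V hV σ hσ τ hτ
  have h2 := hgu V hV (σ * τ) (N.mul_mem hσ hτ)
  have h3 := hgu V hV σ hσ
  have h4 := hgu _ (hTσ V hV σ hσ) τ hτ
  rw [← glob_pl hS σ hσ V] at h4
  have h5 := glob_comap_unit V σ _ h4
  have h6 := V.unitGroup.mul_mem (V.unitGroup.mul_mem h1 h2)
    (V.unitGroup.mul_mem (V.unitGroup.inv_mem h3) (V.unitGroup.inv_mem h5))
  have h7 : a σ τ ^ p ^ rr * g (σ * τ) * (g σ * σ • g τ)⁻¹ =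
      a σ τ ^ p ^ rr * z (σ * τ) (pl E V) * (z σ (pl E V) * σ • z τ ((σ⁻¹ : Ω ≃ₐ[k] Ω) '' pl E V))⁻¹ *
        (g (σ * τ) * (z (σ * τ) (pl E V))⁻¹) *
        ((g σ * (z σ (pl E V))⁻¹)⁻¹ * (σ • (g τ * (z τ ((σ⁻¹ : Ω ≃ₐ[k] Ω) '' pl E V))⁻¹))⁻¹) := by
    rw [smul_mul', smul_inv']
    generalize σ • z τ ((σ⁻¹ : Ω ≃ₐ[k] Ω) '' pl E V) = w1
    generalize σ • g τ = w2
    generalize z σ (pl E V) = w3
    generalize z (σ * τ) (pl E V) = w4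
    generalize g σ = w5
    generalize g (σ * τ) = w6
    generalize a σ τ ^ p ^ rr = w7
    apply Additive.ofMul.injective
    simp only [ofMul_mul, ofMul_inv]
    abel
  rw [h7]
  exact h6

end

end Pool.Agent.URR

end

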