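import Pool.Agent.URR.PV
import Pool.Agent.URR.RES1

set_option autoImplicit false

namespace Pool.Agent.URR

open Pool.Agent.TBR

universe u

variable {k Ω : Type u} [Field k] [Field Ω] [Algebra k Ω] [IsAlgClosed Ω]
variable {A : IntermediateField k Ω} [IsAlgClosed A] {N : Subgroup (Ω ≃ₐ[k] Ω)} {B₀ : Set Ω}

omit [IsAlgClosed Ω] in
/-- a residue function on units -/
theorem res2_rho (hA1 : ∀ t : Ω, t ∉ A → ∀ x : Ω, IsAlgebraic (AA A {t}) x)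
    (V : ValuationSubring Ω) (hV : Pl A V) :
    ∃ ρ : Ωˣ → Ωˣ, (∀ u, (ρ u : Ω) ∈ A) ∧
      ∀ u ∈ V.unitGroup, V.valuation ((u : Ω) - ρ u) < 1 := by
  have k1 : ∀ u : Ωˣ, ∃ v : Ωˣ, (v : Ω) ∈ A ∧
      (u ∈ V.unitGroup → V.valuation ((u : Ω) - v) < 1) := by
    intro u
    by_cases hu : u ∈ V.unitGroup
    · have k2 := (ValuationSubring.mem_unitGroup_iff V u).1 hu
      obtain ⟨x, hx, hx1⟩ := exists_res hA1 V hV (u : Ω) ((V.valuation_le_one_iff _).1 k2.le)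
      have hx0 : x ≠ 0 := by
        rintro rfl
        rw [sub_zero, k2] at hx1
        exact lt_irrefl _ hx1
      exact ⟨Units.mk0 x hx0, hx, fun _ => hx1⟩
    · exact ⟨1, by rw [Units.val_one]; exact A.one_mem, fun h' => absurd h' hu⟩
  choose ρ hρ1 hρ2 using k1
  exact ⟨ρ, hρ1, hρ2⟩

/-- the residues of two cochains which differ by a coboundary -/
theorem res_cob (hS : Sit A N B₀) (V : ValuationSubring Ω) (hV : Pl A V)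
    (X e Xr er : (Ω ≃ₐ[k] Ω) → (Ω ≃ₐ[k] Ω) → Ωˣ)
    (hX : ∀ σ ∈ N ⊓ St k V, ∀ τ ∈ N ⊓ St k V, X σ τ ∈ V.unitGroup)
    (he : ∀ σ ∈ N ⊓ St k V, ∀ τ ∈ N ⊓ St k V, e σ τ ∈ V.unitGroup)
    (hXr : ∀ σ τ, (Xr σ τ : Ω) ∈ A) (her : ∀ σ τ, (er σ τ : Ω) ∈ A)
    (h1 : ∀ σ ∈ N ⊓ St k V, ∀ τ ∈ N ⊓ St k V, V.valuation ((X σ τ : Ω) - Xr σ τ) < 1)
    (h2 : ∀ σ ∈ N ⊓ St k V, ∀ τ ∈ N ⊓ St k V, V.valuation ((e σ τ : Ω) - er σ τ) < 1)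
    (ht : Tri (N ⊓ St k V) (fun σ τ => X σ τ * (e σ τ)⁻¹)) :
    Tri (N ⊓ St k V) (fun σ τ => Xr σ τ * (er σ τ)⁻¹) := by
  obtain ⟨b₀, hb₀, hcob⟩ := ht
  have hbu : ∀ σ ∈ N ⊓ St k V, b₀ σ ∈ V.unitGroup :=
    unit_of_cob (N ⊓ St k V) (hS.orb.mono inf_le_left (Set.subset_univ _)) V inf_le_right
      (fun σ τ => X σ τ * (e σ τ)⁻¹) b₀ (hb₀.lo _)
      (fun σ hσ τ hτ => V.unitGroup.mul_mem (hX σ hσ τ hτ) (V.unitGroup.inv_mem (he σ hσ τ hτ)))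
      hcob
  obtain ⟨ρ, hρA, hρ⟩ := res2_rho hS.trd V hV
  refine ⟨fun σ => ρ (b₀ σ), hb₀.map ρ, fun σ hσ τ hτ => ?_⟩
  have hs' : ∀ z : Ω, V.valuation z < 1 → V.valuation (σ z) < 1 := by
    intro z hz
    rw [val_lt_iff] at hz ⊢
    rcases hz with hz | hz
    · left
      rw [hz, map_zero]
    · right
      rw [← map_inv₀]
      exact fun h => hz ((hσ.2 _).1 h)
  have hστ := Subgroup.mul_mem _ hσ hτ
  have hc := congrArg (fun u : Ωˣ => (u : Ω)) (hcob σ hσ τ hτ)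
  change ((X σ τ * (e σ τ)⁻¹ * b₀ (σ * τ) : Ωˣ) : Ω) = ((b₀ σ * σ • b₀ τ : Ωˣ) : Ω) at hc
  have e0 : (er σ τ : Ω) ≠ 0 := Units.ne_zero _
  have l1 : V.valuation (((X σ τ * (e σ τ)⁻¹ * b₀ (σ * τ) : Ωˣ) : Ω) -
      (Xr σ τ : Ω) * (er σ τ : Ω)⁻¹ * (ρ (b₀ (σ * τ)) : Ω)) < 1 := by
    rw [Units.val_mul, Units.val_mul, Units.val_inv_eq_inv_val]
    exact res_mul hV.1 _ _ _ _ (A.mul_mem (hXr _ _) (A.inv_mem (her _ _))) (hρA _)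
      (res_mul hV.1 _ _ _ _ (hXr _ _) (A.inv_mem (her _ _)) (h1 σ hσ τ hτ)
        (res_inv hV.1 _ _ (her _ _) e0 (h2 σ hσ τ hτ))) (hρ _ (hbu _ hστ))
  have hσA : σ (ρ (b₀ τ) : Ω) ∈ A := (hS.stab σ hσ.1 _).2 (hρA _)
  have l2 : V.valuation (((b₀ σ * σ • b₀ τ : Ωˣ) : Ω) -
      (ρ (b₀ σ) : Ω) * σ (ρ (b₀ τ) : Ω)) < 1 := by
    rw [Units.val_mul]
    refine res_mul hV.1 _ _ _ _ (hρA _) hσA (hρ _ (hbu _ hσ)) ?_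
    have l3 := hs' _ (hρ _ (hbu _ hτ))
    rw [map_sub] at l3
    exact l3
  rw [hc] at l1
  apply Units.ext
  have l4 := res_uniq hV.1 _ _ _ (A.mul_mem (A.mul_mem (hXr _ _) (A.inv_mem (her _ _))) (hρA _))
    (A.mul_mem (hρA _) hσA) l1 l2
  show ((Xr σ τ * (er σ τ)⁻¹ * ρ (b₀ (σ * τ)) : Ωˣ) : Ω) = ((ρ (b₀ σ) * σ • ρ (b₀ τ) : Ωˣ) : Ω)
  rw [Units.val_mul, Units.val_mul, Units.val_inv_eq_inv_val]
  exact l4

end Pool.Agent.URR
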