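import Pool.Agent.URR.Glob
import Pool.Agent.TUQ.G1
import Pool.Agent.URR.RES1

set_option autoImplicit false

namespace Pool.Agent.URR

open Pool.Agent.TBR Pool.Agent.TUQ

universe u

variable {k Ω : Type u} [Field k] [Field Ω] [Algebra k Ω] [IsAlgClosed Ω]
variable {A : IntermediateField k Ω} [IsAlgClosed A] {N : Subgroup (Ω ≃ₐ[k] Ω)} {B₀ : Set Ω}

omit [IsAlgClosed A] in
private theorem res3_unit_A {V : ValuationSubring Ω} (hV : ∀ x ∈ A, x ∈ V) {u : Ωˣ}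
    (hu : (u : Ω) ∈ A) : u ∈ V.unitGroup := by
  rw [loc1_unit]
  refine ⟨hV _ hu, hV _ ?_⟩
  rw [Units.val_inv_eq_inv_val]
  exact A.inv_mem hu

omit [IsAlgClosed Ω] [IsAlgClosed A] in
private theorem res3_eq {V : ValuationSubring Ω} {r : V →+* Ω} (hr : IsRes A V r)
    (hV : ∀ x ∈ A, x ∈ V) (x : V) {a : Ω} (ha : a ∈ A) (h : V.valuation ((x : Ω) - a) < 1) :
    r x = a := by
  have h1 : r (x - ⟨a, hV a ha⟩) = 0 := by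
    rw [hr.zero_iff hV]
    exact h
  rw [map_sub, hr.fix a (hV a ha) ha, sub_eq_zero] at h1
  exact h1

/--
PROOF. Let `D = N ⊓ St k V`; it is closed (`loc1_clo`) with finite orbits and preserves `A`. `injA`
(TBM/Coh.lean) for `D` and `Z` gives `b₁`, `Lc1 A b₁`, `Cob D Z b₁`. `Z` has values in `A`, so in the units
of `V` (`V.val_A`), so `b₁ σ` is a unit of `V` for `σ ∈ D` (`unit_of_cob`). Let `b₂ σ = r (b₁ σ) ∈ A` for `σ ∈ D`;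
`Cob D Z b₂` as in `res_cob` (`r (Z σ τ) = Z σ τ`), and `b₂` depends only on the restriction to a finite subset
of `A`; let `b` be its extension (`Lo1.extend`; the values are in `A`). For `σ ∈ N` there is `δ`, fixing
`E = AA A B₀`, with `δ σ ∈ D` (`loc_adj` with hst); `δ σ` and `σ` agree on `A`. So for `σ, τ ∈ N` with
`σ' = δ σ`, `τ' = δ' τ ∈ D`: `Z σ τ = Z σ' τ'` (hlc), `b σ = b σ'`, `b τ = b τ'`, `b (σ τ) = b (σ' τ')`,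
`σ • b τ = σ' • b τ'` as `b τ ∈ A`. (See `loc` in URR/Glob.lean.)
-/
theorem res_tri (hS : Sit A N B₀) (V : ValuationSubring Ω) (hV : Pl A V)
    (hst : ∀ σ ∈ N, ∀ x ∈ AA A B₀, σ x ∈ V ↔ x ∈ V)
    (Z : (Ω ≃ₐ[k] Ω) → (Ω ≃ₐ[k] Ω) → Ωˣ) (hlc : Lc2 (A : Set Ω) Z) (hZ : ∀ σ τ, (Z σ τ : Ω) ∈ A)
    (h1 : ∀ σ, Z 1 σ = 1 ∧ Z σ 1 = 1) (ht : Tri (N ⊓ St k V) Z) :
    ∃ b : (Ω ≃ₐ[k] Ω) → Ωˣ, Lc1 (A : Set Ω) b ∧ (∀ σ, (b σ : Ω) ∈ A) ∧ Cob N Z b := by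
  classical
  have horb : Orb (N ⊓ St k V) Set.univ := hS.orb.mono inf_le_left (le_refl _)
  obtain ⟨b₁, hb₁, -, hc₁⟩ := injA A (N ⊓ St k V) (fun σ hσ x hx => (hS.stab σ hσ.1 x).2 hx) horb
    (loc1_clo hS.clo) Z hlc h1 ht
  have hu : ∀ σ ∈ N ⊓ St k V, b₁ σ ∈ V.unitGroup :=
    unit_of_cob (N ⊓ St k V) horb V inf_le_right Z b₁
      ((hb₁.mono (Set.subset_univ _)).lo _)
      (fun σ _ τ _ => res3_unit_A hV.1 (hZ σ τ)) hc₁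
  obtain ⟨r, hr⟩ := exists_isRes A hS.trd V hV.1 hV.2
  have hmemV : ∀ u : Ωˣ, u ∈ V.unitGroup → (u : Ω) ∈ V := fun u h => (loc1_unit.1 h).1
  have hne : ∀ (u : Ωˣ) (h : u ∈ V.unitGroup), r ⟨u, hmemV u h⟩ ≠ 0 := by
    intro u h h0
    rw [hr.zero_iff hV.1] at h0
    rw [ValuationSubring.mem_unitGroup_iff] at h
    exact absurd h (ne_of_lt h0)
  obtain ⟨f, hf⟩ : ∃ f : Ωˣ → Ωˣ, ∀ u, f u =
      if h : u ∈ V.unitGroup then Units.mk0 (r ⟨u, hmemV u h⟩) (hne u h) else 1 := ⟨_, fun _ => rfl⟩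
  have hf1 : ∀ (u : Ωˣ) (h : u ∈ V.unitGroup), ((f u : Ωˣ) : Ω) = r ⟨u, hmemV u h⟩ := by
    intro u h
    rw [hf, dif_pos h, Units.val_mk0]
  have hfA : ∀ u, ((f u : Ωˣ) : Ω) ∈ A := by
    intro u
    by_cases h : u ∈ V.unitGroup
    · rw [hf1 u h]
      exact hr.mem _
    · rw [hf, dif_neg h, Units.val_one]
      exact A.one_mem
  have hlc2 : Lc1 (A : Set Ω) (fun σ => f (b₁ σ)) := hb₁.map f
  -- the coboundary relation on `D`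
  have hD : Cob (N ⊓ St k V) Z (fun σ => f (b₁ σ)) := by
    intro σ hσ τ hτ
    have hs : r ⟨σ (b₁ τ : Ω), (hσ.2 _).2 (hmemV _ (hu τ hτ))⟩ = σ (f (b₁ τ) : Ω) := by
      refine res3_eq hr hV.1 _ ((hS.stab σ hσ.1 _).2 (hfA _)) ?_
      show V.valuation (σ (b₁ τ : Ω) - σ (f (b₁ τ) : Ω)) < 1
      rw [← map_sub, val_smul (N ⊓ St k V) horb V inf_le_right σ hσ, hf1 _ (hu τ hτ)]
      exact (nonunits_iff V _).1 (hr.sub ⟨(b₁ τ : Ω), hmemV _ (hu τ hτ)⟩)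
    have h2 := hc₁ σ hσ τ hτ
    have h3 : (Z σ τ : Ω) * (b₁ (σ * τ) : Ω) = (b₁ σ : Ω) * σ (b₁ τ : Ω) :=
      congrArg (fun u : Ωˣ => (u : Ω)) h2
    have hZV : (Z σ τ : Ω) ∈ V := hV.1 _ (hZ σ τ)
    have h4 : (⟨(Z σ τ : Ω), hZV⟩ : V) * ⟨(b₁ (σ * τ) : Ω), hmemV _ (hu _ (Subgroup.mul_mem _ hσ hτ))⟩ =
        ⟨(b₁ σ : Ω), hmemV _ (hu σ hσ)⟩ * ⟨σ (b₁ τ : Ω), (hσ.2 _).2 (hmemV _ (hu τ hτ))⟩ :=
      Subtype.ext h3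
    have h5 := congrArg r h4
    rw [map_mul, map_mul, hr.fix _ hZV (hZ σ τ), hs, ← hf1 _ (hu σ hσ),
      ← hf1 _ (hu _ (Subgroup.mul_mem _ hσ hτ))] at h5
    exact Units.ext h5
  refine ⟨fun σ => f (b₁ σ), hlc2, fun σ => hfA _, ?_⟩
  intro σ hσ τ hτ
  obtain ⟨δ, hδ, hσ1⟩ := loc_adj hS V hσ (hst σ hσ)
  obtain ⟨δ', hδ', hτ1⟩ := loc_adj hS V hτ (hst τ hτ)
  have hAE : A ≤ AA A B₀ := le_sup_left
  have hag1 : Ag (A : Set Ω) σ (δ * σ) := by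
    intro x hx
    rw [AlgEquiv.mul_apply]
    exact (hδ _ (hAE ((hS.stab σ hσ x).2 hx))).symm
  have hag2 : Ag (A : Set Ω) τ (δ' * τ) := by
    intro x hx
    rw [AlgEquiv.mul_apply]
    exact (hδ' _ (hAE ((hS.stab τ hτ x).2 hx))).symm
  have hag3 : Ag (A : Set Ω) (σ * τ) ((δ * σ) * (δ' * τ)) :=
    hag1.mul hag2 (fun x hx => (hS.stab τ hτ x).2 hx)
  have ea : Z σ τ = Z (δ * σ) (δ' * τ) := by
    obtain ⟨S, h1, h2⟩ := hlc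
    exact h2 _ _ _ _ (hag1.mono h1) (hag2.mono h1)
  obtain ⟨S, hS1, hS2⟩ := hlc2
  have e1 : f (b₁ σ) = f (b₁ (δ * σ)) := hS2 _ _ (hag1.mono hS1)
  have e2 : f (b₁ τ) = f (b₁ (δ' * τ)) := hS2 _ _ (hag2.mono hS1)
  have e3 : f (b₁ (σ * τ)) = f (b₁ ((δ * σ) * (δ' * τ))) := hS2 _ _ (hag3.mono hS1)
  have e4 : σ • f (b₁ τ) = (δ * σ) • f (b₁ (δ' * τ)) := by
    rw [← e2, mul_smul]
    apply Units.ext
    have h1 : ((δ • (σ • f (b₁ τ)) : Ωˣ) : Ω) = δ (σ (f (b₁ τ) : Ω)) := rfl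
    have h2 : ((σ • f (b₁ τ) : Ωˣ) : Ω) = σ (f (b₁ τ) : Ω) := rfl
    rw [h1, h2]
    exact (hδ _ (hAE ((hS.stab σ hσ _).2 (hfA _)))).symm
  have h := hD _ hσ1 _ hτ1
  show Z σ τ * f (b₁ (σ * τ)) = f (b₁ σ) * σ • f (b₁ τ)
  rw [ea, e1, e3, e4]
  exact h

end Pool.Agent.URR
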