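import Pool.Agent.URR.PV
import Pool.Agent.URR.RES2
import Pool.Agent.URR.RES3

/-!
# Comparison of residues at one place
-/

set_option autoImplicit false

namespace Pool.Agent.URR

open Pool.Agent.TBR

universe u

section

variable {k Ω : Type u} [Field k] [Field Ω] [Algebra k Ω] [IsAlgClosed Ω]
variable {A : IntermediateField k Ω} [IsAlgClosed A] {N : Subgroup (Ω ≃ₐ[k] Ω)} {B₀ : Set Ω}

/-- a residue function on units -/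
theorem exists_rho (hA1 : ∀ t : Ω, t ∉ A → ∀ x : Ω, IsAlgebraic (AA A {t}) x)
    (V : ValuationSubring Ω) (hV : Pl A V) :
    ∃ ρ : Ωˣ → Ωˣ, (∀ u, (ρ u : Ω) ∈ A) ∧
      ∀ u ∈ V.unitGroup, V.valuation ((u : Ω) - ρ u) < 1 := by
  have k1 : ∀ u : Ωˣ, ∃ v : Ωˣ, (v : Ω) ∈ A ∧
      (u ∈ V.unitGroup → V.valuation ((u : Ω) - v) < 1) := by
    intro u
    by_cases hu : u ∈ V.unitGroup
    · have k2 := (ValuationSubring.mem_unitGroup_iff V u).1 hu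
      obtain ⟨x, hx, hx1⟩ := exists_res hA1 V hV (u : Ω) ((V.valuation_le_one_iff _).1 k2.le)
      have hx0 : x ≠ 0 := by
        rintro rfl
        rw [sub_zero, k2] at hx1
        exact lt_irrefl _ hx1
      exact ⟨Units.mk0 x hx0, hx, fun _ => hx1⟩
    · exact ⟨1, by rw [Units.val_one]; exact A.one_mem, fun h' => absurd h' hu⟩
  choose ρ hρ1 hρ2 using k1
  exact ⟨ρ, hρ1, hρ2⟩

/-- the comparison of the residues of two cocycles at a place fixed by `N` -/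
theorem loc_fin (hS : Sit A N B₀) (V : ValuationSubring Ω) (hV : Pl A V)
    (hst : ∀ σ ∈ N, ∀ x ∈ AA A B₀, σ x ∈ V ↔ x ∈ V)
    (X : (Ω ≃ₐ[k] Ω) → (Ω ≃ₐ[k] Ω) → Ωˣ) (hXlo : Lo2 N (A : Set Ω) X)
    (hX1 : ∀ σ ∈ N, X 1 σ = 1 ∧ X σ 1 = 1)
    (hXu : ∀ σ ∈ N, ∀ τ ∈ N, X σ τ ∈ V.unitGroup)
    (e : (Ω ≃ₐ[k] Ω) → (Ω ≃ₐ[k] Ω) → Ωˣ)
    (heu : ∀ σ ∈ N ⊓ St k V, ∀ τ ∈ N ⊓ St k V, e σ τ ∈ V.unitGroup)
    (f : (Ω ≃ₐ[k] Ω) → (Ω ≃ₐ[k] Ω) → Ωˣ) (hflo : Lo2 N (A : Set Ω) f)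
    (hfA : ∀ σ ∈ N, ∀ τ ∈ N, (f σ τ : Ω) ∈ A) (hf1 : ∀ σ ∈ N, f 1 σ = 1 ∧ f σ 1 = 1)
    (hef : ∀ σ ∈ N ⊓ St k V, ∀ τ ∈ N ⊓ St k V, V.valuation ((e σ τ : Ω) - f σ τ) < 1)
    (ht : Tri (N ⊓ St k V) (fun σ τ => X σ τ * (e σ τ)⁻¹)) :
    ∃ (Y : (Ω ≃ₐ[k] Ω) → (Ω ≃ₐ[k] Ω) → Ωˣ) (b : (Ω ≃ₐ[k] Ω) → Ωˣ),
      (∀ σ τ, (Y σ τ : Ω) ∈ A) ∧
      (∀ σ ∈ N, ∀ τ ∈ N, V.valuation ((X σ τ : Ω) - Y σ τ) < 1) ∧
      Lc1 (A : Set Ω) b ∧ (∀ σ, (b σ : Ω) ∈ A) ∧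
      ∀ σ ∈ N, ∀ τ ∈ N, Y σ τ * (f σ τ)⁻¹ * b (σ * τ) = b σ * σ • b τ := by
  classical
  obtain ⟨ρ, hρA, hρ⟩ := exists_rho hS.trd V hV
  have hρ1 : ρ 1 = 1 := by
    apply Units.ext
    refine res_uniq hV.1 (1 : Ω) _ _ (hρA 1) (by rw [Units.val_one]; exact A.one_mem) ?_ ?_
    · have k1 := hρ 1 V.unitGroup.one_mem
      rwa [Units.val_one] at k1
    · rw [Units.val_one, sub_self, map_zero]
      exact zero_lt_one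
  have hYlo : Lo2 N (A : Set Ω) (fun σ τ => ρ (X σ τ)) := by
    obtain ⟨S, h1, h2⟩ := hXlo
    exact ⟨S, h1, fun σ hσ σ' hσ' τ hτ τ' hτ' h h' =>
      congrArg ρ (h2 σ hσ σ' hσ' τ hτ τ' hτ' h h')⟩
  obtain ⟨Y, hY1, hY2, hY3, hY4⟩ := hYlo.extend 1
  obtain ⟨f', hf'1, hf'2, hf'3, hf'4⟩ := hflo.extend 1
  have hYA : ∀ σ τ, (Y σ τ : Ω) ∈ A := by
    intro σ τ
    rcases hY3 σ τ with h | ⟨σ', _, τ', _, h⟩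
    · rw [h, Units.val_one]
      exact A.one_mem
    · rw [h]
      exact hρA _
  have hf'A : ∀ σ τ, (f' σ τ : Ω) ∈ A := by
    intro σ τ
    rcases hf'3 σ τ with h | ⟨σ', hσ', τ', hτ', h⟩
    · rw [h, Units.val_one]
      exact A.one_mem
    · rw [h]
      exact hfA σ' hσ' τ' hτ'
  have hY1' := hY4 (fun σ hσ => ⟨by rw [(hX1 σ hσ).1, hρ1], by rw [(hX1 σ hσ).2, hρ1]⟩)
  have hf1' := hf'4 hf1
  have hXY : ∀ σ ∈ N, ∀ τ ∈ N, V.valuation ((X σ τ : Ω) - Y σ τ) < 1 := by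
    intro σ hσ τ hτ
    rw [hY2 σ hσ τ hτ]
    exact hρ _ (hXu σ hσ τ hτ)
  have htri := res_cob hS V hV X e Y f' (fun σ hσ τ hτ => hXu σ hσ.1 τ hτ.1) heu hYA hf'A
    (fun σ hσ τ hτ => hXY σ hσ.1 τ hτ.1) (fun σ hσ τ hτ => by
      rw [hf'2 σ hσ.1 τ hτ.1]
      exact hef σ hσ τ hτ) ht
  obtain ⟨b, hb, hbA, hcob⟩ := res_tri hS V hV hst (fun σ τ => Y σ τ * (f' σ τ)⁻¹)
    (hY1.mul hf'1.inv) (fun σ τ => by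
      rw [Units.val_mul, Units.val_inv_eq_inv_val]
      exact A.mul_mem (hYA _ _) (A.inv_mem (hf'A _ _)))
    (fun σ => by
      show Y 1 σ * (f' 1 σ)⁻¹ = 1 ∧ Y σ 1 * (f' σ 1)⁻¹ = 1
      rw [(hY1' σ).1, (hY1' σ).2, (hf1' σ).1, (hf1' σ).2, inv_one, mul_one]
      exact ⟨rfl, rfl⟩) htri
  refine ⟨Y, b, hYA, hXY, hb, hbA, fun σ hσ τ hτ => ?_⟩
  have h1 := hcob σ hσ τ hτ
  rw [← hf'2 σ hσ τ hτ]
  exact h1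

end

end Pool.Agent.URR
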