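import Pool.Agent.URR.Defs
import Pool.Agent.URR.DED

set_option autoImplicit false

namespace Pool.Agent.URR

open Pool.Agent.TBR

universe u

variable {k Ω : Type u} [Field k] [Field Ω] [Algebra k Ω]

/-- `S` is the ring of the elements of `E` integral over `A[h]`; `ev j : S → A` are the points of `S`
over `h = 0`, and `m j` their multiplicities -/
structure DedS (A E : IntermediateField k Ω) (h : Ω) (d : ℕ) (t : Fin d → (Ω ≃ₐ[k] Ω))
    (S : Subring Ω) (n : ℕ) (ev : Fin n → (S →+* Ω)) (m : Fin n → ℕ) : Prop where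
  le : ∀ x ∈ S, x ∈ E
  int : ∀ V : ValuationSubring Ω, (∀ x ∈ A, x ∈ V) → h ∈ V → ∀ x ∈ S, x ∈ V
  memA : ∀ x ∈ A, x ∈ S
  memh : h ∈ S
  frac : ∀ x ∈ E, ∃ u ∈ S, ∃ v ∈ S, v ≠ 0 ∧ x * v = u
  evA : ∀ j, ∀ (x : Ω) (hx : x ∈ A), ev j ⟨x, memA x hx⟩ = x
  val : ∀ j x, ev j x ∈ A
  evh : ∀ j, ev j ⟨h, memh⟩ = 0
  inj : Function.Injective ev
  surj : ∀ e' : S →+* Ω, (∀ x, e' x ∈ A) → (∀ (x : Ω) (hx : x ∈ A), e' ⟨x, memA x hx⟩ = x) →
    e' ⟨h, memh⟩ = 0 → ∃ j, e' = ev j
  pos : ∀ j, 0 < m j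
  norm : ∀ u : S, ∃ P : Polynomial Ω, (∀ i, P.coeff i ∈ A) ∧ ∏ s, t s u = P.eval h ∧
    P.eval 0 = ∏ j, ev j u ^ m j
  unif : ∀ j, ∃ π : S, ev j π = 0 ∧
    (∃ x y : S, ev j x ≠ 0 ∧ ev j y ≠ 0 ∧ ⟨h, memh⟩ * x = π ^ (m j) * y) ∧
    ∀ u : S, u ≠ 0 → ∃ (i : ℕ) (x y : S), ev j x ≠ 0 ∧ ev j y ≠ 0 ∧ u * x = π ^ i * y

open Polynomial in
/-- the abstract form: `L / K` finite separable, `K` the field of fractions of `κ[X]` -/
private theorem nra_abs (κ K L Ω : Type u) [Field κ] [IsAlgClosed κ] [Field K] [Field L] [Field Ω]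
    [IsAlgClosed Ω] [Algebra κ[X] K] [IsFractionRing κ[X] K] [Algebra K L] [FiniteDimensional K L]
    [Algebra.IsSeparable K L] [Algebra κ[X] L] [IsScalarTower κ[X] K L] [Algebra κ L]
    [IsScalarTower κ κ[X] L] [Algebra K Ω] :
    (∀ x : L, ∃ u v : integralClosure κ[X] L, v ≠ 0 ∧ x * v = u) ∧
    ∃ (n : ℕ) (e : Fin n → (integralClosure κ[X] L →ₐ[κ] κ)) (m : Fin n → ℕ),
      Function.Injective e ∧ (∀ j, 0 < m j) ∧
      (∀ e' : integralClosure κ[X] L →ₐ[κ] κ,
        e' (algebraMap κ[X] (integralClosure κ[X] L) X) = 0 ↔ ∃ j, e' = e j) ∧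
      (∀ u : integralClosure κ[X] L, ∃ P : κ[X],
        algebraMap K Ω (algebraMap κ[X] K P) = ∏ σ : L →ₐ[K] Ω, σ u ∧
        P.eval 0 = ∏ j, e j u ^ m j) ∧
      ∀ j, ∃ π : integralClosure κ[X] L, e j π = 0 ∧
        (∃ x y : integralClosure κ[X] L, e j x ≠ 0 ∧ e j y ≠ 0 ∧
          algebraMap κ[X] (integralClosure κ[X] L) X * x = π ^ (m j) * y) ∧
        ∀ u : integralClosure κ[X] L, u ≠ 0 → ∃ (i : ℕ) (x y : integralClosure κ[X] L),
          e j x ≠ 0 ∧ e j y ≠ 0 ∧ u * x = π ^ i * y := by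
  have : IsDedekindDomain (integralClosure κ[X] L) := integralClosure.isDedekindDomain κ[X] K L
  have : Module.Finite κ[X] (integralClosure κ[X] L) :=
    IsIntegralClosure.finite κ[X] K L (integralClosure κ[X] L)
  have hfr : IsFractionRing (integralClosure κ[X] L) L :=
    IsIntegralClosure.isFractionRing_of_finite_extension κ[X] K L (integralClosure κ[X] L)
  have hinj : Function.Injective (algebraMap κ[X] L) := by
    rw [IsScalarTower.algebraMap_eq κ[X] K L]
    exact (algebraMap K L).injective.comp (IsFractionRing.injective κ[X] K)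
  have hinj' : Function.Injective (algebraMap κ[X] (integralClosure κ[X] L)) := by
    intro p q h
    exact hinj (congrArg Subtype.val h)
  have : Module.IsTorsionFree κ[X] (integralClosure κ[X] L) :=
    Module.isTorsionFree_iff_algebraMap_injective.2 hinj'
  have : Module.Free κ[X] (integralClosure κ[X] L) := Module.free_of_finite_type_torsion_free'
  refine ⟨fun x => ?_, ?_⟩
  · obtain ⟨u, v, hv, huv⟩ := IsFractionRing.div_surjective (A := integralClosure κ[X] L) x
    have hv0 : v ≠ 0 := nonZeroDivisors.ne_zero hv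
    refine ⟨u, v, hv0, ?_⟩
    rw [← huv]
    have h1 : algebraMap (integralClosure κ[X] L) L v ≠ 0 := fun h2 =>
      hv0 (IsFractionRing.injective (integralClosure κ[X] L) L (by rw [h2, map_zero]))
    exact div_mul_cancel₀ _ h1
  · obtain ⟨n, e, m, h1, h2, h3, h4, h5⟩ := ded κ (integralClosure κ[X] L)
    refine ⟨n, e, m, h1, h2, h3, fun u => ⟨Algebra.norm κ[X] u, ?_, h4 u⟩, h5⟩
    have h6 := Algebra.norm_eq_prod_embeddings K Ω (algebraMap (integralClosure κ[X] L) L u)
    have h7 := Algebra.algebraMap_intNorm (A := κ[X]) (K := K) (L := L)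
      (B := integralClosure κ[X] L) u
    rw [Algebra.intNorm_eq_norm] at h7
    rw [h7, h6]
    rfl

private theorem nra_sep (F : IntermediateField k Ω) (E' : IntermediateField F Ω)
    (hsep : ∀ x ∈ E', IsSeparable F x) : Algebra.IsSeparable F E' := by
  refine ⟨fun x => ?_⟩
  have h1 : IsSeparable F (x : Ω) := hsep x x.2
  rw [IsSeparable, ← minpoly.algebraMap_eq (algebraMap E' Ω).injective]
  exact h1

private theorem nra_fd (A F : IntermediateField k Ω) (hAF : A ≤ F) (B₀ : Set Ω) (hfin : B₀.Finite)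
    (halg : ∀ x : Ω, IsAlgebraic F x) (E' : IntermediateField F Ω)
    (hmem : ∀ x : Ω, x ∈ E' ↔ x ∈ AA A B₀) : FiniteDimensional F E' := by
  have := hfin.to_subtype
  have h1 : E' = IntermediateField.adjoin F B₀ := by
    apply le_antisymm
    · intro x hx
      rw [hmem] at hx
      have h2 : AA A B₀ ≤ (IntermediateField.adjoin F B₀).restrictScalars k := by
        refine sup_le ?_ ?_
        · intro a ha
          exact (IntermediateField.adjoin F B₀).algebraMap_mem ⟨a, hAF ha⟩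
        · rw [IntermediateField.adjoin_le_iff]
          intro b hb
          exact IntermediateField.subset_adjoin F B₀ hb
      exact h2 hx
    · rw [IntermediateField.adjoin_le_iff]
      intro b hb
      rw [SetLike.mem_coe, hmem]
      exact sub_AA A B₀ hb
  rw [h1]
  exact IntermediateField.finiteDimensional_adjoin fun x _ => (halg x).isIntegral

private theorem nra_tr (A : IntermediateField k Ω) [IsAlgClosed A] (h : Ω) (hA : h ∉ A)
    (p : Polynomial A) (hp : Polynomial.aeval h p = 0) : p = 0 := by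
  by_contra hp0
  have h1 : IsAlgebraic A h := ⟨p, hp0, hp⟩
  have h2 : IsIntegral A h := h1.isIntegral
  have h4 : (minpoly A h).degree = 1 :=
    IsAlgClosed.degree_eq_one_of_irreducible A (minpoly.irreducible h2)
  obtain ⟨a, ha⟩ := minpoly.mem_range_of_degree_eq_one A h h4
  exact hA (by rw [← ha]; exact a.2)

private theorem nra_frac (A F : IntermediateField k Ω) (h : Ω) [Algebra (Polynomial A) F]
    (hPh : ∀ p : Polynomial A, ((algebraMap (Polynomial A) F p : F) : Ω) = Polynomial.aeval h p)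
    (htr : ∀ p : Polynomial A, Polynomial.aeval h p = 0 → p = 0)
    (hF : ∀ x ∈ F, x ∈ AA A {h}) : IsFractionRing (Polynomial A) F := by
  have hfs : FaithfulSMul (Polynomial A) F := by
    rw [faithfulSMul_iff_algebraMap_injective, injective_iff_map_eq_zero]
    intro p hp
    exact htr p (by rw [← hPh, hp]; rfl)
  refine IsFractionRing.of_field (Polynomial A) F fun z => ?_
  obtain ⟨r, s, hrs⟩ := (TBR.V.mem_AA A h z).mp (hF z z.2)
  refine ⟨r, s, Subtype.ext ?_⟩
  rw [IntermediateField.coe_div, hPh, hPh, ← hrs]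

/-- the norm as a product over the `t s` -/
private theorem nra_prod [IsAlgClosed Ω] (E F : IntermediateField k Ω) (E' : IntermediateField F Ω)
    (hmem : ∀ x : Ω, x ∈ E' ↔ x ∈ E) [FiniteDimensional F E'] (halg : ∀ x : Ω, IsAlgebraic F x)
    (d : ℕ) (t : Fin d → (Ω ≃ₐ[k] Ω)) (ht : ∀ s, ∀ x ∈ F, t s x = x)
    (ht2 : ∀ g : Ω ≃ₐ[k] Ω, (∀ x ∈ F, g x = x) → ∃! s, ∀ x ∈ E, g x = t s x) (u : E') :
    ∏ σ : E' →ₐ[F] Ω, σ u = ∏ s, t s u := by
  let φ : Fin d → (E' →ₐ[F] Ω) := fun s =>
    { toRingHom := ((t s : Ω ≃ₐ[k] Ω) : Ω →+* Ω).comp (algebraMap E' Ω)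
      commutes' := fun x => ht s x x.2 }
  have hφ : ∀ s (y : E'), φ s y = t s y := fun _ _ => rfl
  have hbij : Function.Bijective φ := by
    constructor
    · intro s s' hss
      obtain ⟨r, -, hr⟩ := ht2 (t s) (ht s)
      rw [hr s (fun _ _ => rfl), hr s' (fun x hx => ?_)]
      have h1 := DFunLike.congr_fun hss (⟨x, (hmem x).mpr hx⟩ : E')
      exact h1
    · intro σ
      have : Algebra.IsAlgebraic F Ω := ⟨halg⟩
      have : Algebra.IsAlgebraic E' Ω := Algebra.IsAlgebraic.tower_top (K := F) E'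
      obtain ⟨g, hg⟩ := IsAlgClosed.surjective_domRestrict_of_isAlgebraic (K := F) (L := E')
        (M := Ω) (E := Ω) σ
      have hgb : Function.Bijective g := Algebra.IsAlgebraic.algHom_bijective g
      let g' : Ω ≃ₐ[F] Ω := AlgEquiv.ofBijective g hgb
      obtain ⟨s, hs, -⟩ := ht2 (g'.restrictScalars k) (fun x hx => g'.commutes (⟨x, hx⟩ : F))
      refine ⟨s, AlgHom.ext fun y => ?_⟩
      rw [hφ, ← hs y ((hmem y).mp y.2), ← hg]
      rfl
  rw [← Function.Bijective.prod_comp hbij (fun σ : E' →ₐ[F] Ω => σ u)]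
  exact Finset.prod_congr rfl fun s _ => hφ s u

/-- transport of the structure from `S'` to its image in `Ω` -/
private theorem nra_transport (A E : IntermediateField k Ω) (h : Ω) (d : ℕ)
    (t : Fin d → (Ω ≃ₐ[k] Ω)) (S' : Type u) [CommRing S'] [Algebra A S'] (X' : S') (ι : S' →+* Ω)
    (hι : Function.Injective ι) (hιC : ∀ a : A, ι (algebraMap A S' a) = a) (hιX : ι X' = h)
    (hE : ∀ y, ι y ∈ E)
    (hint : ∀ V : ValuationSubring Ω, (∀ x ∈ A, x ∈ V) → h ∈ V → ∀ y, ι y ∈ V)
    (hfr : ∀ x ∈ E, ∃ u v : S', v ≠ 0 ∧ x * ι v = ι u) (n : ℕ) (e : Fin n → (S' →ₐ[A] A))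
    (m : Fin n → ℕ) (hinj : Function.Injective e) (hpos : ∀ j, 0 < m j)
    (h0 : ∀ e' : S' →ₐ[A] A, e' X' = 0 ↔ ∃ j, e' = e j)
    (hnorm : ∀ u : S', ∃ P : Polynomial A, ∏ s, t s (ι u) = Polynomial.aeval h P ∧
      P.eval 0 = ∏ j, e j u ^ m j)
    (hunif : ∀ j, ∃ π : S', e j π = 0 ∧
        (∃ x y : S', e j x ≠ 0 ∧ e j y ≠ 0 ∧ X' * x = π ^ (m j) * y) ∧
        ∀ u : S', u ≠ 0 → ∃ (i : ℕ) (x y : S'), e j x ≠ 0 ∧ e j y ≠ 0 ∧ u * x = π ^ i * y) :
    ∃ (S : Subring Ω) (n : ℕ) (ev : Fin n → (S →+* Ω)) (m : Fin n → ℕ),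
      DedS A E h d t S n ev m := by
  let ψ : S' ≃+* ι.range :=
    RingEquiv.ofBijective ι.rangeRestrict
      ⟨fun x y hxy => hι (congrArg Subtype.val hxy), ι.rangeRestrict_surjective⟩
  have hψ : ∀ y, ((ψ y : ι.range) : Ω) = ι y := fun y => rfl
  have hψs : ∀ x : ι.range, ι (ψ.symm x) = x := fun x => by rw [← hψ, ψ.apply_symm_apply]
  clear_value ψ
  let ev : Fin n → (ι.range →+* Ω) := fun j =>
    (algebraMap A Ω).comp ((e j : S' →+* A).comp (ψ.symm : ι.range →+* S'))
  have hev : ∀ j x, ev j x = (e j (ψ.symm x) : A) := fun j x => rfl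
  have hA0 : ∀ a : A, (a : Ω) ≠ 0 ↔ a ≠ 0 := fun a => by
    rw [Ne, Ne, ZeroMemClass.coe_eq_zero]
  clear_value ev
  have hmA : ∀ x ∈ A, x ∈ ι.range := fun x hx => ⟨algebraMap A S' ⟨x, hx⟩, hιC _⟩
  have hsA : ∀ (x : Ω) (hx : x ∈ A), ψ.symm ⟨x, hmA x hx⟩ = algebraMap A S' ⟨x, hx⟩ := by
    intro x hx
    rw [RingEquiv.symm_apply_eq]
    exact Subtype.ext (by rw [hψ, hιC])
  have hmh : h ∈ ι.range := ⟨X', hιX⟩
  have hsX : ψ.symm ⟨h, hmh⟩ = X' := by
    rw [RingEquiv.symm_apply_eq]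
    exact Subtype.ext (by rw [hψ, hιX])
  refine ⟨ι.range, n, ev, m, ?_⟩
  exact
    { le := by
        rintro _ ⟨y, rfl⟩
        exact hE y
      int := by
        rintro V hV hh _ ⟨y, rfl⟩
        exact hint V hV hh y
      memA := hmA
      memh := hmh
      frac := by
        intro x hx
        obtain ⟨u, v, hv, huv⟩ := hfr x hx
        exact ⟨ι u, ⟨u, rfl⟩, ι v, ⟨v, rfl⟩, fun h1 => hv (hι (by rw [h1, map_zero])), huv⟩
      evA := by
        intro j x hx
        rw [hev, hsA x hx, AlgHom.commutes]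
        rfl
      val := by
        intro j x
        rw [hev]
        exact Subtype.mem _
      evh := by
        intro j
        rw [hev, hsX, (h0 (e j)).mpr ⟨j, rfl⟩]
        rfl
      inj := by
        intro j j' hjj
        refine hinj (AlgHom.ext fun y => Subtype.ext ?_)
        have h1 := DFunLike.congr_fun hjj (ψ y)
        rwa [hev, hev, ψ.symm_apply_apply] at h1
      surj := by
        intro e' h1 h2 h3
        let e'' : S' →ₐ[A] A :=
          { toFun := fun y => ⟨e' (ψ y), h1 _⟩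
            map_one' := Subtype.ext (by simp)
            map_mul' := fun x y => Subtype.ext (by simp)
            map_zero' := Subtype.ext (by simp)
            map_add' := fun x y => Subtype.ext (by simp)
            commutes' := fun a => Subtype.ext (by
              have h4 : ψ (algebraMap A S' a) = ⟨(a : Ω), hmA a a.2⟩ :=
                Subtype.ext (by rw [hψ, hιC])
              show e' (ψ (algebraMap A S' a)) = a
              rw [h4]
              exact h2 _ a.2) }
        have he'' : ∀ y, ((e'' y : A) : Ω) = e' (ψ y) := fun y => rfl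
        obtain ⟨j, hj⟩ := (h0 e'').mp (Subtype.ext (by
          rw [he'']
          have h4 : ψ X' = ⟨h, hmh⟩ := Subtype.ext (by rw [hψ, hιX])
          rw [h4, h3]
          rfl))
        refine ⟨j, RingHom.ext fun x => ?_⟩
        rw [hev, ← hj, he'', ψ.apply_symm_apply]
      pos := hpos
      norm := by
        intro u
        obtain ⟨P, hP1, hP2⟩ := hnorm (ψ.symm u)
        refine ⟨P.map (algebraMap A Ω), fun i => ?_, ?_, ?_⟩
        · rw [Polynomial.coeff_map]
          exact (P.coeff i).2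
        · rw [Polynomial.eval_map, ← Polynomial.aeval_def, ← hP1, hψs]
        · rw [Polynomial.eval_map, ← map_zero (algebraMap A Ω), Polynomial.eval₂_at_apply, hP2,
            map_prod]
          refine Finset.prod_congr rfl fun j _ => ?_
          rw [map_pow, hev]
          rfl
      unif := by
        intro j
        obtain ⟨π, h1, ⟨x, y, hx, hy, hxy⟩, h2⟩ := hunif j
        refine ⟨ψ π, ?_, ⟨ψ x, ψ y, ?_, ?_, ?_⟩, ?_⟩
        · rw [hev, ψ.symm_apply_apply, h1]
          rfl
        · rw [hev, ψ.symm_apply_apply, hA0]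
          exact hx
        · rw [hev, ψ.symm_apply_apply, hA0]
          exact hy
        · rw [← map_pow, ← map_mul, ← hxy, map_mul]
          congr 1
          exact Subtype.ext (by rw [hψ, hιX])
        · intro u hu
          obtain ⟨i, x', y', hx', hy', hxy'⟩ := h2 (ψ.symm u) (fun h3 => hu (by
            rw [← ψ.apply_symm_apply u, h3, map_zero]))
          refine ⟨i, ψ x', ψ y', ?_, ?_, ?_⟩
          · rw [hev, ψ.symm_apply_apply, hA0]
            exact hx'
          · rw [hev, ψ.symm_apply_apply, hA0]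
            exact hy'
          · rw [← map_pow, ← map_mul, ← hxy', map_mul, ψ.apply_symm_apply] }

private theorem nra_int (A : IntermediateField k Ω) (L : Type u) [Field L]
    [Algebra (Polynomial A) L] (g : L →+* Ω) (h : Ω)
    (hg : ∀ p : Polynomial A, g (algebraMap (Polynomial A) L p) = Polynomial.aeval h p)
    (V : ValuationSubring Ω) (hV : ∀ x ∈ A, x ∈ V) (hh : h ∈ V) (y : L)
    (hy : IsIntegral (Polynomial A) y) : g y ∈ V := by
  let iAV : A →+* V :=
    { toFun := fun a => ⟨a, hV a a.2⟩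
      map_one' := rfl
      map_mul' := fun _ _ => rfl
      map_zero' := rfl
      map_add' := fun _ _ => rfl }
  let G : Polynomial A →+* V := Polynomial.eval₂RingHom iAV ⟨h, hh⟩
  have hG : ∀ p : Polynomial A, ((G p : V) : Ω) = Polynomial.aeval h p := by
    intro p
    show V.subtype (Polynomial.eval₂ iAV ⟨h, hh⟩ p) = Polynomial.eval₂ (algebraMap A Ω) h p
    rw [Polynomial.hom_eval₂]
    rfl
  have h1 : IsIntegral V (g y) :=
    IsIntegral.map_of_comp_eq G g (RingHom.ext fun p => by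
      show ((G p : V) : Ω) = g (algebraMap (Polynomial A) L p)
      rw [hG, hg]) hy
  obtain ⟨z, hz⟩ := IsIntegrallyClosed.algebraMap_eq_of_integral (R := V) (K := Ω) h1
  rw [← hz]
  exact z.2

private theorem nra_mid [IsAlgClosed Ω] (A E F : IntermediateField k Ω) [IsAlgClosed A]
    (E' : IntermediateField F Ω) (hmem : ∀ x : Ω, x ∈ E' ↔ x ∈ E) [Algebra (Polynomial A) F]
    [Algebra (Polynomial A) E'] [IsScalarTower (Polynomial A) F E'] [Algebra A E']
    [IsScalarTower A (Polynomial A) E'] [IsFractionRing (Polynomial A) F] [FiniteDimensional F E']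
    [Algebra.IsSeparable F E'] (halg : ∀ x : Ω, IsAlgebraic F x) (h : Ω)
    (hPh : ∀ p : Polynomial A, ((algebraMap (Polynomial A) F p : F) : Ω) = Polynomial.aeval h p)
    (d : ℕ) (t : Fin d → (Ω ≃ₐ[k] Ω)) (ht : ∀ s, ∀ x ∈ F, t s x = x)
    (ht2 : ∀ g : Ω ≃ₐ[k] Ω, (∀ x ∈ F, g x = x) → ∃! s, ∀ x ∈ E, g x = t s x) :
    ∃ (S : Subring Ω) (n : ℕ) (ev : Fin n → (S →+* Ω)) (m : Fin n → ℕ),
      DedS A E h d t S n ev m := by
  obtain ⟨g1, n, e, m, g2, g3, g4, g5, g6⟩ := nra_abs A F E' Ω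
  have hPE : ∀ p : Polynomial A, ((algebraMap (Polynomial A) E' p : E') : Ω) =
      Polynomial.aeval h p := by
    intro p
    rw [← hPh, IsScalarTower.algebraMap_apply (Polynomial A) F E']
    rfl
  refine nra_transport A E h d t (integralClosure (Polynomial A) E')
    (algebraMap (Polynomial A) _ Polynomial.X)
    ((algebraMap E' Ω).comp (algebraMap (integralClosure (Polynomial A) E') E')) ?_ ?_ ?_ ?_ ?_ ?_ n
    e m g2 g3 g4 ?_ g6
  · exact fun x y hxy => Subtype.ext (Subtype.ext hxy)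
  · intro a
    have h1 : algebraMap A (integralClosure (Polynomial A) E') a =
        algebraMap (Polynomial A) _ (Polynomial.C a) :=
      IsScalarTower.algebraMap_apply A (Polynomial A) _ a
    rw [h1]
    have h2 := hPE (Polynomial.C a)
    rw [Polynomial.aeval_C] at h2
    exact h2
  · have h2 := hPE Polynomial.X
    rw [Polynomial.aeval_X] at h2
    exact h2
  · intro y
    exact (hmem _).mp (y : E').2
  · intro V hV hh y
    exact nra_int A E' (algebraMap E' Ω) h hPE V hV hh y y.2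
  · intro x hx
    obtain ⟨u, v, hv, huv⟩ := g1 ⟨x, (hmem x).mpr hx⟩
    exact ⟨u, v, hv, congrArg (algebraMap E' Ω) huv⟩
  · intro u
    obtain ⟨P, hP1, hP2⟩ := g5 u
    refine ⟨P, ?_, hP2⟩
    rw [nra_prod E F E' hmem halg d t ht ht2] at hP1
    rw [← hPh]
    exact hP1.symm

private theorem nra_fin [IsAlgClosed Ω] (A : IntermediateField k Ω) [IsAlgClosed A] (B₀ : Set Ω)
    (hfin : B₀.Finite) (h : Ω) (hA : h ∉ A) (F : IntermediateField k Ω)
    (hF : ∀ x ∈ F, x ∈ AA A {h}) (hhF : h ∈ F) (hAF : A ≤ F) (halg : ∀ x : Ω, IsAlgebraic F x)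
    (E' : IntermediateField F Ω) (hmem : ∀ x : Ω, x ∈ E' ↔ x ∈ AA A B₀)
    (hsep : ∀ x ∈ E', IsSeparable F x) (d : ℕ) (t : Fin d → (Ω ≃ₐ[k] Ω))
    (ht : ∀ s, ∀ x ∈ F, t s x = x)
    (ht2 : ∀ g : Ω ≃ₐ[k] Ω, (∀ x ∈ F, g x = x) → ∃! s, ∀ x ∈ AA A B₀, g x = t s x) :
    ∃ (S : Subring Ω) (n : ℕ) (ev : Fin n → (S →+* Ω)) (m : Fin n → ℕ),
      DedS A (AA A B₀) h d t S n ev m := by
  have hsp : Algebra.IsSeparable F E' := nra_sep F E' hsep
  have hfd : FiniteDimensional F E' := nra_fd A F hAF B₀ hfin halg E' hmem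
  let iAF : A →+* F := (IntermediateField.inclusion hAF).toRingHom
  have hiAF : ∀ a : A, ((iAF a : F) : Ω) = a := fun a => rfl
  clear_value iAF
  let G : Polynomial A →+* F := Polynomial.eval₂RingHom iAF ⟨h, hhF⟩
  have hG : ∀ p : Polynomial A, ((G p : F) : Ω) = Polynomial.aeval h p := by
    intro p
    show (algebraMap F Ω) (Polynomial.eval₂ iAF ⟨h, hhF⟩ p) =
      Polynomial.eval₂ (algebraMap A Ω) h p
    rw [Polynomial.hom_eval₂]
    have h1 : (algebraMap F Ω).comp iAF = algebraMap A Ω := RingHom.ext hiAF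
    rw [h1]
    rfl
  clear_value G
  let aPK : Algebra (Polynomial A) F := G.toAlgebra
  let aPL : Algebra (Polynomial A) E' := ((algebraMap F E').comp G).toAlgebra
  let aAL : Algebra A E' := (((algebraMap F E').comp G).comp Polynomial.C).toAlgebra
  have tPKL : IsScalarTower (Polynomial A) F E' := IsScalarTower.of_algebraMap_eq fun _ => rfl
  have tAPL : IsScalarTower A (Polynomial A) E' := IsScalarTower.of_algebraMap_eq fun a => rfl
  have hfrac : IsFractionRing (Polynomial A) F := nra_frac A F h hG (nra_tr A h hA) hF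
  exact nra_mid A (AA A B₀) F E' hmem halg h hG d t ht ht2

/--
PROOF. `E = AA A B₀`, `F = AA A {h}`, `κ = ↥A`, `L = ↥E` (a field, `κ`-algebra by the inclusion),
`κ[X] → L`, `X ↦ h` (`(Polynomial.aeval ⟨h, hE⟩).toAlgebra`), injective as `h` is transcendental over the
algebraically closed field `A`. `K` = a fraction field of `κ[X]` in `L` (e.g. `FractionRing κ[X]` with the
`liftAlgebra` instance as in `norm_congr` in TBM/Weil.lean, or `RatFunc`, or `↥F`; its image in `L` is `F`).
`L / K` is finite (generated by the finite set `B₀`, algebraic by hA1) and separable (hsep).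
`S' := integralClosure κ[X] L` is a Dedekind domain (`integralClosure.isDedekindDomain`), finite over `κ[X]`
(`IsIntegralClosure.finite`), torsion free, `L` is its field of fractions
(`IsIntegralClosure.isFractionRing_of_finite_extension`). Apply `ded κ S'` (file DED; its proof is another
row): algebra maps `e j : S' →ₐ[κ] κ`, exponents `m j`. Let `S` be the image of `S'` in `Ω` (a subring,
isomorphic to `S'`), `ev j` = `e j` followed by `A ⊆ Ω`. `le`, `memA`, `memh`, `frac`, `evA`, `val`, `evh`, `inj`,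
`pos`, `unif` are immediate from `ded`. `int`: the elements of `S` are integral over `A[h] ⊆ V`, and `V` is
integrally closed (`TBR.mem_of_isIntegral` in TBM/Val.lean). `surj`: such an `e'` is an algebra map
`S' →ₐ[κ] κ`. `norm`: for `u ∈ S'` let `P = Algebra.norm κ[X] u ∈ κ[X]`, mapped to `Ω[X]`. The image of
`Algebra.norm K (u : L)` in `Ω` is the product over all embeddings of `L` in `Ω` over `K`
(`Algebra.norm_eq_prod_embeddings`), and these are exactly the restrictions of the `t s`: `t s` fixes `F`;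
every embedding of `E` over `F` extends to an automorphism of `Ω` over `F` (`Ω` is algebraic over `F` by
hA1 and algebraically closed, so normal over `F`), which agrees with exactly one `t s` on `E` (ht2). The norm
of `κ[X]` and of `K`: `Algebra.algebraMap_intNorm_fractionRing`, `Algebra.intNorm_eq_norm` (see `hnorm` in
`norm_congr` in TBM/Weil.lean), so `∏ t s u = P(h)`.
-/
theorem exists_dedS [IsAlgClosed Ω] (A : IntermediateField k Ω) [IsAlgClosed A]
    (hA1 : ∀ t : Ω, t ∉ A → ∀ x : Ω, IsAlgebraic (AA A {t}) x) (B₀ : Set Ω) (hfin : B₀.Finite)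
    (h : Ω) (hE : h ∈ AA A B₀) (hA : h ∉ A) (hsep : ∀ x ∈ AA A B₀, IsSeparable (AA A {h}) x)
    (d : ℕ) (t : Fin d → (Ω ≃ₐ[k] Ω))
    (ht : ∀ s, t s ∈ Fx k ((AA A {h} : IntermediateField k Ω) : Set Ω))
    (ht2 : ∀ g ∈ Fx k ((AA A {h} : IntermediateField k Ω) : Set Ω),
        ∃! s, Ag ((AA A B₀ : IntermediateField k Ω) : Set Ω) g (t s)) :
    ∃ (S : Subring Ω) (n : ℕ) (ev : Fin n → (S →+* Ω)) (m : Fin n → ℕ),
      DedS A (AA A B₀) h d t S n ev m := by
  have hFE : AA A {h} ≤ AA A B₀ := by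
    refine sup_le le_sup_left ?_
    rw [IntermediateField.adjoin_le_iff]
    rintro _ rfl
    exact hE
  have hhF : h ∈ AA A {h} := sub_AA A {h} rfl
  have hAF : A ≤ AA A {h} := le_AA A {h}
  have halg : ∀ x : Ω, IsAlgebraic (AA A {h}) x := hA1 h hA
  have hmem : ∀ x : Ω, x ∈ IntermediateField.extendScalars hFE ↔ x ∈ AA A B₀ :=
    fun x => IntermediateField.mem_extendScalars hFE
  generalize IntermediateField.extendScalars hFE = E' at hmem
  have hsep' : ∀ x ∈ E', IsSeparable (AA A {h}) x := fun x hx => hsep x ((hmem x).mp hx)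
  have ht' : ∀ s, ∀ x ∈ AA A {h}, t s x = x := fun s x hx => ht s x hx
  have ht2' : ∀ g : Ω ≃ₐ[k] Ω, (∀ x ∈ AA A {h}, g x = x) → ∃! s, ∀ x ∈ AA A B₀, g x = t s x :=
    fun g hg => ht2 g hg
  exact nra_fin A B₀ hfin h hA (AA A {h}) (fun _ hx => hx) hhF hAF halg E' hmem hsep' d t ht' ht2'

end Pool.Agent.URR
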