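import Pool.Agent.URR.NRA

set_option autoImplicit false

namespace Pool.Agent.URR

open Pool.Agent.TBR

universe u

variable {k Ω : Type u} [Field k] [Field Ω] [Algebra k Ω] [IsAlgClosed Ω]

/--
The point of `S` defined by a place. PROOF. `S ⊆ V` (D.int, `h ∈ V`). For `x ∈ S` there is a unique `a ∈ A`
with `V.valuation (x - a) < 1` (`TBR.V.residue A hA1 V`; uniqueness by `TBR.V.val_A`: nonzero elements of `A` are
units of `V`). `x ↦ a` is a ring homomorphism `S → Ω` with values in `A`, the identity on `A`, `h ↦ 0`; by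
D.surj it is `ev j` for some `j`, unique by D.inj.
-/
theorem DedS.pt {A E : IntermediateField k Ω} [IsAlgClosed A]
    (hA1 : ∀ t : Ω, t ∉ A → ∀ x : Ω, IsAlgebraic (AA A {t}) x) {h : Ω} {d : ℕ}
    {t : Fin d → (Ω ≃ₐ[k] Ω)} {S : Subring Ω} {n : ℕ} {ev : Fin n → (S →+* Ω)} {m : Fin n → ℕ}
    (D : DedS A E h d t S n ev m) (V : ValuationSubring Ω) (hV : Pl A V)
    (hV1 : V.valuation h < 1) : ∃ j, ∀ x : S, V.valuation ((x : Ω) - ev j x) < 1 := by
  have hSV : ∀ x ∈ S, x ∈ V :=
    D.int V hV.1 ((V.valuation_le_one_iff _).mp hV1.le)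
  have hex : ∀ x : S, ∃ a ∈ A, V.valuation ((x : Ω) - a) < 1 := by
    intro x
    obtain ⟨a, ha, h1⟩ := TBR.V.residue A hA1 V hV.1 hV.2 x (hSV x x.2)
    exact ⟨a, ha, V.mem_nonunits_iff.mp h1⟩
  have hsub : ∀ x y : Ω, V.valuation x < 1 → V.valuation y < 1 → V.valuation (x - y) < 1 :=
    fun x y hx hy => lt_of_le_of_lt (Valuation.map_sub _ _ _) (max_lt hx hy)
  have hadd : ∀ x y : Ω, V.valuation x < 1 → V.valuation y < 1 → V.valuation (x + y) < 1 :=
    fun x y hx hy => lt_of_le_of_lt (Valuation.map_add _ _ _) (max_lt hx hy)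
  have huniq : ∀ (x a b : Ω), a ∈ A → b ∈ A → V.valuation (x - a) < 1 → V.valuation (x - b) < 1 →
      a = b := by
    intro x a b ha hb h1 h2
    by_contra hne
    have h3 : V.valuation (a - b) < 1 := by
      have h4 := hsub _ _ h2 h1
      rwa [sub_sub_sub_cancel_left] at h4
    have h5 := TBR.V.val_A A V hV.1 ⟨a - b, sub_mem ha hb⟩ (fun h6 => hne (by
      have h7 := congrArg Subtype.val h6
      exact sub_eq_zero.mp h7))
    exact absurd h3 (by rw [show (a - b) = ((⟨a - b, sub_mem ha hb⟩ : A) : Ω) from rfl, h5]; exact lt_irrefl _)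
  choose r hrA hr using hex
  have hmul : ∀ x y : S, V.valuation (((x * y : S) : Ω) - r x * r y) < 1 := by
    intro x y
    have h1 : ((x * y : S) : Ω) - r x * r y = ((x : Ω) - r x) * y + r x * ((y : Ω) - r y) := by
      push_cast
      ring
    rw [h1]
    refine hadd _ _ ?_ ?_
    · rw [map_mul]
      have h2 : V.valuation (y : Ω) ≤ 1 := (V.valuation_le_one_iff _).mpr (hSV y y.2)
      calc V.valuation ((x : Ω) - r x) * V.valuation (y : Ω)
          ≤ V.valuation ((x : Ω) - r x) * 1 := by gcongr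
        _ < 1 := by rw [mul_one]; exact hr x
    · rw [map_mul]
      have h2 : V.valuation (r x) ≤ 1 := (V.valuation_le_one_iff _).mpr (hV.1 _ (hrA x))
      calc V.valuation (r x) * V.valuation ((y : Ω) - r y)
          ≤ 1 * V.valuation ((y : Ω) - r y) := by gcongr
        _ < 1 := by rw [one_mul]; exact hr y
  let e' : S →+* Ω :=
    { toFun := r
      map_one' := huniq 1 _ _ (hrA 1) (one_mem _) (by simpa using hr 1) (by simp)
      map_mul' := fun x y => huniq _ _ _ (hrA _) (mul_mem (hrA x) (hrA y)) (hr (x * y)) (hmul x y)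
      map_zero' := huniq 0 _ _ (hrA 0) (zero_mem _) (by simpa using hr 0) (by simp)
      map_add' := fun x y => huniq _ _ _ (hrA _) (add_mem (hrA x) (hrA y)) (hr (x + y)) (by
        have h1 := hadd _ _ (hr x) (hr y)
        rwa [sub_add_sub_comm] at h1) }
  obtain ⟨j, hj⟩ := D.surj e' hrA (fun x hx => huniq x _ _ (hrA _) hx (hr ⟨x, D.memA x hx⟩) (by simp))
    (huniq h _ _ (hrA _) (zero_mem _) (hr ⟨h, D.memh⟩) (by simpa using hV1))
  refine ⟨j, fun x => ?_⟩
  rw [← hj]
  exact hr x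

end Pool.Agent.URR
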