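import Pool.Agent.URR.Defs

set_option autoImplicit false

namespace Pool.Agent.URR

open Pool.Agent.TBR

universe u

variable {k Ω : Type u} [Field k] [Field Ω] [Algebra k Ω]

private theorem sep1_exch {K E : Type u} [Field K] [Field E] [Algebra K E] (p : ℕ) (hp : p.Prime)
    [ExpChar E p] (h z : E) (hh : h ^ p ∈ (algebraMap K E).range)
    (hz : z ^ p ∈ (algebraMap K E).range) (hzn : z ∉ (algebraMap K E).range)
    (hzh : z ∈ IntermediateField.adjoin K {h}) : h ∈ IntermediateField.adjoin K {z} := by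
  obtain ⟨c, hc⟩ := hh
  obtain ⟨d, hd⟩ := hz
  have hinj : Function.Injective (algebraMap K E) := (algebraMap K E).injective
  have hirr : Irreducible (Polynomial.X ^ p - Polynomial.C d : Polynomial K) := by
    refine X_pow_sub_C_irreducible_of_prime hp fun b hb => hzn ⟨b, ?_⟩
    have h1 : (algebraMap K E b) ^ p = z ^ p := by rw [← map_pow, hb, hd]
    exact frobenius_inj E p h1
  have hmz : minpoly K z = Polynomial.X ^ p - Polynomial.C d := by
    refine (minpoly.eq_of_irreducible_of_monic hirr ?_ ?_).symm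
    · simp [hd]
    · exact Polynomial.monic_X_pow_sub_C d hp.ne_zero
  have hintz : IsIntegral K z := by
    refine ⟨Polynomial.X ^ p - Polynomial.C d, Polynomial.monic_X_pow_sub_C d hp.ne_zero, ?_⟩
    simp [hd]
  have hinth : IsIntegral K h := by
    refine ⟨Polynomial.X ^ p - Polynomial.C c, Polynomial.monic_X_pow_sub_C c hp.ne_zero, ?_⟩
    simp [hc]
  have hfz : Module.finrank K (IntermediateField.adjoin K {z}) = p := by
    rw [IntermediateField.adjoin.finrank hintz, hmz, Polynomial.natDegree_X_pow_sub_C]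
  have hfh : Module.finrank K (IntermediateField.adjoin K {h}) ≤ p := by
    rw [IntermediateField.adjoin.finrank hinth]
    have h1 : minpoly K h ∣ Polynomial.X ^ p - Polynomial.C c := minpoly.dvd K h (by simp [hc])
    have h2 := Polynomial.natDegree_le_of_dvd h1
      (Polynomial.monic_X_pow_sub_C c hp.ne_zero).ne_zero
    rwa [Polynomial.natDegree_X_pow_sub_C] at h2
  have hle : IntermediateField.adjoin K {z} ≤ IntermediateField.adjoin K {h} := by
    rw [IntermediateField.adjoin_le_iff]
    rintro _ rfl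
    exact hzh
  have : FiniteDimensional K (IntermediateField.adjoin K {h}) :=
    IntermediateField.adjoin.finiteDimensional hinth
  have heq := IntermediateField.eq_of_le_of_finrank_le hle (by rw [hfz]; exact hfh)
  rw [heq]
  exact IntermediateField.mem_adjoin_simple_self K h

private theorem sep1_mem {K E : Type u} [Field K] [Field E] [Algebra K E] (z : E)
    (hz : IsSeparable K z) : ∀ w ∈ IntermediateField.adjoin K {z}, IsSeparable K w := by
  intro w hw
  have := (IntermediateField.isSeparable_adjoin_simple_iff_isSeparable K E).2 hz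
  exact IntermediateField.isSeparable_of_mem_isSeparable K E hw

private theorem sep1_AA (A : IntermediateField k Ω) (T : Set Ω) (S : Subfield Ω)
    (hA : ∀ a ∈ A, a ∈ S) (hT : ∀ a ∈ T, a ∈ S) : ∀ x ∈ AA A T, x ∈ S := by
  let S' : IntermediateField k Ω :=
    { S with algebraMap_mem' := fun r => hA _ (A.algebraMap_mem r) }
  have hle : AA A T ≤ S' := by
    refine sup_le (fun a ha => hA a ha) ?_
    rw [IntermediateField.adjoin_le_iff]
    exact fun a ha => hT a ha
  exact fun x hx => hle hx

private theorem sep1_adj (L : IntermediateField k Ω) (w : Ω) (S : Subfield Ω)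
    (hL : ∀ a ∈ L, a ∈ S) (hw : w ∈ S) : ∀ x ∈ IntermediateField.adjoin L {w}, x ∈ S := by
  let S' : IntermediateField L Ω :=
    { S with algebraMap_mem' := fun r => hL _ r.2 }
  have hle : IntermediateField.adjoin L {w} ≤ S' := by
    rw [IntermediateField.adjoin_le_iff]
    rintro _ rfl
    exact hw
  exact fun x hx => hle hx

private theorem sep1_prime (A : IntermediateField k Ω) [IsAlgClosed A]
    (hA1 : ∀ t : Ω, t ∉ A → ∀ x : Ω, IsAlgebraic (AA A {t}) x) (p : ℕ) (hpr : p.Prime)
    [ExpChar Ω p] (B₀ : Set Ω)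
    (h : Ω) (hE : h ∈ AA A B₀) (hA : h ∉ A) (hp : ∀ g ∈ AA A B₀, g ^ p ≠ h) :
    ∀ x ∈ AA A B₀, IsSeparable (AA A {h}) x := by
  classical
  intro x hx
  have hchF : ExpChar (AA A {h}) p := (algebraMap (AA A {h}) Ω).expChar
    (algebraMap (AA A {h}) Ω).injective p
  have hpA : ∀ a ∈ A, ∃ b ∈ A, b ^ p = a := by
    intro a ha
    obtain ⟨b, hb⟩ := IsAlgClosed.exists_pow_nat_eq (⟨a, ha⟩ : A) hpr.pos
    exact ⟨b, b.2, by simpa using congrArg Subtype.val hb⟩
  have halg : Algebra.IsAlgebraic (AA A {h}) Ω := ⟨fun y => hA1 h hA y⟩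
  by_contra hns
  have hex : ∃ n : ℕ, IsSeparable (AA A {h}) (x ^ p ^ n) := by
    obtain ⟨n, hn⟩ := IsPurelyInseparable.pow_mem (separableClosure (AA A {h}) Ω) p x
    obtain ⟨y, hy⟩ := hn
    refine ⟨n, ?_⟩
    rw [← hy]
    exact mem_separableClosure_iff.1 y.2
  -- the element y
  obtain ⟨y, hyE, hyn, hys⟩ : ∃ y ∈ AA A B₀, ¬ IsSeparable (AA A {h}) y ∧
      IsSeparable (AA A {h}) (y ^ p) := by
    have hfind := Nat.find_spec hex
    have hpos : Nat.find hex ≠ 0 := by
      intro h0
      rw [h0, pow_zero, pow_one] at hfind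
      exact hns hfind
    obtain ⟨m, hm⟩ := Nat.exists_eq_succ_of_ne_zero hpos
    refine ⟨x ^ p ^ m, pow_mem hx _, Nat.find_min hex (by omega), ?_⟩
    rw [← pow_mul, ← pow_succ]
    rw [hm] at hfind
    exact hfind
  set z : Ω := y ^ p with hz
  set L : IntermediateField k Ω := AA A {h ^ p, z ^ p} with hL
  have hFle : ∀ a ∈ AA A {h}, a ∈ (IntermediateField.adjoin L {h}).toSubfield := by
    refine sep1_AA A {h} _ ?_ ?_
    · intro a ha
      exact (IntermediateField.adjoin L {h}).algebraMap_mem ⟨a, le_AA A _ ha⟩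
    · rintro _ rfl
      exact IntermediateField.mem_adjoin_simple_self L _
  -- z in L(h)
  have hzLh : z ∈ IntermediateField.adjoin L {h} := by
    have h1 : z ∈ IntermediateField.adjoin (AA A {h}) {z ^ p} := by
      rw [← IntermediateField.adjoin_simple_eq_adjoin_pow_expChar_of_isSeparable (AA A {h}) Ω hys p]
      exact IntermediateField.mem_adjoin_simple_self _ _
    refine sep1_adj (AA A {h}) (z ^ p) (IntermediateField.adjoin L {h}).toSubfield hFle ?_ z h1
    exact (IntermediateField.adjoin L {h}).algebraMap_mem ⟨z ^ p, sub_AA A _ (by simp)⟩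
  -- z not in L
  have hzL : z ∉ L := by
    intro hzL
    have h1 : z ∈ (IntermediateField.adjoin (AA A {h}) {z}).toSubfield.map (frobenius Ω p) := by
      refine sep1_AA A {h ^ p, z ^ p} _ ?_ ?_ z hzL
      · intro a ha
        obtain ⟨b, hb, hba⟩ := hpA a ha
        refine ⟨b, ?_, hba⟩
        exact (IntermediateField.adjoin (AA A {h}) {z}).algebraMap_mem ⟨b, le_AA A _ hb⟩
      · intro a ha
        rcases ha with rfl | ha
        · refine ⟨h, ?_, rfl⟩
          exact (IntermediateField.adjoin (AA A {h}) {z}).algebraMap_mem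
            ⟨h, sub_AA A _ (by simp)⟩
        · rw [Set.mem_singleton_iff] at ha
          subst ha
          exact ⟨z, IntermediateField.mem_adjoin_simple_self _ _, rfl⟩
    obtain ⟨w, hw, hwz⟩ := h1
    have h2 : w = y := frobenius_inj Ω p hwz
    subst h2
    apply hyn
    exact sep1_mem z hys w hw
  -- exchange
  have hhLz : h ∈ IntermediateField.adjoin L {z} := by
    refine sep1_exch p hpr h z ?_ ?_ ?_ hzLh
    · exact ⟨⟨h ^ p, sub_AA A _ (by simp)⟩, rfl⟩
    · exact ⟨⟨z ^ p, sub_AA A _ (by simp)⟩, rfl⟩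
    · rintro ⟨w, hw⟩
      apply hzL
      rw [← hw]
      exact w.2
  -- L(z) in E^p
  have hmap : h ∈ (AA A B₀).toSubfield.map (frobenius Ω p) := by
    refine sep1_adj L z ((AA A B₀).toSubfield.map (frobenius Ω p)) ?_ ⟨y, hyE, rfl⟩ h hhLz
    refine sep1_AA A {h ^ p, z ^ p} _ ?_ ?_
    · intro a ha
      obtain ⟨b, hb, hba⟩ := hpA a ha
      exact ⟨b, le_AA A _ hb, hba⟩
    · intro a ha
      rcases ha with rfl | ha
      · exact ⟨h, hE, rfl⟩
      · rw [Set.mem_singleton_iff] at ha
        subst ha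
        exact ⟨z, pow_mem hyE p, rfl⟩
  obtain ⟨g, hg, hgh⟩ := hmap
  exact hp g hg hgh

/--
A function which is not a `p`-th power is a separating element. PROOF. Write `E = A(B₀)`,
`F = AA A {h}`. In characteristic 0 (`p = 1`) every algebraic element is separable. Let `p` be prime,
and let `Es` be the set of the `x ∈ E` which are separable over `F` (an intermediate field of
`E / F`; `E / F` is algebraic by hA1). Suppose `Es ≠ E`. `E / Es` is purely inseparable
(`separableClosure.isPurelyInseparable`), so there is `x ∈ E`, `x ∉ Es` with `x ^ p ∈ Es` (take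
`y ∈ E \ Es`, `n` minimal with `y ^ p ^ n ∈ Es`, `x = y ^ p ^ (n - 1)`).
`Es / F` is algebraic and separable, so `Es = F(Es^p)` (Mathlib:
`IntermediateField.adjoin_eq_adjoin_pow_expChar_pow_of_isSeparable` and its variants, i.e.
`F(y) = F(y^p)` for `y` separable over `F`); as `A = A^p` (alg. closed), `F(Es^p) = Es^p(h)`.
So `Es = Es^p(h)` where `Es^p` is the field of the `p`-th powers of elements of `Es`. `h` is a root of
`X^p - h^p` over `Es^p`, so `[Es : Es^p] ≤ p`; `x^p ∈ Es`, `x^p ∉ Es^p` (if `x^p = y^p`, `y ∈ Es`, then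
`x = y ∈ Es`), and `X^p - x^p`... so `Es^p(x^p)` has degree exactly `p` over `Es^p`
(`X ^ p - C (x^p)^p` is irreducible over `Es^p` when `x^p` is not in `Es^p`: `X_pow_sub_C_irreducible_of_prime`
applied to the element `(x^p)^p`, which is not a `p`-th power of an element of `Es^p`), so
`Es^p(x^p) = Es ∋ h`. But `Es^p(x^p)` is contained in the field `E^p` of the `p`-th powers of the
elements of `E`. So `h = g^p` with `g ∈ E`, against hp.
(It may be easier to transport everything to the field `↥(AA A B₀)` with subfields; any other proof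
is welcome, e.g. by derivations.)
-/
theorem sep_of_not_pow (A : IntermediateField k Ω) [IsAlgClosed A]
    (hA1 : ∀ t : Ω, t ∉ A → ∀ x : Ω, IsAlgebraic (AA A {t}) x) (p : ℕ) [ExpChar Ω p] (B₀ : Set Ω)
    (h : Ω) (hE : h ∈ AA A B₀) (hA : h ∉ A) (hp : p = 1 ∨ ∀ g ∈ AA A B₀, g ^ p ≠ h) :
    ∀ x ∈ AA A B₀, IsSeparable (AA A {h}) x := by
  rcases ‹ExpChar Ω p› with _ | hpr
  · intro x _
    have : CharZero (AA A {h}) := (algebraMap (AA A {h}) Ω).charZero
    have halg : Algebra.IsAlgebraic (AA A {h}) Ω := ⟨fun y => hA1 h hA y⟩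
    exact Algebra.IsSeparable.isSeparable (AA A {h}) x
  · have : ExpChar Ω p := ExpChar.prime hpr
    refine sep1_prime A hA1 p hpr B₀ h hE hA (hp.resolve_left hpr.ne_one)

end Pool.Agent.URR
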