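import Pool.Agent.URR.Defs
import Pool.Agent.URR.SEP1

set_option autoImplicit false

namespace Pool.Agent.URR

open Pool.Agent.TBR

universe u

variable {k Ω : Type u} [Field k] [Field Ω] [Algebra k Ω]

/-- elements algebraic over an algebraically closed intermediate field are in it -/
private theorem sep2_mem (A : IntermediateField k Ω) [IsAlgClosed A] (x : Ω)
    (hx : IsAlgebraic A x) : x ∈ A := by
  have h1 := IsAlgClosed.degree_eq_one_of_irreducible A (minpoly.irreducible hx.isIntegral)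
  obtain ⟨a, ha⟩ := minpoly.mem_range_of_degree_eq_one A x h1
  rw [← ha]
  exact a.2

/-- valuation rings not containing a transcendental element -/
private theorem sep2_W {κ L : Type*} [Field κ] [Field L] [Algebra κ L] (T : L)
    (hT : Transcendental κ T) :
    ∃ W : ValuationSubring L, (∀ a : κ, algebraMap κ L a ∈ W) ∧ T ∉ W := by
  by_contra hcon
  push Not at hcon
  have h1 : T ∈ (integralClosure (Subring.closure (Set.range (algebraMap κ L))) L).toSubring := by
    rw [← iInf_valuationSubring_superset, Subring.mem_iInf]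
    rintro ⟨V, hV⟩
    exact hcon V fun a => hV ⟨a, rfl⟩
  obtain ⟨p, hp, hpx⟩ : IsIntegral (Subring.closure (Set.range (algebraMap κ L))) T := h1
  have hcl : Subring.closure (Set.range (algebraMap κ L)) = (algebraMap κ L).range := by
    rw [← RingHom.coe_range, Subring.closure_eq]
  have hsurj : ∀ z : Subring.closure (Set.range (algebraMap κ L)),
      ∃ q : κ, algebraMap κ L q = (z : L) := by
    rintro ⟨z, hz⟩
    rw [hcl] at hz
    exact hz
  choose q hq using hsurj
  have : p.map (algebraMap (Subring.closure (Set.range (algebraMap κ L))) L) ∈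
      Polynomial.lifts (algebraMap κ L) := by
    rw [Polynomial.lifts_iff_coeff_lifts]
    intro n
    rw [Polynomial.coeff_map]
    exact ⟨q (p.coeff n), hq _⟩
  obtain ⟨r, hr, hr1, hr2⟩ := Polynomial.lifts_and_natDegree_eq_and_monic this (hp.map _)
  apply hT
  refine ⟨r, hr2.ne_zero, ?_⟩
  rw [Polynomial.aeval_def, Polynomial.eval₂_eq_eval_map, hr, Polynomial.eval_map]
  exact hpx

/--
PROOF. If `p = 1` take `j = 0`. Let `p` be prime. There is a place `V` over `A` with
`V.valuation h ≠ 1` (`h ∉ A`, so `h` is transcendental over the algebraically closed field `A`; a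
valuation ring containing `A` and not `h` exists: `exists_W` in TBM/Weil.lean copied here, or
`iInf_valuationSubring_superset`; `V ≠ ⊤` as `h ∉ V`). Let `π` be a uniformizer (hypothesis hU),
`V.valuation h = V.valuation π ^ n`, `n ≠ 0`. If `g ∈ E` and `g ^ p ^ j = h` then
`V.valuation g = V.valuation π ^ m` and `p ^ j m = n`, so `p ^ j ≤ |n|`, so `j` is bounded. Take the
largest `j` for which there is such a `g =: h₀`; then `h₀ ∉ A`, `h₀` is not a `p`-th power in `E`;
apply `sep_of_not_pow`.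
-/
theorem exists_sep (A : IntermediateField k Ω) [IsAlgClosed A]
    (hA1 : ∀ t : Ω, t ∉ A → ∀ x : Ω, IsAlgebraic (AA A {t}) x) (p : ℕ) [ExpChar Ω p] (B₀ : Set Ω)
    (hU : ∀ V : ValuationSubring Ω, Pl A V → ∃ π, Unif (AA A B₀) V π)
    (h : Ω) (hE : h ∈ AA A B₀) (hA : h ∉ A) :
    ∃ (j : ℕ) (h₀ : Ω), h₀ ∈ AA A B₀ ∧ h₀ ∉ A ∧ h₀ ^ p ^ j = h ∧
      ∀ x ∈ AA A B₀, IsSeparable (AA A {h₀}) x := by
  have hsep : ∀ g : Ω, g ∈ AA A B₀ → g ∉ A → (p = 1 ∨ ∀ g' ∈ AA A B₀, g' ^ p ≠ g) →
      ∀ x ∈ AA A B₀, IsSeparable (AA A {g}) x := fun g h1 h2 h3 =>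
    sep_of_not_pow A hA1 p B₀ g h1 h2 h3
  by_cases hp1 : p = 1
  · exact ⟨0, h, hE, hA, by simp, hsep h hE hA (Or.inl hp1)⟩
  have hp : p.Prime := by
    rcases ‹ExpChar Ω p› with _ | hp'
    · exact absurd rfl hp1
    · exact hp'
  -- a place with a pole of `h`
  have htr : Transcendental A h := fun hcon => hA (sep2_mem A h hcon)
  obtain ⟨V, hV, hhV⟩ := sep2_W (κ := A) h htr
  have hPl : Pl A V := by
    refine ⟨fun x hx => hV ⟨x, hx⟩, ?_⟩
    rintro rfl
    exact hhV (ValuationSubring.mem_top h)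
  obtain ⟨π, hπ⟩ := hU V hPl
  have hh0 : h ≠ 0 := by
    rintro rfl
    exact hA A.zero_mem
  obtain ⟨n, hn⟩ := hπ.gen h hE hh0
  have hπ0 : V.valuation π ≠ 0 := (Valuation.ne_zero_iff _).2 hπ.ne
  have hn0 : n ≠ 0 := by
    rintro rfl
    rw [zpow_zero] at hn
    exact hhV ((V.valuation_le_one_iff h).1 hn.le)
  -- injectivity of the powers of the valuation of the uniformizer
  have hinj : ∀ a b : ℤ, V.valuation π ^ a = V.valuation π ^ b → a = b := by
    intro a b hab
    have hpos : 0 < V.valuation π := zero_lt_iff.2 hπ0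
    exact (zpow_right_strictAnti₀ hpos hπ.lt).injective hab
  set Q : ℕ → Prop := fun j => ∃ g ∈ AA A B₀, g ^ p ^ j = h with hQ
  have hQ0 : Q 0 := ⟨h, hE, by simp⟩
  have hbd : ∀ j, Q j → j < n.natAbs := by
    rintro j ⟨g, hg, hgh⟩
    have hg0 : g ≠ 0 := by
      rintro rfl
      rw [zero_pow (pow_ne_zero _ hp.ne_zero)] at hgh
      exact hh0 hgh.symm
    obtain ⟨m, hm⟩ := hπ.gen g hg hg0
    have h1 : V.valuation π ^ (m * ((p ^ j : ℕ) : ℤ)) = V.valuation π ^ n := by
      rw [zpow_mul, zpow_natCast, ← hm, ← map_pow, hgh, hn]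
    have h2 := hinj _ _ h1
    have h3 : n.natAbs = m.natAbs * p ^ j := by
      rw [← h2, Int.natAbs_mul, Int.natAbs_natCast]
    have h4 : m.natAbs ≠ 0 := by
      intro h0
      rw [h0, zero_mul] at h3
      exact hn0 (Int.natAbs_eq_zero.1 h3)
    have h5 : j < p ^ j := Nat.lt_pow_self hp.one_lt
    have h6 : p ^ j ≤ m.natAbs * p ^ j := Nat.le_mul_of_pos_left _ (Nat.pos_of_ne_zero h4)
    omega
  have hmax : ∃ j, Q j ∧ ¬ Q (j + 1) := by
    by_contra hcon
    push Not at hcon
    have hall : ∀ j, Q j := by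
      intro j
      induction j with
      | zero => exact hQ0
      | succ j ih => exact hcon j ih
    exact lt_irrefl _ (hbd _ (hall n.natAbs))
  obtain ⟨j, ⟨g, hg, hgh⟩, hj⟩ := hmax
  have hgA : g ∉ A := by
    intro hcon
    apply hA
    rw [← hgh]
    exact pow_mem hcon _
  refine ⟨j, g, hg, hgA, hgh, hsep g hg hgA (Or.inr ?_)⟩
  intro g' hg' hcon
  apply hj
  refine ⟨g', hg', ?_⟩
  rw [pow_succ', pow_mul, hcon, hgh]

end Pool.Agent.URR
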