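import Pool.Agent.URR.CORE1
import Pool.Agent.TBM.TGroup

/-!
# An unramified cocycle in terms of a cocycle with values in the function field of the curve
-/

set_option autoImplicit false

namespace Pool.Agent.URR

open Pool.Agent.TBR

universe u

section

variable {k Ω : Type u} [Field k] [Field Ω] [Algebra k Ω] [IsAlgClosed Ω]

theorem perf (p : ℕ) [ExpChar Ω p] (E : IntermediateField k Ω) (halg : ∀ x : Ω, IsAlgebraic E x)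
    (x : Ω) (hx : ∀ σ ∈ Fx k (E : Set Ω), σ x = x) : ∃ r : ℕ, x ^ p ^ r ∈ E := by
  have hE : Algebra.IsAlgebraic E Ω := ⟨halg⟩
  have hcl : IsAlgClosure E Ω := ⟨inferInstance, hE⟩
  have hn : Normal E Ω := IsAlgClosure.normal E Ω
  have hexp : ExpChar E p := RingHom.expChar (algebraMap E Ω) (algebraMap E Ω).injective p
  have hint : IsIntegral E x := (halg x).isIntegral
  have hroots : (minpoly E x).aroots Ω = Multiset.replicate ((minpoly E x).aroots Ω).card x := by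
    rw [Multiset.eq_replicate]
    refine ⟨rfl, fun y hy => ?_⟩
    have hy' := (Polynomial.mem_aroots.1 hy).2
    have hconj : IsConjRoot E x y := by
      rw [isConjRoot_iff_aeval_eq_zero hint]
      exact hy'
    obtain ⟨σ, hσ⟩ := (isConjRoot_iff_exists_algEquiv.1 hconj)
    have h1 := hx (σ.restrictScalars k) (fun z hz => σ.commutes ⟨z, hz⟩)
    have h2 := hx (σ.symm.restrictScalars k) (fun z hz => σ.symm.commutes ⟨z, hz⟩)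
    change σ x = x at h1
    change σ.symm x = x at h2
    first
    | (rw [← hσ, h1])
    | (have h3 : y = σ.symm x := by rw [← hσ, σ.symm_apply_apply]
       rw [h3, h2])
  classical
  have hsep : (minpoly E x).natSepDegree = 1 := by
    rw [Polynomial.natSepDegree_eq_of_isAlgClosed Ω, hroots]
    have hpos : ((minpoly E x).aroots Ω).card ≠ 0 := by
      rw [Multiset.card_eq_zero.ne]
      intro h0
      have : x ∈ (minpoly E x).aroots Ω :=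
        Polynomial.mem_aroots.2 ⟨minpoly.ne_zero hint, minpoly.aeval E x⟩
      rw [h0] at this
      exact Multiset.notMem_zero _ this
    rw [Multiset.toFinset_replicate, if_neg hpos, Finset.card_singleton]
  obtain ⟨n, y, hy⟩ := (minpoly.natSepDegree_eq_one_iff_pow_mem p).1 hsep
  exact ⟨n, by rw [← hy]; exact y.2⟩

variable {A : IntermediateField k Ω} [IsAlgClosed A] {N : Subgroup (Ω ≃ₐ[k] Ω)} {B₀ : Set Ω}

omit [IsAlgClosed Ω] [IsAlgClosed A] in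
theorem LocE.pow {c : (Ω ≃ₐ[k] Ω) → (Ω ≃ₐ[k] Ω) → Ωˣ} {V : ValuationSubring Ω}
    {e : (Ω ≃ₐ[k] Ω) → (Ω ≃ₐ[k] Ω) → Ωˣ} (h : LocE A N c V e) (n : ℕ) :
    LocE A N (fun σ τ => c σ τ ^ n) V (fun σ τ => e σ τ ^ n) := by
  refine ⟨fun σ hσ τ hτ => V.unitGroup.pow_mem (h.unit σ hσ τ hτ) n, fun σ hσ s hs => ?_, ?_⟩
  · show e σ s ^ n = 1 ∧ e s σ ^ n = 1
    rw [(h.one σ hσ s hs).1, (h.one σ hσ s hs).2, one_pow]
    exact ⟨rfl, rfl⟩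
  · refine (h.tri.pow n).congr fun σ _ τ _ => ?_
    show (c σ τ * (e σ τ)⁻¹) ^ n = c σ τ ^ n * (e σ τ ^ n)⁻¹
    rw [mul_pow, inv_pow]

omit [IsAlgClosed Ω] [IsAlgClosed A] in
theorem LocE.congr {c c' : (Ω ≃ₐ[k] Ω) → (Ω ≃ₐ[k] Ω) → Ωˣ} {V : ValuationSubring Ω}
    {e : (Ω ≃ₐ[k] Ω) → (Ω ≃ₐ[k] Ω) → Ωˣ} (h : LocE A N c V e)
    (hc : Tri N (fun σ τ => c' σ τ * (c σ τ)⁻¹)) : LocE A N c' V e := by
  refine ⟨h.unit, h.one, ?_⟩
  refine ((hc.mono inf_le_left).mul h.tri).congr fun σ _ τ _ => ?_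
  show c' σ τ * (c σ τ)⁻¹ * (c σ τ * (e σ τ)⁻¹) = c' σ τ * (e σ τ)⁻¹
  group

/-- an unramified cocycle is cohomologous, up to a power of `p`, to a cocycle with values in
`A(B₀)` which depends only on the restrictions to `A` -/
theorem exists_cocE (hS : Sit A N B₀) (p : ℕ) [ExpChar Ω p]
    (C : (Ω ≃ₐ[k] Ω) → (Ω ≃ₐ[k] Ω) → Ωˣ) (hlc : Lc2 Set.univ C) (hcoc : Coc N C)
    (hunr : ∀ V : ValuationSubring Ω, Pl A V → ∃ e, LocE A N C V e) :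
    ∃ (r₀ : ℕ) (a : (Ω ≃ₐ[k] Ω) → (Ω ≃ₐ[k] Ω) → Ωˣ), CocE A N B₀ a ∧
      Tri N (fun σ τ => a σ τ * (C σ τ ^ p ^ r₀)⁻¹) := by
  classical
  have hstab : ∀ σ ∈ N, ∀ x ∈ A, σ x ∈ A := fun σ hσ x hx => (hS.stab σ hσ x).2 hx
  obtain ⟨y, hyB, hyA⟩ := hS.gen
  have htri : Tri (N ⊓ Fx k (A : Set Ω)) C := by
    obtain ⟨b, hb, _, hb'⟩ := tsu (N ⊓ Fx k (A : Set Ω)) A ⊤ le_top inf_le_right
      (fun _ _ _ _ => trivial) y trivial (fun x _ => hS.trd y hyA x)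
      (hS.orb.mono inf_le_left (Set.subset_univ _)) C (fun _ _ _ _ => trivial)
      (hlc.mono (fun _ _ => trivial)) (hcoc.mono inf_le_left)
    exact ⟨b, hb.mono (Set.subset_univ _), hb'⟩
  obtain ⟨a₁, h1, h2, h3, h4, h5⟩ := inflA A N hstab hS.orb hS.clo C hlc hcoc htri
  obtain ⟨S, hS1, hS2⟩ := id h1
  have horbS : Orb N (S : Set Ω) := hS.orb.mono le_rfl (Set.subset_univ _)
  -- finitely many values
  have hfin1 : {m | ∃ σ ∈ N, a₁ σ = m}.Finite :=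
    finite_range _ S horbS a₁ (fun σ _ σ' _ h => funext fun τ => hS2 σ σ' τ τ h (Ag.refl _ _))
  have hfin : {u : Ωˣ | ∃ σ ∈ N, ∃ τ ∈ N, a₁ σ τ = u}.Finite := by
    refine (hfin1.biUnion (t := fun m => {u : Ωˣ | ∃ τ ∈ N, m τ = u}) ?_).subset ?_
    · rintro m ⟨σ, hσ, rfl⟩
      exact finite_range _ S horbS (a₁ σ) (fun τ _ τ' _ h => hS2 σ σ τ τ' (Ag.refl _ _) h)
    · rintro u ⟨σ, hσ, τ, hτ, rfl⟩
      rw [Set.mem_iUnion₂]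
      exact ⟨a₁ σ, ⟨σ, hσ, rfl⟩, τ, hτ, rfl⟩
  have hE1 : ∀ σ τ, ∃ r : ℕ, ((a₁ σ τ : Ωˣ) : Ω) ^ p ^ r ∈ AA A B₀ := by
    intro σ τ
    refine perf p (AA A B₀) hS.alg _ (fun s hs => ?_)
    have hsN : s ∈ N ⊓ Fx k (A : Set Ω) := by
      refine ⟨hS.geo ?_, fun x hx => hs x (le_AA A B₀ hx)⟩
      rintro x (hx | hx)
      · exact hs x (le_AA A B₀ hx)
      · exact hs x (sub_AA A B₀ hx)
    exact congrArg (fun u : Ωˣ => (u : Ω)) (h2 σ τ s hsN)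
  obtain ⟨r₀, hr₀⟩ : ∃ r₀ : ℕ, ∀ σ ∈ N, ∀ τ ∈ N, ((a₁ σ τ : Ωˣ) : Ω) ^ p ^ r₀ ∈ AA A B₀ := by
    have h1 : ∀ T : Set Ωˣ, T.Finite → (∀ u ∈ T, ∃ r : ℕ, (u : Ω) ^ p ^ r ∈ AA A B₀) →
        ∃ r₀ : ℕ, ∀ u ∈ T, (u : Ω) ^ p ^ r₀ ∈ AA A B₀ := by
      intro T hT
      refine Set.Finite.induction_on T hT ?_ ?_
      · intro _
        exact ⟨0, fun u hu => absurd hu (Set.notMem_empty u)⟩
      · intro u T _ _ ih h
        obtain ⟨r₁, h1⟩ := ih (fun u hu => h u (Set.mem_insert_of_mem _ hu))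
        obtain ⟨r₂, h2⟩ := h u (Set.mem_insert _ _)
        refine ⟨r₁ + r₂, ?_⟩
        rintro v (rfl | hv)
        · rw [add_comm, pow_add, pow_mul]
          exact pow_mem h2 _
        · rw [pow_add, pow_mul]
          exact pow_mem (h1 v hv) _
    obtain ⟨r₀, h2⟩ := h1 _ hfin (by
      rintro u ⟨σ, _, τ, _, rfl⟩
      exact hE1 σ τ)
    exact ⟨r₀, fun σ hσ τ hτ => h2 _ ⟨σ, hσ, τ, hτ, rfl⟩⟩
  obtain ⟨a, ha1, ha2, ha3, ha4⟩ := ((h1.pow (p ^ r₀)).lo N).extend 1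
  have htriA : Tri N (fun σ τ => a σ τ * (C σ τ ^ p ^ r₀)⁻¹) := by
    refine (h5.pow (p ^ r₀)).congr fun σ hσ τ hτ => ?_
    show (a₁ σ τ * (C σ τ)⁻¹) ^ p ^ r₀ = a σ τ * (C σ τ ^ p ^ r₀)⁻¹
    rw [ha2 σ hσ τ hτ, mul_pow, inv_pow]
  refine ⟨r₀, a, ⟨ha1, ?_, ?_, ?_, ?_⟩, htriA⟩
  · intro σ τ
    rcases ha3 σ τ with h | ⟨σ', hσ', τ', hτ', h⟩
    · rw [h]
      exact one_mem _
    · rw [h, Units.val_pow_eq_pow_val]
      exact hr₀ σ' hσ' τ' hτ'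
  · intro σ hσ τ hτ ρ hρ
    rw [ha2 σ hσ τ hτ, ha2 (σ * τ) (Subgroup.mul_mem _ hσ hτ) ρ hρ, ha2 τ hτ ρ hρ,
      ha2 σ hσ (τ * ρ) (Subgroup.mul_mem _ hτ hρ)]
    exact h4.pow (p ^ r₀) σ hσ τ hτ ρ hρ
  · exact ha4 (fun σ _ => ⟨by rw [(h3 σ).1, one_pow], by rw [(h3 σ).2, one_pow]⟩)
  · intro V hV hV'
    obtain ⟨e, he⟩ := hunr V ⟨hV, hV'⟩
    exact ⟨_, (he.pow (p ^ r₀)).congr htriA⟩

/-- the modified cocycle is locally constant -/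
theorem ag_lo (hS : Sit A N B₀) {a : (Ω ≃ₐ[k] Ω) → (Ω ≃ₐ[k] Ω) → Ωˣ} (ha : Lc2 (A : Set Ω) a)
    (q : ℕ) {g : (Ω ≃ₐ[k] Ω) → Ωˣ} (hg : Lc1 (A : Set Ω) g)
    (hgE : ∀ σ, (g σ : Ω) ∈ AA A B₀) : Lo2 N (A : Set Ω) (ag a q g) := by
  classical
  have hAst : ∀ σ ∈ N, ∀ x ∈ (A : Set Ω), σ x ∈ (A : Set Ω) := fun σ hσ x hx =>
    (hS.stab σ hσ x).2 hx
  obtain ⟨Sa, hSa, hSa'⟩ := ha
  obtain ⟨Sg, hSg, hSg'⟩ := hg
  have horbA : ∀ S : Finset Ω, Orb N (S : Set Ω) := fun S =>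
    hS.orb.mono le_rfl (Set.subset_univ _)
  have hfin : {m : Ωˣ | ∃ τ ∈ N, g τ = m}.Finite :=
    finite_range N Sg (horbA Sg) g (fun σ _ τ _ h => hSg' σ τ h)
  have hco : ∀ m : Ωˣ, ∃ S : Finset Ω, (S : Set Ω) ⊆ A ∧ ((m : Ω) ∈ AA A B₀ →
      ∀ σ ∈ Fx k B₀, ∀ τ ∈ Fx k B₀, Ag (S : Set Ω) σ τ → σ • m = τ • m) := by
    intro m
    by_cases hm : (m : Ω) ∈ AA A B₀
    · obtain ⟨S, h1, h2⟩ := coef A B₀ m hm
      exact ⟨S, h1, fun _ σ hσ τ hτ h => Units.ext (h2 σ hσ τ hτ h)⟩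
    · exact ⟨∅, by simp, fun h => absurd h hm⟩
  choose Sm hSm1 hSm2 using hco
  have hU : (((Sa ∪ Sg) ∪ hfin.toFinset.biUnion Sm : Finset Ω) : Set Ω) ⊆ (A : Set Ω) := by
    intro x hx
    rw [Finset.mem_coe, Finset.mem_union, Finset.mem_union, Finset.mem_biUnion] at hx
    rcases hx with (hx | hx) | ⟨m, -, hx⟩
    · exact hSa hx
    · exact hSg hx
    · exact hSm1 m hx
  obtain ⟨S₁, hsub, hS₁A, hS₁⟩ := exists_stable N (A : Set Ω) hAst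
    (hS.orb.mono le_rfl (Set.subset_univ _)) _ hU
  have sa : (Sa : Set Ω) ⊆ S₁ := fun x hx => hsub (by
    rw [Finset.mem_union, Finset.mem_union]; exact Or.inl (Or.inl hx))
  have sg : (Sg : Set Ω) ⊆ S₁ := fun x hx => hsub (by
    rw [Finset.mem_union, Finset.mem_union]; exact Or.inl (Or.inr hx))
  have sm : ∀ m ∈ hfin.toFinset, (Sm m : Set Ω) ⊆ S₁ := fun m hm x hx => hsub (by
    rw [Finset.mem_union, Finset.mem_biUnion]; exact Or.inr ⟨m, hm, hx⟩)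
  refine ⟨S₁, hS₁A, fun σ hσ σ' hσ' τ hτ τ' hτ' h h' => ?_⟩
  have h2 : Ag (S₁ : Set Ω) (σ * τ) (σ' * τ') := h.mul h' (fun x hx => hS₁ τ hτ x hx)
  have e1 : a σ τ = a σ' τ' := hSa' _ _ _ _ (h.mono sa) (h'.mono sa)
  have e2 : g (σ * τ) = g (σ' * τ') := hSg' _ _ (h2.mono sg)
  have e3 : g σ = g σ' := hSg' _ _ (h.mono sg)
  have e4 : g τ = g τ' := hSg' _ _ (h'.mono sg)
  have e8 : σ • g τ = σ' • g τ := hSm2 (g τ) (hgE τ) σ (hS.fix hσ) σ' (hS.fix hσ')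
    (h.mono (sm _ (hfin.mem_toFinset.2 ⟨τ, hτ, rfl⟩)))
  unfold ag
  rw [e1, e2, e3, e8, e4]

end

end Pool.Agent.URR
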