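import Pool.Agent.URR.CXI3
import Pool.Agent.URR.CORE2
import Pool.Agent.URR.TS
import Pool.Agent.URR.LZ
import Pool.Agent.URR.UNI
import Pool.Agent.URR.SEP2

/-!
# The reciprocity relation for one embedding and one function: preparations
-/

set_option autoImplicit false

namespace Pool.Agent.URR

open Pool.Agent.TBR

universe u

section

variable {k Ω : Type u} [Field k] [Field Ω] [Algebra k Ω]

/-- the restriction to `A` -/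
noncomputable def rA (A : IntermediateField k Ω) (σ : Ω ≃ₐ[k] Ω) : A ≃ₐ[k] A := by
  classical
  exact if h : ∃ g : A ≃ₐ[k] A, ∀ x : A, σ x = g x then h.choose else 1

theorem rA_eq (A : IntermediateField k Ω) (σ : Ω ≃ₐ[k] Ω) (g : A ≃ₐ[k] A)
    (hg : ∀ x : A, σ x = g x) : rA A σ = g := by
  classical
  have h : ∃ g : A ≃ₐ[k] A, ∀ x : A, σ x = g x := ⟨g, hg⟩
  have h1 : rA A σ = h.choose := by
    unfold rA
    rw [dif_pos h]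
  rw [h1]
  refine AlgEquiv.ext fun x => Subtype.ext ?_
  rw [← h.choose_spec x, hg x]

/-- an automorphism which preserves `A` can be restricted -/
theorem exists_rA (A : IntermediateField k Ω) (σ : Ω ≃ₐ[k] Ω) (hσ : ∀ x : Ω, σ x ∈ A ↔ x ∈ A) :
    ∃ g : A ≃ₐ[k] A, ∀ x : A, σ x = g x := by
  have hσ' : ∀ x : Ω, σ⁻¹ x ∈ A ↔ x ∈ A := by
    intro x
    rw [← hσ (σ⁻¹ x)]
    have h1 : σ (σ⁻¹ x) = x := σ.apply_symm_apply x
    rw [h1]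
  refine ⟨AlgEquiv.ofAlgHom
    { toFun := fun x => ⟨σ x, (hσ x).2 x.2⟩
      map_one' := Subtype.ext (map_one σ)
      map_mul' := fun x y => Subtype.ext (map_mul σ _ _)
      map_zero' := Subtype.ext (map_zero σ)
      map_add' := fun x y => Subtype.ext (map_add σ _ _)
      commutes' := fun x => Subtype.ext (σ.commutes x) }
    { toFun := fun x => ⟨σ⁻¹ x, (hσ' x).2 x.2⟩
      map_one' := Subtype.ext (map_one σ⁻¹)
      map_mul' := fun x y => Subtype.ext (map_mul σ⁻¹ _ _)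
      map_zero' := Subtype.ext (map_zero σ⁻¹)
      map_add' := fun x y => Subtype.ext (map_add σ⁻¹ _ _)
      commutes' := fun x => Subtype.ext (σ⁻¹.commutes x) } ?_ ?_, ?_⟩
  · exact AlgHom.ext fun x => Subtype.ext (σ.apply_symm_apply (x : Ω))
  · exact AlgHom.ext fun x => Subtype.ext (σ.symm_apply_apply (x : Ω))
  · intro x
    rfl

theorem rA_apply (A : IntermediateField k Ω) (σ : Ω ≃ₐ[k] Ω) (hσ : ∀ x : Ω, σ x ∈ A ↔ x ∈ A)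
    (x : A) : σ x = rA A σ x := by
  obtain ⟨g, hg⟩ := exists_rA A σ hσ
  rw [rA_eq A σ g hg]
  exact hg x

theorem rA_congr (A : IntermediateField k Ω) (σ τ : Ω ≃ₐ[k] Ω) (h : Ag (A : Set Ω) σ τ) :
    rA A σ = rA A τ := by
  classical
  by_cases h1 : ∃ g : A ≃ₐ[k] A, ∀ x : A, τ x = g x
  · obtain ⟨g, hg⟩ := h1
    rw [rA_eq A τ g hg, rA_eq A σ g fun x => by rw [h _ x.2, hg x]]
  · have h2 : ¬ ∃ g : A ≃ₐ[k] A, ∀ x : A, σ x = g x := by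
      rintro ⟨g, hg⟩
      exact h1 ⟨g, fun x => by rw [← h _ x.2, hg x]⟩
    unfold rA
    rw [dif_neg h1, dif_neg h2]

end

section

variable {k Ω : Type u} [Field k] [Field Ω] [Algebra k Ω] [IsAlgClosed Ω]
variable {A : IntermediateField k Ω} [IsAlgClosed A] {N : Subgroup (Ω ≃ₐ[k] Ω)} {B₀ : Set Ω}

/-- the residues of the inverse image of `c` at `V` -/
noncomputable def fJ (A : IntermediateField k Ω) (c : (A ≃ₐ[k] A) → (A ≃ₐ[k] A) → Aˣ)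
    (ψ : A ≃ₐ[k] A) (σ τ : Ω ≃ₐ[k] Ω) : Ωˣ :=
  Units.map (A.val : A →* Ω) (ψ • c (ψ⁻¹ * rA A σ * ψ) (ψ⁻¹ * rA A τ * ψ))

/-- one place -/
theorem one_loc (hS : Sit A N B₀) (p : ℕ) [ExpChar Ω p] (K : IntermediateField k A)
    (ξ : A →ₐ[k] Ω)
    (c : (A ≃ₐ[k] A) → (A ≃ₐ[k] A) → Aˣ) (hlc : Lc2 Set.univ c)
    (hone : ∀ g ∈ Ge k (K : Set A), c 1 g = 1 ∧ c g 1 = 1)
    (C : (Ω ≃ₐ[k] Ω) → (Ω ≃ₐ[k] Ω) → Ωˣ) (ρ : (Ω ≃ₐ[k] Ω) → (A ≃ₐ[k] A))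
    (hC3 : ∀ V : ValuationSubring Ω, Pl A V → (¬ ∀ x, ξ x ∈ V) → Tri (N ⊓ St k V) C)
    (hρ : ∀ σ ∈ N, ρ σ ∈ Ge k (K : Set A) ∧ ∀ x, σ (ξ x) = ξ (ρ σ x))
    (hC : ∀ σ ∈ N, ∀ τ ∈ N, C σ τ = Units.map (ξ : A →* Ω) (c (ρ σ) (ρ τ)))
    (V : ValuationSubring Ω) (hV : Pl A V)
    (hst : ∀ σ ∈ N, ∀ x ∈ AA A B₀, σ x ∈ V ↔ x ∈ V)
    (q : ℕ) (X : (Ω ≃ₐ[k] Ω) → (Ω ≃ₐ[k] Ω) → Ωˣ) (hXlo : Lo2 N (A : Set Ω) X)
    (hX1 : ∀ σ ∈ N, X 1 σ = 1 ∧ X σ 1 = 1)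
    (hXu : ∀ σ ∈ N, ∀ τ ∈ N, X σ τ ∈ V.unitGroup)
    (hXC : Tri N (fun σ τ => X σ τ * (C σ τ ^ q)⁻¹))
    (ψ : A ≃ₐ[k] A) (hψ : (∀ x, ξ x ∈ V) → ∀ x : A, V.valuation (ξ x - ψ x) < 1) :
    ∃ (Y : (Ω ≃ₐ[k] Ω) → (Ω ≃ₐ[k] Ω) → Ωˣ) (b : (Ω ≃ₐ[k] Ω) → Ωˣ),
      (∀ σ τ, (Y σ τ : Ω) ∈ A) ∧
      (∀ σ ∈ N, ∀ τ ∈ N, V.valuation ((X σ τ : Ω) - Y σ τ) < 1) ∧
      Lc1 (A : Set Ω) b ∧ (∀ σ, (b σ : Ω) ∈ A) ∧
      ∀ σ ∈ N, ∀ τ ∈ N, ∀ f : Ωˣ, ((∀ x, ξ x ∈ V) → f = fJ A c ψ σ τ ^ q) →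
        ((¬ ∀ x, ξ x ∈ V) → f = 1) → Y σ τ * f⁻¹ * b (σ * τ) = b σ * σ • b τ := by
  classical
  by_cases hξ : ∀ x, ξ x ∈ V
  · have hadj : ∀ σ ∈ N, ∃ σ' ∈ N ⊓ St k V, Ag (A : Set Ω) σ σ' := by
      intro σ hσ
      obtain ⟨δ, hδ, hσ1⟩ := loc_adj hS V hσ (hst σ hσ)
      refine ⟨δ * σ, hσ1, fun x hx => ?_⟩
      rw [AlgEquiv.mul_apply]
      exact (hδ _ (le_AA A B₀ ((hS.stab σ hσ x).2 hx))).symm
    have hconj : ∀ σ ∈ N ⊓ St k V, ψ⁻¹ * rA A σ * ψ = ρ σ := fun σ hσ =>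
      psi_conj ξ V hV.1 ψ (hψ hξ) σ hσ.2 _ (rA_apply A σ (hS.stab σ hσ.1)) _ (hρ σ hσ.1).2
    have hGe : ∀ σ ∈ N, ψ⁻¹ * rA A σ * ψ ∈ Ge k (K : Set A) := by
      intro σ hσ
      obtain ⟨σ', hσ', h1⟩ := hadj σ hσ
      rw [rA_congr A σ σ' h1, hconj σ' hσ']
      exact (hρ σ' hσ'.1).1
    have hr1 : rA A (1 : Ω ≃ₐ[k] Ω) = 1 := rA_eq A 1 1 fun x => rfl
    obtain ⟨S, -, hS2⟩ := id hlc
    have hag : ∀ σ ∈ N, ∀ σ' ∈ N, Ag ((S.image fun x => (ψ x : Ω) : Finset Ω) : Set Ω) σ σ' →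
        Ag (S : Set A) (ψ⁻¹ * rA A σ * ψ) (ψ⁻¹ * rA A σ' * ψ) := by
      intro σ hσ σ' hσ' h x hx
      have h1 : σ (ψ x : Ω) = σ' (ψ x : Ω) :=
        h _ (by rw [Finset.coe_image]; exact ⟨x, hx, rfl⟩)
      rw [rA_apply A σ (hS.stab σ hσ), rA_apply A σ' (hS.stab σ' hσ')] at h1
      rw [AlgEquiv.mul_apply, AlgEquiv.mul_apply, AlgEquiv.mul_apply, AlgEquiv.mul_apply,
        Subtype.ext h1]
    have hflo : Lo2 N (A : Set Ω) (fun σ τ => fJ A c ψ σ τ ^ q) := by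
      refine ⟨S.image fun x => (ψ x : Ω), ?_, fun σ hσ σ' hσ' τ hτ τ' hτ' h h' => ?_⟩
      · intro y hy
        rw [Finset.coe_image] at hy
        obtain ⟨x, -, rfl⟩ := hy
        exact (ψ x).2
      · show fJ A c ψ σ τ ^ q = fJ A c ψ σ' τ' ^ q
        unfold fJ
        rw [hS2 _ _ _ _ (hag σ hσ σ' hσ' h) (hag τ hτ τ' hτ' h')]
    have hu : ∀ u : Aˣ, Units.map (ξ : A →* Ω) u ∈ V.unitGroup := by
      intro u
      rw [ValuationSubring.mem_unitGroup_iff, val_eq_iff]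
      refine ⟨hξ u, fun h => ?_⟩
      rw [val_lt_iff] at h
      rcases h with h | h
      · exact (Units.map (ξ : A →* Ω) u).ne_zero h
      · apply h
        have h1 : ((Units.map (ξ : A →* Ω) u : Ωˣ) : Ω)⁻¹ = ξ ((u⁻¹ : Aˣ) : A) := by
          rw [Units.val_inv_eq_inv_val, map_inv₀]
          rfl
        rw [h1]
        exact hξ _
    obtain ⟨Y, b, h1, h2, h3, h4, h5⟩ := loc_fin hS V hV hst X hXlo hX1 hXu
      (fun σ τ => C σ τ ^ q) (fun σ hσ τ hτ => by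
        refine V.unitGroup.pow_mem ?_ q
        rw [hC σ hσ.1 τ hτ.1]
        exact hu _)
      (fun σ τ => fJ A c ψ σ τ ^ q) hflo (fun σ _ τ _ => by
        rw [Units.val_pow_eq_pow_val]
        exact pow_mem (SetLike.coe_mem _) q)
      (fun σ hσ => by
        show fJ A c ψ 1 σ ^ q = 1 ∧ fJ A c ψ σ 1 ^ q = 1
        have e1 : fJ A c ψ 1 σ = 1 := by
          unfold fJ
          rw [hr1, mul_one, inv_mul_cancel, (hone _ (hGe σ hσ)).1, smul_one, map_one]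
        have e2 : fJ A c ψ σ 1 = 1 := by
          unfold fJ
          rw [hr1, mul_one, inv_mul_cancel, (hone _ (hGe σ hσ)).2, smul_one, map_one]
        rw [e1, e2, one_pow]
        exact ⟨rfl, rfl⟩)
      (fun σ hσ τ hτ => by
        rw [Units.val_pow_eq_pow_val, Units.val_pow_eq_pow_val, hC σ hσ.1 τ hτ.1]
        unfold fJ
        rw [hconj σ hσ, hconj τ hτ]
        have h0 : V.valuation (ξ (c (ρ σ) (ρ τ) : A) - ψ (c (ρ σ) (ρ τ) : A)) < 1 := hψ hξ _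
        have key : ∀ m : ℕ, V.valuation ((ξ (c (ρ σ) (ρ τ) : A)) ^ m -
            ((ψ (c (ρ σ) (ρ τ) : A) : A) : Ω) ^ m) < 1 := by
          intro m
          induction m with
          | zero => rw [pow_zero, pow_zero, sub_self, map_zero]; exact zero_lt_one
          | succ m ih =>
            rw [pow_succ, pow_succ]
            exact res_mul hV.1 _ _ _ _ (pow_mem (SetLike.coe_mem _) m) (SetLike.coe_mem _) ih h0
        exact key q)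
      (hXC.mono inf_le_left)
    refine ⟨Y, b, h1, h2, h3, h4, fun σ hσ τ hτ f hf _ => ?_⟩
    rw [hf hξ]
    exact h5 σ hσ τ hτ
  · obtain ⟨Y, b, h1, h2, h3, h4, h5⟩ := loc_fin hS V hV hst X hXlo hX1 hXu
      (fun _ _ => 1) (fun σ hσ τ hτ => V.unitGroup.one_mem)
      (fun _ _ => 1) ⟨∅, by simp, fun _ _ _ _ _ _ _ _ _ _ => rfl⟩ (fun σ _ τ _ => A.one_mem)
      (fun σ hσ => ⟨rfl, rfl⟩) (fun σ hσ τ hτ => by
        rw [sub_self, map_zero]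
        exact zero_lt_one)
      (by
        refine ((hXC.mono inf_le_left).mul ((hC3 V hV hξ).pow q)).congr fun σ _ τ _ => ?_
        show X σ τ * (C σ τ ^ q)⁻¹ * C σ τ ^ q = X σ τ * 1⁻¹
        rw [inv_mul_cancel_right, inv_one, mul_one])
    refine ⟨Y, b, h1, h2, h3, h4, fun σ hσ τ hτ f _ hf => ?_⟩
    rw [hf hξ]
    exact h5 σ hσ τ hτ

end

end Pool.Agent.URR
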