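import Pool.Agent.URR.Glob

/-!
# Small facts about places
-/

set_option autoImplicit false

namespace Pool.Agent.URR

open Pool.Agent.TBR

universe u

section

variable {k Ω : Type u} [Field k] [Field Ω] [Algebra k Ω]

theorem val_lt_iff (V : ValuationSubring Ω) (x : Ω) : V.valuation x < 1 ↔ x = 0 ∨ x⁻¹ ∉ V := by
  by_cases hx : x = 0
  · simp [hx]
  · have h1 : V.valuation x ≠ 0 := (Valuation.ne_zero_iff _).2 hx
    rw [← not_le, ← V.valuation_le_one_iff x⁻¹, map_inv₀]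
    have h2 : (V.valuation x)⁻¹ ≤ 1 ↔ 1 ≤ V.valuation x := inv_le_one₀ (zero_lt_iff.2 h1)
    rw [h2]
    simp [hx]

theorem val_eq_iff (V : ValuationSubring Ω) (x : Ω) :
    V.valuation x = 1 ↔ x ∈ V ∧ ¬ V.valuation x < 1 := by
  rw [← V.valuation_le_one_iff]
  constructor
  · intro h
    rw [h]
    exact ⟨le_refl _, lt_irrefl _⟩
  · rintro ⟨h1, h2⟩
    exact le_antisymm h1 (not_lt.1 h2)

theorem comap_lt (V : ValuationSubring Ω) (σ : Ω ≃ₐ[k] Ω) (x : Ω) :
    (V.comap (σ : Ω →+* Ω)).valuation x < 1 ↔ V.valuation (σ x) < 1 := by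
  rw [val_lt_iff, val_lt_iff, ValuationSubring.mem_comap]
  have h1 : (σ : Ω →+* Ω) x⁻¹ = (σ x)⁻¹ := map_inv₀ σ x
  rw [h1, EmbeddingLike.map_eq_zero_iff]

theorem comap_mem (V : ValuationSubring Ω) (σ : Ω ≃ₐ[k] Ω) (x : Ω) :
    x ∈ V.comap (σ : Ω →+* Ω) ↔ σ x ∈ V := Iff.rfl

theorem comap_unit (V : ValuationSubring Ω) (σ : Ω ≃ₐ[k] Ω) (u : Ωˣ) :
    u ∈ (V.comap (σ : Ω →+* Ω)).unitGroup ↔ σ • u ∈ V.unitGroup := by
  rw [ValuationSubring.mem_unitGroup_iff, ValuationSubring.mem_unitGroup_iff, val_eq_iff,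
    val_eq_iff, comap_lt, comap_mem]
  exact Iff.rfl

theorem Pl.comap {A : IntermediateField k Ω} {V : ValuationSubring Ω} (hV : Pl A V)
    (σ : Ω ≃ₐ[k] Ω) (hσ : ∀ x ∈ A, σ x ∈ A) : Pl A (V.comap (σ : Ω →+* Ω)) := by
  refine ⟨fun x hx => ?_, fun h => hV.2 ?_⟩
  · rw [comap_mem]
    exact hV.1 _ (hσ x hx)
  · rw [eq_top_iff]
    intro x _
    have h1 : σ⁻¹ x ∈ V.comap (σ : Ω →+* Ω) := by rw [h]; trivial
    rw [comap_mem] at h1
    have h2 : σ (σ⁻¹ x) = x := σ.apply_symm_apply x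
    rwa [h2] at h1

theorem pl_of_lt {A : IntermediateField k Ω} {V : ValuationSubring Ω} (hV : ∀ x ∈ A, x ∈ V)
    (x : Ω) (hx : x ≠ 0) (h : V.valuation x < 1) : Pl A V := by
  refine ⟨hV, ?_⟩
  rintro rfl
  rw [val_lt_iff] at h
  rcases h with h | h
  · exact hx h
  · exact h trivial

theorem val_of_mem {A : IntermediateField k Ω} {V : ValuationSubring Ω} (hV : ∀ x ∈ A, x ∈ V)
    (x : Ω) (hx : x ∈ A) (h0 : x ≠ 0) : V.valuation x = 1 := by
  rw [val_eq_iff, val_lt_iff, not_or, not_not]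
  exact ⟨hV x hx, h0, hV _ (A.inv_mem hx)⟩

theorem not_lt_of_mem {A : IntermediateField k Ω} {V : ValuationSubring Ω}
    (hV : ∀ x ∈ A, x ∈ V) (x : Ω) (hx : x ∈ A) (h : V.valuation x < 1) : x = 0 := by
  by_contra h0
  rw [val_of_mem hV x hx h0] at h
  exact lt_irrefl _ h

/-- the residue is unique -/
theorem res_uniq {A : IntermediateField k Ω} {V : ValuationSubring Ω} (hV : ∀ x ∈ A, x ∈ V)
    (y x x' : Ω) (hx : x ∈ A) (hx' : x' ∈ A) (h : V.valuation (y - x) < 1)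
    (h' : V.valuation (y - x') < 1) : x = x' := by
  have h1 : V.valuation (x - x') < 1 := by
    have e : x - x' = (y - x') - (y - x) := by ring
    rw [e]
    exact Valuation.map_sub_lt _ h' h
  exact sub_eq_zero.1 (not_lt_of_mem hV _ (A.sub_mem hx hx') h1)

theorem res_mul {A : IntermediateField k Ω} {V : ValuationSubring Ω} (hV : ∀ x ∈ A, x ∈ V)
    (y y' x x' : Ω) (hx : x ∈ A) (hx' : x' ∈ A) (h : V.valuation (y - x) < 1)
    (h' : V.valuation (y' - x') < 1) : V.valuation (y * y' - x * x') < 1 := by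
  have e : y * y' - x * x' = (y - x) * (y' - x') + (y - x) * x' + x * (y' - x') := by ring
  rw [e]
  have hx1 : V.valuation x ≤ 1 := (V.valuation_le_one_iff _).2 (hV x hx)
  have hx1' : V.valuation x' ≤ 1 := (V.valuation_le_one_iff _).2 (hV x' hx')
  refine Valuation.map_add_lt _ (Valuation.map_add_lt _ ?_ ?_) ?_
  · rw [map_mul]
    exact mul_lt_one_of_lt_of_le h h'.le
  · rw [map_mul]
    exact mul_lt_one_of_lt_of_le h hx1'
  · rw [map_mul, mul_comm]
    exact mul_lt_one_of_lt_of_le h' hx1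

theorem val_of_res {A : IntermediateField k Ω} {V : ValuationSubring Ω} (hV : ∀ x ∈ A, x ∈ V)
    (y x : Ω) (hx : x ∈ A) (h0 : x ≠ 0) (h : V.valuation (y - x) < 1) : V.valuation y = 1 := by
  have h1 := val_of_mem hV x hx h0
  have e : y = x + (y - x) := by ring
  rw [e, Valuation.map_add_eq_of_lt_left _ (by rw [h1]; exact h), h1]

theorem res_inv {A : IntermediateField k Ω} {V : ValuationSubring Ω} (hV : ∀ x ∈ A, x ∈ V)
    (y x : Ω) (hx : x ∈ A) (h0 : x ≠ 0) (h : V.valuation (y - x) < 1) :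
    V.valuation (y⁻¹ - x⁻¹) < 1 := by
  have h1 := val_of_res hV y x hx h0 h
  have hy0 : y ≠ 0 := by
    rintro rfl
    rw [map_zero] at h1
    exact zero_ne_one h1
  have e : y⁻¹ - x⁻¹ = - ((y - x) * (y⁻¹ * x⁻¹)) := by
    field_simp
    ring
  rw [e, Valuation.map_neg, map_mul, map_mul, map_inv₀, map_inv₀, h1, val_of_mem hV x hx h0, inv_one,
    mul_one, mul_one]
  exact h

/-- residues exist -/
theorem exists_res {A : IntermediateField k Ω} [IsAlgClosed A]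
    (hA1 : ∀ t : Ω, t ∉ A → ∀ x : Ω, IsAlgebraic (AA A {t}) x) (V : ValuationSubring Ω)
    (hV : Pl A V) (y : Ω) (hy : y ∈ V) : ∃ x ∈ A, V.valuation (y - x) < 1 := by
  obtain ⟨x, hx, h⟩ := Pool.Agent.TBR.V.residue A hA1 V hV.1 hV.2 y hy
  exact ⟨x, hx, (V.mem_nonunits_iff).1 h⟩

/-- the condition at `h` for the modification -/
theorem same_lt {E : IntermediateField k Ω} {V W : ValuationSubring Ω} (h : Same E V W) (x : Ω)
    (hx : x ∈ E) : V.valuation x < 1 ↔ W.valuation x < 1 := by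
  rw [val_lt_iff, val_lt_iff, h _ (E.inv_mem hx)]

theorem same_eq {E : IntermediateField k Ω} {V W : ValuationSubring Ω} (h : Same E V W) (x : Ω)
    (hx : x ∈ E) : V.valuation x = 1 ↔ W.valuation x = 1 := by
  rw [val_eq_iff, val_eq_iff, same_lt h x hx, h x hx]

end

end Pool.Agent.URR
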